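import Pool.Agent.PTH.Defs
import Pool.Agent.RSG.LDc

/-!
# PTH/Car: equivariant diffeomorphisms of `P`   (difficulty 2)

`Carries.map`: let `κ, j, D` be the data for `K`.  New data: `κ' = F ∘ κ`, the same `j`, `A' = A ∘ F⁻¹`, `Q' = Q`.
* `F⁻¹` is a local diffeomorphism everywhere: `F⁻¹ ∘ F = id` and `CSG.ld_of_comp_left` at `F p`
  (or the local inverse of `F`, `hF.localInverse`).
* `ThickT κ'`: `loc` by composition (`IsLocalDiffeomorphAt.comp`), `inj` as `F` is injective.
* `OnT κ' p ↔ OnT κ (F⁻¹ p)`.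
* `glue`: `A' (F (κ ..)) = A (κ ..)`; `cover`: `q = A x = A' (F x)`.
-/

open scoped Manifold ContDiff
open Complex (I)

namespace Pool.Agent.PTH

open Pool.Agent.RSG (E4 S3 S4 ex)
open Pool.Agent.RBM (ThickT TwinP OnT)

variable {EP : Type*} [NormedAddCommGroup EP] [NormedSpace ℝ EP] {HP : Type*} [TopologicalSpace HP]
  {IP : ModelWithCorners ℝ EP HP} {P : Type*} [TopologicalSpace P] [ChartedSpace HP P]

theorem ld_perm_symm {F : Equiv.Perm P} (hF : ∀ p, IsLocalDiffeomorphAt IP IP ∞ F p) (p : P) :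
    IsLocalDiffeomorphAt IP IP ∞ F.symm p := by
  have h1 : IsLocalDiffeomorphAt IP IP ∞ (F.symm ∘ F) (F.symm p) := by
    rw [Equiv.symm_comp_self]
    exact CSG.ld_id _
  have h2 := CSG.ld_of_comp_left h1 (hF (F.symm p))
  rwa [Equiv.apply_symm_apply] at h2

theorem Car_onT {κ : ℝ × ℂ × ℝ → P} (F : Equiv.Perm P) (p : P) :
    OnT (fun q => F (κ q)) p ↔ OnT κ (F.symm p) := by
  constructor
  · rintro ⟨l, t, h⟩
    exact ⟨l, t, by rw [h, Equiv.symm_apply_apply]⟩
  · rintro ⟨l, t, h⟩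
    refine ⟨l, t, ?_⟩
    change p = F (κ (l, 0, t))
    rw [← h, Equiv.apply_symm_apply]

theorem Car_thick {κ : ℝ × ℂ × ℝ → P} (F : Equiv.Perm P)
    (hF : ∀ p, IsLocalDiffeomorphAt IP IP ∞ F p) (h : ThickT IP κ) :
    ThickT IP (fun q => F (κ q)) where
  perl l v t := by rw [h.perl]
  pert l v t := by rw [h.pert]
  loc l v t hv := IsLocalDiffeomorphAt.comp (hf := h.loc l v t hv) (hg := hF _)
  inj l v t l' v' t' hv hv' he := h.inj l v t l' v' t' hv hv' (F.injective he)

theorem Carries.map {X : Type*} [TopologicalSpace X] [ChartedSpace E4 X] {a : ℝ → P → P} {n : ℤ} {K : ℝ → P}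
    (F : Equiv.Perm P) (hF : ∀ p, IsLocalDiffeomorphAt IP IP ∞ F p) (hFa : ∀ t p, F (a t p) = a t (F p))
    (h : Carries IP a n K X) : Carries IP a n (fun l => F (K l)) X := by
  obtain ⟨κ, j, hT, hκ, hK, ⟨D⟩⟩ := h
  refine ⟨fun q => F (κ q), j, Car_thick F hF hT, fun l v t => ?_, fun l => ?_, ⟨?_⟩⟩
  · change F (κ (l, v, t)) = a t (F (κ (l, v, 0)))
    rw [hκ, hFa]
  · change F (κ (l, 0, 0)) = F (K l)
    rw [hK]
  · exact
      { A := fun p => D.A (F.symm p)
        Q := D.Q
        A_loc := fun p hp => IsLocalDiffeomorphAt.comp (hf := ld_perm_symm hF p)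
          (hg := D.A_loc _ (fun h => hp ((Car_onT F p).2 h)))
        A_inj := fun p p' hp hp' he => F.symm.injective
          (D.A_inj _ _ (fun h => hp ((Car_onT F p).2 h)) (fun h => hp' ((Car_onT F p').2 h)) he)
        Q_loc := D.Q_loc
        Q_inj := D.Q_inj
        glue := fun z l m t h1 h2 h3 h4 h5 h6 => by
          rw [D.glue z l m t h1 h2 h3 h4 h5 h6, Equiv.symm_apply_apply]
        disj := fun z p h1 h2 h3 => D.disj z _ h1 h2 (fun h => h3 ((Car_onT F p).2 h))
        cover := fun q => by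
          rcases D.cover q with ⟨p, h1, h2⟩ | h
          · refine Or.inl ⟨F p, fun h => h1 ?_, ?_⟩
            · have h3 := (Car_onT F _).1 h
              rwa [Equiv.symm_apply_apply] at h3
            · rw [Equiv.symm_apply_apply]
              exact h2
          · exact Or.inr h }

end Pool.Agent.PTH
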