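import Pool.Agent.PTH.Bas

/-!
# PTH/Repl: replacing the arc of a knot in the solid torus; `ArcEq` and `PathEq` are equivalence relations (difficulty 3)

`exists_repl`: `K' l := C ((γ' x).1, (γ' x).2, 0)` if `|x| < 1/4`, `x = l - round l`, and `K' l := K l` otherwise.
* periodic: `round (l + 1) = round l + 1`.
* `inner`: for `|l| < 1/4`, `round l = 0`.
* tail: for `1/4 ≤ l ≤ 3/4`: `|l - round l| ≥ 1/4` (`round l = 0` or `1`), so `K' l = K l`; `outer` follows.
* smooth: by periodicity it is enough to look at `-1/2 ≤ l ≤ 1/2` (or at any `l`, with `k` an integer near it).  On the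
  open set `|l - k| < 1/4` it is `C ∘ (γ' (l - k), 0)` (`hC.loc`, `contMDiffAt`).  On the open set where `|x| > 1/4 - ε`
  we have `K' = K`: by `he` and `C (z, Y + m, t) = C (z, Y, t)`, `K l = C (γ x, 0)` if `|x| < 1/4` (`inner` and
  periodicity).
-/

open scoped Manifold ContDiff Topology
open Set Filter
open Complex (I)

namespace Pool.Agent.PTH

open Pool.Agent.RSG (E4 S3 S4 ex)

universe u

theorem Repl_round {l : ℝ} {k : ℤ} (h : |l - k| < 1 / 2) : round l = k := by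
  have h1 : round (l - k) = 0 := by
    rw [round_eq_zero_iff]
    exact ⟨by linarith [(abs_lt.1 h).1], (abs_lt.1 h).2⟩
  have h2 : round (l - (k : ℝ)) = round l - k := round_sub_intCast l k
  omega

theorem Repl_per {P : Type*} {K : ℝ → P} (h : ∀ l, K (l + 1) = K l) (l : ℝ) (m : ℤ) :
    K (l + m) = K l := by
  have hp : Function.Periodic K 1 := h
  have := hp.int_mul m l
  simpa using this

theorem Repl_perY {EP : Type*} [NormedAddCommGroup EP] [NormedSpace ℝ EP] {HP : Type*} [TopologicalSpace HP]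
    {IP : ModelWithCorners ℝ EP HP} {P : Type*} [TopologicalSpace P] [ChartedSpace HP P]
    {a : ℝ → P → P} {C : ℂ × ℝ × ℝ → P} (hC : VChart IP a C) (z : ℂ) (Y t : ℝ) (m : ℤ) :
    C (z, Y + m, t) = C (z, Y, t) :=
  Repl_per (K := fun Y => C (z, Y, t)) (fun Y => hC.perY z Y t) Y m

theorem exists_repl {EP : Type*} [NormedAddCommGroup EP] [NormedSpace ℝ EP] {HP : Type*} [TopologicalSpace HP]
    {IP : ModelWithCorners ℝ EP HP} {P : Type*} [TopologicalSpace P] [ChartedSpace HP P]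
    {a : ℝ → P → P} {C : ℂ × ℝ × ℝ → P} (hC : VChart IP a C) {γ γ' : ℝ → ℂ × ℝ} {K : ℝ → P}
    (hK : VKnot IP C γ K) (hs : ContDiffOn ℝ ∞ γ' (Ioo (-1 / 4) (1 / 4)))
    (hn : ∀ l, |l| < 1 / 4 → ‖(γ' l).1‖ < 1)
    (he : ∃ ε : ℝ, 0 < ε ∧ ∀ l, 1 / 4 - ε < |l| → |l| < 1 / 4 →
      (γ' l).1 = (γ l).1 ∧ ∃ m : ℤ, (γ' l).2 = (γ l).2 + m) :
    ∃ K' : ℝ → P, VKnot IP C γ' K' ∧ ∀ l, 1 / 4 ≤ l → l ≤ 3 / 4 → K' l = K l := by
  classical
  set K' : ℝ → P := fun l => if |l - round l| < 1 / 4 then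
    C ((γ' (l - round l)).1, (γ' (l - round l)).2, 0) else K l with hK'
  -- values
  have hin : ∀ (l : ℝ) (k : ℤ), |l - k| < 1 / 4 → K' l = C ((γ' (l - k)).1, (γ' (l - k)).2, 0) := by
    intro l k hl
    have hr : round l = k := Repl_round (by linarith)
    show (if |l - round l| < 1 / 4 then C ((γ' (l - round l)).1, (γ' (l - round l)).2, 0) else K l) = _
    rw [hr, if_pos hl]
  have hout : ∀ l : ℝ, 1 / 4 ≤ |l - round l| → K' l = K l := by
    intro l hl
    show (if |l - round l| < 1 / 4 then C ((γ' (l - round l)).1, (γ' (l - round l)).2, 0) else K l) = _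
    rw [if_neg (not_lt.2 hl)]
  have htail : ∀ l, 1 / 4 ≤ l → l ≤ 3 / 4 → K' l = K l := by
    intro l h1 h2
    apply hout
    by_contra h3
    rw [not_le, abs_lt] at h3
    have h4 : (round l : ℝ) < 1 := by linarith
    have h5 : (0 : ℝ) < round l := by linarith
    have h6 : round l < 1 := by exact_mod_cast h4
    have h7 : 0 < round l := by exact_mod_cast h5
    omega
  have hperZ := Repl_per hK.per
  refine ⟨K', ⟨?_, ?_, ?_, ?_⟩, htail⟩
  · -- periodic
    intro l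
    have e : l + 1 - (round (l + 1) : ℤ) = l - round l := by
      rw [round_add_one]
      push_cast
      ring
    show (if |l + 1 - round (l + 1)| < 1 / 4 then
      C ((γ' (l + 1 - round (l + 1))).1, (γ' (l + 1 - round (l + 1))).2, 0) else K (l + 1)) =
      (if |l - round l| < 1 / 4 then C ((γ' (l - round l)).1, (γ' (l - round l)).2, 0) else K l)
    rw [e, hK.per]
  · -- smooth
    obtain ⟨ε, hε, he⟩ := he
    intro l₀
    by_cases h0 : |l₀ - round l₀| < 1 / 4
    · set k := round l₀ with hk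
      have hev : ∀ᶠ l : ℝ in 𝓝 l₀, |l - (k : ℝ)| < 1 / 4 := by
        have hc : Continuous fun l : ℝ => |l - (k : ℝ)| := by fun_prop
        exact hc.continuousAt.eventually (gt_mem_nhds h0)
      have hc : ContMDiffAt 𝓘(ℝ, ℝ) IP ∞ (fun l : ℝ => C ((γ' (l - k)).1, (γ' (l - k)).2, 0)) l₀ := by
        have h1 : ContMDiffAt 𝓘(ℝ, ℂ × ℝ × ℝ) IP ∞ C ((γ' (l₀ - k)).1, (γ' (l₀ - k)).2, 0) :=
          (hC.loc _ _ _ (hn _ h0)).contMDiffAt
        have h2 : ContDiffAt ℝ ∞ (fun l : ℝ => ((γ' (l - k)).1, (γ' (l - k)).2, (0 : ℝ))) l₀ := by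
          have h3 : ContDiffAt ℝ ∞ γ' (l₀ - k) := by
            refine hs.contDiffAt (Ioo_mem_nhds ?_ ?_)
            · linarith [(abs_lt.1 h0).1]
            · exact (abs_lt.1 h0).2
          have h4 : ContDiffAt ℝ ∞ (fun l : ℝ => γ' (l - k)) l₀ :=
            ContDiffAt.comp l₀ (g := γ') (f := fun l : ℝ => l - k) h3
              (contDiffAt_id.sub contDiffAt_const)
          exact h4.fst.prodMk (h4.snd.prodMk contDiffAt_const)
        exact ContMDiffAt.comp l₀ (g := C)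
          (f := fun l : ℝ => ((γ' (l - k)).1, (γ' (l - k)).2, (0 : ℝ))) h1 h2.contMDiffAt
      refine hc.congr_of_eventuallyEq ?_
      filter_upwards [hev] with l hl
      exact hin l k hl
    · have h1 : 1 / 4 ≤ |l₀ - round l₀| := not_lt.1 h0
      refine (hK.smooth l₀).congr_of_eventuallyEq ?_
      have hev : ∀ᶠ l in 𝓝 l₀, |l - l₀| < ε := by
        have hc : Continuous fun l : ℝ => |l - l₀| := by fun_prop
        refine hc.continuousAt.eventually (gt_mem_nhds ?_)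
        simpa using hε
      filter_upwards [hev] with l hl
      by_cases h2 : |l - round l| < 1 / 4
      · have h3 : 1 / 4 - ε < |l - round l| := by
          have h4 := round_le l₀ (round l)
          have h5 : |l₀ - round l| ≤ |l - round l| + |l - l₀| := by
            have e : l₀ - round l = (l - round l) - (l - l₀) := by ring
            rw [e]
            exact abs_sub _ _
          linarith
        rw [hin l _ h2]
        obtain ⟨h4, m, h5⟩ := he _ h3 h2
        obtain ⟨h6, h7⟩ := hK.inner _ h2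
        rw [h4, h5, Repl_perY hC, ← h7]
        have e := hperZ (l - round l) (round l)
        rw [sub_add_cancel] at e
        exact e.symm
      · exact hout l (not_lt.1 h2)
  · intro l hl
    refine ⟨hn l hl, ?_⟩
    have := hin l 0 (by simpa using hl)
    simpa using this
  · intro l h1 h2 z Y t hz
    rw [htail l h1 h2]
    exact hK.outer l h1 h2 z Y t hz

/-- two knots with the same arc and the same tail are equal -/
theorem vknot_ext {EP : Type*} [NormedAddCommGroup EP] [NormedSpace ℝ EP] {HP : Type*} [TopologicalSpace HP]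
    {IP : ModelWithCorners ℝ EP HP} {P : Type*} [TopologicalSpace P] [ChartedSpace HP P]
    {C : ℂ × ℝ × ℝ → P} {γ : ℝ → ℂ × ℝ} {K K' : ℝ → P}
    (h : VKnot IP C γ K) (h' : VKnot IP C γ K') (ht : ∀ l, 1 / 4 ≤ l → l ≤ 3 / 4 → K' l = K l) : K' = K := by
  funext l
  have e1 := Repl_per h.per (l - round l) (round l)
  have e2 := Repl_per h'.per (l - round l) (round l)
  rw [sub_add_cancel] at e1 e2
  rw [e1, e2]
  have hb := abs_le.1 (abs_sub_round l)
  by_cases h1 : |l - round l| < 1 / 4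
  · rw [(h.inner _ h1).2, (h'.inner _ h1).2]
  · rw [not_lt, le_abs] at h1
    rcases h1 with h1 | h1
    · exact ht _ h1 (by linarith)
    · rw [← h.per, ← h'.per]
      exact ht _ (by linarith) (by linarith)

theorem ArcEq.refl (γ : ℝ → ℂ × ℝ) : ArcEq.{u} γ γ := by
  intro a C K K' n X _ _ _ hA hC hK hK' ht
  rw [vknot_ext hK hK' ht]

theorem ArcEq.symm {γ γ' : ℝ → ℂ × ℝ} (h : ArcEq.{u} γ γ') : ArcEq.{u} γ' γ := by
  intro a C K K' n X _ _ _ hA hC hK hK' ht
  exact (h a C K' K n X hA hC hK' hK (fun l h1 h2 => (ht l h1 h2).symm)).symm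

/-- the middle arc must be smooth and equal to the others near the ends -/
theorem ArcEq.trans {γ γ' γ'' : ℝ → ℂ × ℝ} (h : ArcEq.{u} γ γ') (h' : ArcEq.{u} γ' γ'')
    (hs : ContDiffOn ℝ ∞ γ' (Ioo (-1 / 4) (1 / 4))) (hn : ∀ l, |l| < 1 / 4 → ‖(γ' l).1‖ < 1)
    (he : ∃ ε : ℝ, 0 < ε ∧ ∀ l, 1 / 4 - ε < |l| → |l| < 1 / 4 →
      (γ' l).1 = (γ l).1 ∧ ∃ m : ℤ, (γ' l).2 = (γ l).2 + m) : ArcEq.{u} γ γ'' := by
  intro a C K K' n X _ _ _ hA hC hK hK' ht
  obtain ⟨K₁, h1, h2⟩ := exists_repl hC hK hs hn he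
  exact (h a C K K₁ n X hA hC hK h1 h2).trans
    (h' a C K₁ K' n X hA hC h1 hK' (fun l h3 h4 => by rw [ht l h3 h4, h2 l h3 h4]))

theorem arc_smooth {w : ℝ → ℝ × ℝ} {g : ℤ × ℤ} (h : IsPath w g) : ContDiff ℝ ∞ (arc w) := by
  have h1 : ContDiff ℝ ∞ fun l : ℝ => w (4 * l) := h.smooth.comp (contDiff_const.mul contDiff_id)
  have h2 : ContDiff ℝ ∞ fun l : ℝ => ((4 * l : ℝ) : ℂ) :=
    Complex.ofRealCLM.contDiff.comp (contDiff_const.mul contDiff_id)
  exact (h2.mul (Pool.Agent.RSG.ex_smooth.comp h1.fst)).prodMk h1.snd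

theorem arc_norm {w : ℝ → ℝ × ℝ} {l : ℝ} (h : |l| < 1 / 4) : ‖(arc w l).1‖ < 1 := by
  have h1 : ‖(arc w l).1‖ = |4 * l| := by
    unfold arc
    rw [norm_mul, Pool.Agent.RSG.ex_norm, mul_one, Complex.norm_real, Real.norm_eq_abs]
  rw [h1, abs_mul, abs_of_pos (by norm_num : (0 : ℝ) < 4)]
  linarith

/-- near the ends all arcs of paths are equal, up to periods: for `4 l ≥ 1 - ε`, `arc w l = (4 l, g₂)` (`ex g₁ = 1`),
for `4 l ≤ -1 + ε ≤ 0`, `arc w l = (4 l, 0)`. -/
theorem arc_end {w w' : ℝ → ℝ × ℝ} {g g' : ℤ × ℤ} (h : IsPath w g) (h' : IsPath w' g') :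
    ∃ ε : ℝ, 0 < ε ∧ ∀ l, 1 / 4 - ε < |l| → |l| < 1 / 4 →
      (arc w' l).1 = (arc w l).1 ∧ ∃ m : ℤ, (arc w' l).2 = (arc w l).2 + m := by
  obtain ⟨ε₁, hε₁, h1⟩ := h.start
  obtain ⟨ε₂, hε₂, h2⟩ := h.stop
  obtain ⟨ε₃, hε₃, h3⟩ := h'.start
  obtain ⟨ε₄, hε₄, h4⟩ := h'.stop
  have hm : 0 < min (min ε₂ ε₄) 1 := by positivity
  have m1 : min (min ε₂ ε₄) 1 ≤ ε₂ := (min_le_left _ _).trans (min_le_left _ _)
  have m2 : min (min ε₂ ε₄) 1 ≤ ε₄ := (min_le_left _ _).trans (min_le_right _ _)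
  have m3 : min (min ε₂ ε₄) 1 ≤ 1 := min_le_right _ _
  refine ⟨min (min ε₂ ε₄) 1 / 4, by linarith, fun l hl _ => ?_⟩
  rcases le_total 0 l with h0 | h0
  · rw [abs_of_nonneg h0] at hl
    have e1 : w (4 * l) = ((g.1 : ℝ), (g.2 : ℝ)) := h2 _ (by linarith)
    have e2 : w' (4 * l) = ((g'.1 : ℝ), (g'.2 : ℝ)) := h4 _ (by linarith)
    refine ⟨?_, g'.2 - g.2, ?_⟩
    · unfold arc
      simp only [e1, e2, Pool.Agent.RSG.ex_int]
    · unfold arc
      simp only [e1, e2]
      push_cast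
      ring
  · have e1 : w (4 * l) = (0, 0) := h1 _ (by linarith)
    have e2 : w' (4 * l) = (0, 0) := h3 _ (by linarith)
    refine ⟨?_, 0, ?_⟩
    · unfold arc
      simp only [e1, e2]
    · unfold arc
      simp only [e1, e2]
      push_cast
      ring

theorem PathEq.refl (w : ℝ → ℝ × ℝ) : PathEq.{u} w w := ArcEq.refl _

theorem PathEq.symm {w w' : ℝ → ℝ × ℝ} (h : PathEq.{u} w w') : PathEq.{u} w' w := ArcEq.symm h

theorem PathEq.trans {w w' w'' : ℝ → ℝ × ℝ} {g g' : ℤ × ℤ} (h : PathEq.{u} w w') (h' : PathEq.{u} w' w'')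
    (hw : IsPath w g) (hw' : IsPath w' g') : PathEq.{u} w w'' :=
  ArcEq.trans h h' (arc_smooth hw').contDiffOn (fun _ hl => arc_norm hl) (arc_end hw hw')

end Pool.Agent.PTH
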