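import Pool.Agent.PTH.TStep
import Pool.Agent.PTH.Car
import Pool.Agent.PTH.Repl

/-!
# PTH/Step: nearby paths in a V-chart   (difficulty 2)

`exists_tstep` for the chart `E (x, ρ, t) = C (ρ ex (re x), im x, t)` (`VChart.tchart`), `α' = ε`, `β' = 1 - ε`, where
`ε` is the minimum of the four constants of `IsPath` (`w = w' = 0` for `ρ ≤ ε`, `= g` for `ρ ≥ 1 - ε`).  Let `K`, `K'` be
knots with arcs `arc w`, `arc w'` and the same tail.  Then `K' l = F (K l)` for all `l` (period 1: it is enough to take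
`-1/4 < l ≤ 3/4`), `ρ = 4 l`:
* `0 < l < 1/4`: `K l = C (ρ ex (w ρ)₁, (w ρ)₂, 0) = E (cx (w ρ), ρ, 0)`, `F` of it is `E (cx (w' ρ), ρ, 0) = K' l`;
* `-1/4 < l < 0`: `w ρ = w' ρ = 0`, `K l = C (ρ, 0, 0) = E (cx (1/2, 0), |ρ|, 0) = K' l`, a fixed point of `F`;
* `l = 0`: `K 0 = C (0, 0, 0) = K' 0` is not of the form `E (x, ρ, t)` with `ε ≤ ρ ≤ 1 - ε` (`VChart.inj`);
* `1/4 ≤ l ≤ 3/4`: `K l = K' l` is outside `V` (`outer`).
So `Carries.map`.
-/

open scoped Manifold ContDiff Topology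
open Set Filter
open Complex (I)

namespace Pool.Agent.PTH

open Pool.Agent.RSG (E4 S3 S4 ex)

universe u

theorem Step_per {P : Type*} {K : ℝ → P} (h : ∀ l, K (l + 1) = K l) (l : ℝ) (m : ℤ) :
    K (l - m) = K l := by
  have h1 : Function.Periodic K 1 := h
  have h2 := h1.sub_int_mul_eq (x := l) m
  rwa [mul_one] at h2

theorem step_car {μ : ℝ} (hμ : 0 < μ) : ∃ η : ℝ, 0 < η ∧ ∀ (a : ℝ → SP → SP) (C : ℂ × ℝ × ℝ → SP)
    (K K' : ℝ → SP) (n : ℤ) (X : Type u) [TopologicalSpace X] [ChartedSpace E4 X]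
    (w w' : ℝ → ℝ × ℝ) (g : ℤ × ℤ), Act ISP a → VChart ISP a C →
    IsPath w g → IsPath w' g → (∀ ρ, μ ≤ Dd (w ρ)) → (∀ ρ, ‖w' ρ - w ρ‖ ≤ η) →
    VKnot ISP C (arc w) K → VKnot ISP C (arc w') K' → (∀ l, 1 / 4 ≤ l → l ≤ 3 / 4 → K' l = K l) →
    Carries ISP a n K X → Carries ISP a n K' X := by
  obtain ⟨η, hη, H⟩ := exists_tstep hμ
  refine ⟨η, hη, ?_⟩
  intro a C K K' n X _ _ w w' g hA hC hw hw' hmu hn hK hK' ht hcar
  obtain ⟨ε₁, h1, s1⟩ := hw.start
  obtain ⟨ε₂, h2, s2⟩ := hw.stop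
  obtain ⟨ε₃, h3, s3⟩ := hw'.start
  obtain ⟨ε₄, h4, s4⟩ := hw'.stop
  obtain ⟨ε, hε, e1, e2, e3, e4⟩ : ∃ ε : ℝ, 0 < ε ∧ ε ≤ ε₁ ∧ ε ≤ ε₂ ∧ ε ≤ ε₃ ∧ ε ≤ ε₄ :=
    ⟨min (min ε₁ ε₂) (min ε₃ ε₄), lt_min (lt_min h1 h2) (lt_min h3 h4),
      (min_le_left _ _).trans (min_le_left _ _), (min_le_left _ _).trans (min_le_right _ _),
      (min_le_right _ _).trans (min_le_left _ _), (min_le_right _ _).trans (min_le_right _ _)⟩
  have hww : ∀ ρ, ρ ≤ ε ∨ 1 - ε ≤ ρ → w' ρ = w ρ := by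
    rintro ρ (h | h)
    · rw [s1 ρ (h.trans e1), s3 ρ (h.trans e3)]
    · rw [s2 ρ (by linarith), s4 ρ (by linarith)]
  obtain ⟨F, hF, hFw, hFo, hFid, hFa⟩ := H hA hC.tchart w w' hw.smooth hw'.smooth (α' := ε)
    (β' := 1 - ε) hε (by linarith) hww hmu hn
  have key1 : ∀ l, -1 / 4 < l → l ≤ 3 / 4 → F (K l) = K' l := by
    intro l hl1 hl2
    rcases le_or_gt (1 / 4) l with hl | hl
    · rw [ht l hl hl2]
      refine hFid _ (fun x ρ t hρ1 hρ2 => ?_)
      refine hK.outer l hl hl2 _ _ _ ?_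
      rw [norm_mul, RSG.ex_norm, mul_one, Complex.norm_real, Real.norm_eq_abs]
      rw [abs_lt]
      constructor <;> linarith
    · have habs : |l| < 1 / 4 := by
        rw [abs_lt]
        constructor <;> linarith
      obtain ⟨-, hKl⟩ := hK.inner l habs
      obtain ⟨-, hKl'⟩ := hK'.inner l habs
      rcases lt_trichotomy l 0 with h0 | h0 | h0
      · have w1 : w (4 * l) = (0, 0) := s1 _ (by linarith)
        have w2 : w' (4 * l) = (0, 0) := s3 _ (by linarith)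
        have a1 : arc w l = (((4 * l : ℝ) : ℂ), 0) := by
          rw [arc, w1, RSG.ex_zero, mul_one]
        have a2 : arc w' l = (((4 * l : ℝ) : ℂ), 0) := by
          rw [arc, w2, RSG.ex_zero, mul_one]
        rw [hKl', hKl, a1, a2]
        have h5 := hFo 0 0 (-(4 * l)) 0 (by linarith) (by linarith)
        have h6 : ((-(4 * l) : ℝ) : ℂ) * ex (cx (((0 : ℤ) : ℝ) + 1 / 2, ((0 : ℤ) : ℝ))).re =
            ((4 * l : ℝ) : ℂ) := by
          have h7 : (cx (((0 : ℤ) : ℝ) + 1 / 2, ((0 : ℤ) : ℝ))).re = 1 / 2 := by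
            simp [cx]
          rw [h7, RSG.ex_half]
          push_cast
          ring
        have h8 : (cx (((0 : ℤ) : ℝ) + 1 / 2, ((0 : ℤ) : ℝ))).im = 0 := by
          simp [cx]
        dsimp only at h5
        rw [h6, h8] at h5
        exact h5
      · subst h0
        have w1 : w (4 * 0) = (0, 0) := s1 _ (by linarith)
        have w2 : w' (4 * 0) = (0, 0) := s3 _ (by linarith)
        have a1 : arc w 0 = (0, 0) := by
          rw [arc, w1]
          simp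
        have a2 : arc w' 0 = (0, 0) := by
          rw [arc, w2]
          simp
        rw [hKl', hKl, a1, a2]
        refine hFid _ (fun x ρ t hρ1 hρ2 he => ?_)
        dsimp only at he
        have h5 : ‖((ρ : ℝ) : ℂ) * ex x.re‖ = ρ := by
          rw [norm_mul, RSG.ex_norm, mul_one, Complex.norm_real, Real.norm_eq_abs, abs_of_pos]
          linarith
        have h6 := (hC.inj _ _ _ _ _ _ (by rw [norm_zero]; norm_num) (by rw [h5]; linarith) he).1
        rw [← h6, norm_zero] at h5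
        linarith
      · have h5 := hFw (4 * l) 0 (by linarith) (by linarith)
        rw [hKl', hKl]
        exact h5
  have key : (fun l => F (K l)) = K' := by
    funext l
    have h5 := Step_per hK.per l ⌈l - 3 / 4⌉
    have h6 := Step_per hK'.per l ⌈l - 3 / 4⌉
    have h7 := Int.le_ceil (l - 3 / 4)
    have h8 := Int.ceil_lt_add_one (l - 3 / 4)
    change F (K l) = K' l
    rw [← h5, ← h6]
    exact key1 _ (by linarith) (by linarith)
  have h9 := Carries.map F hF hFa hcar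
  rwa [key] at h9

end Pool.Agent.PTH
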