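import Pool.Agent.PTH.Hom
import Pool.Agent.PTH.Step

/-!
# PTH/HomV: homotopic paths carry the same manifolds   (difficulty 3)

`hom_near` from `hom_abs` (`s₀ = (0, 0)`, `s₁ = g`): fix `a, C, K, K'` (arcs `arc (H 0)`, `arc (H 1)`, same tail), `n`, `X`, and
let `Q w` be: for every `K₁` with `VKnot C (arc w) K₁` and the same tail as `K`, `Carries K₁ X`.  `hstep` is `step_car`:
given `Q w` and `K₁'` for `w'`, there is `K₁` for `w` with the same tail (`exists_repl` from `K₁'`, `arc_smooth`, `arc_norm`,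
`arc_end`).  `Q (H 0)` as the knot with a given arc and tail is unique (`vknot_ext`).  This gives one implication; the
other one with `H (1 - l)`.

`sh_pathEq`: `IsPath w g`, `IsPath w' g`, `SH w w' g` : `H` as in `SH` has duration `M`, and it is constant only for
`τ ≤ 0`.  Let `M' = max M 1`, `ϑ ρ = M' (ρ - 1/4) · 2` (so `ϑ ρ ≤ 0` for `ρ ≤ 1/4`, `≥ M'` for `ρ ≥ 3/4`).  Three
homotopies, one after the other (on `l ∈ [0, 1/3], [1/3, 2/3], [2/3, 1]`):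
`w ∘ ((1 - s) id + s ϑ)`, then `H s ∘ ϑ`, then `w' ∘ (s id + (1 - s) ϑ)`, with `s = 3 l`, `3 l - 1`, `3 l - 2` clamped to
`[0, 1]`.  All are constant near the ends: let `w = w' = 0` on `(-∞, ε]`, `= g` on `[1 - ε, ∞)` (`ε ≤ 1/4`): for
`ρ ≤ ε`, both `ρ` and `ϑ ρ` are `≤ ε`; for `ρ ≥ 1 - ε`: both `ρ` and `ϑ ρ ≥ M' ≥ 1` are `≥ 1 - ε`.  Then `hom_near`.
(A clean way to get the continuity: `l ↦` the three pieces with clamped parameters; the function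
`w ∘ ((1 - s₁) id + s₁ ϑ) + (H s₂ ∘ ϑ - H 0 ∘ ϑ) + (w' ∘ (s₃ id + (1 - s₃) ϑ) - w' ∘ ϑ)`, `s_i = clamp (3 l - i + 1)`, is
jointly continuous and equal to the right piece on each third.)
-/

open scoped Manifold ContDiff Topology
open Set Filter

namespace Pool.Agent.PTH

universe u

theorem IsPath.spath {w : ℝ → ℝ × ℝ} {g : ℤ × ℤ} (h : IsPath w g) : SPath (0, 0) ((g.1 : ℝ), (g.2 : ℝ)) w :=
  ⟨h.smooth, h.start, h.stop, h.avoid⟩

theorem SPath.isPath {w : ℝ → ℝ × ℝ} {g : ℤ × ℤ} (h : SPath (0, 0) ((g.1 : ℝ), (g.2 : ℝ)) w) : IsPath w g :=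
  ⟨h.smooth, h.start, h.stop, h.avoid⟩

theorem HomV_one (H : ℝ → ℝ → ℝ × ℝ) (hc : Continuous fun q : ℝ × ℝ => H q.1 q.2) {g : ℤ × ℤ}
    (h0 : IsPath (H 0) g) (h1 : IsPath (H 1) g) {ε : ℝ} (hε : 0 < ε)
    (hs : ∀ l, 0 ≤ l → l ≤ 1 → ∀ ρ ≤ ε, H l ρ = (0, 0))
    (he : ∀ l, 0 ≤ l → l ≤ 1 → ∀ ρ, 1 - ε ≤ ρ → H l ρ = ((g.1 : ℝ), (g.2 : ℝ)))
    (ha : ∀ l, 0 ≤ l → l ≤ 1 → ∀ ρ, ¬ Obs (H l ρ))
    (a : ℝ → SP → SP) (C : ℂ × ℝ × ℝ → SP) (K K' : ℝ → SP) (n : ℤ) (X : Type u)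
    [TopologicalSpace X] [ChartedSpace Pool.Agent.RSG.E4 X]
    (hA : Act ISP a) (hC : VChart ISP a C) (hK : VKnot ISP C (arc (H 0)) K)
    (hK' : VKnot ISP C (arc (H 1)) K') (ht : ∀ l, 1 / 4 ≤ l → l ≤ 3 / 4 → K' l = K l)
    (hcar : Carries ISP a n K X) : Carries ISP a n K' X := by
  have key := hom_abs (s₀ := ((0 : ℝ), (0 : ℝ))) (s₁ := ((g.1 : ℝ), (g.2 : ℝ)))
    (fun w => ∀ K₁ : ℝ → SP, VKnot ISP C (arc w) K₁ → (∀ l, 1 / 4 ≤ l → l ≤ 3 / 4 → K₁ l = K l) →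
      Carries ISP a n K₁ X) ?_ H hc h0.spath h1.spath hε hs he ha ?_
  · exact key K' hK' ht
  · intro μ hμ
    obtain ⟨η, hη, hstep⟩ := step_car.{u} hμ
    refine ⟨η, hη, ?_⟩
    intro w w' hw hw' hD hnear hQ K₁ hK₁ ht₁
    obtain ⟨K₂, hK₂, ht₂⟩ := exists_repl hC hK₁ (arc_smooth hw.isPath).contDiffOn
      (fun _ hl => arc_norm hl) (arc_end hw'.isPath hw.isPath)
    have hc2 : Carries ISP a n K₂ X := hQ K₂ hK₂ (fun l h1 h2 => by rw [ht₂ l h1 h2, ht₁ l h1 h2])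
    exact hstep a C K₂ K₁ n X w w' g hA hC hw.isPath hw'.isPath hD hnear hK₂ hK₁
      (fun l h1 h2 => (ht₂ l h1 h2).symm) hc2
  · intro K₁ hK₁ ht₁
    rw [vknot_ext hK hK₁ ht₁]
    exact hcar

theorem hom_near (H : ℝ → ℝ → ℝ × ℝ) (hc : Continuous fun q : ℝ × ℝ => H q.1 q.2) {g : ℤ × ℤ}
    (h0 : IsPath (H 0) g) (h1 : IsPath (H 1) g) {ε : ℝ} (hε : 0 < ε)
    (hs : ∀ l, 0 ≤ l → l ≤ 1 → ∀ ρ ≤ ε, H l ρ = (0, 0))
    (he : ∀ l, 0 ≤ l → l ≤ 1 → ∀ ρ, 1 - ε ≤ ρ → H l ρ = ((g.1 : ℝ), (g.2 : ℝ)))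
    (ha : ∀ l, 0 ≤ l → l ≤ 1 → ∀ ρ, ¬ Obs (H l ρ)) : PathEq.{u} (H 0) (H 1) := by
  intro a C K K' n X _ _ _ hA hC hK hK' ht
  constructor
  · intro hcar
    exact HomV_one H hc h0 h1 hε hs he ha a C K K' n X hA hC hK hK' ht hcar
  · intro hcar
    have hc' : Continuous fun q : ℝ × ℝ => (fun l ρ => H (1 - l) ρ) q.1 q.2 :=
      hc.comp ((continuous_const.sub continuous_fst).prodMk continuous_snd)
    have e0 : H (1 - 0) = H 1 := by rw [sub_zero]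
    have e1 : H (1 - 1) = H 0 := by rw [sub_self]
    refine HomV_one (fun l ρ => H (1 - l) ρ) hc' (g := g) (by show IsPath (H (1 - 0)) g; rw [e0]; exact h1)
      (by show IsPath (H (1 - 1)) g; rw [e1]; exact h0) hε
      (fun l hl hl' ρ hρ => hs (1 - l) (by linarith) (by linarith) ρ hρ)
      (fun l hl hl' ρ hρ => he (1 - l) (by linarith) (by linarith) ρ hρ)
      (fun l hl hl' ρ => ha (1 - l) (by linarith) (by linarith) ρ)
      a C K' K n X hA hC (by show VKnot ISP C (arc (H (1 - 0))) K'; rw [e0]; exact hK')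
      (by show VKnot ISP C (arc (H (1 - 1))) K; rw [e1]; exact hK)
      (fun l h1 h2 => (ht l h1 h2).symm) hcar

/-- clamping to `[0, 1]` -/
noncomputable def HomV_cl (x : ℝ) : ℝ := max 0 (min 1 x)

theorem HomV_cl_cont : Continuous HomV_cl := by
  unfold HomV_cl; fun_prop

theorem HomV_cl_nn (x : ℝ) : 0 ≤ HomV_cl x := le_max_left _ _

theorem HomV_cl_le (x : ℝ) : HomV_cl x ≤ 1 := max_le zero_le_one (min_le_left _ _)

theorem HomV_cl_zero {x : ℝ} (h : x ≤ 0) : HomV_cl x = 0 :=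
  max_eq_left ((min_le_right _ _).trans h)

theorem HomV_cl_one {x : ℝ} (h : 1 ≤ x) : HomV_cl x = 1 := by
  unfold HomV_cl
  rw [min_eq_left h, max_eq_right zero_le_one]

/-- the speed change -/
noncomputable def HomV_th (M : ℝ) (ρ : ℝ) : ℝ := 2 * max M 1 * (ρ - 1 / 4)

theorem HomV_th_cont (M : ℝ) : Continuous (HomV_th M) := by
  unfold HomV_th; fun_prop

theorem HomV_th_le {M ρ : ℝ} (h : ρ ≤ 1 / 4) : HomV_th M ρ ≤ 0 := by
  unfold HomV_th
  have : 0 < max M 1 := lt_of_lt_of_le one_pos (le_max_right _ _)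
  nlinarith

theorem HomV_th_ge {M ρ : ℝ} (h : 3 / 4 ≤ ρ) : max M 1 ≤ HomV_th M ρ := by
  unfold HomV_th
  have : 0 < max M 1 := lt_of_lt_of_le one_pos (le_max_right _ _)
  nlinarith

theorem HomV_conv_le {s x y e : ℝ} (h0 : 0 ≤ s) (h1 : s ≤ 1) (hx : x ≤ e) (hy : y ≤ e) :
    (1 - s) * x + s * y ≤ e := by nlinarith

theorem HomV_conv_ge {s x y e : ℝ} (h0 : 0 ≤ s) (h1 : s ≤ 1) (hx : e ≤ x) (hy : e ≤ y) :
    e ≤ (1 - s) * x + s * y := by nlinarith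

/-- the three homotopies, one after the other -/
noncomputable def HomV_G (w w' : ℝ → ℝ × ℝ) (H : ℝ → ℝ → ℝ × ℝ) (M : ℝ) (l ρ : ℝ) : ℝ × ℝ :=
  w ((1 - HomV_cl (3 * l)) * ρ + HomV_cl (3 * l) * HomV_th M ρ) +
    (H (HomV_cl (3 * l - 1)) (HomV_th M ρ) - w (HomV_th M ρ)) +
    (w' ((1 - HomV_cl (3 - 3 * l)) * ρ + HomV_cl (3 - 3 * l) * HomV_th M ρ) - w' (HomV_th M ρ))

theorem HomV_G_cont {w w' : ℝ → ℝ × ℝ} {H : ℝ → ℝ → ℝ × ℝ} (M : ℝ) (hw : Continuous w) (hw' : Continuous w')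
    (hH : Continuous fun q : ℝ × ℝ => H q.1 q.2) :
    Continuous fun q : ℝ × ℝ => HomV_G w w' H M q.1 q.2 := by
  unfold HomV_G
  have h1 := HomV_cl_cont
  have h2 := HomV_th_cont M
  have h3 : Continuous fun q : ℝ × ℝ => HomV_th M q.2 := h2.comp continuous_snd
  have h4 : Continuous fun q : ℝ × ℝ => HomV_cl (3 * q.1) :=
    h1.comp (continuous_const.mul continuous_fst)
  have h5 : Continuous fun q : ℝ × ℝ => HomV_cl (3 * q.1 - 1) :=
    h1.comp ((continuous_const.mul continuous_fst).sub continuous_const)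
  have h6 : Continuous fun q : ℝ × ℝ => HomV_cl (3 - 3 * q.1) :=
    h1.comp (continuous_const.sub (continuous_const.mul continuous_fst))
  have h7 : Continuous fun q : ℝ × ℝ => H (HomV_cl (3 * q.1 - 1)) (HomV_th M q.2) :=
    hH.comp (h5.prodMk h3)
  have h8 : Continuous fun q : ℝ × ℝ => w ((1 - HomV_cl (3 * q.1)) * q.2 + HomV_cl (3 * q.1) * HomV_th M q.2) :=
    hw.comp (((continuous_const.sub h4).mul continuous_snd).add (h4.mul h3))
  have h9 : Continuous fun q : ℝ × ℝ =>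
      w' ((1 - HomV_cl (3 - 3 * q.1)) * q.2 + HomV_cl (3 - 3 * q.1) * HomV_th M q.2) :=
    hw'.comp (((continuous_const.sub h6).mul continuous_snd).add (h6.mul h3))
  exact (h8.add (h7.sub (hw.comp h3))).add (h9.sub (hw'.comp h3))

theorem HomV_G_first {w w' : ℝ → ℝ × ℝ} {H : ℝ → ℝ → ℝ × ℝ} {M : ℝ} (h0 : H 0 = w) {l : ℝ} (hl : l ≤ 1 / 3)
    (ρ : ℝ) : HomV_G w w' H M l ρ = w ((1 - HomV_cl (3 * l)) * ρ + HomV_cl (3 * l) * HomV_th M ρ) := by
  unfold HomV_G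
  have e1 : HomV_cl (3 * l - 1) = 0 := HomV_cl_zero (by linarith)
  have e2 : HomV_cl (3 - 3 * l) = 1 := HomV_cl_one (by linarith)
  rw [e1, e2, h0]
  have e3 : (1 - 1) * ρ + 1 * HomV_th M ρ = HomV_th M ρ := by ring
  rw [e3, sub_self, sub_self, add_zero, add_zero]

theorem HomV_G_second {w w' : ℝ → ℝ × ℝ} {H : ℝ → ℝ → ℝ × ℝ} {M : ℝ} {l : ℝ} (hl : 1 / 3 ≤ l)
    (hl' : l ≤ 2 / 3) (ρ : ℝ) : HomV_G w w' H M l ρ = H (HomV_cl (3 * l - 1)) (HomV_th M ρ) := by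
  unfold HomV_G
  have e1 : HomV_cl (3 * l) = 1 := HomV_cl_one (by linarith)
  have e2 : HomV_cl (3 - 3 * l) = 1 := HomV_cl_one (by linarith)
  rw [e1, e2]
  have e3 : (1 - 1) * ρ + 1 * HomV_th M ρ = HomV_th M ρ := by ring
  rw [e3]
  abel

theorem HomV_G_third {w w' : ℝ → ℝ × ℝ} {H : ℝ → ℝ → ℝ × ℝ} {M : ℝ} (h1 : H 1 = w') {l : ℝ} (hl : 2 / 3 ≤ l)
    (ρ : ℝ) : HomV_G w w' H M l ρ = w' ((1 - HomV_cl (3 - 3 * l)) * ρ + HomV_cl (3 - 3 * l) * HomV_th M ρ) := by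
  unfold HomV_G
  have e1 : HomV_cl (3 * l) = 1 := HomV_cl_one (by linarith)
  have e2 : HomV_cl (3 * l - 1) = 1 := HomV_cl_one (by linarith)
  rw [e1, e2, h1]
  have e3 : (1 - 1) * ρ + 1 * HomV_th M ρ = HomV_th M ρ := by ring
  rw [e3]
  abel

theorem sh_pathEq {w w' : ℝ → ℝ × ℝ} {g : ℤ × ℤ} (hw : IsPath w g) (hw' : IsPath w' g) (h : SH w w' g) :
    PathEq.{u} w w' := by
  obtain ⟨M, H, hc, h0, h1, hseg⟩ := h
  obtain ⟨e1, he1, hs1⟩ := hw.start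
  obtain ⟨e2, he2, hs2⟩ := hw.stop
  obtain ⟨e3, he3, hs3⟩ := hw'.start
  obtain ⟨e4, he4, hs4⟩ := hw'.stop
  set ε := min (min (min e1 e2) (min e3 e4)) (1 / 4) with hεdef
  have hε : 0 < ε := by
    rw [hεdef]
    exact lt_min (lt_min (lt_min he1 he2) (lt_min he3 he4)) (by norm_num)
  have hε1 : ε ≤ e1 := (min_le_left _ _).trans ((min_le_left _ _).trans (min_le_left _ _))
  have hε2 : ε ≤ e2 := (min_le_left _ _).trans ((min_le_left _ _).trans (min_le_right _ _))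
  have hε3 : ε ≤ e3 := (min_le_left _ _).trans ((min_le_right _ _).trans (min_le_left _ _))
  have hε4 : ε ≤ e4 := (min_le_left _ _).trans ((min_le_right _ _).trans (min_le_right _ _))
  have hε5 : ε ≤ 1 / 4 := min_le_right _ _
  have w0 : ∀ x, x ≤ ε → w x = (0, 0) := fun x hx => hs1 x (hx.trans hε1)
  have w1 : ∀ x, 1 - ε ≤ x → w x = ((g.1 : ℝ), (g.2 : ℝ)) := fun x hx => hs2 x (by linarith)
  have w0' : ∀ x, x ≤ ε → w' x = (0, 0) := fun x hx => hs3 x (hx.trans hε3)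
  have w1' : ∀ x, 1 - ε ≤ x → w' x = ((g.1 : ℝ), (g.2 : ℝ)) := fun x hx => hs4 x (by linarith)
  have G0 : HomV_G w w' H M 0 = w := by
    funext ρ
    rw [HomV_G_first h0 (by norm_num)]
    have : HomV_cl (3 * 0) = 0 := HomV_cl_zero (by norm_num)
    rw [this]
    congr 1
    ring
  have G1 : HomV_G w w' H M 1 = w' := by
    funext ρ
    rw [HomV_G_third h1 (by norm_num)]
    have : HomV_cl (3 - 3 * 1) = 0 := HomV_cl_zero (by norm_num)
    rw [this]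
    congr 1
    ring
  have key := hom_near.{u} (HomV_G w w' H M)
    (HomV_G_cont M hw.smooth.continuous hw'.smooth.continuous hc) (g := g)
    (by rw [G0]; exact hw) (by rw [G1]; exact hw') hε ?_ ?_ ?_
  · rw [G0, G1] at key
    exact key
  · intro l hl hl' ρ hρ
    have ht : HomV_th M ρ ≤ 0 := HomV_th_le (hρ.trans hε5)
    have ht' : HomV_th M ρ ≤ ε := ht.trans hε.le
    rcases le_total l (1 / 3) with h3 | h3
    · rw [HomV_G_first h0 h3]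
      exact w0 _ (HomV_conv_le (HomV_cl_nn _) (HomV_cl_le _) hρ ht')
    · rcases le_total l (2 / 3) with h4 | h4
      · rw [HomV_G_second h3 h4]
        exact (hseg _ (HomV_cl_nn _) (HomV_cl_le _)).start _ ht
      · rw [HomV_G_third h1 h4]
        exact w0' _ (HomV_conv_le (HomV_cl_nn _) (HomV_cl_le _) hρ ht')
  · intro l hl hl' ρ hρ
    have ht : max M 1 ≤ HomV_th M ρ := HomV_th_ge (by linarith)
    have ht1 : M ≤ HomV_th M ρ := (le_max_left _ _).trans ht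
    have ht' : 1 - ε ≤ HomV_th M ρ := by
      have := (le_max_right M 1).trans ht
      linarith
    rcases le_total l (1 / 3) with h3 | h3
    · rw [HomV_G_first h0 h3]
      exact w1 _ (HomV_conv_ge (HomV_cl_nn _) (HomV_cl_le _) hρ ht')
    · rcases le_total l (2 / 3) with h4 | h4
      · rw [HomV_G_second h3 h4]
        exact (hseg _ (HomV_cl_nn _) (HomV_cl_le _)).stop _ ht1
      · rw [HomV_G_third h1 h4]
        exact w1' _ (HomV_conv_ge (HomV_cl_nn _) (HomV_cl_le _) hρ ht')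
  · intro l hl hl' ρ
    rcases le_total l (1 / 3) with h3 | h3
    · rw [HomV_G_first h0 h3]
      exact hw.avoid _
    · rcases le_total l (2 / 3) with h4 | h4
      · rw [HomV_G_second h3 h4]
        exact (hseg _ (HomV_cl_nn _) (HomV_cl_le _)).avoid _
      · rw [HomV_G_third h1 h4]
        exact hw'.avoid _

end Pool.Agent.PTH
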