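import Pool.Agent.PTH.Red
import Pool.Agent.PTH.HomV

/-!
# PTH/WEq: paths and words; the subgroup `Γ_F`   (difficulty 2)

* `wpath_eq`: `SH (pos L) (pos L')` by `sh_mk`; `sh_wpath`, `sh_symm`, `sh_trans`: `SH (wpath L) (wpath L')`; `sh_pathEq`.
* `pathEq_word`: the same for a path `w` homotopic to a word.
* `mem_GamF_iff`: `GamF` can be tested on any words (`wpath_eq` and `PathEq.trans`, `wpath_isPath`).
* `Gam`: `one`: `wpath_eq`; `mul`: if `mk L'' = g g' mk L`, let `L' = (g' * mk L).toWord`, `PathEq (wpath L'') (wpath L')` and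
  `PathEq (wpath L') (wpath L)`; `inv`: `mk L' = g⁻¹ mk L` gives `mk L = g mk L'`, `PathEq.symm`.
-/

open scoped Manifold ContDiff Topology
open Set Filter

namespace Pool.Agent.PTH

universe u

theorem WEq_dbl {L L' : List (Bool × Bool)} (hs : sumZ L = sumZ L') (h : SH (pos L) (pos L') (sumZ L)) :
    PathEq.{u} (wpath L) (wpath L') := by
  have h1 : SH (wpath L) (pos L) (sumZ L) := sh_symm (sh_wpath L)
  have h2 : SH (pos L') (wpath L') (sumZ L) := by
    rw [hs]; exact sh_wpath L'
  have h3 : SH (wpath L) (wpath L') (sumZ L) := sh_trans (sh_trans h1 h) h2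
  have hp' : IsPath (wpath L') (sumZ L) := by
    rw [hs]; exact wpath_isPath L'
  exact sh_pathEq (wpath_isPath L) hp' h3

theorem wpath_eq {L L' : List (Bool × Bool)} (h : FreeGroup.mk L = FreeGroup.mk L') :
    PathEq.{u} (wpath L) (wpath L') := by
  obtain ⟨hs, hh⟩ := sh_mk h
  exact WEq_dbl hs hh

theorem pathEq_word {w : ℝ → ℝ × ℝ} {L : List (Bool × Bool)} (hw : IsPath w (sumZ L))
    (h : SH w (pos L) (sumZ L)) : PathEq.{u} w (wpath L) :=
  sh_pathEq hw (wpath_isPath L) (sh_trans h (sh_wpath L))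

/-- two paths which are homotopic to words -/
theorem pathEq_of_words {w w' : ℝ → ℝ × ℝ} {L L' : List (Bool × Bool)} (hw : IsPath w (sumZ L))
    (hw' : IsPath w' (sumZ L')) (h : SH w (pos L) (sumZ L)) (h' : SH w' (pos L') (sumZ L')) :
    PathEq.{u} w w' ↔ PathEq.{u} (wpath L) (wpath L') := by
  have e1 : PathEq.{u} w (wpath L) := pathEq_word hw h
  have e2 : PathEq.{u} w' (wpath L') := pathEq_word hw' h'
  constructor
  · intro hq
    exact (e1.symm.trans hq (wpath_isPath L) hw).trans e2 (wpath_isPath L) hw'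
  · intro hq
    exact (e1.trans hq hw (wpath_isPath L)).trans e2.symm hw (wpath_isPath L')

/-- it is enough to test one representative for every right factor -/
theorem mem_GamF_iff (g : FreeGroup Bool) (G : List (Bool × Bool)) (hG : FreeGroup.mk G = g) :
    g ∈ GamF.{u} ↔ ∀ L : List (Bool × Bool), PathEq.{u} (wpath (G ++ L)) (wpath L) := by
  constructor
  · intro h L
    refine h L (G ++ L) ?_
    rw [← hG, FreeGroup.mul_mk]
  · intro h L L' hL
    have h1 : PathEq.{u} (wpath L') (wpath (G ++ L)) := by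
      refine wpath_eq ?_
      rw [hL, ← hG, FreeGroup.mul_mk]
    exact h1.trans (h L) (wpath_isPath L') (wpath_isPath (G ++ L))

/-- `g h⁻¹ ∈ Γ_F` iff the words `G`, `H` (of `g`, `h`) can be exchanged at the start of every word -/
theorem mem_GamF_iff' (G H : List (Bool × Bool)) :
    FreeGroup.mk G * (FreeGroup.mk H)⁻¹ ∈ GamF.{u} ↔
      ∀ L : List (Bool × Bool), PathEq.{u} (wpath (G ++ L)) (wpath (H ++ L)) := by
  constructor
  · intro h L
    refine h (H ++ L) (G ++ L) ?_
    rw [← FreeGroup.mul_mk, ← FreeGroup.mul_mk, mul_assoc, inv_mul_cancel_left]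
  · intro h L L' hL
    have h0 := h ((FreeGroup.mk H)⁻¹ * FreeGroup.mk L).toWord
    have h1 : PathEq.{u} (wpath L') (wpath (G ++ ((FreeGroup.mk H)⁻¹ * FreeGroup.mk L).toWord)) := by
      refine wpath_eq ?_
      rw [hL, ← FreeGroup.mul_mk, FreeGroup.mk_toWord, mul_assoc]
    have h2 : PathEq.{u} (wpath (H ++ ((FreeGroup.mk H)⁻¹ * FreeGroup.mk L).toWord)) (wpath L) := by
      refine wpath_eq ?_
      rw [← FreeGroup.mul_mk, FreeGroup.mk_toWord, mul_inv_cancel_left]
    exact (h1.trans h0 (wpath_isPath _) (wpath_isPath _)).trans h2 (wpath_isPath _) (wpath_isPath _)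

/-- `Γ_F` is a subgroup -/
def Gam : Subgroup (FreeGroup Bool) where
  carrier := GamF.{u}
  one_mem' := by
    intro L L' hL
    refine wpath_eq ?_
    rw [hL, one_mul]
  mul_mem' := by
    intro g g' hg hg' L L' hL
    have h1 : PathEq.{u} (wpath L') (wpath (g' * FreeGroup.mk L).toWord) := by
      refine hg _ _ ?_
      rw [FreeGroup.mk_toWord, hL, mul_assoc]
    have h2 : PathEq.{u} (wpath (g' * FreeGroup.mk L).toWord) (wpath L) := by
      refine hg' _ _ ?_
      rw [FreeGroup.mk_toWord]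
    exact h1.trans h2 (wpath_isPath _) (wpath_isPath _)
  inv_mem' := by
    intro g hg L L' hL
    refine PathEq.symm (hg L' L ?_)
    rw [hL, mul_inv_cancel_left]

end Pool.Agent.PTH
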