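import Pool.Agent.PTH.TC
import Pool.Agent.PTH.Car

/-!
# PTH/TArc: level preserving diffeomorphisms of the solid torus act on arcs   (difficulty 2)

`arcEq_tlift`: `exists_tlift` for the chart `E (x, ρ, t) = C (ρ ex (re x), im x, t)` (`VChart.tchart`, `(α, β) = (0, 1)`), `α', β'`
as given; `F` = the diffeomorphism.  Let `K, K'` be knots with arcs `γ, γ'` and the same tail.  `K' l = F (K l)` for all `l` (by
periodicity it is enough to take `-1/4 < l ≤ 3/4`; see the proof of `step_car` in PTH/Step for the same argument):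
* `|l| < 1/4`, first case: `K l = C (γ l, 0)` with `‖(γ l).1‖ < α'`: not of the form `E (x, ρ, t)` with `α' ≤ ρ ≤ β'` (`VChart.inj`:
  norms), so it is fixed by `F`, and `γ' l = γ l`.
* second case: `K l = E (x, ρ, 0)` (`C (z, Y + m, t) = C (z, Y, t)`: `TC_perY`), `F` of it is `E (φ ρ x, ρ, 0) = K' l`.
* `1/4 ≤ l ≤ 3/4`: `K' l = K l` is outside `V`, so it is fixed by `F`.
So `Carries.map` gives one direction.  For the other direction use `F.symm` (`ld_perm_symm`; `F.symm (a t p) = a t (F.symm p)`),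
`K l = F.symm (K' l)`.
-/

open scoped Manifold ContDiff Topology
open Set Filter
open Complex (I)

namespace Pool.Agent.PTH

open Pool.Agent.RSG (E4 S3 S4 ex)

universe u

theorem TArc_per {P : Type*} {K : ℝ → P} (h : ∀ l, K (l + 1) = K l) (l : ℝ) (m : ℤ) :
    K (l - m) = K l := by
  have h1 : Function.Periodic K 1 := h
  have h2 := h1.sub_int_mul_eq (x := l) m
  rwa [mul_one] at h2

theorem arcEq_tlift (φ : ℝ → Equiv.Perm ℂ) (hφ : ContDiff ℝ ∞ fun q : ℂ × ℝ => φ q.2 q.1)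
    (hφ' : ContDiff ℝ ∞ fun q : ℂ × ℝ => (φ q.2).symm q.1)
    (heq : ∀ ρ x (m n : ℤ), φ ρ (x + (m + n * I)) = φ ρ x + (m + n * I)) {α' β' : ℝ} (h1 : 0 < α') (h2 : β' < 1)
    (hid : ∀ ρ, ρ ≤ α' ∨ β' ≤ ρ → ∀ x, φ ρ x = x) {γ γ' : ℝ → ℂ × ℝ}
    (h : ∀ l, |l| < 1 / 4 → (γ' l = γ l ∧ ‖(γ l).1‖ < α') ∨
      ∃ (x : ℂ) (ρ : ℝ) (m m' : ℤ), 0 < ρ ∧ ρ < 1 ∧ γ l = (ρ * ex x.re, x.im + m) ∧
        γ' l = (ρ * ex (φ ρ x).re, (φ ρ x).im + m')) : ArcEq.{u} γ γ' := by
  intro a C K K' n X _ _ _ hA hC hK hK' ht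
  obtain ⟨F, hF, hFE, hFid, hFa⟩ := exists_tlift hA hC.tchart φ hφ hφ' heq h1 h2 hid
  have key1 : ∀ l, -1 / 4 < l → l ≤ 3 / 4 → F (K l) = K' l := by
    intro l hl1 hl2
    rcases le_or_gt (1 / 4) l with hl | hl
    · rw [ht l hl hl2]
      refine hFid _ (fun x ρ t hρ1 hρ2 => ?_)
      refine hK.outer l hl hl2 _ _ _ ?_
      rw [norm_mul, RSG.ex_norm, mul_one, Complex.norm_real, Real.norm_eq_abs]
      rw [abs_lt]
      constructor <;> linarith
    · have habs : |l| < 1 / 4 := by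
        rw [abs_lt]
        constructor <;> linarith
      obtain ⟨hn, hKl⟩ := hK.inner l habs
      obtain ⟨-, hKl'⟩ := hK'.inner l habs
      rcases h l habs with ⟨e, hlt⟩ | ⟨x, ρ, m, m', hρ, hρ', e, e'⟩
      · rw [hKl', hKl, e]
        refine hFid _ (fun x ρ t hρ1 hρ2 he => ?_)
        dsimp only at he
        have h5 : ‖((ρ : ℝ) : ℂ) * ex x.re‖ = ρ := by
          rw [norm_mul, RSG.ex_norm, mul_one, Complex.norm_real, Real.norm_eq_abs, abs_of_pos]
          linarith
        have h6 := (hC.inj _ _ _ _ _ _ hn (by rw [h5]; linarith) he).1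
        rw [← h6] at h5
        linarith
      · rw [hKl', hKl, e, e']
        dsimp only
        rw [TC_perY hC, TC_perY hC]
        exact hFE x ρ 0 hρ hρ'
  have key0 : ∀ l, F (K l) = K' l := by
    intro l
    have h5 := TArc_per hK.per l ⌈l - 3 / 4⌉
    have h6 := TArc_per hK'.per l ⌈l - 3 / 4⌉
    have h7 := Int.le_ceil (l - 3 / 4)
    have h8 := Int.ceil_lt_add_one (l - 3 / 4)
    rw [← h5, ← h6]
    exact key1 _ (by linarith) (by linarith)
  have key : (fun l => F (K l)) = K' := funext key0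
  have key' : (fun l => F.symm (K' l)) = K := by
    funext l
    rw [← key0 l, Equiv.symm_apply_apply]
  constructor
  · intro hcar
    have h9 := Carries.map F hF hFa hcar
    rwa [key] at h9
  · intro hcar
    have hFa' : ∀ t p, F.symm (a t p) = a t (F.symm p) := by
      intro t p
      rw [Equiv.symm_apply_eq, hFa, Equiv.apply_symm_apply]
    have h9 := Carries.map F.symm (ld_perm_symm hF) hFa' hcar
    rwa [key'] at h9

end Pool.Agent.PTH
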