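import Pool.Agent.PTH.Seg

/-!
# PTH/Wrd: words are paths   (difficulty 2)

* `st_symm`: `Real.smoothTransition x = g x / (g x + g (1 - x))`, `g = expNegInvGlue`.
* `bump_*`: `bump τ = 0` for `τ ≤ 0` and `τ ≥ 1` (`Real.smoothTransition` is `0` on `(-∞, 0]` and `1` on `[1, ∞)`),
  `0 ≤ bump τ ≤ 1/2`, `bump τ > 0` for `0 < τ < 1` (`Real.smoothTransition.pos_of_pos`), `bump (1 - τ) = bump τ`.
* `ltr_seg`: avoid: for `y`: the first coordinate is `0`, never `m + 1/2`.  For `x`: if `(±st τ, bump τ) = (m + 1/2, n)`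
  then `0 < τ < 1` (otherwise `st τ ∈ {0, 1}`), so `0 < n ≤ 1/2`, impossible.
* `pos_seg`: induction, `pos (d :: L) = cat (ltr d) 1 (pos L)`, `isSeg_cat`.
* `pos_append`: induction.
* `wpath_isPath`: `clock ρ = |L| st (2ρ - 1/2)` is `0` for `ρ ≤ 1/4` and `|L|` for `ρ ≥ 3/4`.
* `sh_wpath`: `sh_reparam` (`M = 1`).
-/

open scoped ContDiff Topology
open Set Filter

namespace Pool.Agent.PTH

theorem st_symm (x : ℝ) : Real.smoothTransition (1 - x) = 1 - Real.smoothTransition x := by
  have h := Real.smoothTransition.pos_denom x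
  unfold Real.smoothTransition
  rw [sub_sub_cancel, eq_sub_iff_add_eq, add_comm (expNegInvGlue (1 - x)) (expNegInvGlue x), ← add_div,
    add_comm (expNegInvGlue (1 - x)) (expNegInvGlue x)]
  exact div_self h.ne'

theorem bump_nonneg (τ : ℝ) : 0 ≤ bump τ := by
  have h1 := Real.smoothTransition.nonneg (2 * τ)
  have h2 := Real.smoothTransition.nonneg (2 - 2 * τ)
  unfold bump
  positivity

theorem bump_le (τ : ℝ) : bump τ ≤ 1 / 2 := by
  have h1 := Real.smoothTransition.nonneg (2 * τ)
  have h2 := Real.smoothTransition.nonneg (2 - 2 * τ)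
  have h3 := Real.smoothTransition.le_one (2 * τ)
  have h4 := Real.smoothTransition.le_one (2 - 2 * τ)
  unfold bump
  have h5 : Real.smoothTransition (2 * τ) * Real.smoothTransition (2 - 2 * τ) ≤ 1 :=
    mul_le_one₀ h3 h2 h4
  rw [mul_assoc]
  linarith

theorem bump_left {τ : ℝ} (h : τ ≤ 0) : bump τ = 0 := by
  unfold bump
  rw [Real.smoothTransition.zero_of_nonpos (show 2 * τ ≤ 0 by linarith), mul_zero, zero_mul]

theorem bump_right {τ : ℝ} (h : 1 ≤ τ) : bump τ = 0 := by
  unfold bump
  rw [Real.smoothTransition.zero_of_nonpos (show 2 - 2 * τ ≤ 0 by linarith), mul_zero]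

theorem bump_pos {τ : ℝ} (h : 0 < τ) (h' : τ < 1) : 0 < bump τ := by
  have h1 := Real.smoothTransition.pos_of_pos (show 0 < 2 * τ by linarith)
  have h2 := Real.smoothTransition.pos_of_pos (show 0 < 2 - 2 * τ by linarith)
  unfold bump
  positivity

theorem bump_symm (τ : ℝ) : bump (1 - τ) = bump τ := by
  unfold bump
  rw [show 2 * (1 - τ) = 2 - 2 * τ by ring, show 2 - (2 - 2 * τ) = 2 * τ by ring]
  ring

theorem bump_half : bump (1 / 2) = 1 / 2 := by
  unfold bump
  rw [show (2 : ℝ) * (1 / 2) = 1 by norm_num, show (2 : ℝ) - 1 = 1 by norm_num,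
    Real.smoothTransition.one_of_one_le (le_refl 1)]
  norm_num

theorem bump_smooth : ContDiff ℝ ∞ bump := by
  have h : ContDiff ℝ ∞ Real.smoothTransition := Real.smoothTransition.contDiff
  unfold bump
  have h1 : ContDiff ℝ ∞ fun τ : ℝ => Real.smoothTransition (2 * τ) :=
    h.comp (contDiff_const.mul contDiff_id)
  have h2 : ContDiff ℝ ∞ fun τ : ℝ => Real.smoothTransition (2 - 2 * τ) :=
    h.comp (contDiff_const.sub (contDiff_const.mul contDiff_id))
  exact (contDiff_const.mul h1).mul h2

theorem ltr_smooth (d : Bool × Bool) : ContDiff ℝ ∞ (ltr d) := by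
  have h : ContDiff ℝ ∞ Real.smoothTransition := Real.smoothTransition.contDiff
  rcases d with ⟨d1, d2⟩
  cases d1
  · have e : ltr (false, d2) = fun τ => ((0 : ℝ), (sgn d2 : ℝ) * Real.smoothTransition τ) := by
      funext τ
      simp [ltr]
    rw [e]
    exact contDiff_const.prodMk (contDiff_const.mul h)
  · have e : ltr (true, d2) = fun τ => ((sgn d2 : ℝ) * Real.smoothTransition τ, bump τ) := by
      funext τ
      simp [ltr]
    rw [e]
    exact (contDiff_const.mul h).prodMk bump_smooth

theorem ltr_seg (d : Bool × Bool) : IsSeg (ltr d) 1 (dirZ d) := by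
  have hc := (ltr_smooth d).continuous
  rcases d with ⟨d1, d2⟩
  cases d1
  · have e : ltr (false, d2) = fun τ => ((0 : ℝ), (sgn d2 : ℝ) * Real.smoothTransition τ) := by
      funext τ
      simp [ltr]
    refine ⟨zero_le_one, hc, ?_, ?_, ?_⟩
    · intro τ hτ
      rw [e]
      show ((0 : ℝ), (sgn d2 : ℝ) * Real.smoothTransition τ) = (0, 0)
      rw [Real.smoothTransition.zero_of_nonpos hτ, mul_zero]
    · intro τ hτ
      rw [e]
      show ((0 : ℝ), (sgn d2 : ℝ) * Real.smoothTransition τ) = _
      rw [Real.smoothTransition.one_of_one_le hτ, mul_one]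
      simp [dirZ]
    · intro τ
      rw [e]
      rintro ⟨m, n, hmn⟩
      have h1 : (0 : ℝ) = (m : ℝ) + 1 / 2 := congrArg Prod.fst hmn
      have h2 : (2 * m + 1 : ℝ) = 0 := by linarith
      have h3 : (2 * m + 1 : ℤ) = 0 := by exact_mod_cast h2
      omega
  · have e : ltr (true, d2) = fun τ => ((sgn d2 : ℝ) * Real.smoothTransition τ, bump τ) := by
      funext τ
      simp [ltr]
    refine ⟨zero_le_one, hc, ?_, ?_, ?_⟩
    · intro τ hτ
      rw [e]
      show ((sgn d2 : ℝ) * Real.smoothTransition τ, bump τ) = (0, 0)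
      rw [Real.smoothTransition.zero_of_nonpos hτ, mul_zero, bump_left hτ]
    · intro τ hτ
      rw [e]
      show ((sgn d2 : ℝ) * Real.smoothTransition τ, bump τ) = _
      rw [Real.smoothTransition.one_of_one_le hτ, mul_one, bump_right hτ]
      simp [dirZ]
    · intro τ
      rw [e]
      rintro ⟨m, n, hmn⟩
      have h1 : (sgn d2 : ℝ) * Real.smoothTransition τ = (m : ℝ) + 1 / 2 := congrArg Prod.fst hmn
      have h2 : bump τ = (n : ℝ) := congrArg Prod.snd hmn
      have odd : ∀ k : ℤ, (k : ℝ) = (m : ℝ) + 1 / 2 → False := by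
        intro k hk
        have h3 : (2 * k : ℝ) = 2 * m + 1 := by linarith
        have h4 : (2 * k : ℤ) = 2 * m + 1 := by exact_mod_cast h3
        omega
      rcases le_or_gt τ 0 with hτ | hτ
      · rw [Real.smoothTransition.zero_of_nonpos hτ, mul_zero] at h1
        exact odd 0 (by rw [← h1]; simp)
      · rcases le_or_gt 1 τ with hτ' | hτ'
        · rw [Real.smoothTransition.one_of_one_le hτ', mul_one] at h1
          exact odd _ h1
        · have h3 := bump_pos hτ hτ'
          have h4 := bump_le τ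
          rw [h2] at h3 h4
          have h5 : (0 : ℤ) < n := by exact_mod_cast h3
          have h6 : (1 : ℝ) ≤ n := by exact_mod_cast h5
          linarith

theorem pos_cons (d : Bool × Bool) (L : List (Bool × Bool)) : pos (d :: L) = cat (ltr d) 1 (pos L) := rfl

theorem pos_smooth (L : List (Bool × Bool)) : ContDiff ℝ ∞ (pos L) := by
  induction L with
  | nil => exact contDiff_const (c := (0 : ℝ × ℝ))
  | cons d L ih =>
    have h : ContDiff ℝ ∞ fun τ : ℝ => ltr d τ + pos L (τ - 1) :=
      (ltr_smooth d).add (ih.comp (contDiff_id.sub contDiff_const))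
    exact h

theorem pos_seg (L : List (Bool × Bool)) : IsSeg (pos L) L.length (sumZ L) := by
  induction L with
  | nil =>
    have h := isSeg_zero
    have e : pos [] = fun _ => (0 : ℝ × ℝ) := rfl
    rw [e, List.length_nil, Nat.cast_zero]
    exact h
  | cons d L ih =>
    have h := isSeg_cat (ltr_seg d) ih
    rw [pos_cons, List.length_cons, Nat.cast_add, Nat.cast_one, add_comm ((L.length : ℕ) : ℝ) 1]
    exact h

theorem sumZ_append (L L' : List (Bool × Bool)) : sumZ (L ++ L') = sumZ L + sumZ L' := by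
  induction L with
  | nil => exact (zero_add _).symm
  | cons d L ih =>
    show dirZ d + sumZ (L ++ L') = (dirZ d + sumZ L) + sumZ L'
    rw [ih, add_assoc]

theorem pos_append (L L' : List (Bool × Bool)) : pos (L ++ L') = cat (pos L) L.length (pos L') := by
  induction L with
  | nil =>
    funext τ
    show pos L' τ = 0 + pos L' (τ - ((0 : ℕ) : ℝ))
    rw [Nat.cast_zero, sub_zero, zero_add]
  | cons d L ih =>
    funext τ
    show ltr d τ + pos (L ++ L') (τ - 1) =
      (ltr d τ + pos L (τ - 1)) + pos L' (τ - ((L.length + 1 : ℕ) : ℝ))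
    rw [ih]
    show ltr d τ + (pos L (τ - 1) + pos L' (τ - 1 - (L.length : ℝ))) = _
    rw [add_assoc, Nat.cast_add, Nat.cast_one, show τ - 1 - (L.length : ℝ) = τ - ((L.length : ℝ) + 1) by ring]

theorem wpath_isPath (L : List (Bool × Bool)) : IsPath (wpath L) (sumZ L) := by
  have h := pos_seg L
  refine ⟨?_, ⟨1 / 4, by norm_num, ?_⟩, ⟨1 / 4, by norm_num, ?_⟩, fun ρ => h.avoid _⟩
  · have hs : ContDiff ℝ ∞ Real.smoothTransition := Real.smoothTransition.contDiff
    have h1 : ContDiff ℝ ∞ fun ρ : ℝ => (L.length : ℝ) * Real.smoothTransition (2 * ρ - 1 / 2) :=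
      contDiff_const.mul (hs.comp ((contDiff_const.mul contDiff_id).sub contDiff_const))
    exact (pos_smooth L).comp h1
  · intro ρ hρ
    unfold wpath
    rw [Real.smoothTransition.zero_of_nonpos (show 2 * ρ - 1 / 2 ≤ 0 by linarith), mul_zero]
    exact h.start 0 (le_refl 0)
  · intro ρ hρ
    unfold wpath
    rw [Real.smoothTransition.one_of_one_le (show 1 ≤ 2 * ρ - 1 / 2 by linarith), mul_one]
    exact h.stop _ (le_refl _)

theorem sh_wpath (L : List (Bool × Bool)) : SH (pos L) (wpath L) (sumZ L) := by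
  refine sh_reparam (M := 1) (pos_seg L)
    (fun ρ => (L.length : ℝ) * Real.smoothTransition (2 * ρ - 1 / 2)) ?_ ?_ ?_
  · have hs : Continuous Real.smoothTransition := Real.smoothTransition.continuous
    exact continuous_const.mul (hs.comp (by fun_prop))
  · intro τ hτ
    rw [Real.smoothTransition.zero_of_nonpos (show 2 * τ - 1 / 2 ≤ 0 by linarith), mul_zero]
  · intro τ hτ
    rw [Real.smoothTransition.one_of_one_le (show 1 ≤ 2 * τ - 1 / 2 by linarith), mul_one]

end Pool.Agent.PTH
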