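import Pool.Agent.PTH.Bas

/-!
# PTH/Seg: homotopy of segments   (difficulty 2)

* `sh_refl`: constant homotopy.  `sh_symm`: `H (1 - l)`.
* `sh_trans`: `H (2 l)` for `l ≤ 1/2`, `H' (2 l - 1)` for `l ≥ 1/2`, duration `max M M'` (`isSeg_mono`);
  continuity by `Continuous.if_le` (both are `u'` at `l = 1/2`).
* `sh_linear`: `H l τ = (1 - l) u τ + l u' τ`, duration `max m m'`.
* `sh_reparam`: `H l τ = u ((1 - l) τ + l ϑ τ)`, duration `max m M`: for `τ ≤ 0` the argument is `≤ 0`, for `τ ≥ max m M` it is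
  `≥ m`.
* `isSeg_cat`: for `τ ≤ m`, `cat u m u' τ = u τ`; for `τ ≥ m`, it is `e + u' (τ - m)` (`obs_add'`).
* `sh_cat`: three steps (`sh_trans`).  Let `H, H'` be the homotopies for `u₁ ~ u₁'`, `u₂ ~ u₂'`, `M` the duration of `H`,
  `M₀ = max M (max m₁ m₁')`.
  (i) `cat u₁ m₁ u₂ ~ cat u₁ M₀ u₂`: `H'' l τ = u₁ τ + u₂ (τ - ((1 - l) m₁ + l M₀))`, each `H'' l` is
  `cat u₁ ((1-l) m₁ + l M₀) u₂`, a segment by `isSeg_cat`, as `u₁` is also a segment of duration `(1-l) m₁ + l M₀ ≥ m₁`;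
  (ii) `cat u₁ M₀ u₂ ~ cat u₁' M₀ u₂'`: `cat (H l) M₀ (H' l)`; (iii) `cat u₁' M₀ u₂' ~ cat u₁' m₁' u₂'`, as (i).
-/

open scoped ContDiff Topology
open Set Filter

namespace Pool.Agent.PTH

theorem sh_refl {u : ℝ → ℝ × ℝ} {m : ℝ} {e : ℤ × ℤ} (h : IsSeg u m e) : SH u u e :=
  ⟨m, fun _ => u, h.cont.comp continuous_snd, rfl, rfl, fun _ _ _ => h⟩

theorem sh_symm {u u' : ℝ → ℝ × ℝ} {e : ℤ × ℤ} (h : SH u u' e) : SH u' u e := by
  obtain ⟨M, H, hc, h0, h1, hs⟩ := h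
  refine ⟨M, fun l => H (1 - l), ?_, ?_, ?_, fun l hl hl' => hs (1 - l) (by linarith) (by linarith)⟩
  · exact hc.comp (f := fun q : ℝ × ℝ => (1 - q.1, q.2)) (by fun_prop)
  · show H (1 - 0) = u'
    rw [sub_zero, h1]
  · show H (1 - 1) = u
    rw [sub_self, h0]

theorem sh_trans {u u' u'' : ℝ → ℝ × ℝ} {e : ℤ × ℤ} (h : SH u u' e) (h' : SH u' u'' e) : SH u u'' e := by
  obtain ⟨M, H, hc, h0, h1, hs⟩ := h
  obtain ⟨M', H', hc', h0', h1', hs'⟩ := h'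
  refine ⟨max M M', fun l τ => if l ≤ 1 / 2 then H (2 * l) τ else H' (2 * l - 1) τ, ?_, ?_, ?_, ?_⟩
  · refine Continuous.if_le ?_ ?_ continuous_fst continuous_const ?_
    · exact hc.comp (f := fun q : ℝ × ℝ => (2 * q.1, q.2)) (by fun_prop)
    · exact hc'.comp (f := fun q : ℝ × ℝ => (2 * q.1 - 1, q.2)) (by fun_prop)
    · intro q hq
      rw [hq, show (2 : ℝ) * (1 / 2) = 1 by norm_num, sub_self, h1, h0']
  · funext τ
    show (if (0 : ℝ) ≤ 1 / 2 then H (2 * 0) τ else H' (2 * 0 - 1) τ) = u τ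
    rw [if_pos (by norm_num), mul_zero, h0]
  · funext τ
    show (if (1 : ℝ) ≤ 1 / 2 then H (2 * 1) τ else H' (2 * 1 - 1) τ) = u'' τ
    rw [if_neg (by norm_num), show (2 : ℝ) * 1 - 1 = 1 by norm_num, h1']
  · intro l hl hl'
    by_cases hh : l ≤ 1 / 2
    · have e1 : (fun τ => if l ≤ 1 / 2 then H (2 * l) τ else H' (2 * l - 1) τ) = H (2 * l) := by
        funext τ
        rw [if_pos hh]
      show IsSeg (fun τ => if l ≤ 1 / 2 then H (2 * l) τ else H' (2 * l - 1) τ) (max M M') e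
      rw [e1]
      exact isSeg_mono (hs (2 * l) (by linarith) (by linarith)) (le_max_left _ _)
    · have e1 : (fun τ => if l ≤ 1 / 2 then H (2 * l) τ else H' (2 * l - 1) τ) = H' (2 * l - 1) := by
        funext τ
        rw [if_neg hh]
      show IsSeg (fun τ => if l ≤ 1 / 2 then H (2 * l) τ else H' (2 * l - 1) τ) (max M M') e
      rw [e1]
      push Not at hh
      exact isSeg_mono (hs' (2 * l - 1) (by linarith) (by linarith)) (le_max_right _ _)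

theorem sh_linear {u u' : ℝ → ℝ × ℝ} {m m' : ℝ} {e : ℤ × ℤ} (h : IsSeg u m e) (h' : IsSeg u' m' e)
    (ha : ∀ τ l : ℝ, 0 ≤ l → l ≤ 1 → ¬ Obs ((1 - l) • u τ + l • u' τ)) : SH u u' e := by
  refine ⟨max m m', fun l τ => (1 - l) • u τ + l • u' τ, ?_, ?_, ?_, ?_⟩
  · have hc := h.cont
    have hc' := h'.cont
    fun_prop
  · funext τ
    simp
  · funext τ
    simp
  · intro l hl hl'
    refine ⟨h.nn.trans (le_max_left _ _), ?_, ?_, ?_, fun τ => ha τ l hl hl'⟩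
    · have hc := h.cont
      have hc' := h'.cont
      show Continuous fun τ => (1 - l) • u τ + l • u' τ
      fun_prop
    · intro τ hτ
      show (1 - l) • u τ + l • u' τ = (0, 0)
      rw [h.start τ hτ, h'.start τ hτ]
      simp
    · intro τ hτ
      show (1 - l) • u τ + l • u' τ = ((e.1 : ℝ), (e.2 : ℝ))
      rw [h.stop τ ((le_max_left _ _).trans hτ), h'.stop τ ((le_max_right _ _).trans hτ), ← add_smul,
        sub_add_cancel, one_smul]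

theorem sh_reparam {u : ℝ → ℝ × ℝ} {m M : ℝ} {e : ℤ × ℤ} (h : IsSeg u m e) (ϑ : ℝ → ℝ) (hc : Continuous ϑ)
    (h0 : ∀ τ ≤ 0, ϑ τ ≤ 0) (h1 : ∀ τ, M ≤ τ → m ≤ ϑ τ) : SH u (u ∘ ϑ) e := by
  refine ⟨max m M, fun l τ => u ((1 - l) * τ + l * ϑ τ), ?_, ?_, ?_, ?_⟩
  · refine h.cont.comp ?_
    fun_prop
  · funext τ
    simp
  · funext τ
    simp
  · intro l hl hl'
    refine ⟨h.nn.trans (le_max_left _ _), ?_, ?_, ?_, fun τ => h.avoid _⟩
    · show Continuous fun τ => u ((1 - l) * τ + l * ϑ τ)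
      refine h.cont.comp ?_
      fun_prop
    · intro τ hτ
      refine h.start _ ?_
      have e1 := h0 τ hτ
      have e2 : (1 - l) * τ ≤ 0 := mul_nonpos_of_nonneg_of_nonpos (by linarith) hτ
      have e3 : l * ϑ τ ≤ 0 := mul_nonpos_of_nonneg_of_nonpos hl e1
      linarith
    · intro τ hτ
      refine h.stop _ ?_
      have e1 := h1 τ ((le_max_right _ _).trans hτ)
      have e0 : m ≤ τ := (le_max_left _ _).trans hτ
      have e2 : (1 - l) * m ≤ (1 - l) * τ := mul_le_mul_of_nonneg_left e0 (by linarith)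
      have e3 : l * m ≤ l * ϑ τ := mul_le_mul_of_nonneg_left e1 hl
      linarith

theorem isSeg_zero : IsSeg (fun _ => (0 : ℝ × ℝ)) 0 0 := by
  refine ⟨le_refl _, continuous_const, fun _ _ => rfl, fun _ _ => ?_, fun _ => ?_⟩
  · simp only [Prod.fst_zero, Prod.snd_zero, Int.cast_zero]
    rfl
  · have h := not_obs_int 0 0
    rw [Int.cast_zero] at h
    exact h

theorem isSeg_cat {u u' : ℝ → ℝ × ℝ} {m m' : ℝ} {e e' : ℤ × ℤ} (h : IsSeg u m e) (h' : IsSeg u' m' e') :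
    IsSeg (cat u m u') (m + m') (e + e') := by
  have hn := h.nn
  have hn' := h'.nn
  refine ⟨add_nonneg hn hn', ?_, ?_, ?_, ?_⟩
  · have hc := h.cont
    have hc' := h'.cont
    show Continuous fun τ => u τ + u' (τ - m)
    fun_prop
  · intro τ hτ
    show u τ + u' (τ - m) = (0, 0)
    rw [h.start τ hτ, h'.start (τ - m) (by linarith)]
    simp
  · intro τ hτ
    show u τ + u' (τ - m) = (((e + e').1 : ℝ), ((e + e').2 : ℝ))
    rw [h.stop τ (by linarith), h'.stop (τ - m) (by linarith)]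
    simp
  · intro τ
    show ¬ Obs (u τ + u' (τ - m))
    rcases le_total τ m with hτ | hτ
    · rw [h'.start (τ - m) (by linarith)]
      have : u τ + ((0 : ℝ), (0 : ℝ)) = u τ := add_zero _
      rw [this]
      exact h.avoid τ
    · rw [h.stop τ hτ, obs_add']
      exact h'.avoid _

theorem seg_shift {u₁ u₂ : ℝ → ℝ × ℝ} {m₁ m₂ M₀ : ℝ} {e₁ e₂ : ℤ × ℤ} (h₁ : IsSeg u₁ m₁ e₁)
    (h₂ : IsSeg u₂ m₂ e₂) (hM : m₁ ≤ M₀) : SH (cat u₁ m₁ u₂) (cat u₁ M₀ u₂) (e₁ + e₂) := by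
  refine ⟨M₀ + m₂, fun l => cat u₁ ((1 - l) * m₁ + l * M₀) u₂, ?_, ?_, ?_, ?_⟩
  · have hc := h₁.cont
    have hc' := h₂.cont
    show Continuous fun q : ℝ × ℝ => u₁ q.2 + u₂ (q.2 - ((1 - q.1) * m₁ + q.1 * M₀))
    fun_prop
  · simp
  · simp
  · intro l hl hl'
    have e1 : m₁ ≤ (1 - l) * m₁ + l * M₀ := by
      have := mul_le_mul_of_nonneg_left hM hl
      linarith
    have e2 : (1 - l) * m₁ + l * M₀ ≤ M₀ := by
      have := mul_le_mul_of_nonneg_left hM (show 0 ≤ 1 - l by linarith)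
      linarith
    exact isSeg_mono (isSeg_cat (isSeg_mono h₁ e1) h₂) (by linarith)

theorem sh_cat {u₁ u₁' u₂ u₂' : ℝ → ℝ × ℝ} {m₁ m₁' m₂ m₂' : ℝ} {e₁ e₂ : ℤ × ℤ} (h₁ : IsSeg u₁ m₁ e₁)
    (h₁' : IsSeg u₁' m₁' e₁) (h₂ : IsSeg u₂ m₂ e₂) (h₂' : IsSeg u₂' m₂' e₂) (H₁ : SH u₁ u₁' e₁) (H₂ : SH u₂ u₂' e₂) :
    SH (cat u₁ m₁ u₂) (cat u₁' m₁' u₂') (e₁ + e₂) := by
  obtain ⟨M, H, hc, h0, h1, hs⟩ := H₁
  obtain ⟨M', H', hc', h0', h1', hs'⟩ := H₂
  obtain ⟨M₀, hM₀⟩ : ∃ M₀, M₀ = max M (max m₁ m₁') := ⟨_, rfl⟩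
  have k1 : M ≤ M₀ := hM₀ ▸ le_max_left _ _
  have k2 : m₁ ≤ M₀ := hM₀ ▸ (le_max_left _ _).trans (le_max_right _ _)
  have k3 : m₁' ≤ M₀ := hM₀ ▸ (le_max_right _ _).trans (le_max_right _ _)
  refine sh_trans (seg_shift h₁ h₂ k2) (sh_trans ?_ (sh_symm (seg_shift h₁' h₂' k3)))
  refine ⟨M₀ + M', fun l => cat (H l) M₀ (H' l), ?_, ?_, ?_, ?_⟩
  · show Continuous fun q : ℝ × ℝ => H q.1 q.2 + H' q.1 (q.2 - M₀)
    refine hc.add ?_
    exact hc'.comp (f := fun q : ℝ × ℝ => (q.1, q.2 - M₀)) (by fun_prop)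
  · show cat (H 0) M₀ (H' 0) = _
    rw [h0, h0']
  · show cat (H 1) M₀ (H' 1) = _
    rw [h1, h1']
  · intro l hl hl'
    exact isSeg_cat (isSeg_mono (hs l hl hl') k1) (hs' l hl hl')

end Pool.Agent.PTH
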