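import Pool.Agent.PTH.Bas
import Pool.Agent.CSG.GamAbs
import Pool.Agent.CSG.LDb
import Pool.Agent.RSG.LDc

/-!
# PTH/TC: charts of `(torus) × (interval) × (circle)`   (difficulty 2)

`E (x, ρ, t)`, `x = X + iY ∈ ℂ` modulo `Z + iZ`, `ρ ∈ (α, β)`, `t` modulo 1.

`exists_tlift`: apply `CSG.exists_gamma` with `e = E`, `D = {ρ ∈ (α, β)}`, `C = {ρ ∈ [α', β']}`, `T = ∅`,
`L (x, ρ, t) = (φ ρ x, ρ, t)`, `L'` the same with `(φ ρ)⁻¹`.
* `L` is a local diffeomorphism: `CSG.ld_of_perm` (the permutation `(x, ρ, t) ↦ (φ ρ x, ρ, t)` of `ℂ × ℝ × ℝ` and its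
  inverse are smooth).
* `hcomp`: `E (x, ρ, t) = E (x', ρ', t')` gives `x' = x + m + ni`, `ρ' = ρ`, `t' = t + k`; `φ ρ (x + m + ni) =
  φ ρ x + m + ni`, and `E` is periodic (`perx`, `equiv` with `Act.per`).  The same for the inverse.
* closed: `E '' C = E '' ({0 ≤ re, im ≤ 1} × [α', β'] × [0, 1])` is compact; `T2Space`.
* equivariance: `F (a t (E (x, ρ, s))) = F (E (x, ρ, s + t))`; a point which is not in `E '' D` is not after `a t`.

`VChart.tchart`: `E (x, ρ, t) = C (ρ ex (re x), im x, t)`, `(α, β) = (0, 1)`.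
* `loc`: composition of `C` with `(x, ρ, t) ↦ (ρ ex (re x), im x, t)`, which is a local diffeomorphism for `ρ > 0`
  by `CSG.ld_of_fderiv`: `ρ' ex X + 2πi ρ X' ex X = 0` implies `ρ' = 0`, `X' = 0`; (equal dimensions).
* `inj`: `ρ ex X = ρ' ex X'`, `ρ, ρ' > 0`: `ρ = ρ'` (norms), `ex X = ex X'` gives `X' = X + m` (`RSG.ex_eq_iff`).
-/

open scoped Manifold ContDiff Topology
open Set Filter
open Complex (I)

namespace Pool.Agent.PTH

open Pool.Agent.RSG (ex)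

variable {EP : Type*} [NormedAddCommGroup EP] [NormedSpace ℝ EP] {HP : Type*} [TopologicalSpace HP]
  {IP : ModelWithCorners ℝ EP HP} {P : Type*} [TopologicalSpace P] [ChartedSpace HP P]

/-- chart of `torus × (α, β) × circle` -/
structure TChart (IP : ModelWithCorners ℝ EP HP) (a : ℝ → P → P) (E : ℂ × ℝ × ℝ → P) (α β : ℝ) : Prop where
  perx : ∀ (x : ℂ) (ρ t : ℝ) (m n : ℤ), E (x + (m + n * I), ρ, t) = E (x, ρ, t)
  equiv : ∀ x ρ t, E (x, ρ, t) = a t (E (x, ρ, 0))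
  loc : ∀ (x : ℂ) (ρ t : ℝ), α < ρ → ρ < β → IsLocalDiffeomorphAt 𝓘(ℝ, ℂ × ℝ × ℝ) IP ∞ E (x, ρ, t)
  inj : ∀ (x : ℂ) (ρ t : ℝ) (x' : ℂ) (ρ' t' : ℝ), α < ρ → ρ < β → α < ρ' → ρ' < β →
    E (x, ρ, t) = E (x', ρ', t') → (∃ m n : ℤ, x' = x + (m + n * I)) ∧ ρ' = ρ ∧ ∃ k : ℤ, t' = t + k

theorem TC_act_int {a : ℝ → P → P} (hA : Act IP a) (k : ℤ) (x : P) : a (k : ℝ) x = x := by
  induction k using Int.induction_on with
  | zero => simpa using hA.zero x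
  | succ i ih =>
    push_cast
    rw [hA.add, hA.per]
    simpa using ih
  | pred i ih =>
    have h1 : a ((-(i : ℤ) : ℤ) : ℝ) x = a 1 (a ((-(i : ℤ) - 1 : ℤ) : ℝ) x) := by
      rw [← hA.add]
      congr 1
      push_cast
      ring
    rw [hA.per] at h1
    rw [← h1]
    exact ih

theorem TC_E_int {a : ℝ → P → P} {E : ℂ × ℝ × ℝ → P} {α β : ℝ} (hA : Act IP a)
    (hE : TChart IP a E α β) (x : ℂ) (ρ t : ℝ) (k : ℤ) : E (x, ρ, t + k) = E (x, ρ, t) := by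
  rw [hE.equiv x ρ (t + k), hA.add, TC_act_int hA, ← hE.equiv]

theorem TC_E_act {a : ℝ → P → P} {E : ℂ × ℝ × ℝ → P} {α β : ℝ} (hA : Act IP a)
    (hE : TChart IP a E α β) (x : ℂ) (ρ s t : ℝ) : a t (E (x, ρ, s)) = E (x, ρ, t + s) := by
  rw [hE.equiv x ρ (t + s), hA.add, ← hE.equiv]

theorem exists_tlift [T2Space P] {a : ℝ → P → P} {E : ℂ × ℝ × ℝ → P} {α β : ℝ} (hA : Act IP a)
    (hE : TChart IP a E α β) (φ : ℝ → Equiv.Perm ℂ) (hφ : ContDiff ℝ ∞ fun q : ℂ × ℝ => φ q.2 q.1)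
    (hφ' : ContDiff ℝ ∞ fun q : ℂ × ℝ => (φ q.2).symm q.1)
    (heq : ∀ ρ x (m n : ℤ), φ ρ (x + (m + n * I)) = φ ρ x + (m + n * I)) {α' β' : ℝ} (h1 : α < α') (h2 : β' < β)
    (hid : ∀ ρ, ρ ≤ α' ∨ β' ≤ ρ → ∀ x, φ ρ x = x) :
    ∃ F : Equiv.Perm P, (∀ p, IsLocalDiffeomorphAt IP IP ∞ F p) ∧
      (∀ x ρ t, α < ρ → ρ < β → F (E (x, ρ, t)) = E (φ ρ x, ρ, t)) ∧
      (∀ p, (∀ x ρ t, α' ≤ ρ → ρ ≤ β' → p ≠ E (x, ρ, t)) → F p = p) ∧
      (∀ t p, F (a t p) = a t (F p)) := by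
  classical
  have heq' : ∀ ρ x (m n : ℤ), (φ ρ).symm (x + (m + n * I)) = (φ ρ).symm x + (m + n * I) := by
    intro ρ x m n
    rw [Equiv.symm_apply_eq, heq, Equiv.apply_symm_apply]
  set D : Set (ℂ × ℝ × ℝ) := {q | α < q.2.1 ∧ q.2.1 < β} with hD
  set C : Set (ℂ × ℝ × ℝ) := {q | α' ≤ q.2.1 ∧ q.2.1 ≤ β'} with hC
  have hDo : IsOpen D := by
    apply IsOpen.inter
    · exact isOpen_lt continuous_const (continuous_fst.comp continuous_snd)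
    · exact isOpen_lt (continuous_fst.comp continuous_snd) continuous_const
  have hsub : C ⊆ D := fun q hq => ⟨h1.trans_le hq.1, hq.2.trans_lt h2⟩
  have hEc : ∀ q ∈ D, ContinuousAt E q := by
    rintro ⟨x, ρ, t⟩ hq
    exact CSG.ld_continuousAt (hE.loc x ρ t hq.1 hq.2)
  -- the image of `C` is closed
  have himg : E '' C = E '' ((Icc (0 : ℝ) 1 ×ℂ Icc (0 : ℝ) 1) ×ˢ (Icc α' β' ×ˢ Icc (0 : ℝ) 1)) := by
    apply Subset.antisymm
    · rintro _ ⟨⟨x, ρ, t⟩, hq, rfl⟩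
      refine ⟨(⟨Int.fract x.re, Int.fract x.im⟩, ρ, Int.fract t), ?_, ?_⟩
      · refine ⟨?_, ⟨hq.1, hq.2⟩, (Int.fract_nonneg t), (Int.fract_lt_one t).le⟩
        rw [Complex.mem_reProdIm]
        exact ⟨⟨Int.fract_nonneg _, (Int.fract_lt_one _).le⟩, ⟨Int.fract_nonneg _, (Int.fract_lt_one _).le⟩⟩
      · have e1 : x = (⟨Int.fract x.re, Int.fract x.im⟩ : ℂ) + ((⌊x.re⌋ : ℤ) + (⌊x.im⌋ : ℤ) * I) := by
          apply Complex.ext
          · simp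
          · simp
        have e2 : t = Int.fract t + (⌊t⌋ : ℤ) := (Int.fract_add_floor t).symm
        conv_rhs => rw [e1, e2, hE.perx, TC_E_int hA hE]
    · rintro _ ⟨⟨x, ρ, t⟩, hq, rfl⟩
      exact ⟨(x, ρ, t), ⟨hq.2.1.1, hq.2.1.2⟩, rfl⟩
  have hcl : IsClosed (E '' C ∪ (∅ : Set P)) := by
    rw [union_empty, himg]
    refine IsCompact.isClosed ?_
    refine IsCompact.image_of_continuousOn ?_ ?_
    · exact (isCompact_Icc.reProdIm isCompact_Icc).prod (isCompact_Icc.prod isCompact_Icc)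
    · rintro ⟨x, ρ, t⟩ hq
      exact (hEc _ (hsub ⟨hq.2.1.1, hq.2.1.2⟩)).continuousWithinAt
  -- the permutation of `ℂ × ℝ × ℝ`
  let f : (ℂ × ℝ × ℝ) ≃ (ℂ × ℝ × ℝ) := ⟨fun q => (φ q.2.1 q.1, q.2), fun q => ((φ q.2.1).symm q.1, q.2),
    fun q => by simp, fun q => by simp⟩
  have hf : ContDiff ℝ ∞ f := by
    have : ContDiff ℝ ∞ fun q : ℂ × ℝ × ℝ => φ q.2.1 q.1 :=
      hφ.comp (contDiff_fst.prodMk (contDiff_fst.comp contDiff_snd))
    exact this.prodMk contDiff_snd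
  have hf' : ContDiff ℝ ∞ f.symm := by
    have : ContDiff ℝ ∞ fun q : ℂ × ℝ × ℝ => (φ q.2.1).symm q.1 :=
      hφ'.comp (contDiff_fst.prodMk (contDiff_fst.comp contDiff_snd))
    exact this.prodMk contDiff_snd
  obtain ⟨Γ, g1, g2, g3, -⟩ := CSG.exists_gamma (J := IP) E D C (∅ : Set P) f f.symm hDo
    (fun z hz => hE.loc z.1 z.2.1 z.2.2 hz.1 hz.2) (fun z _ => by simp)
    (fun z _ => CSG.ld_of_perm hf hf' z) (fun z _ => f.apply_symm_apply z) (fun z _ => f.symm_apply_apply z)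
    (fun z hz => hz) (fun z hz => hz)
    (by
      rintro ⟨x, ρ, t⟩ hz ⟨x', ρ', t'⟩ hz' he
      obtain ⟨⟨m, n, hx⟩, hρ, k, ht⟩ := hE.inj x ρ t x' ρ' t' hz.1 hz.2 hz'.1 hz'.2 he
      subst hx hρ ht
      change E (φ ρ' x, ρ', t) = E (φ ρ' (x + (m + n * I)), ρ', t + k)
      rw [heq, hE.perx, TC_E_int hA hE])
    (by
      rintro ⟨x, ρ, t⟩ hz ⟨x', ρ', t'⟩ hz' he
      obtain ⟨⟨m, n, hx⟩, hρ, k, ht⟩ := hE.inj x ρ t x' ρ' t' hz.1 hz.2 hz'.1 hz'.2 he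
      subst hx hρ ht
      change E ((φ ρ').symm x, ρ', t) = E ((φ ρ').symm (x + (m + n * I)), ρ', t + k)
      rw [heq', hE.perx, TC_E_int hA hE])
    (by
      rintro ⟨x, ρ, t⟩ hz hzC
      change (φ ρ x, ρ, t) = (x, ρ, t)
      rw [hid ρ ?_ x]
      by_contra hcon
      push Not at hcon
      exact hzC ⟨hcon.1.le, hcon.2.le⟩)
    hcl hsub
  have g2' : ∀ x ρ t, α < ρ → ρ < β → Γ (E (x, ρ, t)) = E (φ ρ x, ρ, t) := fun x ρ t ha hb => g2 (x, ρ, t) ⟨ha, hb⟩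
  refine ⟨Γ, fun p => g1 p (by simp), g2', ?_, ?_⟩
  · intro p hp
    by_cases hpD : p ∈ E '' D
    · obtain ⟨⟨x, ρ, t⟩, hq, rfl⟩ := hpD
      rw [g2' x ρ t hq.1 hq.2, hid ρ ?_ x]
      by_contra hcon
      push Not at hcon
      exact hp x ρ t hcon.1.le hcon.2.le rfl
    · exact g3 p hpD
  · intro t p
    by_cases hpD : p ∈ E '' D
    · obtain ⟨⟨x, ρ, s⟩, hq, rfl⟩ := hpD
      rw [TC_E_act hA hE, g2' x ρ _ hq.1 hq.2, g2' x ρ _ hq.1 hq.2, TC_E_act hA hE]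
    · rw [g3 p hpD, g3]
      rintro ⟨⟨x, ρ, s⟩, hq, he⟩
      refine hpD ⟨(x, ρ, -t + s), hq, ?_⟩
      rw [← TC_E_act hA hE, he, ← hA.add, neg_add_cancel, hA.zero]

theorem TC_ex_deriv (x : ℝ) : HasDerivAt ex (2 * Real.pi * I * ex x) x := by
  have h1 : HasDerivAt (fun y : ℝ => ((2 * Real.pi * y : ℝ) : ℂ) * I) (2 * Real.pi * I) x := by
    have h2 : HasDerivAt (fun y : ℝ => (2 * Real.pi * y : ℝ)) (2 * Real.pi) x := by
      simpa using (hasDerivAt_id x).const_mul (2 * Real.pi)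
    have h3 := h2.ofReal_comp.mul_const I
    simpa using h3
  have h4 := h1.cexp
  have h5 : (fun y : ℝ => Complex.exp (((2 * Real.pi * y : ℝ) : ℂ) * I)) = ex := by
    funext y
    rfl
  rw [h5] at h4
  refine h4.congr_deriv ?_
  unfold ex
  ring

theorem TC_polar_ld (x : ℂ) (ρ t : ℝ) (hρ : 0 < ρ) :
    IsLocalDiffeomorphAt 𝓘(ℝ, ℂ × ℝ × ℝ) 𝓘(ℝ, ℂ × ℝ × ℝ) ∞
      (fun q : ℂ × ℝ × ℝ => ((q.2.1 : ℂ) * ex q.1.re, q.1.im, q.2.2)) (x, ρ, t) := by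
  set f : ℂ × ℝ × ℝ → ℂ × ℝ × ℝ := fun q => ((q.2.1 : ℂ) * ex q.1.re, q.1.im, q.2.2) with hf
  have hfs : ContDiff ℝ ∞ f := by
    have e1 : ContDiff ℝ ∞ fun q : ℂ × ℝ × ℝ => ((q.2.1 : ℝ) : ℂ) :=
      Complex.ofRealCLM.contDiff.comp (contDiff_fst.comp contDiff_snd)
    have e2 : ContDiff ℝ ∞ fun q : ℂ × ℝ × ℝ => ex q.1.re :=
      RSG.ex_smooth.comp (Complex.reCLM.contDiff.comp contDiff_fst)
    have e3 : ContDiff ℝ ∞ fun q : ℂ × ℝ × ℝ => q.1.im := Complex.imCLM.contDiff.comp contDiff_fst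
    have e4 : ContDiff ℝ ∞ fun q : ℂ × ℝ × ℝ => q.2.2 := contDiff_snd.comp contDiff_snd
    exact (e1.mul e2).prodMk (e3.prodMk e4)
  refine CSG.ld_of_fderiv (Filter.Eventually.of_forall fun y => hfs.contDiffAt) rfl ?_
  rintro ⟨v, r, s⟩ hv
  have hd : HasFDerivAt f (fderiv ℝ f (x, ρ, t)) ((x, ρ, t) + (0 : ℝ) • (v, r, s)) := by
    rw [zero_smul, add_zero]
    exact (hfs.differentiable (by simp) _).hasFDerivAt
  have hl : HasDerivAt (fun τ : ℝ => ((x, ρ, t) : ℂ × ℝ × ℝ) + τ • (v, r, s)) (v, r, s) 0 := by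
    have := ((hasDerivAt_id (0 : ℝ)).smul_const ((v, r, s) : ℂ × ℝ × ℝ)).const_add ((x, ρ, t) : ℂ × ℝ × ℝ)
    simpa using this
  have h1 : HasDerivAt (fun τ : ℝ => f (((x, ρ, t) : ℂ × ℝ × ℝ) + τ • (v, r, s))) (fderiv ℝ f (x, ρ, t) (v, r, s)) 0 :=
    hd.comp_hasDerivAt 0 hl
  rw [hv] at h1
  have h2 : HasDerivAt (fun τ : ℝ => (((ρ + τ * r : ℝ) : ℂ) * ex (x.re + τ * v.re), x.im + τ * v.im, t + τ * s))
      ((r : ℂ) * ex x.re + ρ * (2 * Real.pi * I * ex x.re * v.re), v.im, s) 0 := by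
    have a1 : HasDerivAt (fun τ : ℝ => ((ρ + τ * r : ℝ) : ℂ)) (r : ℂ) 0 := by
      have : HasDerivAt (fun τ : ℝ => ρ + τ * r) r 0 := by
        simpa using ((hasDerivAt_id (0 : ℝ)).mul_const r).const_add ρ
      exact this.ofReal_comp
    have a2 : HasDerivAt (fun τ : ℝ => x.re + τ * v.re) v.re 0 := by
      simpa using ((hasDerivAt_id (0 : ℝ)).mul_const v.re).const_add x.re
    have a3 : HasDerivAt (fun τ : ℝ => ex (x.re + τ * v.re)) (2 * Real.pi * I * ex x.re * v.re) 0 := by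
      have b1 : HasDerivAt ex (2 * Real.pi * I * ex x.re) (x.re + 0 * v.re) := by
        rw [zero_mul, add_zero]; exact TC_ex_deriv x.re
      have b2 := b1.scomp (0 : ℝ) a2
      refine b2.congr_deriv ?_
      rw [Complex.real_smul]
      ring
    have a4 : HasDerivAt (fun τ : ℝ => x.im + τ * v.im) v.im 0 := by
      simpa using ((hasDerivAt_id (0 : ℝ)).mul_const v.im).const_add x.im
    have a5 : HasDerivAt (fun τ : ℝ => t + τ * s) s 0 := by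
      simpa using ((hasDerivAt_id (0 : ℝ)).mul_const s).const_add t
    have a6 := a1.mul a3
    have a7 := a6.prodMk (a4.prodMk a5)
    refine a7.congr_deriv ?_
    simp
  have h3 : (fun τ : ℝ => f (((x, ρ, t) : ℂ × ℝ × ℝ) + τ • (v, r, s))) =
      fun τ : ℝ => (((ρ + τ * r : ℝ) : ℂ) * ex (x.re + τ * v.re), x.im + τ * v.im, t + τ * s) := by
    funext τ
    simp [hf]
  rw [h3] at h1
  have h4 := h1.unique h2
  have h5 : (r : ℂ) * ex x.re + ρ * (2 * Real.pi * I * ex x.re * v.re) = 0 := (congrArg Prod.fst h4).symm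
  have h6 : (0 : ℝ) = v.im := congrArg (fun q : ℂ × ℝ × ℝ => q.2.1) h4
  have h7 : (0 : ℝ) = s := congrArg (fun q : ℂ × ℝ × ℝ => q.2.2) h4
  have h8 : ex x.re * ((r : ℂ) + ρ * (2 * Real.pi * I * v.re)) = 0 := by
    rw [← h5]; ring
  have h9 : (r : ℂ) + ρ * (2 * Real.pi * I * v.re) = 0 := (mul_eq_zero.1 h8).resolve_left (RSG.ex_ne _)
  have h10 : r = 0 := by
    have := congrArg Complex.re h9
    simpa using this
  have h11 : v.re = 0 := by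
    have := congrArg Complex.im h9
    simp at this
    rcases this with h | h
    · exact absurd h hρ.ne'
    · exact h
  refine Prod.ext ?_ (Prod.ext h10 h7.symm)
  exact Complex.ext h11 h6.symm

theorem TC_perY {a : ℝ → P → P} {C : ℂ × ℝ × ℝ → P} (hC : VChart IP a C) (z : ℂ) (Y t : ℝ) (n : ℤ) :
    C (z, Y + n, t) = C (z, Y, t) := by
  induction n using Int.induction_on with
  | zero => simp
  | succ i ih =>
    push_cast
    rw [← add_assoc, hC.perY]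
    simpa using ih
  | pred i ih =>
    rw [← ih, ← hC.perY z (Y + ((-(i : ℤ) - 1 : ℤ) : ℝ)) t]
    congr 2
    push_cast
    ring_nf

theorem VChart.tchart {a : ℝ → P → P} {C : ℂ × ℝ × ℝ → P} (hC : VChart IP a C) :
    TChart IP a (fun q => C (q.2.1 * ex q.1.re, q.1.im, q.2.2)) 0 1 := by
  have hn : ∀ (ρ X : ℝ), 0 < ρ → ρ < 1 → ‖(ρ : ℂ) * ex X‖ < 1 := by
    intro ρ X h0 h1
    rw [norm_mul, RSG.ex_norm, mul_one, Complex.norm_real, Real.norm_of_nonneg h0.le]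
    exact h1
  refine ⟨?_, ?_, ?_, ?_⟩
  · intro x ρ t m n
    have e1 : (x + ((m : ℂ) + n * I)).re = x.re + m := by simp
    have e2 : (x + ((m : ℂ) + n * I)).im = x.im + n := by simp
    simp only [e1, e2, RSG.ex_add_int, TC_perY hC]
  · intro x ρ t
    exact hC.equiv _ _ _
  · intro x ρ t h0 h1
    exact IsLocalDiffeomorphAt.comp (hf := TC_polar_ld x ρ t h0) (hg := hC.loc _ _ _ (hn ρ x.re h0 h1))
  · intro x ρ t x' ρ' t' h0 h1 h0' h1' he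
    obtain ⟨h2, ⟨n, h3⟩, k, h4⟩ := hC.inj _ _ _ _ _ _ (hn ρ x.re h0 h1) (hn ρ' x'.re h0' h1') he
    obtain ⟨h5, m, h6⟩ := RSG.ex_polar h0 h0' h2
    refine ⟨⟨m, n, ?_⟩, h5.symm, k, h4⟩
    apply Complex.ext
    · simp [h6]
    · have h3' : x'.im = x.im + n := h3
      simp [h3']

end Pool.Agent.PTH
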