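import Pool.Agent.PTH.Wrd
import Pool.Agent.CSW.Gap

/-!
# PTH/Gap: reading the word of a path from the gaps in which it crosses the rows   (difficulty 3)

The row `i` is `Y = i`, its obstacles are `(m + 1/2, i)`, the gap `c` of the row is `|X - c| < 1/2`.

`gap_cmp`: `u, u'` continuous, `= (0, 0)` for `τ ≤ 0`, `= (z₁, z₂)` for `τ ≥ M`, `z₂ ∉ Z`, both cross every row only in the gap
`γ i`.  They are homotopic with fixed ends off the obstacles.  Proof: let `G : ℝ → ℝ` be continuous with `G i = γ i` for all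
integers `i` and `G z₂ = z₁`: `G` is the piecewise linear interpolation of `γ` (e.g. `G y = (1 - fract y) γ ⌊y⌋ + fract y γ (⌊y⌋ + 1)`)
plus a tent function `b y = (z₁ - (interpolation at z₂)) max 0 (1 - |y - z₂| / δ)` with `δ = min (fract z₂) (1 - fract z₂)`.  Homotopies:
(i) `u ~ (G ∘ u₂, u₂)`: linear in the first coordinate; when `u₂ τ = i` both first coordinates are in the gap `γ i` (convex);
(ii) `(G ∘ u₂, u₂) ~ (G ∘ u₂', u₂')`: `(G (y l), y l)`, `y l = (1 - l) u₂ + l u₂'`; if `y l = i` the first coordinate is `γ i`, an integer;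
(iii) back to `u'`.  The ends: `τ ≤ 0`: `u₂ = 0`, `G 0 = γ 0 = 0`; `τ ≥ M`: `y l = z₂`, `G z₂ = z₁`.
The output is an explicit continuous `H : ℝ → ℝ → ℝ × ℝ` (three pieces glued: use the trick `H = A (s₁) + (B (s₂) - B 0) + (C (s₃) - C 0)`,
`s_i = clamp (3 l - i + 1)`, or three times `sh_trans`, after adding the final descent `dwn`).

`dwn z M τ = (0, - (z₂ - n) clamp (τ - M))`: the final descent from `(m, z₂)`, `n < z₂ < n + 1`, to `(m, n)`.
`sh_gap`: a segment `w` with end `(m, n)` such that for `τ ≤ T` it satisfies the gap condition and for `τ ≥ T` it stays in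
`|X - m| < 1/2`, `n - 1 < Y < n + 1` (convex, no obstacles), with `n < (w T)₂ < n + 1` : `SH w (pos (gw γ n ++ xs (m - γ n)))`.
Proof: choose `z = (m, n + 1/4)`.  Let `u` be: `w` up to time `T`, then (during `[T, T + 1]`) straight from `w T` to `z` (this stays
strictly between the rows `n` and `n + 1`, no gap condition), then constant.  `w ~ (u, then straight down from z to (m, n))`:
after the time `T` both stay in the convex rectangle: linear homotopy (`sh_linear`).
For the word `L = gw γ n ++ xs (m - γ n)`, `P = pos L`, `N = |L|`: let `u' τ = P τ + (0, clamp τ / 4)` (`clamp τ = max 0 (min τ 1)`), it satisfies the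
gap condition (`gw_gap`: by induction on the list: in the time of an `x`-letter `Y = i + bump + clamp τ / 4 ∈ (i, i + 1)` unless
`τ = 0`; in the time of a `y`-letter from row `i` to row `i + 1`, `X = γ (i + 1)`, and `Y` is an integer only if it is `i + 1`, or
`τ = 0`).  `P ~ (u', then straight down)`: linear homotopy `P + l (0, ..)`, second coordinate `Y + l' ` with `0 ≤ l' ≤ 1/4`: during an
`x`-letter `i ≤ Y + l' < i + 1`, equal to `i` only if `bump = 0`, so `X` is an integer; during a `y`-letter `X` is an integer.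
`gap_cmp` for `u`, `u'` (both with end `z`; use a common `M`), then descend.

`mk_gw`: `FreeGroup.mk (gw γ n) = CSW.pw γ n`, `FreeGroup.mk (xs k) = x ^ k`.
-/

open scoped ContDiff Topology
open Set Filter

namespace Pool.Agent.PTH

/-- the word `x ^ k` -/
def xs (k : ℤ) : List (Bool × Bool) := List.replicate k.natAbs (true, decide (0 ≤ k))

/-- the word `x^{γ 1 - γ 0} y x^{γ 2 - γ 1} y ... x^{γ n - γ (n-1)} y` -/
def gw (γ : ℕ → ℤ) : ℕ → List (Bool × Bool)
  | 0 => []
  | n + 1 => gw γ n ++ xs (γ (n + 1) - γ n) ++ [(false, true)]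

theorem mk_xs (k : ℤ) : (FreeGroup.mk (xs k) : CSW.F2) = CSW.fx ^ k := by
  have aux : ∀ (b : Bool) (j : ℕ), (FreeGroup.mk (List.replicate j (true, b)) : CSW.F2) =
      (FreeGroup.mk [(true, b)]) ^ j := by
    intro b j
    induction j with
    | zero => simp [FreeGroup.one_eq_mk]
    | succ j ih =>
      rw [pow_succ', ← ih, FreeGroup.mul_mk]
      rfl
  unfold xs
  rw [aux]
  rcases le_or_gt 0 k with hk | hk
  · rw [decide_eq_true hk]
    obtain ⟨j, rfl⟩ := Int.eq_ofNat_of_zero_le hk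
    rw [Int.natAbs_natCast, zpow_natCast]
    rfl
  · rw [decide_eq_false (not_le.2 hk)]
    obtain ⟨j, hj⟩ := Int.eq_ofNat_of_zero_le (show 0 ≤ -k by omega)
    have hk' : k = -(j : ℤ) := by omega
    subst hk'
    rw [Int.natAbs_neg, Int.natAbs_natCast, zpow_neg, zpow_natCast, ← inv_pow]
    rfl

theorem mk_gw (γ : ℕ → ℤ) (n : ℕ) : (FreeGroup.mk (gw γ n) : CSW.F2) = CSW.pw γ n := by
  induction n with
  | zero => rfl
  | succ n ih =>
    show (FreeGroup.mk (gw γ n ++ xs (γ (n + 1) - γ n) ++ [(false, true)]) : CSW.F2) =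
      CSW.pw γ n * CSW.fx ^ (γ (n + 1) - γ n) * CSW.fy
    rw [← FreeGroup.mul_mk, ← FreeGroup.mul_mk, ih, mk_xs]
    rfl

theorem sumZ_xs (k : ℤ) : sumZ (xs k) = (k, 0) := by
  have aux : ∀ (b : Bool) (j : ℕ), sumZ (List.replicate j (true, b)) = ((j : ℤ) * sgn b, 0) := by
    intro b j
    induction j with
    | zero =>
      refine Prod.ext ?_ rfl
      show (0 : ℤ) = ((0 : ℕ) : ℤ) * sgn b
      rw [Nat.cast_zero, zero_mul]
    | succ j ih =>
      rw [List.replicate_succ]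
      show dirZ (true, b) + sumZ (List.replicate j (true, b)) = _
      rw [ih]
      simp only [dirZ, if_true, Prod.mk_add_mk, add_zero, Nat.cast_add, Nat.cast_one]
      congr 1
      ring
  unfold xs
  rw [aux]
  rcases le_or_gt 0 k with hk | hk
  · rw [decide_eq_true hk, Int.natAbs_of_nonneg hk]
    simp [sgn]
  · rw [decide_eq_false (not_le.2 hk), Int.ofNat_natAbs_of_nonpos hk.le]
    simp [sgn]

theorem sumZ_gw (γ : ℕ → ℤ) (n : ℕ) : sumZ (gw γ n) = (γ n - γ 0, (n : ℤ)) := by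
  induction n with
  | zero =>
    refine Prod.ext ?_ rfl
    show (0 : ℤ) = γ 0 - γ 0
    rw [sub_self]
  | succ n ih =>
    show sumZ (gw γ n ++ xs (γ (n + 1) - γ n) ++ [(false, true)]) = _
    rw [sumZ_append, sumZ_append, ih, sumZ_xs]
    simp [sumZ, dirZ, sgn]

/-! ### obstacles -/

theorem not_obs_near {q : ℝ × ℝ} {k : ℤ} (h : |q.1 - k| < 1 / 2) : ¬ Obs q := by
  rintro ⟨a, b, rfl⟩
  have h' : |((a : ℝ) + 1 / 2) - k| < 1 / 2 := h
  rw [abs_lt] at h'
  have h1 : (a : ℝ) < k := by linarith [h'.2]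
  have h2 : (k : ℝ) - 1 < a := by linarith [h'.1]
  have h3 : a < k := by exact_mod_cast h1
  have h4 : k - 1 < a := by exact_mod_cast h2
  omega

theorem not_obs_fst {q : ℝ × ℝ} {k : ℤ} (h : q.1 = k) : ¬ Obs q :=
  not_obs_near (k := k) (by rw [h, sub_self, abs_zero]; norm_num)

theorem not_obs_snd {q : ℝ × ℝ} {k : ℤ} (h : (k : ℝ) < q.2) (h' : q.2 < k + 1) : ¬ Obs q := by
  rintro ⟨a, b, rfl⟩
  have h1 : (k : ℝ) < b := h
  have h2 : (b : ℝ) < k + 1 := h'
  have h3 : k < b := by exact_mod_cast h1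
  have h4 : b < k + 1 := by exact_mod_cast h2
  omega

theorem gap_obs_add {q : ℝ × ℝ} {a b : ℤ} (h : Obs (((a : ℝ), (b : ℝ)) + q)) : Obs q := by
  obtain ⟨m, n, hmn⟩ := h
  refine ⟨m - a, n - b, ?_⟩
  have h1 : (a : ℝ) + q.1 = (m : ℝ) + 1 / 2 := congrArg Prod.fst hmn
  have h2 : (b : ℝ) + q.2 = (n : ℝ) := congrArg Prod.snd hmn
  refine Prod.ext ?_ ?_
  · show q.1 = ((m - a : ℤ) : ℝ) + 1 / 2
    push_cast
    linarith
  · show q.2 = ((n - b : ℤ) : ℝ)
    push_cast
    linarith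

theorem lt_comb {a x y l : ℝ} (hx : a < x) (hy : a < y) (hl : 0 ≤ l) (hl' : l ≤ 1) : a < (1 - l) * x + l * y := by
  have h1 : min x y ≤ (1 - l) * x + l * y := by
    have h2 := mul_le_mul_of_nonneg_left (min_le_left x y) (show 0 ≤ 1 - l by linarith)
    have h3 := mul_le_mul_of_nonneg_left (min_le_right x y) hl
    linarith
  exact (lt_min hx hy).trans_le h1

theorem comb_lt {a x y l : ℝ} (hx : x < a) (hy : y < a) (hl : 0 ≤ l) (hl' : l ≤ 1) : (1 - l) * x + l * y < a := by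
  have h1 : (1 - l) * x + l * y ≤ max x y := by
    have h2 := mul_le_mul_of_nonneg_left (le_max_left x y) (show 0 ≤ 1 - l by linarith)
    have h3 := mul_le_mul_of_nonneg_left (le_max_right x y) hl
    linarith
  exact h1.trans_lt (max_lt hx hy)

/-! ### the walk of a word, shifted up -/

theorem ltr_left (d : Bool × Bool) {τ : ℝ} (h : τ ≤ 0) : ltr d τ = 0 := (ltr_seg d).start τ h

theorem ltr_right (d : Bool × Bool) {τ : ℝ} (h : 1 ≤ τ) : ltr d τ = (((dirZ d).1 : ℝ), ((dirZ d).2 : ℝ)) :=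
  (ltr_seg d).stop τ h

theorem pos_left (L : List (Bool × Bool)) {τ : ℝ} (h : τ ≤ 0) : pos L τ = 0 := (pos_seg L).start τ h

theorem ltr_shift (d : Bool × Bool) (τ s : ℝ) (hs : 0 ≤ s) (hs' : s ≤ 1 / 4) : ¬ Obs (ltr d τ + (0, s)) := by
  rcases d with ⟨d1, d2⟩
  cases d1
  · refine not_obs_fst (k := 0) ?_
    simp [ltr]
  · rcases le_or_gt τ 0 with h | h
    · rw [ltr_left _ h, zero_add]
      exact not_obs_fst (k := 0) (by simp)
    · rcases le_or_gt 1 τ with h' | h'
      · rw [ltr_right _ h']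
        exact not_obs_fst (k := (dirZ (true, d2)).1) (by simp)
      · refine not_obs_snd (k := 0) ?_ ?_
        · have h1 := bump_pos h h'
          simp only [ltr, if_true, Prod.snd_add, Int.cast_zero]
          linarith
        · have h1 := bump_le τ
          simp only [ltr, if_true, Prod.snd_add, Int.cast_zero]
          linarith

theorem pos_shift (L : List (Bool × Bool)) (τ s : ℝ) (hs : 0 ≤ s) (hs' : s ≤ 1 / 4) :
    ¬ Obs (pos L τ + (0, s)) := by
  induction L generalizing τ with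
  | nil =>
    refine not_obs_fst (k := 0) ?_
    simp [pos]
  | cons d L ih =>
    show ¬ Obs (ltr d τ + pos L (τ - 1) + (0, s))
    rcases le_or_gt τ 1 with h | h
    · rw [pos_left L (show τ - 1 ≤ 0 by linarith), add_zero]
      exact ltr_shift d τ s hs hs'
    · rw [ltr_right d h.le, add_assoc]
      exact fun hO => ih (τ - 1) (gap_obs_add hO)

theorem pos_xs_snd (L : List (Bool × Bool)) (hL : ∀ d ∈ L, d.1 = true) (τ : ℝ) :
    0 ≤ (pos L τ).2 ∧ (pos L τ).2 ≤ 1 / 2 := by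
  induction L generalizing τ with
  | nil => simp [pos]
  | cons d L ih =>
    have hd : d.1 = true := hL d (by simp)
    have hL' : ∀ d ∈ L, d.1 = true := fun e he => hL e (by simp [he])
    have e : (pos (d :: L) τ).2 = bump τ + (pos L (τ - 1)).2 := by
      show (ltr d τ + pos L (τ - 1)).2 = _
      simp [ltr, hd]
    rw [e]
    rcases le_or_gt τ 1 with h | h
    · rw [pos_left L (show τ - 1 ≤ 0 by linarith)]
      simp only [Prod.snd_zero, add_zero]
      exact ⟨bump_nonneg τ, bump_le τ⟩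
    · rw [bump_right h.le, zero_add]
      exact ih hL' (τ - 1)

theorem xs_mem (k : ℤ) : ∀ d ∈ xs k, d.1 = true := by
  intro d hd
  unfold xs at hd
  rw [List.eq_of_mem_replicate hd]

theorem no_int {x : ℝ} {j : ℕ} (h1 : (j : ℝ) < x) (h2 : x < j + 1) (i : ℕ) : x ≠ i := by
  rintro rfl
  have h3 : j < i := by exact_mod_cast h1
  have h4 : i < j + 1 := by exact_mod_cast h2
  omega

/-- time `τ` of `A ++ B` -/
theorem pos_app_cases (A B : List (Bool × Bool)) (τ : ℝ) :
    pos (A ++ B) τ = pos A τ ∨ (0 ≤ τ - A.length ∧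
      pos (A ++ B) τ = (((sumZ A).1 : ℝ), ((sumZ A).2 : ℝ)) + pos B (τ - A.length)) := by
  rw [pos_append]
  show pos A τ + pos B (τ - A.length) = _ ∨ (_ ∧ pos A τ + pos B (τ - A.length) = _)
  rcases le_or_gt τ A.length with h | h
  · left
    rw [pos_left B (show τ - A.length ≤ 0 by linarith), add_zero]
  · right
    refine ⟨by linarith, ?_⟩
    rw [(pos_seg A).stop τ h.le]

/-- the row condition for one point: `p + (0, s)` -/
def RowOk (γ : ℕ → ℤ) (n : ℕ) (p : ℝ × ℝ) : Prop :=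
  0 ≤ p.2 ∧ p.2 ≤ n ∧ ∀ s : ℝ, 0 < s → s ≤ 1 / 4 → ∀ i : ℕ, p.2 + s = i → p.1 = γ i

theorem gw_row (γ : ℕ → ℤ) (h0 : γ 0 = 0) (n : ℕ) (τ : ℝ) : RowOk γ n (pos (gw γ n) τ) := by
  induction n generalizing τ with
  | zero =>
    refine ⟨by simp [gw, pos], by simp [gw, pos], ?_⟩
    intro s hs hs' i hi
    simp only [gw, pos, Prod.snd_zero, zero_add] at hi
    exact absurd hi (no_int (j := 0) (by simpa using hs) (by rw [Nat.cast_zero]; linarith) i)
  | succ n ih =>
    show RowOk γ (n + 1) (pos (gw γ n ++ xs (γ (n + 1) - γ n) ++ [(false, true)]) τ)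
    rcases pos_app_cases (gw γ n ++ xs (γ (n + 1) - γ n)) [(false, true)] τ with h | ⟨-, h⟩
    · rw [h]
      rcases pos_app_cases (gw γ n) (xs (γ (n + 1) - γ n)) τ with h' | ⟨-, h'⟩
      · rw [h']
        obtain ⟨a1, a2, a3⟩ := ih τ
        refine ⟨a1, a2.trans ?_, a3⟩
        push_cast
        linarith
      · rw [h', sumZ_gw]
        obtain ⟨b1, b2⟩ := pos_xs_snd _ (xs_mem (γ (n + 1) - γ n)) (τ - (gw γ n).length)
        simp only [RowOk, Prod.snd_add, Prod.fst_add, Int.cast_natCast]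
        have hn : (0 : ℝ) ≤ n := Nat.cast_nonneg n
        refine ⟨by linarith, by push_cast; linarith, ?_⟩
        intro s hs hs' i hi
        exact absurd hi (no_int (j := n) (by linarith) (by linarith) i)
    · rw [h, sumZ_append, sumZ_gw, sumZ_xs]
      have e : pos [(false, true)] (τ - (gw γ n ++ xs (γ (n + 1) - γ n)).length) =
          ((0 : ℝ), Real.smoothTransition (τ - (gw γ n ++ xs (γ (n + 1) - γ n)).length)) := by
        simp [pos, ltr, sgn]
      rw [e]
      have c1 := Real.smoothTransition.nonneg (τ - (gw γ n ++ xs (γ (n + 1) - γ n)).length)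
      have c2 := Real.smoothTransition.le_one (τ - (gw γ n ++ xs (γ (n + 1) - γ n)).length)
      generalize Real.smoothTransition (τ - (gw γ n ++ xs (γ (n + 1) - γ n)).length) = c at c1 c2
      have hn : (0 : ℝ) ≤ n := Nat.cast_nonneg n
      refine ⟨?_, ?_, ?_⟩
      · show (0 : ℝ) ≤ (((n : ℤ) + 0 : ℤ) : ℝ) + c
        push_cast
        linarith
      · show (((n : ℤ) + 0 : ℤ) : ℝ) + c ≤ ((n + 1 : ℕ) : ℝ)
        push_cast
        linarith
      · intro s hs hs' i hi
        have hi' : (((n : ℤ) + 0 : ℤ) : ℝ) + c + s = i := hi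
        push_cast at hi'
        show ((γ n - γ 0 + (γ (n + 1) - γ n) : ℤ) : ℝ) + 0 = (γ i : ℝ)
        have hi1 : i = n + 1 := by
          have d1 : (n : ℝ) < i := by linarith
          have d2 : (i : ℝ) < n + 2 := by linarith
          have d3 : n < i := by exact_mod_cast d1
          have d4 : i < n + 2 := by exact_mod_cast d2
          omega
        rw [hi1, h0]
        push_cast
        ring

theorem L_row (γ : ℕ → ℤ) (h0 : γ 0 = 0) (n : ℕ) (m : ℤ) (τ s : ℝ) (hs : 0 < s) (hs' : s ≤ 1 / 4) (i : ℕ)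
    (hi : (pos (gw γ n ++ xs (m - γ n)) τ).2 + s = i) :
    (pos (gw γ n ++ xs (m - γ n)) τ).1 = γ i := by
  rcases pos_app_cases (gw γ n) (xs (m - γ n)) τ with h' | ⟨-, h'⟩
  · rw [h'] at hi ⊢
    exact (gw_row γ h0 n τ).2.2 s hs hs' i hi
  · rw [h', sumZ_gw] at hi
    obtain ⟨b1, b2⟩ := pos_xs_snd _ (xs_mem (m - γ n)) (τ - (gw γ n).length)
    simp only [Prod.snd_add, Int.cast_natCast] at hi
    exact absurd hi (no_int (j := n) (by linarith) (by linarith) i)

theorem L_bound (γ : ℕ → ℤ) (h0 : γ 0 = 0) (n : ℕ) (m : ℤ) (τ : ℝ) :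
    0 ≤ (pos (gw γ n ++ xs (m - γ n)) τ).2 ∧ (pos (gw γ n ++ xs (m - γ n)) τ).2 ≤ n + 1 / 2 := by
  rcases pos_app_cases (gw γ n) (xs (m - γ n)) τ with h' | ⟨-, h'⟩
  · rw [h']
    obtain ⟨a1, a2, -⟩ := gw_row γ h0 n τ
    exact ⟨a1, by linarith⟩
  · rw [h', sumZ_gw]
    obtain ⟨b1, b2⟩ := pos_xs_snd _ (xs_mem (m - γ n)) (τ - (gw γ n).length)
    simp only [Prod.snd_add, Int.cast_natCast]
    have hn : (0 : ℝ) ≤ n := Nat.cast_nonneg n
    exact ⟨by linarith, by linarith⟩

/-! ### the clamp and the final descent -/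

/-- `0` for `τ ≤ 0`, `τ`, `1` for `τ ≥ 1` -/
noncomputable def clp (τ : ℝ) : ℝ := max 0 (min τ 1)

theorem clp_cont : Continuous clp := by
  unfold clp
  fun_prop

theorem clp_nonneg (τ : ℝ) : 0 ≤ clp τ := le_max_left _ _

theorem clp_le (τ : ℝ) : clp τ ≤ 1 := max_le zero_le_one (min_le_right _ _)

theorem clp_left {τ : ℝ} (h : τ ≤ 0) : clp τ = 0 := max_eq_left ((min_le_left _ _).trans h)

theorem clp_right {τ : ℝ} (h : 1 ≤ τ) : clp τ = 1 := by
  unfold clp
  rw [min_eq_right h]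
  exact max_eq_right zero_le_one

theorem clp_pos {τ : ℝ} (h : 0 < τ) : 0 < clp τ := lt_max_of_lt_right (lt_min h one_pos)

theorem clp_mono {τ τ' : ℝ} (h : τ ≤ τ') : clp τ ≤ clp τ' := max_le_max_left _ (min_le_min_right _ h)

/-- the final descent -/
noncomputable def dwn (R τ : ℝ) : ℝ × ℝ := (0, -(clp (τ - R) / 4))

theorem dwn_left {R τ : ℝ} (h : τ ≤ R) : dwn R τ = 0 := by
  unfold dwn
  rw [clp_left (show τ - R ≤ 0 by linarith)]
  simp

theorem sh_of (R : ℝ) (hR : 0 ≤ R) (m n : ℤ) (h : ℝ → ℝ → ℝ × ℝ) (hc : Continuous fun q : ℝ × ℝ => h q.1 q.2)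
    (h0 : ∀ l τ : ℝ, τ ≤ 0 → h l τ = (0, 0)) (h1 : ∀ l τ : ℝ, R ≤ τ → h l τ = ((m : ℝ), (n : ℝ) + 1 / 4))
    (ha : ∀ l τ : ℝ, 0 ≤ l → l ≤ 1 → ¬ Obs (h l τ)) :
    SH (fun τ => h 0 τ + dwn R τ) (fun τ => h 1 τ + dwn R τ) (m, n) := by
  refine ⟨R + 1, fun l τ => h l τ + dwn R τ, ?_, rfl, rfl, ?_⟩
  · have hcl := clp_cont
    unfold dwn
    fun_prop
  · intro l hl hl'
    refine ⟨by linarith, ?_, ?_, ?_, ?_⟩
    · have hcl := clp_cont
      have hc' : Continuous fun τ : ℝ => h l τ := hc.comp (f := fun τ : ℝ => (l, τ)) (by fun_prop)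
      unfold dwn
      fun_prop
    · intro τ hτ
      show h l τ + dwn R τ = _
      rw [h0 l τ hτ, dwn_left (hτ.trans hR), add_zero]
    · intro τ hτ
      show h l τ + dwn R τ = _
      rw [h1 l τ (by linarith)]
      unfold dwn
      rw [clp_right (show 1 ≤ τ - R by linarith)]
      refine Prod.ext ?_ ?_
      · show (m : ℝ) + 0 = m
        ring
      · show (n : ℝ) + 1 / 4 + -(1 / 4) = n
        ring
    · intro τ
      show ¬ Obs (h l τ + dwn R τ)
      rcases le_or_gt τ R with hτ | hτ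
      · rw [dwn_left hτ, add_zero]
        exact ha l τ hl hl'
      · rw [h1 l τ hτ.le]
        refine not_obs_fst (k := m) ?_
        show (m : ℝ) + 0 = m
        ring

/-- a continuous function with prescribed values -/
theorem exists_G (γ : ℕ → ℤ) (n : ℕ) (m : ℤ) : ∃ G : ℝ → ℝ, Continuous G ∧ (∀ i : ℕ, i ≤ n → G i = γ i) ∧
    G ((n : ℝ) + 1 / 4) = m := by
  classical
  let v : ℕ → ℝ := fun i => if i ≤ n then (i : ℝ) else (n : ℝ) + 1 / 4
  let r : ℕ → ℝ := fun i => if i ≤ n then (γ i : ℝ) else (m : ℝ)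
  have hinj : Set.InjOn v (Finset.range (n + 2)) := by
    intro i hi j hj hij
    have hi' : i < n + 2 := by simpa using hi
    have hj' : j < n + 2 := by simpa using hj
    have hnot : ∀ k : ℕ, (k : ℝ) ≠ (n : ℝ) + 1 / 4 := fun k hk =>
      no_int (j := n) (x := (n : ℝ) + 1 / 4) (by linarith) (by linarith) k hk.symm
    by_cases h1 : i ≤ n
    · by_cases h2 : j ≤ n
      · simp only [v, if_pos h1, if_pos h2] at hij
        exact_mod_cast hij
      · simp only [v, if_pos h1, if_neg h2] at hij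
        exact absurd hij (hnot i)
    · by_cases h2 : j ≤ n
      · simp only [v, if_neg h1, if_pos h2] at hij
        exact absurd hij.symm (hnot j)
      · omega
  refine ⟨fun x => (Lagrange.interpolate (Finset.range (n + 2)) v r).eval x, ?_, ?_, ?_⟩
  · exact (Lagrange.interpolate (Finset.range (n + 2)) v r).continuous
  · intro i hi
    have h := Lagrange.eval_interpolate_at_node r hinj (i := i) (by simp; omega)
    simp only [v, r, if_pos hi] at h
    exact h
  · have h := Lagrange.eval_interpolate_at_node r hinj (i := n + 1) (by simp)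
    simp only [v, r, if_neg (show ¬ n + 1 ≤ n by omega)] at h
    exact h

/-- the hypotheses on a path which ends in `(m, n + 1/4)` -/
structure GP (γ : ℕ → ℤ) (n : ℕ) (m : ℤ) (R : ℝ) (u : ℝ → ℝ × ℝ) : Prop where
  cont : Continuous u
  start : ∀ τ ≤ 0, u τ = (0, 0)
  stop : ∀ τ, R ≤ τ → u τ = ((m : ℝ), (n : ℝ) + 1 / 4)
  low : ∀ τ, -1 < (u τ).2
  top : ∀ τ, (u τ).2 < n + 1
  gap : ∀ τ, ∀ i : ℕ, (u τ).2 = i → |(u τ).1 - γ i| < 1 / 2

/-- an integer in the range is a natural number `≤ n` -/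
theorem int_range {n : ℕ} {b : ℤ} {x : ℝ} (hx : x = b) (h1 : -1 < x) (h2 : x < n + 1) :
    ∃ i : ℕ, i ≤ n ∧ (b : ℝ) = i := by
  subst hx
  have h3 : (-1 : ℤ) < b := by exact_mod_cast h1
  have h4 : b < n + 1 := by exact_mod_cast h2
  obtain ⟨i, rfl⟩ := Int.eq_ofNat_of_zero_le (show 0 ≤ b by omega)
  exact ⟨i, by omega, by simp⟩

theorem gap_one {γ : ℕ → ℤ} {n : ℕ} {m : ℤ} {R : ℝ} {u : ℝ → ℝ × ℝ} (hR : 0 ≤ R) (h0 : γ 0 = 0)
    (hu : GP γ n m R u) {G : ℝ → ℝ} (hG : Continuous G) (hG' : ∀ i : ℕ, i ≤ n → G i = γ i)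
    (hGz : G ((n : ℝ) + 1 / 4) = m) :
    SH (fun τ => u τ + dwn R τ) (fun τ => (G (u τ).2, (u τ).2) + dwn R τ) (m, (n : ℤ)) := by
  have hG0 : G 0 = 0 := by
    have := hG' 0 (Nat.zero_le n)
    rw [h0] at this
    simpa using this
  have key := sh_of R hR m (n : ℤ) (fun l τ => ((1 - l) * (u τ).1 + l * G (u τ).2, (u τ).2)) ?_ ?_ ?_ ?_
  · have e0 : (fun τ => ((1 - (0 : ℝ)) * (u τ).1 + 0 * G (u τ).2, (u τ).2) + dwn R τ) =
        fun τ => u τ + dwn R τ := by
      funext τ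
      congr 1
      refine Prod.ext ?_ rfl
      show (1 - (0 : ℝ)) * (u τ).1 + 0 * G (u τ).2 = (u τ).1
      ring
    have e1 : (fun τ => ((1 - (1 : ℝ)) * (u τ).1 + 1 * G (u τ).2, (u τ).2) + dwn R τ) =
        fun τ => (G (u τ).2, (u τ).2) + dwn R τ := by
      funext τ
      congr 1
      refine Prod.ext ?_ rfl
      show (1 - (1 : ℝ)) * (u τ).1 + 1 * G (u τ).2 = G (u τ).2
      ring
    rw [e0, e1] at key
    exact key
  · have hc := hu.cont
    fun_prop
  · intro l τ hτ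
    show ((1 - l) * (u τ).1 + l * G (u τ).2, (u τ).2) = (0, 0)
    rw [hu.start τ hτ]
    simp [hG0]
  · intro l τ hτ
    show ((1 - l) * (u τ).1 + l * G (u τ).2, (u τ).2) = _
    rw [hu.stop τ hτ]
    simp only [hGz, Int.cast_natCast]
    refine Prod.ext ?_ rfl
    show (1 - l) * (m : ℝ) + l * m = m
    ring
  · intro l τ hl hl' hO
    have hO' := hO
    obtain ⟨a, b, hab⟩ := hO
    have h2 : (u τ).2 = (b : ℝ) := congrArg Prod.snd hab
    obtain ⟨i, hi, hbi⟩ := int_range h2 (hu.low τ) (hu.top τ)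
    rw [hbi] at h2
    have h3 := hu.gap τ i h2
    refine not_obs_near (k := γ i) ?_ hO'
    show |(1 - l) * (u τ).1 + l * G (u τ).2 - γ i| < 1 / 2
    rw [h2, hG' i hi, show (1 - l) * (u τ).1 + l * (γ i : ℝ) - γ i = (1 - l) * ((u τ).1 - γ i) by ring,
      abs_mul, abs_of_nonneg (show 0 ≤ 1 - l by linarith)]
    have h4 := abs_nonneg ((u τ).1 - γ i)
    nlinarith

theorem gap_two {γ : ℕ → ℤ} {n : ℕ} {m : ℤ} {R : ℝ} {u u' : ℝ → ℝ × ℝ} (hR : 0 ≤ R) (h0 : γ 0 = 0)
    (hu : GP γ n m R u) (hu' : GP γ n m R u') {G : ℝ → ℝ} (hG : Continuous G)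
    (hG' : ∀ i : ℕ, i ≤ n → G i = γ i) (hGz : G ((n : ℝ) + 1 / 4) = m) :
    SH (fun τ => (G (u τ).2, (u τ).2) + dwn R τ) (fun τ => (G (u' τ).2, (u' τ).2) + dwn R τ) (m, (n : ℤ)) := by
  have hG0 : G 0 = 0 := by
    have := hG' 0 (Nat.zero_le n)
    rw [h0] at this
    simpa using this
  have key := sh_of R hR m (n : ℤ)
    (fun l τ => (G ((1 - l) * (u τ).2 + l * (u' τ).2), (1 - l) * (u τ).2 + l * (u' τ).2)) ?_ ?_ ?_ ?_
  · simpa only [sub_zero, one_mul, zero_mul, add_zero, sub_self, zero_add] using key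
  · have hc := hu.cont
    have hc' := hu'.cont
    fun_prop
  · intro l τ hτ
    show (G ((1 - l) * (u τ).2 + l * (u' τ).2), (1 - l) * (u τ).2 + l * (u' τ).2) = (0, 0)
    rw [hu.start τ hτ, hu'.start τ hτ]
    simp [hG0]
  · intro l τ hτ
    show (G ((1 - l) * (u τ).2 + l * (u' τ).2), (1 - l) * (u τ).2 + l * (u' τ).2) = _
    rw [hu.stop τ hτ, hu'.stop τ hτ]
    have e : (1 - l) * ((n : ℝ) + 1 / 4) + l * ((n : ℝ) + 1 / 4) = (n : ℝ) + 1 / 4 := by ring
    simp only [e, hGz, Int.cast_natCast]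
  · intro l τ hl hl' hO
    have hO' := hO
    obtain ⟨a, b, hab⟩ := hO
    have h2 : (1 - l) * (u τ).2 + l * (u' τ).2 = (b : ℝ) := congrArg Prod.snd hab
    have k1 := hu.low τ
    have k2 := hu'.low τ
    have k3 := hu.top τ
    have k4 := hu'.top τ
    obtain ⟨i, hi, hbi⟩ := int_range h2 (lt_comb k1 k2 hl hl') (comb_lt k3 k4 hl hl')
    rw [hbi] at h2
    refine not_obs_fst (k := γ i) ?_ hO'
    show G ((1 - l) * (u τ).2 + l * (u' τ).2) = γ i
    rw [h2, hG' i hi]

theorem gap_cmp {γ : ℕ → ℤ} {n : ℕ} {m : ℤ} {R : ℝ} {u u' : ℝ → ℝ × ℝ} (hR : 0 ≤ R) (h0 : γ 0 = 0)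
    (hu : GP γ n m R u) (hu' : GP γ n m R u') :
    SH (fun τ => u τ + dwn R τ) (fun τ => u' τ + dwn R τ) (m, (n : ℤ)) := by
  obtain ⟨G, hG, hG', hGz⟩ := exists_G γ n m
  exact sh_trans (gap_one hR h0 hu hG hG' hGz) (sh_trans (gap_two hR h0 hu hu' hG hG' hGz)
    (sh_symm (gap_one hR h0 hu' hG hG' hGz)))

/-- the rectangle around the end -/
def Box (m : ℤ) (n : ℕ) (q : ℝ × ℝ) : Prop := |q.1 - m| < 1 / 2 ∧ (n : ℝ) - 1 < q.2 ∧ q.2 < n + 1

theorem box_comb {m : ℤ} {n : ℕ} {q q' : ℝ × ℝ} (h : Box m n q) (h' : Box m n q') {l : ℝ} (hl : 0 ≤ l) (hl' : l ≤ 1) :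
    Box m n ((1 - l) • q + l • q') := by
  obtain ⟨a1, a2, a3⟩ := h
  obtain ⟨b1, b2, b3⟩ := h'
  rw [abs_lt] at a1 b1
  refine ⟨?_, ?_, ?_⟩
  · rw [abs_lt]
    show -(1 / 2) < (1 - l) * q.1 + l * q'.1 - m ∧ (1 - l) * q.1 + l * q'.1 - m < 1 / 2
    have e1 := lt_comb (show (m : ℝ) - 1 / 2 < q.1 by linarith [a1.1]) (show (m : ℝ) - 1 / 2 < q'.1 by linarith [b1.1]) hl hl'
    have e2 := comb_lt (show q.1 < (m : ℝ) + 1 / 2 by linarith [a1.2]) (show q'.1 < (m : ℝ) + 1 / 2 by linarith [b1.2]) hl hl'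
    constructor
    · linarith
    · linarith
  · exact lt_comb a2 b2 hl hl'
  · exact comb_lt a3 b3 hl hl'

/-- the path `w` up to the time `T`, then straight to `(m, n + 1/4)` -/
noncomputable def uw (w : ℝ → ℝ × ℝ) (T : ℝ) (m : ℤ) (n : ℕ) (τ : ℝ) : ℝ × ℝ :=
  w (min τ T) + clp (τ - T) • (((m : ℝ), (n : ℝ) + 1 / 4) - w T)

theorem uw_left (w : ℝ → ℝ × ℝ) {T : ℝ} (m : ℤ) (n : ℕ) {τ : ℝ} (h : τ ≤ T) : uw w T m n τ = w τ := by
  unfold uw
  rw [min_eq_left h, clp_left (show τ - T ≤ 0 by linarith), zero_smul, add_zero]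

theorem uw_right (w : ℝ → ℝ × ℝ) {T : ℝ} (m : ℤ) (n : ℕ) {τ : ℝ} (h : T ≤ τ) :
    uw w T m n τ = (1 - clp (τ - T)) • w T + clp (τ - T) • ((m : ℝ), (n : ℝ) + 1 / 4) := by
  unfold uw
  rw [min_eq_right h]
  module

/-- The word of a path which crosses the row `i`, `0 ≤ i ≤ n`, only in the gap `γ i`. -/
theorem sh_gap {w : ℝ → ℝ × ℝ} {M T : ℝ} {m : ℤ} {n : ℕ} (hw : IsSeg w M (m, (n : ℤ))) (γ : ℕ → ℤ) (h0 : γ 0 = 0)
    (hlow : ∀ τ, -1 < (w τ).2) (hT0 : 0 ≤ T) (hT : (n : ℝ) < (w T).2 ∧ (w T).2 < n + 1)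
    (hg : ∀ τ ≤ T, ∀ i : ℕ, (w τ).2 = i → |(w τ).1 - γ i| < 1 / 2)
    (htop : ∀ τ ≤ T, (w τ).2 < n + 1)
    (hend : ∀ τ, T ≤ τ → |(w τ).1 - m| < 1 / 2 ∧ (n : ℝ) - 1 < (w τ).2 ∧ (w τ).2 < n + 1) :
    SH w (pos (gw γ n ++ xs (m - γ n))) (m, (n : ℤ)) := by
  obtain ⟨L, hL⟩ : ∃ L, L = gw γ n ++ xs (m - γ n) := ⟨_, rfl⟩
  have hsum : sumZ L = (m, (n : ℤ)) := by
    rw [hL, sumZ_append, sumZ_gw, sumZ_xs, h0]
    refine Prod.ext ?_ ?_
    · show γ n - 0 + (m - γ n) = m
      ring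
    · show (n : ℤ) + 0 = n
      ring
  have hP := pos_seg L
  rw [hsum] at hP
  rw [← hL]
  obtain ⟨R, hR⟩ : ∃ R : ℝ, R = max (T + 1) (max L.length 1) := ⟨_, rfl⟩
  have hR1 : T + 1 ≤ R := hR ▸ le_max_left _ _
  have hR2 : (L.length : ℝ) ≤ R := hR ▸ (le_max_left _ _).trans (le_max_right _ _)
  have hR3 : 1 ≤ R := hR ▸ (le_max_right _ _).trans (le_max_right _ _)
  have hz : Box m n ((m : ℝ), (n : ℝ) + 1 / 4) := by
    refine ⟨?_, ?_, ?_⟩
    · simp
    · show (n : ℝ) - 1 < n + 1 / 4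
      linarith
    · show (n : ℝ) + 1 / 4 < n + 1
      linarith
  -- the path `uw`
  have gu : GP γ n m R (uw w T m n) := by
    refine ⟨?_, ?_, ?_, ?_, ?_, ?_⟩
    · have hc := hw.cont
      have hcl := clp_cont
      unfold uw
      fun_prop
    · intro τ hτ
      rw [uw_left w m n (hτ.trans hT0), hw.start τ hτ]
    · intro τ hτ
      rw [uw_right w m n (by linarith), clp_right (by linarith)]
      simp
    · intro τ
      rcases le_or_gt τ T with h | h
      · rw [uw_left w m n h]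
        exact hlow τ
      · rw [uw_right w m n h.le]
        have c1 := clp_nonneg (τ - T)
        have c2 := clp_le (τ - T)
        show -1 < (1 - clp (τ - T)) * (w T).2 + clp (τ - T) * ((n : ℝ) + 1 / 4)
        have hn : (0 : ℝ) ≤ n := Nat.cast_nonneg n
        exact lt_comb (by linarith [hT.1]) (by linarith) c1 c2
    · intro τ
      rcases le_or_gt τ T with h | h
      · rw [uw_left w m n h]
        exact htop τ h
      · rw [uw_right w m n h.le]
        have c1 := clp_nonneg (τ - T)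
        have c2 := clp_le (τ - T)
        show (1 - clp (τ - T)) * (w T).2 + clp (τ - T) * ((n : ℝ) + 1 / 4) < n + 1
        exact comb_lt hT.2 (by linarith) c1 c2
    · intro τ i hi
      rcases le_or_gt τ T with h | h
      · rw [uw_left w m n h] at hi ⊢
        exact hg τ h i hi
      · rw [uw_right w m n h.le] at hi
        have c1 := clp_nonneg (τ - T)
        have c2 := clp_le (τ - T)
        have hi' : (1 - clp (τ - T)) * (w T).2 + clp (τ - T) * ((n : ℝ) + 1 / 4) = i := hi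
        exact absurd hi' (no_int (j := n) (lt_comb hT.1 (by linarith) c1 c2) (comb_lt hT.2 (by linarith) c1 c2) i)
  -- the path `up`
  have gp : GP γ n m R fun τ => pos L τ + (0, clp τ / 4) := by
    refine ⟨?_, ?_, ?_, ?_, ?_, ?_⟩
    · have hc := hP.cont
      have hcl := clp_cont
      fun_prop
    · intro τ hτ
      show pos L τ + (0, clp τ / 4) = _
      rw [hP.start τ hτ, clp_left hτ]
      simp
    · intro τ hτ
      show pos L τ + (0, clp τ / 4) = _
      rw [hP.stop τ (by linarith), clp_right (by linarith)]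
      simp
    · intro τ
      show -1 < (pos L τ).2 + clp τ / 4
      have a := (L_bound γ h0 n m τ).1
      rw [← hL] at a
      have c1 := clp_nonneg τ
      linarith
    · intro τ
      show (pos L τ).2 + clp τ / 4 < n + 1
      have a := (L_bound γ h0 n m τ).2
      rw [← hL] at a
      have c1 := clp_le τ
      linarith
    · intro τ i hi
      have hi' : (pos L τ).2 + clp τ / 4 = i := hi
      show |(pos L τ).1 + 0 - γ i| < 1 / 2
      rcases le_or_gt τ 0 with h | h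
      · rw [hP.start τ h, clp_left h] at hi'
        have hi0 : i = 0 := by
          have : (0 : ℝ) = i := by simpa using hi'
          exact_mod_cast this.symm
        rw [hP.start τ h, hi0, h0]
        simp
      · have c1 := clp_pos h
        have c2 := clp_le τ
        have a := L_row γ h0 n m τ (clp τ / 4) (by linarith) (by linarith) i (by rw [← hL]; exact hi')
        rw [← hL] at a
        rw [a]
        simp
  have hmid := gap_cmp (by linarith) h0 gu gp
  -- `w ~ uw`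
  have box1 : ∀ τ, T ≤ τ → Box m n (uw w T m n τ + dwn R τ) := by
    intro τ hτ
    rcases le_or_gt τ R with h | h
    · rw [dwn_left h, add_zero, uw_right w m n hτ]
      exact box_comb (hend T le_rfl) hz (clp_nonneg _) (clp_le _)
    · rw [gu.stop τ h.le]
      unfold dwn
      have c1 := clp_nonneg (τ - R)
      have c2 := clp_le (τ - R)
      refine ⟨?_, ?_, ?_⟩
      · simp
      · show (n : ℝ) - 1 < (n : ℝ) + 1 / 4 + -(clp (τ - R) / 4)
        linarith
      · show (n : ℝ) + 1 / 4 + -(clp (τ - R) / 4) < n + 1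
        linarith
  have seg1 : IsSeg (fun τ => uw w T m n τ + dwn R τ) (R + 1) (m, (n : ℤ)) := by
    refine ⟨by linarith, ?_, ?_, ?_, ?_⟩
    · have hc := gu.cont
      have hcl := clp_cont
      unfold dwn
      fun_prop
    · intro τ hτ
      show uw w T m n τ + dwn R τ = _
      rw [gu.start τ hτ, dwn_left (by linarith), add_zero]
    · intro τ hτ
      show uw w T m n τ + dwn R τ = _
      rw [gu.stop τ (by linarith)]
      unfold dwn
      rw [clp_right (show 1 ≤ τ - R by linarith)]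
      refine Prod.ext ?_ ?_
      · show (m : ℝ) + 0 = m
        ring
      · show (n : ℝ) + 1 / 4 + -(1 / 4) = ((n : ℤ) : ℝ)
        rw [Int.cast_natCast]
        ring
    · intro τ
      show ¬ Obs (uw w T m n τ + dwn R τ)
      rcases le_or_gt τ T with h | h
      · rw [uw_left w m n h, dwn_left (by linarith), add_zero]
        exact hw.avoid τ
      · exact not_obs_near (box1 τ h.le).1
  have hA : SH w (fun τ => uw w T m n τ + dwn R τ) (m, (n : ℤ)) := by
    refine sh_linear hw seg1 ?_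
    intro τ l hl hl'
    show ¬ Obs ((1 - l) • w τ + l • (uw w T m n τ + dwn R τ))
    rcases le_or_gt τ T with h | h
    · rw [uw_left w m n h, dwn_left (by linarith), add_zero, ← add_smul, sub_add_cancel, one_smul]
      exact hw.avoid τ
    · exact not_obs_near (box_comb (hend τ h.le) (box1 τ h.le) hl hl').1
  -- `pos L ~ up`
  have hcR : ∀ τ, 0 ≤ clp τ / 4 + -(clp (τ - R) / 4) ∧ clp τ / 4 + -(clp (τ - R) / 4) ≤ 1 / 4 := by
    intro τ
    have c1 := clp_mono (show τ - R ≤ τ by linarith)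
    have c2 := clp_le τ
    have c3 := clp_nonneg (τ - R)
    exact ⟨by linarith, by linarith⟩
  have eqP : ∀ τ, pos L τ + (0, clp τ / 4) + dwn R τ = pos L τ + (0, clp τ / 4 + -(clp (τ - R) / 4)) := by
    intro τ
    unfold dwn
    rw [add_assoc]
    congr 1
    refine Prod.ext ?_ rfl
    show (0 : ℝ) + 0 = 0
    ring
  have seg2 : IsSeg (fun τ => pos L τ + (0, clp τ / 4) + dwn R τ) (R + 1) (m, (n : ℤ)) := by
    refine ⟨by linarith, ?_, ?_, ?_, ?_⟩
    · have hc := hP.cont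
      have hcl := clp_cont
      unfold dwn
      fun_prop
    · intro τ hτ
      show pos L τ + (0, clp τ / 4) + dwn R τ = _
      rw [gp.start τ hτ, dwn_left (by linarith), add_zero]
    · intro τ hτ
      show pos L τ + (0, clp τ / 4) + dwn R τ = _
      rw [eqP τ, hP.stop τ (by linarith), clp_right (by linarith), clp_right (by linarith)]
      simp
    · intro τ
      show ¬ Obs (pos L τ + (0, clp τ / 4) + dwn R τ)
      rw [eqP τ]
      exact pos_shift L τ _ (hcR τ).1 (hcR τ).2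
  have hB : SH (pos L) (fun τ => pos L τ + (0, clp τ / 4) + dwn R τ) (m, (n : ℤ)) := by
    refine sh_linear hP seg2 ?_
    intro τ l hl hl'
    show ¬ Obs ((1 - l) • pos L τ + l • (pos L τ + (0, clp τ / 4) + dwn R τ))
    rw [eqP τ]
    obtain ⟨c1, c2⟩ := hcR τ
    have e : (1 - l) • pos L τ + l • (pos L τ + ((0 : ℝ), clp τ / 4 + -(clp (τ - R) / 4))) =
        pos L τ + ((0 : ℝ), l * (clp τ / 4 + -(clp (τ - R) / 4))) := by
      refine Prod.ext ?_ ?_
      · show (1 - l) * (pos L τ).1 + l * ((pos L τ).1 + 0) = (pos L τ).1 + 0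
        ring
      · show (1 - l) * (pos L τ).2 + l * ((pos L τ).2 + (clp τ / 4 + -(clp (τ - R) / 4))) =
          (pos L τ).2 + l * (clp τ / 4 + -(clp (τ - R) / 4))
        ring
    rw [e]
    exact pos_shift L τ _ (by positivity) (by nlinarith)
  exact sh_trans hA (sh_trans hmid (sh_symm hB))

end Pool.Agent.PTH
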