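import Pool.Agent.PTH.FootA
import Pool.Agent.PTH.WEq
import Pool.Agent.CSW.Free

/-!
# PTH/FootB: `x ∈ Γ_F`   (difficulty 2)

`u L ρ = pos L (|L| st (4 ρ - 2))`: `0` for `ρ ≤ 1/2`, `sumZ L` for `ρ ≥ 3/4`.
* `seg_AB : IsSeg (fA, fB) (1/2) (1, 0)`, `seg_B : IsSeg (0, fB) (1/2) (0, 0)`, `seg_c L : IsSeg (fun τ => pos L (|L| st (4 τ))) (1/4)
  (sumZ L)`; note `(fA ρ, fB ρ) + u L ρ = cat (fA, fB) (1/2) (fun τ => pos L (|L| st (4 τ))) ρ` (definition of `cat`, `ring_nf`).
  Avoid, for `seg_AB`: `fA ρ = m + 1/2` gives `3/16 < ρ < 5/16`, so `fB ρ = ρ` is not an integer.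
* `sh_AB : SH (fA, fB) (pos [(true, true)]) (1, 0)` by `sh_linear` with `ltr_seg`: the second coordinate of the combination is
  `(1 - l) fB τ + l bump τ ∈ [0, 1/2]`; if it is an integer it is `0`, so `(1 - l) fB τ = 0` and `l bump τ = 0`.  If `fB τ ≠ 0` then `l = 1`,
  `bump τ = 0`, so (`bump_pos`) `τ ≤ 0` or `τ ≥ 1`, so `fB τ = 0`, contradiction.  So `fB τ = 0`, `τ ≤ 1/16` or `τ ≥ 1/2` (`fB_pos`), `fA τ` is
  `0` or `1`.  If `bump τ ≠ 0` then `l = 0`, the first coordinate is `fA τ`, an integer.  Else `τ ≤ 0` or `τ ≥ 1` and both first coordinates are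
  the same integer.  (`pos [d] = ltr d`: `pos [d] τ = ltr d τ + 0`.)
* `sh_B : SH (0, fB) (fun _ => 0) (0, 0)`: `sh_linear`, the first coordinate is `0` (`isSeg_zero`).
* `sh_c L : SH (fun τ => pos L (|L| st (4 τ))) (pos L) (sumZ L)`: `sh_reparam` with `ϑ τ = |L| st (4 τ)`, `M = 1/4` (and `sh_symm`).
* `sh_foot1`: `sh_cat` and `pos_append` (`pos ([d] ++ L) = cat (pos [d]) 1 (pos L)`): `SH (fun ρ => (fA ρ, fB ρ) + u L ρ) (pos ([(true,
  true)] ++ L)) (sumZ ([(true, true)] ++ L))`.  `sh_foot0`: `cat (fun _ => 0) 0 (pos L) = pos L`.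
* both paths are `IsPath` (`ε = 1/16`, `1/4`), so `pathEq_word` twice and `foot_slide`: `PathEq (wpath ([(true, true)] ++ L)) (wpath L)`;
  `mem_GamF_iff` with `G = [(true, true)]`, `fx = FreeGroup.of true = mk [(true, true)]`.
-/

open scoped Manifold ContDiff Topology
open Set Filter

namespace Pool.Agent.PTH

open Pool.Agent.CSW (F2 fx fy)

universe u

/-- the part `ρ ≥ 1/2` of the path -/
noncomputable def fu (L : List (Bool × Bool)) (ρ : ℝ) : ℝ × ℝ :=
  pos L (L.length * Real.smoothTransition (4 * ρ - 2))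

/-- `fu` shifted -/
noncomputable def FootB_c (L : List (Bool × Bool)) (τ : ℝ) : ℝ × ℝ :=
  pos L (L.length * Real.smoothTransition (4 * τ))

theorem FootB_half (m : ℤ) : (0 : ℝ) ≠ (m : ℝ) + 1 / 2 ∧ (1 : ℝ) ≠ (m : ℝ) + 1 / 2 := by
  constructor
  · intro h
    have h2 : (2 * m : ℝ) = -1 := by linarith
    have h3 : 2 * m = -1 := by exact_mod_cast h2
    omega
  · intro h
    have h2 : (2 * m : ℝ) = 1 := by linarith
    have h3 : 2 * m = 1 := by exact_mod_cast h2
    omega

theorem FootB_fu_eq (L : List (Bool × Bool)) (ρ : ℝ) : fu L ρ = FootB_c L (ρ - 1 / 2) := by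
  unfold fu FootB_c
  rw [show 4 * (ρ - 1 / 2) = 4 * ρ - 2 by ring]

theorem FootB_fu_zero (L : List (Bool × Bool)) {ρ : ℝ} (h : ρ ≤ 1 / 2) : fu L ρ = 0 := by
  unfold fu
  rw [Real.smoothTransition.zero_of_nonpos (show 4 * ρ - 2 ≤ 0 by linarith), mul_zero,
    (pos_seg L).start 0 (le_refl 0)]
  rfl

theorem FootB_fu_one (L : List (Bool × Bool)) {ρ : ℝ} (h : 3 / 4 ≤ ρ) :
    fu L ρ = (((sumZ L).1 : ℝ), ((sumZ L).2 : ℝ)) := by
  unfold fu
  rw [Real.smoothTransition.one_of_one_le (show 1 ≤ 4 * ρ - 2 by linarith), mul_one]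
  exact (pos_seg L).stop _ (le_refl _)

theorem FootB_fu_smooth (L : List (Bool × Bool)) : ContDiff ℝ ∞ (fu L) := by
  have hs : ContDiff ℝ ∞ Real.smoothTransition := Real.smoothTransition.contDiff
  have h1 : ContDiff ℝ ∞ fun ρ : ℝ => (L.length : ℝ) * Real.smoothTransition (4 * ρ - 2) :=
    contDiff_const.mul (hs.comp ((contDiff_const.mul contDiff_id).sub contDiff_const))
  exact (pos_smooth L).comp h1

theorem FootB_seg_c (L : List (Bool × Bool)) : IsSeg (FootB_c L) (1 / 4) (sumZ L) := by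
  refine ⟨by norm_num, ?_, ?_, ?_, fun τ => (pos_seg L).avoid _⟩
  · have hs : Continuous Real.smoothTransition := Real.smoothTransition.continuous
    exact (pos_smooth L).continuous.comp (continuous_const.mul (hs.comp (by fun_prop)))
  · intro τ hτ
    unfold FootB_c
    rw [Real.smoothTransition.zero_of_nonpos (show 4 * τ ≤ 0 by linarith), mul_zero]
    exact (pos_seg L).start 0 (le_refl 0)
  · intro τ hτ
    unfold FootB_c
    rw [Real.smoothTransition.one_of_one_le (show 1 ≤ 4 * τ by linarith), mul_one]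
    exact (pos_seg L).stop _ (le_refl _)

theorem FootB_seg_AB : IsSeg (fun ρ => (fA ρ, fB ρ)) (1 / 2) (sumZ [(true, true)]) := by
  refine ⟨by norm_num, fA_smooth.continuous.prodMk fB_smooth.continuous, ?_, ?_, ?_⟩
  · intro τ hτ
    show (fA τ, fB τ) = _
    rw [fA_left (by linarith), fB_left (by linarith)]
  · intro τ hτ
    show (fA τ, fB τ) = _
    rw [fA_right (by linarith), fB_right (by linarith)]
    simp [sumZ, dirZ, sgn]
  · rintro τ ⟨m, n, h⟩
    have h1 : fA τ = (m : ℝ) + 1 / 2 := congrArg Prod.fst h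
    have h2 : fB τ = (n : ℝ) := congrArg Prod.snd h
    rcases le_or_gt τ (3 / 16) with ha | ha
    · rw [fA_left ha] at h1
      exact (FootB_half m).1 h1
    · rcases le_or_gt (5 / 16) τ with hb | hb
      · rw [fA_right hb] at h1
        exact (FootB_half m).2 h1
      · rw [fB_mid (by linarith) (by linarith)] at h2
        have h3 : (0 : ℝ) < n := by linarith
        have h4 : (n : ℝ) < 1 := by linarith
        have h5 : (0 : ℤ) < n := by exact_mod_cast h3
        have h6 : n < 1 := by exact_mod_cast h4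
        omega

theorem FootB_seg_B : IsSeg (fun ρ => (0, fB ρ)) (1 / 2) 0 := by
  refine ⟨by norm_num, continuous_const.prodMk fB_smooth.continuous, ?_, ?_, ?_⟩
  · intro τ hτ
    show ((0 : ℝ), fB τ) = _
    rw [fB_left (by linarith)]
  · intro τ hτ
    show ((0 : ℝ), fB τ) = _
    rw [fB_right (by linarith)]
    simp
  · rintro τ ⟨m, n, h⟩
    exact (FootB_half m).1 (congrArg Prod.fst h)

theorem FootB_sh_AB : SH (fun ρ => (fA ρ, fB ρ)) (pos [(true, true)]) (sumZ [(true, true)]) := by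
  refine sh_linear FootB_seg_AB (pos_seg [(true, true)]) ?_
  rintro τ l hl hl' ⟨m, n, h⟩
  have e : pos [(true, true)] τ = (Real.smoothTransition τ, bump τ) := by
    show ltr (true, true) τ + 0 = _
    rw [add_zero]
    simp [ltr, sgn]
  rw [e] at h
  have h1 : (1 - l) * fA τ + l * Real.smoothTransition τ = (m : ℝ) + 1 / 2 := congrArg Prod.fst h
  have h2 : (1 - l) * fB τ + l * bump τ = (n : ℝ) := congrArg Prod.snd h
  have b1 := bump_nonneg τ
  have b2 := bump_le τ
  have f1 := fB_nonneg τ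
  have f2 := fB_half τ
  have p1 : 0 ≤ (1 - l) * fB τ := mul_nonneg (by linarith) f1
  have p2 : 0 ≤ l * bump τ := mul_nonneg hl b1
  have hn : n = 0 := by
    have h3 : (0 : ℝ) ≤ n := by linarith
    have h4 : (n : ℝ) < 1 := by
      have q1 : (1 - l) * fB τ ≤ (1 - l) * (1 / 2) := mul_le_mul_of_nonneg_left f2 (by linarith)
      have q2 : l * bump τ ≤ l * (1 / 2) := mul_le_mul_of_nonneg_left b2 hl
      linarith
    have h5 : (0 : ℤ) ≤ n := by exact_mod_cast h3
    have h6 : n < 1 := by exact_mod_cast h4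
    omega
  rw [hn, Int.cast_zero] at h2
  have z1 : (1 - l) * fB τ = 0 := by linarith
  have z2 : l * bump τ = 0 := by linarith
  rcases mul_eq_zero.mp z1 with hz | hz
  · -- `l = 1`
    have hl1 : l = 1 := by linarith
    refine (pos_seg [(true, true)]).avoid τ ⟨m, 0, ?_⟩
    rw [e]
    rw [hl1] at h1 z2
    have hb : bump τ = 0 := by linarith
    have hs : Real.smoothTransition τ = (m : ℝ) + 1 / 2 := by linarith
    rw [hs, hb, Int.cast_zero]
  · rcases mul_eq_zero.mp z2 with hw | hw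
    · refine FootB_seg_AB.avoid τ ⟨m, 0, ?_⟩
      show (fA τ, fB τ) = _
      rw [hw] at h1
      have hs : fA τ = (m : ℝ) + 1 / 2 := by linarith
      rw [hs, hz, Int.cast_zero]
    · rcases le_or_gt τ 0 with ht | ht
      · rw [fA_left (by linarith), Real.smoothTransition.zero_of_nonpos ht] at h1
        exact (FootB_half m).1 (by linarith)
      · rcases le_or_gt 1 τ with ht' | ht'
        · rw [fA_right (by linarith), Real.smoothTransition.one_of_one_le ht'] at h1
          exact (FootB_half m).2 (by linarith)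
        · exact (bump_pos ht ht').ne' hw

theorem FootB_sh_B : SH (fun ρ => (0, fB ρ)) (pos []) (sumZ []) := by
  refine sh_linear (e := 0) FootB_seg_B (pos_seg []) ?_
  rintro τ l hl hl' ⟨m, n, h⟩
  have e : pos [] τ = 0 := rfl
  rw [e] at h
  have h1 : (1 - l) * (0 : ℝ) + l * (0 : ℝ) = (m : ℝ) + 1 / 2 := congrArg Prod.fst h
  exact (FootB_half m).1 (by linarith)

theorem FootB_sh_c (L : List (Bool × Bool)) : SH (FootB_c L) (pos L) (sumZ L) := by
  refine sh_symm (sh_reparam (M := 1 / 4) (pos_seg L)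
    (fun τ => (L.length : ℝ) * Real.smoothTransition (4 * τ)) ?_ ?_ ?_)
  · have hs : Continuous Real.smoothTransition := Real.smoothTransition.continuous
    exact continuous_const.mul (hs.comp (by fun_prop))
  · intro τ hτ
    show (L.length : ℝ) * Real.smoothTransition (4 * τ) ≤ 0
    rw [Real.smoothTransition.zero_of_nonpos (show 4 * τ ≤ 0 by linarith), mul_zero]
  · intro τ hτ
    show (L.length : ℝ) ≤ (L.length : ℝ) * Real.smoothTransition (4 * τ)
    rw [Real.smoothTransition.one_of_one_le (show 1 ≤ 4 * τ by linarith), mul_one]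

theorem FootB_cat1 (L : List (Bool × Bool)) :
    (fun ρ => (fA ρ, fB ρ) + fu L ρ) = cat (fun ρ => (fA ρ, fB ρ)) (1 / 2) (FootB_c L) := by
  funext ρ
  show _ = (fA ρ, fB ρ) + FootB_c L (ρ - 1 / 2)
  rw [FootB_fu_eq]

theorem FootB_cat0 (L : List (Bool × Bool)) :
    (fun ρ => (0, fB ρ) + fu L ρ) = cat (fun ρ => (0, fB ρ)) (1 / 2) (FootB_c L) := by
  funext ρ
  show _ = (0, fB ρ) + FootB_c L (ρ - 1 / 2)
  rw [FootB_fu_eq]

theorem sh_foot1 (L : List (Bool × Bool)) :
    SH (fun ρ => (fA ρ, fB ρ) + fu L ρ) (pos ([(true, true)] ++ L)) (sumZ ([(true, true)] ++ L)) := by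
  rw [FootB_cat1, pos_append, sumZ_append]
  exact sh_cat FootB_seg_AB (pos_seg [(true, true)]) (FootB_seg_c L) (pos_seg L) FootB_sh_AB
    (FootB_sh_c L)

theorem sh_foot0 (L : List (Bool × Bool)) :
    SH (fun ρ => (0, fB ρ) + fu L ρ) (pos L) (sumZ L) := by
  have h := sh_cat (e₁ := sumZ []) FootB_seg_B (pos_seg []) (FootB_seg_c L) (pos_seg L) FootB_sh_B
    (FootB_sh_c L)
  rw [← FootB_cat0, ← pos_append, ← sumZ_append, List.nil_append] at h
  exact h

theorem isPath_foot1 (L : List (Bool × Bool)) :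
    IsPath (fun ρ => (fA ρ, fB ρ) + fu L ρ) (sumZ ([(true, true)] ++ L)) := by
  refine ⟨(fA_smooth.prodMk fB_smooth).add (FootB_fu_smooth L), ⟨1 / 16, by norm_num, ?_⟩,
    ⟨1 / 4, by norm_num, ?_⟩, ?_⟩
  · intro ρ hρ
    show (fA ρ, fB ρ) + fu L ρ = _
    rw [fA_left (by linarith), fB_left hρ, FootB_fu_zero L (by linarith), add_zero]
  · intro ρ hρ
    show (fA ρ, fB ρ) + fu L ρ = _
    rw [fA_right (by linarith), fB_right (by linarith), FootB_fu_one L (by linarith), sumZ_append]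
    simp [sumZ, dirZ, sgn]
  · intro ρ
    have h := (isSeg_cat FootB_seg_AB (FootB_seg_c L)).avoid ρ
    rw [← FootB_cat1] at h
    exact h

theorem isPath_foot0 (L : List (Bool × Bool)) :
    IsPath (fun ρ => (0, fB ρ) + fu L ρ) (sumZ L) := by
  refine ⟨(contDiff_const.prodMk fB_smooth).add (FootB_fu_smooth L), ⟨1 / 16, by norm_num, ?_⟩,
    ⟨1 / 4, by norm_num, ?_⟩, ?_⟩
  · intro ρ hρ
    show ((0 : ℝ), fB ρ) + fu L ρ = _
    rw [fB_left hρ, FootB_fu_zero L (by linarith), add_zero]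
  · intro ρ hρ
    show ((0 : ℝ), fB ρ) + fu L ρ = _
    rw [fB_right (by linarith), FootB_fu_one L (by linarith)]
    simp
  · intro ρ
    have h := (isSeg_cat FootB_seg_B (FootB_seg_c L)).avoid ρ
    rw [← FootB_cat0] at h
    exact h

theorem fx_mem : (fx : F2) ∈ Gam.{u} := by
  show (fx : F2) ∈ GamF.{u}
  rw [mem_GamF_iff fx [(true, true)] rfl]
  intro L
  exact (pathEq_of_words (isPath_foot1 L) (isPath_foot0 L) (sh_foot1 L) (sh_foot0 L)).1
    (foot_slide (FootB_fu_smooth L) (fun ρ hρ => FootB_fu_zero L hρ) (fun ρ => (pos_seg L).avoid _))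

end Pool.Agent.PTH
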