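import Pool.Agent.PTH.Wrd

/-!
# PTH/FourB: one turn around the obstacle `(1/2, 0)`   (difficulty 3)

`Sp h ϑ`: first go straight from `(0, 0)` in the direction of the obstacle `(1/2, 0)` (`h` from `0` to `1`, the point
`(3h/8, 0)`), then turn clockwise around it (angle `ϑ`, radius `1/8`).

* `Sp_avoid`: if `h = 1`: `Sp 1 ϑ = (1/2 - cos / 8, sin / 8)`; `= (m + 1/2, n)` gives `|m|, |n| ≤ 1/8`, so `m = n = 0`, `cos = sin = 0`,
  contradiction.  If `ϑ = m` is an integer: `Sp h m = (3 h / 8, 0)`, `0 ≤ 3h/8 ≤ 3/8`, not `m + 1/2`.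
* `Sp_seg`: `Sp 0 m = (0, 0)`.
* `hf1 τ = st (2 τ) st (6 - 2 τ)`: `0` for `τ ≤ 0` and `τ ≥ 3`, `1` for `1/2 ≤ τ ≤ 5/2`, in `[0, 1]`.  `tf1 τ = (st (2 τ - 1) + st (2 τ - 4)) / 2`:
  `0` for `τ ≤ 1/2`, `1/2` for `1 ≤ τ ≤ 2`, `1` for `τ ≥ 5/2`, in `[0, 1/2]` for `τ ≤ 2`, in `[1/2, 1]` for `τ ≥ 1`.
* `sh_one`: `sh_linear` for `S τ = Sp (hf1 τ) (tf1 τ)` and the word `c0 = x y⁻¹ x⁻¹ y`:
  `pos c0 τ = (st τ - st (τ - 2), bump τ - st (τ - 1) + bump (τ - 2) + st (τ - 3))`.  The combination `q = (1 - l) S τ + l pos c0 τ`: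
  - `τ ≤ 0`: `q = 0`.
  - `0 < τ < 1`: both second coordinates are in `[0, 1/2]` (`sin (2π ϑ) ≥ 0` for `ϑ ∈ [0, 1/2]`), `bump τ > 0`.  If the second coordinate of
    `q` is an integer, it is `0`, so `l bump τ = 0`, `l = 0`, `q = S τ` is not an obstacle.
  - `1 ≤ τ ≤ 2`: `S τ = (5/8, 0)`, the first coordinate of `pos c0 τ` is `1`: the first coordinate of `q` is in `[5/8, 1]`.
  - `2 < τ < 3`: the second coordinate of `S` is in `[-1/8, 0]`, that of `pos c0` is `-1 + bump (τ - 2) ∈ (-1, -1/2]`.  If the second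
    coordinate of `q` is an integer, it is `0` and then `l = 0`, `q = S τ` (it is `> -1`).
  - `3 ≤ τ`: `S τ = 0`, the first coordinate of `pos c0 τ` is `0`.
-/

open scoped ContDiff Topology
open Set Filter

namespace Pool.Agent.PTH

noncomputable def Sp (h ϑ : ℝ) : ℝ × ℝ :=
  (3 / 8 * h + 1 / 8 * (1 - Real.cos (2 * Real.pi * ϑ)), 1 / 8 * Real.sin (2 * Real.pi * ϑ))

theorem FourB_half {x : ℝ} {m : ℤ} (h0 : 0 ≤ x) (h1 : x < 1 / 2) (h : x = (m : ℝ) + 1 / 2) : False := by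
  have h2 : (-1 : ℝ) < m := by linarith
  have h3 : (m : ℝ) < 0 := by linarith
  have h4 : (-1 : ℤ) < m := by exact_mod_cast h2
  have h5 : m < 0 := by exact_mod_cast h3
  omega

theorem Sp_avoid {h ϑ : ℝ} (h0 : 0 ≤ h) (h1 : h ≤ 1) (hh : h = 1 ∨ ∃ m : ℤ, ϑ = m) : ¬ Obs (Sp h ϑ) := by
  rintro ⟨m, n, hmn⟩
  have e1 : 3 / 8 * h + 1 / 8 * (1 - Real.cos (2 * Real.pi * ϑ)) = (m : ℝ) + 1 / 2 := congrArg Prod.fst hmn
  have e2 : 1 / 8 * Real.sin (2 * Real.pi * ϑ) = (n : ℝ) := congrArg Prod.snd hmn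
  rcases hh with hh | ⟨k, hk⟩
  · rw [hh] at e1
    have c1 := Real.cos_le_one (2 * Real.pi * ϑ)
    have c2 := Real.neg_one_le_cos (2 * Real.pi * ϑ)
    have s1 := Real.sin_le_one (2 * Real.pi * ϑ)
    have s2 := Real.neg_one_le_sin (2 * Real.pi * ϑ)
    have hm : m = 0 := by
      have h3 : (m : ℝ) < 1 := by linarith
      have h4 : (-1 : ℝ) < m := by linarith
      have h5 : m < 1 := by exact_mod_cast h3
      have h6 : -1 < m := by exact_mod_cast h4
      omega
    have hn : n = 0 := by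
      have h3 : (n : ℝ) < 1 := by linarith
      have h4 : (-1 : ℝ) < n := by linarith
      have h5 : n < 1 := by exact_mod_cast h3
      have h6 : -1 < n := by exact_mod_cast h4
      omega
    rw [hm] at e1
    rw [hn] at e2
    have h7 : Real.cos (2 * Real.pi * ϑ) = 0 := by
      push_cast at e1
      linarith
    have h8 : Real.sin (2 * Real.pi * ϑ) = 0 := by
      push_cast at e2
      linarith
    have h9 := Real.sin_sq_add_cos_sq (2 * Real.pi * ϑ)
    rw [h7, h8] at h9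
    norm_num at h9
  · have h7 : Real.cos (2 * Real.pi * ϑ) = 1 := by
      rw [hk, mul_comm]
      exact Real.cos_int_mul_two_pi k
    rw [h7] at e1
    exact FourB_half (x := 3 / 8 * h + 1 / 8 * (1 - 1)) (by linarith) (by linarith) e1


theorem Sp_int (h : ℝ) (m : ℤ) : Sp h m = (3 / 8 * h, 0) := by
  have h7 : Real.cos (2 * Real.pi * (m : ℝ)) = 1 := by
    rw [mul_comm]
    exact Real.cos_int_mul_two_pi m
  have h8 : Real.sin (2 * Real.pi * (m : ℝ)) = 0 := by
    have := Real.sin_int_mul_pi (2 * m)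
    rw [← this]
    congr 1
    push_cast
    ring
  unfold Sp
  rw [h7, h8]
  ext <;> simp

theorem Sp_add (h ϑ : ℝ) (m : ℤ) : Sp h (ϑ + m) = Sp h ϑ := by
  unfold Sp
  have e : 2 * Real.pi * (ϑ + (m : ℝ)) = 2 * Real.pi * ϑ + m * (2 * Real.pi) := by ring
  rw [e, Real.cos_add_int_mul_two_pi, Real.sin_add_int_mul_two_pi]

theorem Sp_seg {h ϑ : ℝ → ℝ} {m : ℝ} (hm : 0 ≤ m) (hc : Continuous h) (hc' : Continuous ϑ) (h0 : ∀ τ, 0 ≤ h τ)
    (h1 : ∀ τ, h τ ≤ 1) (hh : ∀ τ, h τ = 1 ∨ ∃ k : ℤ, ϑ τ = k) (hl : ∀ τ ≤ 0, h τ = 0) (hr : ∀ τ, m ≤ τ → h τ = 0) :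
    IsSeg (fun τ => Sp (h τ) (ϑ τ)) m 0 := by
  have hz : ∀ τ, h τ = 0 → Sp (h τ) (ϑ τ) = (0, 0) := by
    intro τ hτ
    rcases hh τ with h1 | ⟨k, hk⟩
    · rw [hτ] at h1
      norm_num at h1
    · rw [hτ, hk, Sp_int]
      norm_num
  refine ⟨hm, ?_, fun τ hτ => hz τ (hl τ hτ), fun τ hτ => ?_, fun τ => Sp_avoid (h0 τ) (h1 τ) (hh τ)⟩
  · unfold Sp
    have := Real.continuous_cos
    have := Real.continuous_sin
    fun_prop
  · show Sp (h τ) (ϑ τ) = _
    rw [hz τ (hr τ hτ)]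
    simp

noncomputable def hf1 (τ : ℝ) : ℝ := Real.smoothTransition (2 * τ) * Real.smoothTransition (6 - 2 * τ)

noncomputable def tf1 (τ : ℝ) : ℝ := (Real.smoothTransition (2 * τ - 1) + Real.smoothTransition (2 * τ - 4)) / 2

theorem hf1_cont : Continuous hf1 := by
  have h := Real.smoothTransition.continuous
  unfold hf1
  fun_prop
theorem tf1_cont : Continuous tf1 := by
  have h := Real.smoothTransition.continuous
  unfold tf1
  fun_prop
theorem hf1_nonneg (τ : ℝ) : 0 ≤ hf1 τ := by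
  exact mul_nonneg (Real.smoothTransition.nonneg _) (Real.smoothTransition.nonneg _)
theorem hf1_le (τ : ℝ) : hf1 τ ≤ 1 := by
  exact mul_le_one₀ (Real.smoothTransition.le_one _) (Real.smoothTransition.nonneg _)
    (Real.smoothTransition.le_one _)
theorem hf1_left {τ : ℝ} (h : τ ≤ 0) : hf1 τ = 0 := by
  unfold hf1
  rw [Real.smoothTransition.zero_of_nonpos (show 2 * τ ≤ 0 by linarith), zero_mul]
theorem hf1_right {τ : ℝ} (h : 3 ≤ τ) : hf1 τ = 0 := by
  unfold hf1
  rw [Real.smoothTransition.zero_of_nonpos (show 6 - 2 * τ ≤ 0 by linarith), mul_zero]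
theorem hf1_mid {τ : ℝ} (h : 1 / 2 ≤ τ) (h' : τ ≤ 5 / 2) : hf1 τ = 1 := by
  unfold hf1
  rw [Real.smoothTransition.one_of_one_le (show 1 ≤ 2 * τ by linarith),
    Real.smoothTransition.one_of_one_le (show 1 ≤ 6 - 2 * τ by linarith), one_mul]
theorem tf1_left {τ : ℝ} (h : τ ≤ 1 / 2) : tf1 τ = 0 := by
  unfold tf1
  rw [Real.smoothTransition.zero_of_nonpos (show 2 * τ - 1 ≤ 0 by linarith),
    Real.smoothTransition.zero_of_nonpos (show 2 * τ - 4 ≤ 0 by linarith)]
  norm_num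
theorem tf1_right {τ : ℝ} (h : 5 / 2 ≤ τ) : tf1 τ = 1 := by
  unfold tf1
  rw [Real.smoothTransition.one_of_one_le (show 1 ≤ 2 * τ - 1 by linarith),
    Real.smoothTransition.one_of_one_le (show 1 ≤ 2 * τ - 4 by linarith)]
  norm_num

/-- the word of one clockwise turn around `(1/2, 0)` -/
def c0 : List (Bool × Bool) := [(true, true), (false, false), (true, false), (false, true)]

theorem c0_sum : sumZ c0 = 0 := by
  simp [c0, sumZ, dirZ, sgn]

theorem seg_one : IsSeg (fun τ => Sp (hf1 τ) (tf1 τ)) 3 0 := by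
  refine Sp_seg (by norm_num) hf1_cont tf1_cont hf1_nonneg hf1_le (fun τ => ?_) (fun τ hτ => hf1_left hτ)
    (fun τ hτ => hf1_right hτ)
  rcases le_or_gt τ (1 / 2) with h | h
  · exact Or.inr ⟨0, by rw [tf1_left h]; simp⟩
  · rcases le_or_gt (5 / 2) τ with h' | h'
    · exact Or.inr ⟨1, by rw [tf1_right h']; simp⟩
    · exact Or.inl (hf1_mid h.le h'.le)

theorem sh_one : SH (fun τ => Sp (hf1 τ) (tf1 τ)) (pos c0) 0 := by
  have hR : IsSeg (pos c0) c0.length 0 := by
    have := pos_seg c0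
    rwa [c0_sum] at this
  refine sh_linear seg_one hR ?_
  rintro τ l hl hl' ⟨m, n, hmn⟩
  have e1 : pos c0 τ = (Real.smoothTransition τ - Real.smoothTransition (τ - 1 - 1),
      bump τ - Real.smoothTransition (τ - 1) + bump (τ - 1 - 1) + Real.smoothTransition (τ - 1 - 1 - 1)) := by
    simp only [c0, pos, ltr, sgn]
    ext
    · simp
      ring
    · simp
      ring
  rw [e1] at hmn
  have h1 : (1 - l) * (Sp (hf1 τ) (tf1 τ)).1 +
      l * (Real.smoothTransition τ - Real.smoothTransition (τ - 1 - 1)) = (m : ℝ) + 1 / 2 := congrArg Prod.fst hmn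
  have h2 : (1 - l) * (Sp (hf1 τ) (tf1 τ)).2 +
      l * (bump τ - Real.smoothTransition (τ - 1) + bump (τ - 1 - 1) + Real.smoothTransition (τ - 1 - 1 - 1)) =
      (n : ℝ) := congrArg Prod.snd hmn
  have hS : ¬ Obs (Sp (hf1 τ) (tf1 τ)) := seg_one.avoid τ
  have hl0 : l = 0 → False := by
    intro h0
    rw [h0] at h1 h2
    apply hS
    refine ⟨m, n, Prod.ext ?_ ?_⟩
    · show (Sp (hf1 τ) (tf1 τ)).1 = (m : ℝ) + 1 / 2
      linarith
    · show (Sp (hf1 τ) (tf1 τ)).2 = (n : ℝ)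
      linarith
  rcases le_or_gt τ 0 with hτ | hτ
  · rw [hf1_left hτ, tf1_left (by linarith), Real.smoothTransition.zero_of_nonpos hτ,
      Real.smoothTransition.zero_of_nonpos (show τ - 1 - 1 ≤ 0 by linarith)] at h1
    have e := Sp_int 0 0
    rw [Int.cast_zero] at e
    rw [e] at h1
    have h3 : (0 : ℝ) = (m : ℝ) + 1 / 2 := by
      rw [← h1]
      ring
    exact FourB_half (x := 0) le_rfl (by norm_num) h3
  rcases lt_or_ge τ 1 with hτ1 | hτ1
  · have b1 := bump_pos hτ hτ1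
    have b2 := bump_le τ
    rw [Real.smoothTransition.zero_of_nonpos (show τ - 1 ≤ 0 by linarith),
      Real.smoothTransition.zero_of_nonpos (show τ - 1 - 1 - 1 ≤ 0 by linarith),
      bump_left (show τ - 1 - 1 ≤ 0 by linarith)] at h2
    have t0 : 0 ≤ tf1 τ := by
      unfold tf1
      have := Real.smoothTransition.nonneg (2 * τ - 1)
      have := Real.smoothTransition.nonneg (2 * τ - 4)
      linarith
    have t1 : tf1 τ ≤ 1 / 2 := by
      unfold tf1
      have := Real.smoothTransition.le_one (2 * τ - 1)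
      rw [Real.smoothTransition.zero_of_nonpos (show 2 * τ - 4 ≤ 0 by linarith)]
      linarith
    have s0 : 0 ≤ Real.sin (2 * Real.pi * tf1 τ) := by
      apply Real.sin_nonneg_of_nonneg_of_le_pi
      · have := Real.pi_pos
        positivity
      · nlinarith [Real.pi_pos]
    have s1 := Real.sin_le_one (2 * Real.pi * tf1 τ)
    have hSp : (Sp (hf1 τ) (tf1 τ)).2 = 1 / 8 * Real.sin (2 * Real.pi * tf1 τ) := rfl
    rw [hSp] at h2
    have q0 : 0 ≤ (1 - l) * (1 / 8 * Real.sin (2 * Real.pi * tf1 τ)) :=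
      mul_nonneg (by linarith) (by linarith)
    have q1 : 0 ≤ l * (bump τ - 0 + 0 + 0) := mul_nonneg hl (by linarith)
    have q2 : (1 - l) * (1 / 8 * Real.sin (2 * Real.pi * tf1 τ)) ≤ (1 - l) * (1 / 2) :=
      mul_le_mul_of_nonneg_left (by linarith) (by linarith)
    have q3 : l * (bump τ - 0 + 0 + 0) ≤ l * (1 / 2) := mul_le_mul_of_nonneg_left (by linarith) hl
    have hn : n = 0 := by
      have h3 : (n : ℝ) < 1 := by linarith
      have h4 : (-1 : ℝ) < n := by linarith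
      have h5 : n < 1 := by exact_mod_cast h3
      have h6 : -1 < n := by exact_mod_cast h4
      omega
    rw [hn, Int.cast_zero] at h2
    have q4 : l * (bump τ - 0 + 0 + 0) = 0 := by linarith
    rcases mul_eq_zero.1 q4 with h0 | h0
    · exact hl0 h0
    · linarith
  rcases le_or_gt τ 2 with hτ2 | hτ2
  · have hh : hf1 τ = 1 := hf1_mid (by linarith) (by linarith)
    have ht : tf1 τ = 1 / 2 := by
      unfold tf1
      rw [Real.smoothTransition.one_of_one_le (show 1 ≤ 2 * τ - 1 by linarith),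
        Real.smoothTransition.zero_of_nonpos (show 2 * τ - 4 ≤ 0 by linarith)]
      norm_num
    have hSp : (Sp (hf1 τ) (tf1 τ)).1 = 5 / 8 := by
      rw [hh, ht]
      show 3 / 8 * 1 + 1 / 8 * (1 - Real.cos (2 * Real.pi * (1 / 2))) = (5 : ℝ) / 8
      have e : 2 * Real.pi * (1 / 2) = Real.pi := by ring
      rw [e, Real.cos_pi]
      norm_num
    rw [hSp, Real.smoothTransition.one_of_one_le hτ1,
      Real.smoothTransition.zero_of_nonpos (show τ - 1 - 1 ≤ 0 by linarith)] at h1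
    have h3 : (m : ℝ) < 1 := by linarith
    have h4 : (0 : ℝ) < m := by linarith
    have h5 : m < 1 := by exact_mod_cast h3
    have h6 : 0 < m := by exact_mod_cast h4
    omega
  rcases lt_or_ge τ 3 with hτ3 | hτ3
  · have b1 := bump_pos (show 0 < τ - 1 - 1 by linarith) (show τ - 1 - 1 < 1 by linarith)
    have b2 := bump_le (τ - 1 - 1)
    rw [Real.smoothTransition.one_of_one_le (show 1 ≤ τ - 1 by linarith),
      Real.smoothTransition.zero_of_nonpos (show τ - 1 - 1 - 1 ≤ 0 by linarith),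
      bump_right hτ1] at h2
    have t0 : 1 / 2 ≤ tf1 τ := by
      unfold tf1
      rw [Real.smoothTransition.one_of_one_le (show 1 ≤ 2 * τ - 1 by linarith)]
      have := Real.smoothTransition.nonneg (2 * τ - 4)
      linarith
    have t1 : tf1 τ ≤ 1 := by
      unfold tf1
      have := Real.smoothTransition.le_one (2 * τ - 1)
      have := Real.smoothTransition.le_one (2 * τ - 4)
      linarith
    have s0 : Real.sin (2 * Real.pi * tf1 τ) ≤ 0 := by
      have e : Real.sin (2 * Real.pi * tf1 τ) = Real.sin (2 * Real.pi * tf1 τ - 2 * Real.pi) :=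
        (Real.sin_sub_two_pi _).symm
      rw [e]
      apply Real.sin_nonpos_of_nonpos_of_neg_pi_le
      · nlinarith [Real.pi_pos]
      · nlinarith [Real.pi_pos]
    have s1 := Real.neg_one_le_sin (2 * Real.pi * tf1 τ)
    have hSp : (Sp (hf1 τ) (tf1 τ)).2 = 1 / 8 * Real.sin (2 * Real.pi * tf1 τ) := rfl
    rw [hSp] at h2
    have q0 : 0 ≤ (1 - l) * (-(1 / 8 * Real.sin (2 * Real.pi * tf1 τ))) :=
      mul_nonneg (by linarith) (by linarith)
    have q1 : 0 ≤ l * (1 - bump (τ - 1 - 1)) := mul_nonneg hl (by linarith)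
    have q2 : (1 - l) * (-(1 / 8 * Real.sin (2 * Real.pi * tf1 τ))) ≤ (1 - l) * (1 / 8) :=
      mul_le_mul_of_nonneg_left (by linarith) (by linarith)
    have hlt : -1 < (n : ℝ) := by
      rcases eq_or_lt_of_le hl with h9 | h9
      · rw [← h9] at h2 q2
        linarith
      · have q3 : l * (1 - bump (τ - 1 - 1)) < l * 1 := mul_lt_mul_of_pos_left (by linarith) h9
        nlinarith
    have hn : n = 0 := by
      have h3 : (n : ℝ) < 1 := by nlinarith
      have h5 : n < 1 := by exact_mod_cast h3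
      have h6 : -1 < n := by exact_mod_cast hlt
      omega
    rw [hn, Int.cast_zero] at h2
    have q4 : l * (1 - bump (τ - 1 - 1)) = 0 := by nlinarith
    rcases mul_eq_zero.1 q4 with h0 | h0
    · exact hl0 h0
    · linarith
  · rw [hf1_right hτ3, tf1_right (by linarith), Real.smoothTransition.one_of_one_le hτ1,
      Real.smoothTransition.one_of_one_le (show 1 ≤ τ - 1 - 1 by linarith)] at h1
    have e := Sp_int 0 1
    rw [Int.cast_one] at e
    rw [e] at h1
    have h3 : (0 : ℝ) = (m : ℝ) + 1 / 2 := by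
      rw [← h1]
      ring
    exact FourB_half (x := 0) le_rfl (by norm_num) h3

end Pool.Agent.PTH
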