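import Pool.Agent.PTH.FourE
import Pool.Agent.PTH.FourB
import Pool.Agent.PTH.Car
import Pool.Agent.COR.Rmc

/-!
# PTH/FourF: the 4-move at an obstacle   (difficulty 3)

`four_imp`.  `four_core` for `b = bxF C ρ₀ ε` and `bxF_two` gives `M`: `M (half 1 b (y, s, t)) = half 1 b (MsDo o (y, s), s, t)` for `‖y‖ < 4`, `|s| < 1/8`, identity off these points
(`half 1 b (y, s, t) = b (cj 1 y, s / 2, t)`, `cj 1 y = y`).  Let `g ρ = gs (2 (ρ - ρ₀) / ε)`: `0` for `ρ ≤ ρ₀ - ε/16`, `1` for `ρ ≥ ρ₀ + ε/32`.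
(A) for `y = ±1`, `|σ| < 1`, `ρ = ρ₀ + ε σ`: `M (b (y, σ, 0)) = b (ex (2 o g ρ) y, σ, 0)`: if `|2 σ| < 1/8` it is `IsM.ball` at `s = 2 σ` and `MsDo_low` (`‖y‖ ≤ 17/5`); otherwise the point is
not of the form `half 1 b (y', s', t')` with `‖y'‖ < 4`, `|s'| < 1/8` (injectivity of the box), `IsM.out`, and `g ρ` is `0` or `1`, `ex (± 2) = 1`.
`exists_tlift` with `E` = the chart of `VChart.tchart`, `φ ρ x = x - (ex (2 o g ρ) - 1) / 16` (`Equiv.subRight`), `α' = ρ₀ - ε/2`, `β' = ρ₀ + ε/2` gives `F`.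
(B) `F (b (z, σ, 0)) = F (E (7/16 + z/16, ρ, 0)) = E (7/16 + z/16 - (ex (2 o g) - 1)/16, ρ, 0)`.  For `z = ex (2 o g) · 1`: `E (1/2, ρ, 0)`.  For `z = - ex (2 o g)`: `E (1/2 - ex (2 o g) / 8, ρ, 0)`.
(C) `K' l = F (M (K l))` for all `l` (by periodicity `-1/4 < l ≤ 3/4`):
* `|4 l - ρ₀| < ε`, `ρ = 4 l`: `K l = b (-1, σ, 0)` (`TwoStrands.strand₂`), so `F (M (K l)) = C (ρ ex (1/2 - re (ex (2 o g)) / 8), - im (ex (2 o g)) / 8, 0)` and `K' l = C (ρ ex X, Y, 0)`, `(X, Y) = w' ρ =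
  (m, n) + Sp 1 (- o 2 g) = (m + 1/2 - cos (2π · 2 o g) / 8, n - sin (2π · 2 o g) / 8)` (`ex_re`, `ex_im`, `ex_add_int`, `TC_perY`).
* `|-4 l - ρ₀| < ε`: `K l = b (1, σ, 0)`, `F (M (K l)) = E (1/2, ρ, 0) = C (-ρ, 0, 0) = K' l` (`w' = w = (0, 0)` there, `hew`).
* other `l` with `|l| < 1/4`: `K l = K' l = C (ζ, Y, 0)`, `‖ζ‖ = |4 l|`, `| |4 l| - ρ₀| ≥ ε`: it is not in the box, so `M` fixes it; it is not of the form `E (x, ρ, t)` with
  `α' ≤ ρ ≤ β'`, so `F` fixes it.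
* `1/4 ≤ l ≤ 3/4`: outside `V`, fixed by both.
Hence `Carries K → Carries (M ∘ K) → Carries (F ∘ M ∘ K)` (`Carries.map`).
-/

open scoped Manifold ContDiff Topology
open Set Filter
open Complex (I)

namespace Pool.Agent.PTH

open Pool.Agent.RSG (E4 S3 S4 ex)
open Pool.Agent.RBM (gs MsDo IsM)

universe u

/-- one direction of `PathEq` -/
def PathImp (w w' : ℝ → ℝ × ℝ) : Prop :=
  ∀ (a : ℝ → SP → SP) (C : ℂ × ℝ × ℝ → SP) (K K' : ℝ → SP) (n : ℤ) (X : Type u)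
    [TopologicalSpace X] [ChartedSpace E4 X] [T2Space X],
    Act ISP a → VChart ISP a C → VKnot ISP C (arc w) K → VKnot ISP C (arc w') K' →
    (∀ l, 1 / 4 ≤ l → l ≤ 3 / 4 → K' l = K l) → Carries ISP a n K X → Carries ISP a n K' X

theorem FourF_per {K : ℝ → SP} (h : ∀ l, K (l + 1) = K l) (l : ℝ) (m : ℤ) : K (l + m) = K l := by
  have hp : Function.Periodic K 1 := h
  have := hp.int_mul m l
  simpa using this

theorem FourF_ex_two {o : ℝ} (ho : o = 1 ∨ o = -1) : ex (2 * o * 1) = 1 := by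
  rcases ho with rfl | rfl
  · have h := RSG.ex_int 2
    rw [← h]
    norm_num
  · have h := RSG.ex_int (-2)
    rw [← h]
    norm_num

theorem FourF_gs0 {s : ℝ} (h : s ≤ -(1 / 8)) : gs s = 0 := CSG.stp_zero (by norm_num) h

theorem FourF_gs1 {s : ℝ} (h : 1 / 16 ≤ s) : gs s = 1 := CSG.stp_one (by norm_num) h

theorem FourF_gs_smooth : ContDiff ℝ ∞ gs := CSG.stp_smooth _ _

theorem FourF_cj (y : ℂ) : RSG.cj 1 y = y := by
  apply Complex.ext <;> simp [RSG.cj]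

/-- the action of `M` on the strands -/
theorem FourF_M {b : ℂ × ℝ × ℝ → SP} (hb : RBM.Box ISP b 5) {o : ℝ} (ho : o = 1 ∨ o = -1)
    {M : Equiv.Perm SP} (hM : IsM 4 (COR.half 1 b) (MsDo o) M) {y : ℂ} (hy : ‖y‖ ≤ 17 / 5) {σ : ℝ}
    (hσ : |σ| < 1) : M (b (y, σ, 0)) = b (ex (2 * o * gs (2 * σ)) * y, σ, 0) := by
  have hy4 : ‖y‖ < 4 := by linarith
  have e1 : ∀ (z : ℂ), COR.half 1 b (z, 2 * σ, 0) = b (z, σ, 0) := by
    intro z
    show b (RSG.cj 1 z, 2 * σ / 2, 0) = b (z, σ, 0)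
    rw [FourF_cj, mul_div_cancel_left₀ σ (two_ne_zero)]
  by_cases h : |2 * σ| < 1 / 8
  · rw [← e1 y, hM.ball y (2 * σ) 0 hy4 h, RBM.MsDo_low hy, e1]
  · have h' : 1 / 8 ≤ |2 * σ| := not_lt.1 h
    have hfix : ex (2 * o * gs (2 * σ)) = 1 := by
      rw [le_abs] at h'
      rcases h' with h' | h'
      · rw [FourF_gs1 (by linarith)]
        exact FourF_ex_two ho
      · rw [FourF_gs0 (by linarith), mul_zero, RSG.ex_zero]
    rw [hfix, one_mul]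
    refine hM.out _ ?_
    intro y' s' t' hy' hs' he
    have he' : b (y, σ, 0) = b (y', s' / 2, t') := by
      rw [he]
      show b (RSG.cj 1 y', s' / 2, t') = _
      rw [FourF_cj]
    have hs2 : |s' / 2| < 1 := by
      rw [abs_div, abs_two]
      linarith
    obtain ⟨-, h2, -⟩ := hb.inj y σ 0 y' (s' / 2) t' (by linarith) hσ (by linarith) hs2 he'
    apply h
    rw [h2, mul_div_cancel₀]
    · exact hs'
    · exact two_ne_zero

/-- the translation -/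
noncomputable def FourF_phi (o ρ₀ ε ρ : ℝ) : Equiv.Perm ℂ :=
  Equiv.subRight ((ex (2 * o * gs (2 * (ρ - ρ₀) / ε)) - 1) / 16)

theorem FourF_tr_smooth (o ρ₀ ε : ℝ) :
    ContDiff ℝ ∞ fun q : ℂ × ℝ => (ex (2 * o * gs (2 * (q.2 - ρ₀) / ε)) - 1) / 16 := by
  have h1 : ContDiff ℝ ∞ fun q : ℂ × ℝ => 2 * (q.2 - ρ₀) / ε :=
    (contDiff_const.mul (contDiff_snd.sub contDiff_const)).div_const _
  have h2 : ContDiff ℝ ∞ fun q : ℂ × ℝ => 2 * o * gs (2 * (q.2 - ρ₀) / ε) :=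
    contDiff_const.mul (FourF_gs_smooth.comp h1)
  exact ((RSG.ex_smooth.comp h2).sub contDiff_const).div_const _

theorem FourF_phi_smooth (o ρ₀ ε : ℝ) : ContDiff ℝ ∞ fun q : ℂ × ℝ => FourF_phi o ρ₀ ε q.2 q.1 :=
  contDiff_fst.sub (FourF_tr_smooth o ρ₀ ε)

theorem FourF_phi_smooth' (o ρ₀ ε : ℝ) :
    ContDiff ℝ ∞ fun q : ℂ × ℝ => (FourF_phi o ρ₀ ε q.2).symm q.1 :=
  contDiff_fst.add (FourF_tr_smooth o ρ₀ ε)

theorem FourF_phi_apply (o ρ₀ ε ρ : ℝ) (x : ℂ) :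
    FourF_phi o ρ₀ ε ρ x = x - (ex (2 * o * gs (2 * (ρ - ρ₀) / ε)) - 1) / 16 := rfl

theorem FourF_phi_id {o ρ₀ ε : ℝ} (ho : o = 1 ∨ o = -1) (hε : 0 < ε) (ρ : ℝ)
    (h : ρ ≤ ρ₀ - ε / 2 ∨ ρ₀ + ε / 2 ≤ ρ) (x : ℂ) : FourF_phi o ρ₀ ε ρ x = x := by
  have key : ex (2 * o * gs (2 * (ρ - ρ₀) / ε)) = 1 := by
    rcases h with h | h
    · have h1 : 2 * (ρ - ρ₀) / ε ≤ -(1 / 8) := by
        rw [div_le_iff₀ hε]
        linarith
      rw [FourF_gs0 h1, mul_zero, RSG.ex_zero]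
    · have h1 : 1 / 16 ≤ 2 * (ρ - ρ₀) / ε := by
        rw [le_div_iff₀ hε]
        linarith
      rw [FourF_gs1 h1]
      exact FourF_ex_two ho
  rw [FourF_phi_apply, key, sub_self, zero_div, sub_zero]

/-- the action of `F` on the box -/
theorem FourF_F {C : ℂ × ℝ × ℝ → SP} {o ρ₀ ε : ℝ} (hε : 0 < ε) (h1 : 0 < ρ₀ - ε) (h2 : ρ₀ + ε < 1)
    {F : Equiv.Perm SP}
    (hF : ∀ (x : ℂ) (ρ t : ℝ), 0 < ρ → ρ < 1 → F (C (ρ * ex x.re, x.im, t)) =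
      C (ρ * ex (FourF_phi o ρ₀ ε ρ x).re, (FourF_phi o ρ₀ ε ρ x).im, t)) {σ : ℝ} (hσ : |σ| < 1) (z : ℂ) :
    F (bxF C ρ₀ ε (z, σ, 0)) = C (((ρ₀ + ε * σ : ℝ) : ℂ) *
      ex (7 / 16 + z.re / 16 - ((ex (2 * o * gs (2 * σ))).re - 1) / 16),
      z.im / 16 - (ex (2 * o * gs (2 * σ))).im / 16, 0) := by
  rw [abs_lt] at hσ
  have h3 : -ε < ε * σ := by nlinarith
  have h4 : ε * σ < ε := by nlinarith
  have e1 : bxF C ρ₀ ε (z, σ, 0) = C (((ρ₀ + ε * σ : ℝ) : ℂ) * ex (7 / 16 + z / 16 : ℂ).re,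
      (7 / 16 + z / 16 : ℂ).im, 0) := by
    unfold bxF
    have e2 : (7 / 16 + z / 16 : ℂ).re = 7 / 16 + z.re / 16 := by simp
    have e3 : (7 / 16 + z / 16 : ℂ).im = z.im / 16 := by simp
    rw [e2, e3]
  rw [e1, hF _ _ _ (by linarith) (by linarith)]
  have e4 : FourF_phi o ρ₀ ε (ρ₀ + ε * σ) (7 / 16 + z / 16) =
      7 / 16 + z / 16 - (ex (2 * o * gs (2 * σ)) - 1) / 16 := by
    rw [FourF_phi_apply]
    have e5 : 2 * (ρ₀ + ε * σ - ρ₀) / ε = 2 * σ := by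
      field_simp
      ring
    rw [e5]
  rw [e4]
  have e6 : (7 / 16 + z / 16 - (ex (2 * o * gs (2 * σ)) - 1) / 16 : ℂ).re =
      7 / 16 + z.re / 16 - ((ex (2 * o * gs (2 * σ))).re - 1) / 16 := by simp
  have e7 : (7 / 16 + z / 16 - (ex (2 * o * gs (2 * σ)) - 1) / 16 : ℂ).im =
      z.im / 16 - (ex (2 * o * gs (2 * σ))).im / 16 := by simp
  rw [e6, e7]

theorem FourF_norm {r X : ℝ} (hr : 0 ≤ r) : ‖((r : ℝ) : ℂ) * ex X‖ = r := by
  rw [norm_mul, RSG.ex_norm, mul_one, Complex.norm_real, Real.norm_of_nonneg hr]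

/-- points far from the torus `‖ζ‖ = ρ₀` are fixed by `M` -/
theorem FourF_fixM {C : ℂ × ℝ × ℝ → SP} {o ρ₀ ε : ℝ} (hε : 0 < ε)
    (h1 : 0 < ρ₀ - ε) (h2 : ρ₀ + ε < 1) {M : Equiv.Perm SP}
    (hM : IsM 4 (COR.half 1 (bxF C ρ₀ ε)) (MsDo o) M) {p : SP}
    (hp : ∀ z Y t, ‖z‖ < 1 → p = C (z, Y, t) → ε ≤ |‖z‖ - ρ₀|) : M p = p := by
  refine hM.out _ ?_
  intro y s t hy hs he
  have e : COR.half 1 (bxF C ρ₀ ε) (y, s, t) = C (((ρ₀ + ε * (s / 2) : ℝ) : ℂ) *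
    ex (7 / 16 + (RSG.cj 1 y).re / 16), (RSG.cj 1 y).im / 16, t) := rfl
  rw [e] at he
  rw [abs_lt] at hs
  have h3 : -ε < ε * (s / 2) := by nlinarith
  have h4 : ε * (s / 2) < ε := by nlinarith
  have h5 := hp _ _ _ (by rw [FourF_norm (by linarith)]; linarith) he
  rw [FourF_norm (by linarith), add_sub_cancel_left, le_abs] at h5
  rcases h5 with h5 | h5 <;> linarith

/-- points far from the torus `‖ζ‖ = ρ₀` are fixed by `F` -/
theorem FourF_fixF {C : ℂ × ℝ × ℝ → SP} {ρ₀ ε : ℝ} (hε : 0 < ε)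
    (h1 : 0 < ρ₀ - ε) (h2 : ρ₀ + ε < 1) {F : Equiv.Perm SP}
    (hF : ∀ p, (∀ (x : ℂ) (ρ t : ℝ), ρ₀ - ε / 2 ≤ ρ → ρ ≤ ρ₀ + ε / 2 →
      p ≠ (fun q : ℂ × ℝ × ℝ => C (q.2.1 * ex q.1.re, q.1.im, q.2.2)) (x, ρ, t)) → F p = p) {p : SP}
    (hp : ∀ z Y t, ‖z‖ < 1 → p = C (z, Y, t) → ε ≤ |‖z‖ - ρ₀|) : F p = p := by
  refine hF _ ?_
  intro x ρ t h3 h4 he
  have h5 := hp _ _ _ (by rw [FourF_norm (by linarith)]; linarith) he
  rw [FourF_norm (by linarith), le_abs] at h5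
  rcases h5 with h5 | h5 <;> linarith

theorem FourF_key {a : ℝ → SP → SP} {C : ℂ × ℝ × ℝ → SP} (hC : VChart ISP a C) {w w' : ℝ → ℝ × ℝ}
    {m n : ℤ} {ρ₀ ε : ℝ} (hε : 0 < ε) (h1 : 0 < ρ₀ - ε) (h2 : ρ₀ + ε < 1)
    {o : ℝ} (ho : o = 1 ∨ o = -1) (hw0 : ∀ ρ ≤ 0, w ρ = (0, 0))
    (hw' : ∀ ρ, |ρ - ρ₀| ≤ ε → w' ρ = ((m : ℝ), (n : ℝ)) + Sp 1 (-o * (2 * gs (2 * (ρ - ρ₀) / ε))))
    (hew : ∀ ρ, ε ≤ |ρ - ρ₀| → w' ρ = w ρ) {K K' : ℝ → SP} (hK : VKnot ISP C (arc w) K)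
    (hK' : VKnot ISP C (arc w') K') (hb : RBM.Box ISP (bxF C ρ₀ ε) 5)
    (hs : COR.TwoStrands (bxF C ρ₀ ε) K (fun u => (-ρ₀ + ε * u) / 4) (fun u => (ρ₀ + ε * u) / 4) (-1) 1)
    {M F : Equiv.Perm SP} (hM : IsM 4 (COR.half 1 (bxF C ρ₀ ε)) (MsDo o) M)
    (hF : ∀ (x : ℂ) (ρ t : ℝ), 0 < ρ → ρ < 1 → F (C (ρ * ex x.re, x.im, t)) =
      C (ρ * ex (FourF_phi o ρ₀ ε ρ x).re, (FourF_phi o ρ₀ ε ρ x).im, t))
    (hF' : ∀ p, (∀ (x : ℂ) (ρ t : ℝ), ρ₀ - ε / 2 ≤ ρ → ρ ≤ ρ₀ + ε / 2 →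
      p ≠ (fun q : ℂ × ℝ × ℝ => C (q.2.1 * ex q.1.re, q.1.im, q.2.2)) (x, ρ, t)) → F p = p) {l : ℝ}
    (hl : |l| < 1 / 4) : F (M (K l)) = K' l := by
  obtain ⟨hn', e'⟩ := hK'.inner l hl
  obtain ⟨hn, e⟩ := hK.inner l hl
  by_cases hA : |4 * l - ρ₀| < ε
  · -- the second strand
    obtain ⟨u, hu⟩ : ∃ u, u = (4 * l - ρ₀) / ε := ⟨_, rfl⟩
    have hu1 : |u| < 1 := by
      rw [hu, abs_div, abs_of_pos hε, div_lt_one hε]
      exact hA
    have hlu : ρ₀ + ε * u = 4 * l := by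
      rw [hu]
      field_simp
      ring
    have e1 := hs.strand₂ u hu1
    have e2 : (ρ₀ + ε * u) / 4 = l := by
      rw [hlu]
      ring
    rw [one_mul] at e1
    simp only [e2] at e1
    rw [e1, FourF_M hb ho hM (by simp; norm_num) hu1, FourF_F hε h1 h2 hF hu1, e', hlu]
    have e3 : w' (4 * l) = ((m : ℝ), (n : ℝ)) + Sp 1 (-o * (2 * gs (2 * u))) := by
      rw [hw' _ hA.le]
      congr 5
      rw [hu]
      ring
    have e4 : (w' (4 * l)).1 = (1 / 2 - (ex (2 * o * gs (2 * u))).re / 8) + m := by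
      rw [e3, RSG.ex_re]
      show (m : ℝ) + (3 / 8 * 1 + 1 / 8 * (1 - Real.cos (2 * Real.pi * (-o * (2 * gs (2 * u)))))) = _
      have : 2 * Real.pi * (-o * (2 * gs (2 * u))) = -(2 * Real.pi * (2 * o * gs (2 * u))) := by ring
      rw [this, Real.cos_neg]
      ring
    have e5 : (w' (4 * l)).2 = -(ex (2 * o * gs (2 * u))).im / 8 + n := by
      rw [e3, RSG.ex_im]
      show (n : ℝ) + 1 / 8 * Real.sin (2 * Real.pi * (-o * (2 * gs (2 * u)))) = _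
      have : 2 * Real.pi * (-o * (2 * gs (2 * u))) = -(2 * Real.pi * (2 * o * gs (2 * u))) := by ring
      rw [this, Real.sin_neg]
      ring
    show C _ = C (((4 * l : ℝ) : ℂ) * ex (w' (4 * l)).1, (w' (4 * l)).2, 0)
    rw [e4, e5, RSG.ex_add_int, TC_perY hC]
    congr 2
    · congr 2
      simp only [mul_neg, mul_one, Complex.neg_re]
      ring
    · congr 1
      simp only [mul_neg, mul_one, Complex.neg_im]
      ring
  · by_cases hB : |-(4 * l) - ρ₀| < ε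
    · -- the first strand
      obtain ⟨u, hu⟩ : ∃ u, u = (4 * l + ρ₀) / ε := ⟨_, rfl⟩
      have hu1 : |u| < 1 := by
        rw [hu, abs_div, abs_of_pos hε, div_lt_one hε]
        rw [← abs_neg] at hB
        have : -(-(4 * l) - ρ₀) = 4 * l + ρ₀ := by ring
        rwa [this] at hB
      have hu2 : |-1 * u| < 1 := by
        rw [neg_one_mul, abs_neg]
        exact hu1
      have hlu : ρ₀ + ε * (-1 * u) = -(4 * l) := by
        rw [hu]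
        field_simp
        ring
      have e1 := hs.strand₁ u hu1
      have e2 : (-ρ₀ + ε * u) / 4 = l := by
        have : -ρ₀ + ε * u = 4 * l := by linarith
        rw [this]
        ring
      simp only [e2] at e1
      rw [e1, FourF_M hb ho hM (by simp; norm_num) hu2, FourF_F hε h1 h2 hF hu2, e', hlu]
      rw [abs_lt] at hB
      have e3 : w' (4 * l) = (0, 0) := by
        rw [hew, hw0 _ (by linarith)]
        rw [le_abs]
        right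
        linarith
      show C _ = C (((4 * l : ℝ) : ℂ) * ex (w' (4 * l)).1, (w' (4 * l)).2, 0)
      rw [e3]
      simp only [mul_one, RSG.ex_zero, sub_self]
      have e6 : 7 / 16 + (ex (2 * o * gs (2 * (-1 * u)))).re / 16 -
          ((ex (2 * o * gs (2 * (-1 * u)))).re - 1) / 16 = 1 / 2 := by ring
      rw [e6, RSG.ex_half]
      congr 2
      push_cast
      ring
    · -- far from the torus
      have hA' : ε ≤ |4 * l - ρ₀| := not_lt.1 hA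
      have hB' : ε ≤ |-(4 * l) - ρ₀| := not_lt.1 hB
      have hp : ∀ z Y t, ‖z‖ < 1 → K l = C (z, Y, t) → ε ≤ |‖z‖ - ρ₀| := by
        intro z Y t hz he
        rw [e] at he
        obtain ⟨h3, -, -⟩ := hC.inj _ _ _ _ _ _ hn hz he
        rw [← h3]
        have h4 : ‖(arc w l).1‖ = |4 * l| := by
          unfold arc
          rw [norm_mul, RSG.ex_norm, mul_one, Complex.norm_real, Real.norm_eq_abs]
        rw [h4]
        rcases le_total 0 (4 * l) with h5 | h5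
        · rw [abs_of_nonneg h5]
          exact hA'
        · rw [abs_of_nonpos h5]
          exact hB'
      rw [FourF_fixM hε h1 h2 hM hp, FourF_fixF hε h1 h2 hF' hp, e, e']
      show C (((4 * l : ℝ) : ℂ) * ex (w (4 * l)).1, (w (4 * l)).2, 0) =
        C (((4 * l : ℝ) : ℂ) * ex (w' (4 * l)).1, (w' (4 * l)).2, 0)
      rw [hew _ hA']

theorem four_imp {w w' : ℝ → ℝ × ℝ} {m n : ℤ} {ρ₀ ε : ℝ} (hε : 0 < ε) (h1 : 0 < ρ₀ - ε) (h2 : ρ₀ + ε < 1)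
    {o : ℝ} (ho : o = 1 ∨ o = -1) (hw0 : ∀ ρ ≤ 0, w ρ = (0, 0))
    (hw : ∀ ρ, |ρ - ρ₀| ≤ ε → w ρ = ((m : ℝ) + 3 / 8, (n : ℝ)))
    (hw' : ∀ ρ, |ρ - ρ₀| ≤ ε → w' ρ = ((m : ℝ), (n : ℝ)) + Sp 1 (-o * (2 * gs (2 * (ρ - ρ₀) / ε))))
    (hew : ∀ ρ, ε ≤ |ρ - ρ₀| → w' ρ = w ρ) : PathImp.{u} w w' := by
  intro a C K K' k X _ _ _ hA hC hK hK' ht hcar
  have hb := bxF_box hA hC hε h1 h2
  have hs := bxF_two hC hε h1 h2 hw0 hw hK
  obtain ⟨M, hM, hMc⟩ := COR.four_core hA hb (bxF_equi hC) hs ho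
  obtain ⟨F, hF1, hF2, hF3, hF4⟩ := exists_tlift hA hC.tchart (FourF_phi o ρ₀ ε)
    (FourF_phi_smooth o ρ₀ ε) (FourF_phi_smooth' o ρ₀ ε)
    (fun ρ x m n => by rw [FourF_phi_apply, FourF_phi_apply]; ring) (α' := ρ₀ - ε / 2)
    (β' := ρ₀ + ε / 2) (by linarith) (by linarith) (fun ρ hρ x => FourF_phi_id ho hε ρ hρ x)
  have hFM := (hMc k X hcar).map F hF1 hF4
  have key : (fun l => F (M (K l))) = K' := by
    funext l
    have p1 := FourF_per hK.per (l - round l) (round l)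
    have p2 := FourF_per hK'.per (l - round l) (round l)
    rw [sub_add_cancel] at p1 p2
    rw [p1, p2]
    have hbd := abs_le.1 (abs_sub_round l)
    obtain ⟨x, hx⟩ : ∃ x, x = l - round l := ⟨_, rfl⟩
    rw [← hx] at hbd ⊢
    by_cases h3 : |x| < 1 / 4
    · exact FourF_key hC hε h1 h2 ho hw0 hw' hew hK hK' hb hs hM hF2 hF3 h3
    · have tail : ∀ y, 1 / 4 ≤ y → y ≤ 3 / 4 → F (M (K y)) = K' y := by
        intro y h4 h5
        have hp : ∀ z Y t, ‖z‖ < 1 → K y = C (z, Y, t) → ε ≤ |‖z‖ - ρ₀| :=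
          fun z Y t hz he => absurd he (hK.outer y h4 h5 z Y t hz)
        rw [FourF_fixM hε h1 h2 hM hp, FourF_fixF hε h1 h2 hF3 hp, ht y h4 h5]
      rw [not_lt, le_abs] at h3
      rcases h3 with h3 | h3
      · exact tail x h3 (by linarith)
      · rw [← hK.per, ← hK'.per]
        exact tail (x + 1) (by linarith) (by linarith)
  rw [← key]
  exact hFM

end Pool.Agent.PTH
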