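import Pool.Agent.PTH.FourD
import Pool.Agent.PTH.FourF
import Pool.Agent.PTH.WEq
import Pool.Agent.CSW.Free

/-!
# PTH/FourG: `g (x⁻¹ y x y⁻¹)² g⁻¹ ∈ Γ_F`   (difficulty 2)

Let `P₀ = fwp 0 G L`, `P₁ = fwp gth1 G L`, `P₂ = fwp (gth1 - gth2) G L`.
* `imp1 : PathImp P₀ P₁`: `four_imp` with `ρ₀ = 2/5`, `ε = 1/20`, `o = -1`, `(m, n) = sumZ G`: on `|ρ - 2/5| ≤ 1/20` (inside `[13/40, 5/8]`) `P₀ = (m, n) + Sp 1 0 = (m + 3/8, n)`
  (`fwp_box`, `Sp_int`), `P₁ = (m, n) + Sp 1 (gth1 ρ)`, `gth1 ρ = 2 gs (40 ρ - 16) = 2 gs (2 (ρ - 2/5) / (1/20))`.  For `|ρ - 2/5| ≥ 1/20`: `gth1 ρ` is `0` or `2`: `Sp h 2 = Sp h 0` (`Sp_add`),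
  so `P₁ ρ = P₀ ρ`.
* `imp2 : PathImp P₁ P₂`: `four_imp` with `ρ₀ = 11/20`, `ε = 1/20`, `o = 1`: on `|ρ - 11/20| ≤ 1/20`: `gth1 = 2`, `P₁ = (m, n) + Sp 1 2 = (m + 3/8, n)`,
  `P₂ = (m, n) + Sp 1 (2 - gth2 ρ) = (m, n) + Sp 1 (- gth2 ρ)`, `gth2 ρ = 2 gs (40 ρ - 22)`.  Elsewhere `gth2` is `0` or `2`.
* `P₂ ≈ P₀`: both are paths homotopic to `G ++ L` (`sh_fwp0`, `fwp_isPath`, `gth1 - gth2` is `0` for `ρ ≤ 7/20` and for `ρ ≥ 3/5`): `pathEq_of_words` or `sh_pathEq`.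
* `PathEq P₀ P₁`: let `a, C, K, K', n, X` be as in the definition.  One direction is `imp1`.  For the other one take (`exists_repl`, PTH/Repl; smoothness of `arc P₂`: see how `PathEq.trans` is
  proved in PTH/Repl from `exists_repl` and `IsPath`) a knot `K₂` with arc `arc P₂` and the same tail; `imp2` from `K'` to `K₂`, then `P₂ ≈ P₀` from `K₂` to `K`.
* `four_words`: `P₀` is homotopic to the word `G ++ L`, `P₁` to `G ++ (c0 ++ c0) ++ L` (`sh_fwp2`, `sumZ_c0`): `pathEq_of_words`.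
* `four_mem`: `mem_GamF_iff'` gives `mk (G ++ (c0 ++ c0)) (mk G)⁻¹ ∈ Γ` for every word `G`, so `h (x y⁻¹ x⁻¹ y)² h⁻¹ ∈ Γ` for every `h` (`FreeGroup.mk_toWord`, `FreeGroup.mul_mk`,
  `mk c0 = x y⁻¹ x⁻¹ y` with `x = fx, y = fy`).  With `h = g y x⁻¹`: `x⁻¹ y x y⁻¹ = (y x⁻¹) (x y⁻¹ x⁻¹ y) (y x⁻¹)⁻¹`, so `g (x⁻¹ y x y⁻¹)² g⁻¹ = h (x y⁻¹ x⁻¹ y)² h⁻¹` (`group`).
-/

open scoped Manifold ContDiff Topology
open Set Filter

namespace Pool.Agent.PTH

open Pool.Agent.CSW (F2 fx fy)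
open Pool.Agent.RBM (gs)

universe u

theorem FourG_zero (G L : List (Bool × Bool)) : IsPath (fwp (fun _ => 0) G L) (sumZ (G ++ L)) :=
  fwp_isPath (k := 0) contDiff_const (fun _ _ => rfl) (fun _ _ => by simp) G L

theorem FourG_one (G L : List (Bool × Bool)) : IsPath (fwp gth1 G L) (sumZ (G ++ L)) :=
  fwp_isPath (k := 2) gth1_smooth (fun ρ hρ => gth1_left (by linarith))
    (fun ρ hρ => by rw [gth1_right (by linarith)]; norm_num) G L

theorem FourG_th2_smooth : ContDiff ℝ ∞ fun ρ => gth1 ρ - gth2 ρ := gth1_smooth.sub gth2_smooth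

theorem FourG_th2_left {ρ : ℝ} (h : ρ ≤ 13 / 40) : gth1 ρ - gth2 ρ = 0 := by
  rw [gth1_left (by linarith), gth2_left (by linarith), sub_zero]

theorem FourG_th2_right {ρ : ℝ} (h : 5 / 8 ≤ ρ) : gth1 ρ - gth2 ρ = 0 := by
  rw [gth1_right (by linarith), gth2_right (by linarith), sub_self]

theorem FourG_two (G L : List (Bool × Bool)) :
    IsPath (fwp (fun ρ => gth1 ρ - gth2 ρ) G L) (sumZ (G ++ L)) :=
  fwp_isPath (k := 0) FourG_th2_smooth (fun ρ hρ => FourG_th2_left hρ)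
    (fun ρ hρ => by rw [FourG_th2_right hρ]; simp) G L

theorem FourG_Sp_two (h : ℝ) : Sp h 2 = Sp h 0 := by
  have e := Sp_add h 0 2
  rw [zero_add] at e
  simpa using e

theorem FourG_Sp_zero : Sp 1 0 = (3 / 8, 0) := by
  have e := Sp_int 1 0
  rw [Int.cast_zero] at e
  rw [e]
  norm_num

theorem FourG_imp1 (G L : List (Bool × Bool)) : PathImp.{u} (fwp (fun _ => 0) G L) (fwp gth1 G L) := by
  refine four_imp (m := (sumZ G).1) (n := (sumZ G).2) (ρ₀ := 2 / 5) (ε := 1 / 20) (o := -1) (by norm_num)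
    (by norm_num) (by norm_num) (Or.inr rfl) ?_ ?_ ?_ ?_
  · intro ρ hρ
    obtain ⟨ε, hε, h⟩ := (FourG_zero G L).start
    exact h ρ (hρ.trans hε.le)
  · intro ρ hρ
    rw [abs_le] at hρ
    rw [fwp_box _ G L (by linarith [hρ.1]) (by linarith [hρ.2]), FourG_Sp_zero, Prod.mk_add_mk, add_zero]
  · intro ρ hρ
    rw [abs_le] at hρ
    rw [fwp_box _ G L (by linarith [hρ.1]) (by linarith [hρ.2])]
    unfold gth1
    rw [show 2 * (ρ - 2 / 5) / (1 / 20) = 40 * ρ - 16 by ring, neg_neg, one_mul]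
  · intro ρ hρ
    have key : Sp (hf3 (20 * ρ - 6)) (gth1 ρ) = Sp (hf3 (20 * ρ - 6)) 0 := by
      rw [le_abs] at hρ
      rcases hρ with hρ | hρ
      · rw [gth1_right (by linarith), FourG_Sp_two]
      · rw [gth1_left (by linarith)]
    unfold fwp
    rw [key]

theorem FourG_imp2 (G L : List (Bool × Bool)) :
    PathImp.{u} (fwp gth1 G L) (fwp (fun ρ => gth1 ρ - gth2 ρ) G L) := by
  refine four_imp (m := (sumZ G).1) (n := (sumZ G).2) (ρ₀ := 11 / 20) (ε := 1 / 20) (o := 1) (by norm_num)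
    (by norm_num) (by norm_num) (Or.inl rfl) ?_ ?_ ?_ ?_
  · intro ρ hρ
    obtain ⟨ε, hε, h⟩ := (FourG_one G L).start
    exact h ρ (hρ.trans hε.le)
  · intro ρ hρ
    rw [abs_le] at hρ
    rw [fwp_box _ G L (by linarith [hρ.1]) (by linarith [hρ.2]), gth1_right (by linarith [hρ.1]),
      FourG_Sp_two, FourG_Sp_zero, Prod.mk_add_mk, add_zero]
  · intro ρ hρ
    rw [abs_le] at hρ
    rw [fwp_box _ G L (by linarith [hρ.1]) (by linarith [hρ.2]), gth1_right (by linarith [hρ.1])]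
    unfold gth2
    have e := Sp_add 1 (-1 * (2 * gs (2 * (ρ - 11 / 20) / (1 / 20)))) 2
    rw [← e]
    congr 2
    rw [show 2 * (ρ - 11 / 20) / (1 / 20) = 40 * ρ - 22 by ring]
    push_cast
    ring
  · intro ρ hρ
    have key : Sp (hf3 (20 * ρ - 6)) (gth1 ρ - gth2 ρ) = Sp (hf3 (20 * ρ - 6)) (gth1 ρ) := by
      rw [le_abs] at hρ
      rcases hρ with hρ | hρ
      · rw [gth1_right (by linarith), gth2_right (by linarith), FourG_Sp_two, sub_self]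
      · rw [gth2_left (by linarith), sub_zero]
    unfold fwp
    rw [key]

theorem FourG_pe02 (G L : List (Bool × Bool)) :
    PathEq.{u} (fwp (fun ρ => gth1 ρ - gth2 ρ) G L) (fwp (fun _ => 0) G L) := by
  have h1 := sh_fwp0 FourG_th2_smooth (fun ρ hρ => FourG_th2_left hρ) (fun ρ hρ => FourG_th2_right hρ) G L
  have h2 := sh_fwp0 (ϑ := fun _ => 0) contDiff_const (fun _ _ => rfl) (fun _ _ => rfl) G L
  exact sh_pathEq (FourG_two G L) (FourG_zero G L) (sh_trans h1 (sh_symm h2))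

theorem FourG_pe (G L : List (Bool × Bool)) : PathEq.{u} (fwp gth1 G L) (fwp (fun _ => 0) G L) := by
  intro a C K K' n X _ _ _ hA hC hK hK' ht
  constructor
  · intro hc
    obtain ⟨K₂, h1, h2⟩ := exists_repl hC hK (arc_smooth (FourG_two G L)).contDiffOn
      (fun _ hl => arc_norm hl) (arc_end (FourG_one G L) (FourG_two G L))
    have h3 := FourG_imp2 G L a C K K₂ n X hA hC hK h1 h2 hc
    exact (FourG_pe02 G L a C K₂ K' n X hA hC h1 hK' (fun l h4 h5 => by rw [ht l h4 h5, h2 l h4 h5])).1 h3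
  · exact FourG_imp1 G L a C K' K n X hA hC hK' hK (fun l h4 h5 => (ht l h4 h5).symm)

theorem four_words (G L : List (Bool × Bool)) :
    PathEq.{u} (wpath (G ++ (c0 ++ c0) ++ L)) (wpath (G ++ L)) := by
  have h1 := sh_fwp2 gth1_smooth (fun ρ hρ => gth1_left (by linarith))
    (fun ρ hρ => gth1_right (by linarith)) G L
  have h2 := sh_fwp0 (ϑ := fun _ => 0) contDiff_const (fun _ _ => rfl) (fun _ _ => rfl) G L
  have hw : IsPath (fwp gth1 G L) (sumZ (G ++ (c0 ++ c0) ++ L)) := by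
    rw [sumZ_c0]
    exact FourG_one G L
  rw [← sumZ_c0] at h1
  exact (pathEq_of_words hw (FourG_zero G L) h1 h2).1 (FourG_pe G L)

theorem FourG_c0 : FreeGroup.mk c0 = fx * fy⁻¹ * fx⁻¹ * fy := rfl

theorem four_mem (g : F2) : g * (fx⁻¹ * fy * fx * fy⁻¹) ^ 2 * g⁻¹ ∈ Gam.{u} := by
  obtain ⟨h, hh⟩ : ∃ h : F2, h = g * fy * fx⁻¹ := ⟨_, rfl⟩
  have h1 := (mem_GamF_iff'.{u} (h.toWord ++ (c0 ++ c0)) h.toWord).2 (fun L => four_words h.toWord L)
  rw [← FreeGroup.mul_mk, ← FreeGroup.mul_mk, FreeGroup.mk_toWord, FourG_c0] at h1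
  have e : g * (fx⁻¹ * fy * fx * fy⁻¹) ^ 2 * g⁻¹ =
      h * (fx * fy⁻¹ * fx⁻¹ * fy * (fx * fy⁻¹ * fx⁻¹ * fy)) * h⁻¹ := by
    rw [hh, pow_two]
    group
  rw [e]
  exact h1

end Pool.Agent.PTH
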