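import Pool.Agent.PTH.SymB
import Pool.Agent.PTH.WEq
import Pool.Agent.CSW.Free

/-!
# PTH/SymC: `Γ_F` is invariant under `s₀`, `s₀⁻¹` and under `x ↦ x⁻¹`   (difficulty 2)

* `mk_sub`: `FreeGroup.mk (L.flatMap sub) = s0 (FreeGroup.mk L)` (induction on `L`, `FreeGroup.mul_mk`, cases on the letter;
  `(x y)⁻¹ = y⁻¹ x⁻¹`).  `mk_mir`: `FreeGroup.mk (L.map minv) = m0 (FreeGroup.mk L)`.
* `wpath_shear`: `wpath L` and `shr ∘ wpath L`: `PathEq (fun ρ => shr (wpath L ρ)) (wpath (L.flatMap sub))`: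
  `shr ∘ wpath L` is a path (`IsPath.shr`, end point `sumZ (L.flatMap sub)`), and it is homotopic to `shr ∘ pos L` (reparametrisation:
  compose the homotopy of `sh_wpath` with `shr`, or `sh_reparam` for the segment `shr ∘ pos L`), hence to `pos (L.flatMap sub)`
  (`sh_subL`); `pathEq_word`.
* `gam_shear`: let `g ∈ Γ_F`, `G` a word of `g`, `L` any word; let `M` be a word of `s0' (mk L)` (`FreeGroup.toWord`).  `PathEq (wpath (G ++
  M)) (wpath M)` (`mem_GamF_iff`), so `PathEq (shr ∘ wpath (G ++ M)) (shr ∘ wpath M)` (`pathEq_shear`), so by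
  `wpath_shear` (both sides, `PathEq.trans`, `IsPath`) `PathEq (wpath ((G ++ M).flatMap sub)) (wpath (M.flatMap sub))`, and
  `mk (M.flatMap sub) = s0 (s0' (mk L)) = mk L`, `mk ((G ++ M).flatMap sub) = s0 g * mk L`: `wpath_eq`.
  `mem_GamF_iff` with the word `G.flatMap sub` of `s0 g`.
* `gam_mir`: the same with `wpath (L.map minv) = mir ∘ wpath L` (equality, `mir_pos`, `List.length_map`).
* `gam_shear'`: `s0' = m0 ∘ s0 ∘ m0`.
-/

open scoped Manifold ContDiff Topology
open Set Filter

namespace Pool.Agent.PTH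

open Pool.Agent.CSW (F2 fx fy s0 s0')

universe u

/-- `x ↦ x⁻¹, y ↦ y` -/
def m0 : F2 →* F2 := FreeGroup.lift fun b => if b then fx⁻¹ else fy

theorem SymC_x : (FreeGroup.mk [(true, true)] : F2) = fx := rfl
theorem SymC_y : (FreeGroup.mk [(false, true)] : F2) = fy := rfl
theorem SymC_x' : (FreeGroup.mk [(true, false)] : F2) = fx⁻¹ := by
  rw [← SymC_x, FreeGroup.inv_mk]
  rfl
theorem SymC_y' : (FreeGroup.mk [(false, false)] : F2) = fy⁻¹ := by
  rw [← SymC_y, FreeGroup.inv_mk]
  rfl

theorem SymC_cons (d : Bool × Bool) (L : List (Bool × Bool)) :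
    (FreeGroup.mk (d :: L) : F2) = FreeGroup.mk [d] * FreeGroup.mk L := by
  rw [FreeGroup.mul_mk]
  rfl

theorem SymC_sub1 (d : Bool × Bool) : (FreeGroup.mk (sub d) : F2) = s0 (FreeGroup.mk [d]) := by
  rcases d with ⟨d1, d2⟩
  cases d1
  · cases d2
    · have e1 : sub (false, false) = [(false, false), (true, false)] := rfl
      rw [e1, SymC_cons, SymC_y', SymC_x', map_inv, CSW.s0_y, mul_inv_rev]
    · have e1 : sub (false, true) = [(true, true), (false, true)] := rfl
      rw [e1, SymC_cons, SymC_y, SymC_x, CSW.s0_y]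
  · cases d2
    · have e1 : sub (true, false) = [(true, false)] := rfl
      rw [e1, SymC_x', map_inv, CSW.s0_x]
    · have e1 : sub (true, true) = [(true, true)] := rfl
      rw [e1, SymC_x, CSW.s0_x]

theorem mk_sub (L : List (Bool × Bool)) : (FreeGroup.mk (L.flatMap sub) : F2) = s0 (FreeGroup.mk L) := by
  induction L with
  | nil =>
    have e1 : (FreeGroup.mk ([] : List (Bool × Bool)) : F2) = 1 := rfl
    rw [List.flatMap_nil, e1, map_one]
  | cons d L ih =>
    rw [List.flatMap_cons, ← FreeGroup.mul_mk, ih, SymC_sub1, SymC_cons d L, map_mul]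

@[simp] theorem SymC_m0x : m0 fx = fx⁻¹ := by simp [m0, fx]
@[simp] theorem SymC_m0y : m0 fy = fy := by simp [m0, fy]

theorem SymC_mir1 (d : Bool × Bool) : (FreeGroup.mk [minv d] : F2) = m0 (FreeGroup.mk [d]) := by
  rcases d with ⟨d1, d2⟩
  cases d1
  · cases d2
    · have e1 : minv (false, false) = (false, false) := rfl
      rw [e1, SymC_y', map_inv, SymC_m0y]
    · have e1 : minv (false, true) = (false, true) := rfl
      rw [e1, SymC_y, SymC_m0y]
  · cases d2
    · have e1 : minv (true, false) = (true, true) := rfl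
      rw [e1, SymC_x', SymC_x, map_inv, SymC_m0x, inv_inv]
    · have e1 : minv (true, true) = (true, false) := rfl
      rw [e1, SymC_x', SymC_x, SymC_m0x]

theorem mk_mir (L : List (Bool × Bool)) : (FreeGroup.mk (L.map minv) : F2) = m0 (FreeGroup.mk L) := by
  induction L with
  | nil =>
    have e1 : (FreeGroup.mk ([] : List (Bool × Bool)) : F2) = 1 := rfl
    rw [List.map_nil, e1, map_one]
  | cons d L ih =>
    rw [List.map_cons, SymC_cons (minv d), ih, SymC_mir1, SymC_cons d L, map_mul]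

theorem wpath_shear (L : List (Bool × Bool)) :
    PathEq.{u} (fun ρ => shr (wpath L ρ)) (wpath (L.flatMap sub)) := by
  have h1 : IsPath (fun ρ => shr (wpath L ρ)) (sumZ (L.flatMap sub)) := by
    rw [SymB_sumZ]
    exact (wpath_isPath L).shr
  refine pathEq_word h1 ?_
  have h2 : IsSeg (fun τ => shr (pos L τ)) L.length (sumZ (L.flatMap sub)) := by
    rw [SymB_sumZ]
    exact shr_seg (pos_seg L)
  have h3 : SH (fun τ => shr (pos L τ))
      ((fun τ => shr (pos L τ)) ∘ fun ρ => (L.length : ℝ) * Real.smoothTransition (2 * ρ - 1 / 2))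
      (sumZ (L.flatMap sub)) := by
    refine sh_reparam (M := 1) h2
      (fun ρ => (L.length : ℝ) * Real.smoothTransition (2 * ρ - 1 / 2)) ?_ ?_ ?_
    · have hs : Continuous Real.smoothTransition := Real.smoothTransition.continuous
      exact continuous_const.mul (hs.comp (by fun_prop))
    · intro τ hτ
      rw [Real.smoothTransition.zero_of_nonpos (show 2 * τ - 1 / 2 ≤ 0 by linarith), mul_zero]
    · intro τ hτ
      rw [Real.smoothTransition.one_of_one_le (show 1 ≤ 2 * τ - 1 / 2 by linarith), mul_one]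
  exact sh_trans (sh_symm h3) (sh_subL L)

theorem gam_shear (g : F2) (h : g ∈ Gam.{u}) : s0 g ∈ Gam.{u} := by
  have h0 : g ∈ GamF.{u} := h
  have h1 := (mem_GamF_iff g g.toWord FreeGroup.mk_toWord).1 h0
  change s0 g ∈ GamF.{u}
  refine (mem_GamF_iff (s0 g) (g.toWord.flatMap sub) (by rw [mk_sub, FreeGroup.mk_toWord])).2 ?_
  intro L
  have h2 := pathEq_shear (h1 (s0' (FreeGroup.mk L)).toWord)
  have e1 : PathEq.{u} (wpath (g.toWord.flatMap sub ++ L))
      (wpath ((g.toWord ++ (s0' (FreeGroup.mk L)).toWord).flatMap sub)) := by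
    refine wpath_eq ?_
    rw [mk_sub, ← FreeGroup.mul_mk, ← FreeGroup.mul_mk, map_mul, mk_sub, FreeGroup.mk_toWord,
      FreeGroup.mk_toWord, CSW.s0_s0']
  have e2 : PathEq.{u} (wpath ((s0' (FreeGroup.mk L)).toWord.flatMap sub)) (wpath L) := by
    refine wpath_eq ?_
    rw [mk_sub, FreeGroup.mk_toWord, CSW.s0_s0']
  have e3 := wpath_shear.{u} (g.toWord ++ (s0' (FreeGroup.mk L)).toWord)
  have e4 := wpath_shear.{u} (s0' (FreeGroup.mk L)).toWord
  have p1 := (wpath_isPath (g.toWord ++ (s0' (FreeGroup.mk L)).toWord)).shr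
  have p2 := (wpath_isPath (s0' (FreeGroup.mk L)).toWord).shr
  have f1 := e1.trans e3.symm (wpath_isPath _) (wpath_isPath _)
  have f2 := f1.trans h2 (wpath_isPath _) p1
  have f3 := f2.trans e4 (wpath_isPath _) p2
  exact f3.trans e2 (wpath_isPath _) (wpath_isPath _)

theorem SymC_wmir (L : List (Bool × Bool)) : wpath (L.map minv) = fun ρ => mir (wpath L ρ) := by
  funext ρ
  unfold wpath
  rw [List.length_map, mir_pos]

theorem SymC_m0m0 (g : F2) : m0 (m0 g) = g := by
  have : m0.comp m0 = MonoidHom.id F2 := by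
    refine FreeGroup.ext_hom _ _ fun b => ?_
    cases b
    · change m0 (m0 fy) = fy
      simp
    · change m0 (m0 fx) = fx
      simp
  exact DFunLike.congr_fun this g

theorem gam_mir (g : F2) (h : g ∈ Gam.{u}) : m0 g ∈ Gam.{u} := by
  have h0 : g ∈ GamF.{u} := h
  have h1 := (mem_GamF_iff g g.toWord FreeGroup.mk_toWord).1 h0
  change m0 g ∈ GamF.{u}
  refine (mem_GamF_iff (m0 g) (g.toWord.map minv) (by rw [mk_mir, FreeGroup.mk_toWord])).2 ?_
  intro L
  have h2 := pathEq_mirror (h1 (m0 (FreeGroup.mk L)).toWord)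
  rw [← SymC_wmir, ← SymC_wmir] at h2
  have e1 : PathEq.{u} (wpath (g.toWord.map minv ++ L))
      (wpath ((g.toWord ++ (m0 (FreeGroup.mk L)).toWord).map minv)) := by
    refine wpath_eq ?_
    rw [mk_mir, ← FreeGroup.mul_mk, ← FreeGroup.mul_mk, map_mul, mk_mir, FreeGroup.mk_toWord,
      FreeGroup.mk_toWord, SymC_m0m0]
  have e2 : PathEq.{u} (wpath ((m0 (FreeGroup.mk L)).toWord.map minv)) (wpath L) := by
    refine wpath_eq ?_
    rw [mk_mir, FreeGroup.mk_toWord, SymC_m0m0]
  have f1 := e1.trans h2 (wpath_isPath _) (wpath_isPath _)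
  exact f1.trans e2 (wpath_isPath _) (wpath_isPath _)

theorem gam_shear' (g : F2) (h : g ∈ Gam.{u}) : s0' g ∈ Gam.{u} := by
  have e : s0' = (m0.comp s0).comp m0 := by
    refine FreeGroup.ext_hom _ _ fun b => ?_
    cases b
    · change s0' fy = m0 (s0 (m0 fy))
      simp
    · change s0' fx = m0 (s0 (m0 fx))
      simp
  rw [e]
  exact gam_mir _ (gam_shear _ (gam_mir _ h))

end Pool.Agent.PTH
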