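import Mathlib
import Pool.Agent.RBM.Defs

/-!
# PTH/Defs: knots which are carried, charts of solid tori, arcs and paths

`P` is a 4-manifold with a free action `a` of `R / Z` (a circle bundle over the 3-manifold `N = P / a`).
A thick torus `κ (l, v, t)` (`l, t` modulo 1, `v` in the unit disc) is a thick knot of `N` if it is equivariant.
-/

open scoped Manifold ContDiff
open Complex (I)

namespace Pool.Agent.PTH

open Pool.Agent.RSG (E4 S3 S4 ex)
open Pool.Agent.RBM (ThickT TwinP OnT)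

universe u

section general

variable {EP : Type*} [NormedAddCommGroup EP] [NormedSpace ℝ EP] {HP : Type*} [TopologicalSpace HP]
  (IP : ModelWithCorners ℝ EP HP) {P : Type*} [TopologicalSpace P] [ChartedSpace HP P]

/-- free smooth action of `R / Z` -/
structure Act (a : ℝ → P → P) : Prop where
  zero : ∀ x, a 0 x = x
  add : ∀ s t x, a (s + t) x = a s (a t x)
  per : ∀ x, a 1 x = x
  free : ∀ t x, a t x = x → ∃ m : ℤ, t = m
  smooth : ContMDiff ((𝓘(ℝ, ℝ)).prod IP) IP ∞ fun q : ℝ × P => a q.1 q.2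

/-- The closed curve `K` of `P` (a lift of a knot in `P / a`) carries `X` : `X = (P - a K) ∪ twin`.  The thick
knot with core `K` (in particular the framing) and the twist `j` are arbitrary; the roll `n` is fixed. -/
def Carries (a : ℝ → P → P) (n : ℤ) (K : ℝ → P) (X : Type*) [TopologicalSpace X]
    [ChartedSpace E4 X] : Prop :=
  ∃ (κ : ℝ × ℂ × ℝ → P) (j : ℤ), ThickT IP κ ∧ (∀ l v t, κ (l, v, t) = a t (κ (l, v, 0))) ∧
    (∀ l, κ (l, 0, 0) = K l) ∧ Nonempty (TwinP IP κ n j X)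

/-- Equivariant chart of a solid torus: `C (z, Y, t)`, `‖z‖ < 1`, `Y` and `t` modulo 1 (`t` is the circle
of the action, the solid torus `V = {(z, Y)}` lies in `P / a`). -/
structure VChart (a : ℝ → P → P) (C : ℂ × ℝ × ℝ → P) : Prop where
  perY : ∀ z Y t, C (z, Y + 1, t) = C (z, Y, t)
  equiv : ∀ z Y t, C (z, Y, t) = a t (C (z, Y, 0))
  loc : ∀ z Y t, ‖z‖ < 1 → IsLocalDiffeomorphAt 𝓘(ℝ, ℂ × ℝ × ℝ) IP ∞ C (z, Y, t)
  inj : ∀ z Y t z' Y' t', ‖z‖ < 1 → ‖z'‖ < 1 → C (z, Y, t) = C (z', Y', t') →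
    z = z' ∧ (∃ m : ℤ, Y' = Y + m) ∧ ∃ m : ℤ, t' = t + m

/-- `K` is a knot whose part in the solid torus `V` is the arc `γ` (parameter `|l| < 1/4`); the part
`1/4 ≤ l ≤ 3/4` (the tail) lies outside `V`. -/
structure VKnot (C : ℂ × ℝ × ℝ → P) (γ : ℝ → ℂ × ℝ) (K : ℝ → P) : Prop where
  per : ∀ l, K (l + 1) = K l
  smooth : ContMDiff 𝓘(ℝ, ℝ) IP ∞ K
  inner : ∀ l, |l| < 1 / 4 → ‖(γ l).1‖ < 1 ∧ K l = C ((γ l).1, (γ l).2, 0)
  outer : ∀ l, 1 / 4 ≤ l → l ≤ 3 / 4 → ∀ z Y t, ‖z‖ < 1 → K l ≠ C (z, Y, t)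

end general

/-- `S3 × S1` -/
abbrev SP := S3 × Circle

/-- model of `SP` -/
noncomputable abbrev ISP := (𝓡 3).prod (𝓡 1)

/-- Two arcs in `V` are equivalent if they carry the same manifolds, whatever the chart and the tail. -/
def ArcEq (γ γ' : ℝ → ℂ × ℝ) : Prop :=
  ∀ (a : ℝ → SP → SP) (C : ℂ × ℝ × ℝ → SP) (K K' : ℝ → SP) (n : ℤ) (X : Type u)
    [TopologicalSpace X] [ChartedSpace E4 X] [T2Space X],
    Act ISP a → VChart ISP a C → VKnot ISP C γ K → VKnot ISP C γ' K' →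
    (∀ l, 1 / 4 ≤ l → l ≤ 3 / 4 → K' l = K l) → (Carries ISP a n K X ↔ Carries ISP a n K' X)

/-! ## paths

`w ρ = (X, Y)`, `0 < ρ < 1`, is a path of the second strand `ρ e^{2πiX}` at height `Y`; the first strand is the ray
`-ρ` at height `0`, so that the path has to avoid the points `(1/2, 0) + Z²`. -/

def Obs (q : ℝ × ℝ) : Prop := ∃ m n : ℤ, q = ((m : ℝ) + 1 / 2, (n : ℝ))

/-- smooth paths from the foot `(0, 0)` to the lattice point `g` -/
structure IsPath (w : ℝ → ℝ × ℝ) (g : ℤ × ℤ) : Prop where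
  smooth : ContDiff ℝ ∞ w
  start : ∃ ε : ℝ, 0 < ε ∧ ∀ ρ ≤ ε, w ρ = (0, 0)
  stop : ∃ ε : ℝ, 0 < ε ∧ ∀ ρ, 1 - ε ≤ ρ → w ρ = ((g.1 : ℝ), (g.2 : ℝ))
  avoid : ∀ ρ, ¬ Obs (w ρ)

/-- the arc with path `w` -/
noncomputable def arc (w : ℝ → ℝ × ℝ) (l : ℝ) : ℂ × ℝ := ((4 * l : ℝ) * ex (w (4 * l)).1, (w (4 * l)).2)

/-- `w ≈ w'` -/
def PathEq (w w' : ℝ → ℝ × ℝ) : Prop := ArcEq.{u} (arc w) (arc w')

/-! ## segments and words -/

/-- A segment of duration `m`: a curve from `0` to the lattice point `e` which avoids the obstacles; constant for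
`τ ≤ 0` and for `τ ≥ m`. -/
structure IsSeg (u : ℝ → ℝ × ℝ) (m : ℝ) (e : ℤ × ℤ) : Prop where
  nn : 0 ≤ m
  cont : Continuous u
  start : ∀ τ ≤ 0, u τ = (0, 0)
  stop : ∀ τ, m ≤ τ → u τ = ((e.1 : ℝ), (e.2 : ℝ))
  avoid : ∀ τ, ¬ Obs (u τ)

/-- first `u` (duration `m`), then `u'` -/
def cat (u : ℝ → ℝ × ℝ) (m : ℝ) (u' : ℝ → ℝ × ℝ) (τ : ℝ) : ℝ × ℝ := u τ + u' (τ - m)

/-- `u` and `u'` are homotopic segments from `0` to `e` -/
def SH (u u' : ℝ → ℝ × ℝ) (e : ℤ × ℤ) : Prop :=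
  ∃ (M : ℝ) (H : ℝ → ℝ → ℝ × ℝ), Continuous (fun q : ℝ × ℝ => H q.1 q.2) ∧ H 0 = u ∧ H 1 = u' ∧
    ∀ l, 0 ≤ l → l ≤ 1 → IsSeg (H l) M e

/-- the sign of a letter -/
def sgn (s : Bool) : ℤ := if s then 1 else -1

/-- displacement of the letter: `(true, s)` is `x^{±1}`, `(false, s)` is `y^{±1}` -/
def dirZ (d : Bool × Bool) : ℤ × ℤ := if d.1 then (sgn d.2, 0) else (0, sgn d.2)

/-- `0` for `τ ≤ 0` and for `τ ≥ 1`, `1/2` at `1/2` -/
noncomputable def bump (τ : ℝ) : ℝ :=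
  1 / 2 * Real.smoothTransition (2 * τ) * Real.smoothTransition (2 - 2 * τ)

/-- The letters: `x` goes from `(0, 0)` to `(1, 0)` above the obstacle `(1/2, 0)`, `y` goes straight from `(0, 0)`
to `(0, 1)`; `x⁻¹` from `(0, 0)` to `(-1, 0)` above `(-1/2, 0)`. -/
noncomputable def ltr (d : Bool × Bool) (τ : ℝ) : ℝ × ℝ :=
  if d.1 then (sgn d.2 * Real.smoothTransition τ, bump τ) else (0, sgn d.2 * Real.smoothTransition τ)

/-- the walk of the word `L` (one letter per unit of time) -/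
noncomputable def pos : List (Bool × Bool) → ℝ → ℝ × ℝ
  | [], _ => 0
  | d :: L, τ => ltr d τ + pos L (τ - 1)

/-- total displacement -/
def sumZ : List (Bool × Bool) → ℤ × ℤ
  | [] => 0
  | d :: L => dirZ d + sumZ L

/-- the path of the word `L` -/
noncomputable def wpath (L : List (Bool × Bool)) (ρ : ℝ) : ℝ × ℝ :=
  pos L (L.length * Real.smoothTransition (2 * ρ - 1 / 2))

/-- `Γ_F` : the words which can be inserted at the start of every path. -/
def GamF : Set (FreeGroup Bool) :=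
  {g | ∀ L L' : List (Bool × Bool), FreeGroup.mk L' = g * FreeGroup.mk L → PathEq.{u} (wpath L') (wpath L)}

end Pool.Agent.PTH
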