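import Pool.Agent.PTH.Approx

/-!
# PTH/Hom: invariance under small steps implies invariance under homotopies   (difficulty 3)

Smooth paths from `s₀` to `s₁` (`SPath`) and a predicate `Q` on them, invariant under small steps (`hstep`).
Proof of `hom_abs`: `H l ρ` continuous on `R × R`, for `l ∈ [0, 1]` avoiding the obstacles, `= s₀` for `ρ ≤ ε`, `= s₁` for
`ρ ≥ 1 - ε`.
1. `μ > 0` with `2 μ ≤ Dd (H l ρ)` for all `l ∈ [0, 1]` and all `ρ`: minimum on the compact `[0, 1]²` (`Dd` is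
   continuous, `Dd > 0` off the obstacles by `Dd_eq_zero`, `Dd_nonneg`; outside, `H l` is constant in `ρ`).
2. `η` from `hstep` for `μ`; `η' = min (η / 3) (μ / 7)`.  Uniform continuity on `[0, 1]²`: `N ≥ 1` with
   `‖H l ρ - H l' ρ‖ ≤ η'` for `|l - l'| ≤ 1 / N`, `l, l' ∈ [0, 1]`, all `ρ`.
3. For `i = 0, .., N` choose smooth `w_i` with `‖w_i - H (i / N)‖ ≤ η'`, `SPath s₀ s₁ w_i`: `w_0 = H 0`, `w_N = H 1`, the
   others by `exists_approx` (with `ε' = min ε (1/3)`, applied to `H (i/N) - s₀`, i.e. translate so that the start is `0`);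
   `Dd (w_i ρ) ≥ Dd (H (i/N) ρ) - 7 η' ≥ 2 μ - μ = μ` (`Dd_lip`), in particular `w_i` avoids the obstacles.
4. `‖w_{i+1} - w_i‖ ≤ 3 η' ≤ η`: `hstep`; induction on `i`.
-/

open scoped Manifold ContDiff Topology
open Set Filter

namespace Pool.Agent.PTH

/-- smooth paths from `s₀` to `s₁` which avoid the obstacles -/
structure SPath (s₀ s₁ : ℝ × ℝ) (w : ℝ → ℝ × ℝ) : Prop where
  smooth : ContDiff ℝ ∞ w
  start : ∃ ε : ℝ, 0 < ε ∧ ∀ ρ ≤ ε, w ρ = s₀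
  stop : ∃ ε : ℝ, 0 < ε ∧ ∀ ρ, 1 - ε ≤ ρ → w ρ = s₁
  avoid : ∀ ρ, ¬ Obs (w ρ)

theorem Hom_uc {H : ℝ → ℝ → ℝ × ℝ} (hc : Continuous fun q : ℝ × ℝ => H q.1 q.2) {η : ℝ} (hη : 0 < η) :
    ∃ δ : ℝ, 0 < δ ∧ ∀ l l' ρ : ℝ, l ∈ Icc (0 : ℝ) 1 → l' ∈ Icc (0 : ℝ) 1 → ρ ∈ Icc (0 : ℝ) 1 → |l - l'| < δ →
      ‖H l ρ - H l' ρ‖ ≤ η := by
  have hK : IsCompact (Icc (0 : ℝ) 1 ×ˢ Icc (0 : ℝ) 1) := isCompact_Icc.prod isCompact_Icc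
  have hu : UniformContinuousOn (fun q : ℝ × ℝ => H q.1 q.2) (Icc (0 : ℝ) 1 ×ˢ Icc (0 : ℝ) 1) :=
    hK.uniformContinuousOn_of_continuous hc.continuousOn
  rw [Metric.uniformContinuousOn_iff] at hu
  obtain ⟨δ, hδ, h⟩ := hu η hη
  refine ⟨δ, hδ, fun l l' ρ hl hl' hρ hd => ?_⟩
  have h1 := h (l, ρ) ⟨hl, hρ⟩ (l', ρ) ⟨hl', hρ⟩ (by
    rw [Prod.dist_eq, dist_self, Real.dist_eq]
    exact max_lt hd hδ)
  rw [dist_eq_norm] at h1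
  exact h1.le

theorem Hom_min {H : ℝ → ℝ → ℝ × ℝ} (hc : Continuous fun q : ℝ × ℝ => H q.1 q.2)
    (ha : ∀ l, 0 ≤ l → l ≤ 1 → ∀ ρ, ¬ Obs (H l ρ)) :
    ∃ μ : ℝ, 0 < μ ∧ ∀ l ρ : ℝ, l ∈ Icc (0 : ℝ) 1 → ρ ∈ Icc (0 : ℝ) 1 → 2 * μ ≤ Dd (H l ρ) := by
  have hK : IsCompact (Icc (0 : ℝ) 1 ×ˢ Icc (0 : ℝ) 1) := isCompact_Icc.prod isCompact_Icc
  have hne : (Icc (0 : ℝ) 1 ×ˢ Icc (0 : ℝ) 1).Nonempty := ⟨(0, 0), by simp⟩
  obtain ⟨q, hq, hmin⟩ := hK.exists_isMinOn hne (f := fun q : ℝ × ℝ => Dd (H q.1 q.2))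
    (Dd_cont.comp hc).continuousOn
  have hpos : 0 < Dd (H q.1 q.2) := by
    refine lt_of_le_of_ne (Dd_nonneg _) ?_
    intro h0
    exact ha q.1 hq.1.1 hq.1.2 q.2 ((Dd_eq_zero _).1 h0.symm)
  refine ⟨Dd (H q.1 q.2) / 2, by linarith, fun l ρ hl hρ => ?_⟩
  have := hmin (show (l, ρ) ∈ Icc (0 : ℝ) 1 ×ˢ Icc (0 : ℝ) 1 from ⟨hl, hρ⟩)
  simp only [Set.mem_setOf_eq] at this
  linarith

/-- a path which is constant outside `[0, 1]` -/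
theorem Hom_proj {h : ℝ → ℝ × ℝ} {s₀ s₁ : ℝ × ℝ} {ε : ℝ} (hε : 0 < ε) (hs : ∀ ρ ≤ ε, h ρ = s₀)
    (he : ∀ ρ, 1 - ε ≤ ρ → h ρ = s₁) (ρ : ℝ) : ∃ ρ' ∈ Icc (0 : ℝ) 1, ∀ g : ℝ → ℝ × ℝ,
      (∀ ρ ≤ ε, g ρ = s₀) → (∀ ρ, 1 - ε ≤ ρ → g ρ = s₁) → g ρ = g ρ' := by
  rcases le_total ρ 0 with h0 | h0
  · exact ⟨0, by simp, fun g h1 _ => by rw [h1 ρ (by linarith), h1 0 hε.le]⟩
  · rcases le_total ρ 1 with h1 | h1
    · exact ⟨ρ, ⟨h0, h1⟩, fun _ _ _ => rfl⟩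
    · exact ⟨1, by simp, fun g _ h2 => by rw [h2 ρ (by linarith), h2 1 (by linarith)]⟩

/-- smooth approximation with arbitrary start -/
theorem Hom_approx {h : ℝ → ℝ × ℝ} (hc : Continuous h) {ε : ℝ} (hε : 0 < ε) {s₀ s₁ : ℝ × ℝ}
    (h0 : ∀ ρ ≤ ε, h ρ = s₀) (h1 : ∀ ρ, 1 - ε ≤ ρ → h ρ = s₁) {η : ℝ} (hη : 0 < η) :
    ∃ w : ℝ → ℝ × ℝ, ContDiff ℝ ∞ w ∧ (∀ ρ, ‖w ρ - h ρ‖ ≤ η) ∧
      (∃ ε' : ℝ, 0 < ε' ∧ ∀ ρ ≤ ε', w ρ = s₀) ∧ (∃ ε' : ℝ, 0 < ε' ∧ ∀ ρ, 1 - ε' ≤ ρ → w ρ = s₁) := by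
  have hm : 0 < min ε (1 / 3) := by positivity
  have hm1 : min ε (1 / 3) ≤ ε := min_le_left _ _
  have hm2 : min ε (1 / 3) ≤ 1 / 3 := min_le_right _ _
  obtain ⟨w, hw, ha, hb, hd⟩ := exists_approx (h := fun ρ => h ρ - s₀) (hc.sub continuous_const) hm
    (by linarith) (g := s₁ - s₀)
    (fun ρ hρ => by
      show h ρ - s₀ = (0, 0)
      rw [h0 ρ (by linarith), sub_self]
      rfl)
    (fun ρ hρ => by
      show h ρ - s₀ = s₁ - s₀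
      rw [h1 ρ (by linarith)]) hη
  refine ⟨fun ρ => w ρ + s₀, hw.add contDiff_const, fun ρ => ?_, ⟨min ε (1 / 3) / 2, by linarith, fun ρ hρ => ?_⟩,
    ⟨min ε (1 / 3) / 2, by linarith, fun ρ hρ => ?_⟩⟩
  · have := ha ρ
    have e : w ρ + s₀ - h ρ = w ρ - (h ρ - s₀) := by abel
    show ‖w ρ + s₀ - h ρ‖ ≤ η
    rw [e]
    exact this
  · show w ρ + s₀ = s₀
    rw [hb ρ hρ]
    simp
  · show w ρ + s₀ = s₁
    rw [hd ρ hρ]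
    abel

theorem hom_abs {s₀ s₁ : ℝ × ℝ} (Q : (ℝ → ℝ × ℝ) → Prop)
    (hstep : ∀ μ : ℝ, 0 < μ → ∃ η : ℝ, 0 < η ∧ ∀ w w' : ℝ → ℝ × ℝ, SPath s₀ s₁ w → SPath s₀ s₁ w' →
      (∀ ρ, μ ≤ Dd (w ρ)) → (∀ ρ, ‖w' ρ - w ρ‖ ≤ η) → Q w → Q w')
    (H : ℝ → ℝ → ℝ × ℝ) (hc : Continuous fun q : ℝ × ℝ => H q.1 q.2)
    (h0 : SPath s₀ s₁ (H 0)) (h1 : SPath s₀ s₁ (H 1)) {ε : ℝ} (hε : 0 < ε)
    (hs : ∀ l, 0 ≤ l → l ≤ 1 → ∀ ρ ≤ ε, H l ρ = s₀)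
    (he : ∀ l, 0 ≤ l → l ≤ 1 → ∀ ρ, 1 - ε ≤ ρ → H l ρ = s₁)
    (ha : ∀ l, 0 ≤ l → l ≤ 1 → ∀ ρ, ¬ Obs (H l ρ)) (hQ : Q (H 0)) : Q (H 1) := by
  obtain ⟨μ, hμ, hmin⟩ := Hom_min hc ha
  obtain ⟨η, hη, hst⟩ := hstep μ hμ
  have hη' : 0 < min (η / 3) (μ / 7) := by positivity
  set η' := min (η / 3) (μ / 7) with hη'd
  have e1 : 3 * η' ≤ η := by
    have := min_le_left (η / 3) (μ / 7)
    linarith
  have e2 : 7 * η' ≤ μ := by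
    have := min_le_right (η / 3) (μ / 7)
    linarith
  obtain ⟨δ, hδ, huc⟩ := Hom_uc hc hη'
  -- all ρ
  have hall : ∀ l l' : ℝ, l ∈ Icc (0 : ℝ) 1 → l' ∈ Icc (0 : ℝ) 1 → |l - l'| < δ → ∀ ρ, ‖H l ρ - H l' ρ‖ ≤ η' := by
    intro l l' hl hl' hd ρ
    obtain ⟨ρ', hρ', h2⟩ := Hom_proj (h := H l) hε (hs l hl.1 hl.2) (he l hl.1 hl.2) ρ
    rw [h2 _ (hs l hl.1 hl.2) (he l hl.1 hl.2), h2 _ (hs l' hl'.1 hl'.2) (he l' hl'.1 hl'.2)]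
    exact huc l l' ρ' hl hl' hρ' hd
  have hmin' : ∀ l ∈ Icc (0 : ℝ) 1, ∀ ρ, 2 * μ ≤ Dd (H l ρ) := by
    intro l hl ρ
    obtain ⟨ρ', hρ', h2⟩ := Hom_proj (h := H l) hε (hs l hl.1 hl.2) (he l hl.1 hl.2) ρ
    rw [h2 _ (hs l hl.1 hl.2) (he l hl.1 hl.2)]
    exact hmin l ρ' hl hρ'
  obtain ⟨N, hN⟩ := exists_nat_gt (1 / δ)
  have hN0 : (0 : ℝ) < N := lt_trans (by positivity) hN
  have hNδ : 1 / (N : ℝ) < δ := by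
    rw [div_lt_iff₀ hN0]
    rw [div_lt_iff₀ hδ] at hN
    linarith
  -- smooth approximations
  have hT : ∀ i : ℕ, i ≤ N → ((i : ℝ) / N) ∈ Icc (0 : ℝ) 1 := by
    intro i hi
    refine ⟨by positivity, ?_⟩
    rw [div_le_one hN0]
    exact_mod_cast hi
  have hap : ∀ i : ℕ, i ≤ N → ∃ w : ℝ → ℝ × ℝ, SPath s₀ s₁ w ∧ (∀ ρ, ‖w ρ - H (i / N) ρ‖ ≤ η') ∧
      (i = 0 → w = H 0) ∧ (i = N → w = H 1) := by
    intro i hi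
    by_cases hi0 : i = 0
    · refine ⟨H 0, h0, fun ρ => ?_, fun _ => rfl, fun h2 => ?_⟩
      · rw [hi0]
        simp only [Nat.cast_zero, zero_div, sub_self, norm_zero]
        exact hη'.le
      · rw [hi0] at h2
        rw [← h2] at hN0
        simp at hN0
    by_cases hiN : i = N
    · refine ⟨H 1, h1, fun ρ => ?_, fun h2 => absurd h2 hi0, fun _ => rfl⟩
      rw [hiN, div_self hN0.ne', sub_self, norm_zero]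
      exact hη'.le
    · have hl := hT i hi
      have hcl : Continuous (H (i / N)) :=
        hc.comp (f := fun ρ : ℝ => (((i : ℝ) / N), ρ)) (by fun_prop)
      obtain ⟨w, hw, ha', hst', hen'⟩ := Hom_approx hcl hε (hs _ hl.1 hl.2) (he _ hl.1 hl.2) hη'
      refine ⟨w, ⟨hw, hst', hen', fun ρ hρ => ?_⟩, ha', fun h2 => absurd h2 hi0, fun h2 => absurd h2 hiN⟩
      have h3 := Dd_lip (w ρ) (H (i / N) ρ)
      rw [(Dd_eq_zero _).2 hρ, zero_sub, abs_neg] at h3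
      have h4 := le_abs_self (Dd (H (i / N) ρ))
      have h5 := hmin' _ hl ρ
      have h6 := ha' ρ
      linarith
  choose w hw1 hw2 hw3 hw4 using hap
  have hind : ∀ i : ℕ, ∀ hi : i ≤ N, Q (w i hi) := by
    intro i
    induction i with
    | zero =>
      intro hi
      rw [hw3 0 hi rfl]
      exact hQ
    | succ i ih =>
      intro hi
      have hi' : i ≤ N := by omega
      refine hst (w i hi') (w (i + 1) hi) (hw1 i hi') (hw1 (i + 1) hi) (fun ρ => ?_) (fun ρ => ?_) (ih hi')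
      · have h3 := Dd_lip (w i hi' ρ) (H (i / N) ρ)
        have h4 := neg_abs_le (Dd (w i hi' ρ) - Dd (H (i / N) ρ))
        have h5 := hmin' _ (hT i hi') ρ
        have h6 := hw2 i hi' ρ
        linarith
      · have h3 := hw2 i hi' ρ
        have h4 := hw2 (i + 1) hi ρ
        have h5 : ‖H (((i + 1 : ℕ) : ℝ) / N) ρ - H ((i : ℝ) / N) ρ‖ ≤ η' := by
          refine hall _ _ (hT (i + 1) hi) (hT i hi') ?_ ρ
          have e : (((i + 1 : ℕ) : ℝ) / N) - ((i : ℝ) / N) = 1 / N := by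
            push_cast
            ring
          rw [e, abs_of_pos (by positivity)]
          exact hNδ
        have e : w (i + 1) hi ρ - w i hi' ρ = (w (i + 1) hi ρ - H (((i + 1 : ℕ) : ℝ) / N) ρ) +
            (H (((i + 1 : ℕ) : ℝ) / N) ρ - H ((i : ℝ) / N) ρ) - (w i hi' ρ - H ((i : ℝ) / N) ρ) := by abel
        rw [e]
        calc _ ≤ ‖(w (i + 1) hi ρ - H (((i + 1 : ℕ) : ℝ) / N) ρ) +
            (H (((i + 1 : ℕ) : ℝ) / N) ρ - H ((i : ℝ) / N) ρ)‖ + ‖w i hi' ρ - H ((i : ℝ) / N) ρ‖ := norm_sub_le _ _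
          _ ≤ (‖w (i + 1) hi ρ - H (((i + 1 : ℕ) : ℝ) / N) ρ‖ +
            ‖H (((i + 1 : ℕ) : ℝ) / N) ρ - H ((i : ℝ) / N) ρ‖) + ‖w i hi' ρ - H ((i : ℝ) / N) ρ‖ := by
              gcongr
              exact norm_add_le _ _
          _ ≤ η := by linarith
  have := hind N le_rfl
  rwa [hw4 N le_rfl rfl] at this

end Pool.Agent.PTH
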