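import Pool.Agent.PTH.TC
import Pool.Agent.SPI.Push

/-!
# PTH/TStep: moving a strand in a torus chart by a small translation   (difficulty 2)

Let `C₀` be the Lipschitz constant of `Real.smoothTransition` (`CSG.smoothTransition_lip`), `χ s = 1 - smoothTransition
(s / μ)` (so `χ 0 = 1`, `χ s = 0` for `s ≥ μ`), and `g ρ x = χ (DD (x - w ρ)) (w' ρ - w ρ)` (as a complex number,
`x = X + iY`, `cx (X, Y) = X + iY`).  `DD` is `7`-Lipschitz for the sup norm of `ℝ × ℝ` (`|sin² a - sin² b| ≤ |a - b|`),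
`|re x|, |im x| ≤ ‖x‖`, so `g ρ` is `(7 C₀ / μ) (2 η)`-Lipschitz for `‖w' ρ - w ρ‖ ≤ η` (sup norm, `‖cx v‖ ≤ 2 ‖v‖`);
choose `η = μ / (28 C₀ + 1)`, then it is `1/2`-Lipschitz and `SPI.exists_perm_of_lip` gives the family
`φ ρ x = x + g ρ x`.  It commutes with the translations by `Z + iZ` (`DD_add`), it is the identity where `w' ρ = w ρ`.
* at `x = w ρ` (plus a lattice vector): `χ (DD 0) = 1`, so `φ ρ (w ρ) = w' ρ`.
* at an obstacle `o = (m + 1/2, n)`: `DD (o - w ρ) = Dd (w ρ) ≥ μ` (`DD_obs`), so `φ ρ o = o`.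
Then `exists_tlift`.
-/

open scoped Manifold ContDiff Topology
open Set Filter
open Complex (I)

namespace Pool.Agent.PTH

open Pool.Agent.RSG (ex)

variable {EP : Type*} [NormedAddCommGroup EP] [NormedSpace ℝ EP] {HP : Type*} [TopologicalSpace HP]
  {IP : ModelWithCorners ℝ EP HP} {P : Type*} [TopologicalSpace P] [ChartedSpace HP P]

/-- the complex number `X + iY` -/
noncomputable def cx (q : ℝ × ℝ) : ℂ := ⟨q.1, q.2⟩

theorem TStep_cx_smooth : ContDiff ℝ ∞ cx := by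
  have h : cx = fun q : ℝ × ℝ => Complex.equivRealProdCLM.symm q := by
    funext q
    apply Complex.ext <;> simp [cx]
  rw [h]
  exact Complex.equivRealProdCLM.symm.contDiff

theorem TStep_cx_norm (v : ℝ × ℝ) : ‖cx v‖ ≤ 2 * ‖v‖ := by
  have h1 := Complex.norm_le_abs_re_add_abs_im (cx v)
  have h2 : |v.1| ≤ ‖v‖ := norm_fst_le v
  have h3 : |v.2| ≤ ‖v‖ := norm_snd_le v
  have h4 : (cx v).re = v.1 := rfl
  have h5 : (cx v).im = v.2 := rfl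
  rw [h4, h5] at h1
  linarith

theorem TStep_cx_sub (v w : ℝ × ℝ) : cx v - cx w = cx (v - w) := by
  apply Complex.ext <;> simp [cx]

theorem TStep_DD_eq (p : ℝ × ℝ) : DD p = Dd (p + ((1 / 2 : ℝ), (0 : ℝ))) := by
  unfold DD Dd
  rw [Prod.fst_add, Prod.snd_add]
  rw [add_zero, mul_add, show Real.pi * (1 / 2) = Real.pi / 2 by ring, Real.cos_add_pi_div_two]
  ring

theorem TStep_DD_lip (p q : ℝ × ℝ) : |DD p - DD q| ≤ 7 * ‖p - q‖ := by
  rw [TStep_DD_eq, TStep_DD_eq]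
  refine (Dd_lip _ _).trans (le_of_eq ?_)
  rw [add_sub_add_right_eq_sub]

theorem TStep_DD_smooth : ContDiff ℝ ∞ DD := by
  unfold DD
  have h1 : ContDiff ℝ ∞ fun p : ℝ × ℝ => Real.sin (Real.pi * p.1) :=
    Real.contDiff_sin.comp (contDiff_const.mul contDiff_fst)
  have h2 : ContDiff ℝ ∞ fun p : ℝ × ℝ => Real.sin (Real.pi * p.2) :=
    Real.contDiff_sin.comp (contDiff_const.mul contDiff_snd)
  exact (h1.pow 2).add (h2.pow 2)

theorem TStep_DD_zero : DD 0 = 0 := by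
  simp [DD]

/-- the push vector field -/
noncomputable def TStep_g (μ : ℝ) (w w' : ℝ → ℝ × ℝ) (ρ : ℝ) (x : ℂ) : ℂ :=
  (1 - Real.smoothTransition (DD ((x.re, x.im) - w ρ) / μ)) • (cx (w' ρ) - cx (w ρ))

theorem TStep_g_smooth (μ : ℝ) {w w' : ℝ → ℝ × ℝ} (hw : ContDiff ℝ ∞ w) (hw' : ContDiff ℝ ∞ w') :
    ContDiff ℝ ∞ fun q : ℂ × ℝ => TStep_g μ w w' q.2 q.1 := by
  unfold TStep_g
  have hs : ContDiff ℝ ∞ Real.smoothTransition := Real.smoothTransition.contDiff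
  have e0 : ContDiff ℝ ∞ fun z : ℂ => (z.re, z.im) := Complex.equivRealProdCLM.contDiff
  have e1 : ContDiff ℝ ∞ fun q : ℂ × ℝ => (q.1.re, q.1.im) - w q.2 :=
    (e0.comp contDiff_fst).sub (hw.comp contDiff_snd)
  have e2 : ContDiff ℝ ∞ fun q : ℂ × ℝ => DD ((q.1.re, q.1.im) - w q.2) / μ :=
    (TStep_DD_smooth.comp e1).div_const _
  have e3 : ContDiff ℝ ∞ fun q : ℂ × ℝ => cx (w' q.2) - cx (w q.2) :=
    (TStep_cx_smooth.comp (hw'.comp contDiff_snd)).sub (TStep_cx_smooth.comp (hw.comp contDiff_snd))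
  exact (contDiff_const.sub (hs.comp e2)).smul e3

theorem TStep_g_add (μ : ℝ) (w w' : ℝ → ℝ × ℝ) (ρ : ℝ) (x : ℂ) (m n : ℤ) :
    TStep_g μ w w' ρ (x + (m + n * I)) = TStep_g μ w w' ρ x := by
  unfold TStep_g
  congr 3
  congr 1
  have h : ((x + ((m : ℂ) + (n : ℂ) * I)).re, (x + ((m : ℂ) + (n : ℂ) * I)).im) - w ρ =
      ((x.re, x.im) - w ρ) + ((m : ℝ), (n : ℝ)) := by
    ext
    · simp
      ring
    · simp
      ring
  rw [h, DD_add]

theorem TStep_g_lip {μ C₀ η : ℝ} (hμ : 0 < μ) (hC₀ : 0 < C₀)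
    (hlip : ∀ x y : ℝ, |Real.smoothTransition x - Real.smoothTransition y| ≤ C₀ * |x - y|)
    (hη : η = μ / (28 * C₀ + 1)) {w w' : ℝ → ℝ × ℝ} {ρ : ℝ} (h : ‖w' ρ - w ρ‖ ≤ η) (x y : ℂ) :
    ‖TStep_g μ w w' ρ x - TStep_g μ w w' ρ y‖ ≤ 1 / 2 * ‖x - y‖ := by
  unfold TStep_g
  rw [← sub_smul, norm_smul, Real.norm_eq_abs, TStep_cx_sub]
  have h1 : ‖cx (w' ρ - w ρ)‖ ≤ 2 * η := (TStep_cx_norm _).trans (by linarith)
  have h2 : |DD ((x.re, x.im) - w ρ) - DD ((y.re, y.im) - w ρ)| ≤ 7 * ‖x - y‖ := by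
    refine (TStep_DD_lip _ _).trans ?_
    rw [sub_sub_sub_cancel_right]
    refine mul_le_mul_of_nonneg_left ?_ (by norm_num)
    have e : ((x.re, x.im) - (y.re, y.im) : ℝ × ℝ) = ((x - y).re, (x - y).im) := by simp
    rw [e, Prod.norm_mk]
    exact max_le (Complex.abs_re_le_norm _) (Complex.abs_im_le_norm _)
  have h3 : |1 - Real.smoothTransition (DD ((x.re, x.im) - w ρ) / μ) -
      (1 - Real.smoothTransition (DD ((y.re, y.im) - w ρ) / μ))| ≤ C₀ * (7 * ‖x - y‖ / μ) := by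
    rw [sub_sub_sub_cancel_left, abs_sub_comm]
    refine (hlip _ _).trans (mul_le_mul_of_nonneg_left ?_ hC₀.le)
    rw [← sub_div, abs_div, abs_of_pos hμ]
    exact div_le_div_of_nonneg_right h2 hμ.le
  have hη0 : 0 < η := by rw [hη]; positivity
  calc _ ≤ (C₀ * (7 * ‖x - y‖ / μ)) * (2 * η) :=
        mul_le_mul h3 h1 (norm_nonneg _) (by positivity)
    _ = (14 * C₀ * η / μ) * ‖x - y‖ := by ring
    _ ≤ 1 / 2 * ‖x - y‖ := by
        refine mul_le_mul_of_nonneg_right ?_ (norm_nonneg _)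
        rw [hη]
        rw [div_le_iff₀ hμ]
        have h4 : μ / (28 * C₀ + 1) ≤ μ / (28 * C₀) :=
          div_le_div_of_nonneg_left hμ.le (by positivity) (by linarith)
        have h5 : 14 * C₀ * (μ / (28 * C₀)) = 1 / 2 * μ := by field_simp; ring
        calc 14 * C₀ * (μ / (28 * C₀ + 1)) ≤ 14 * C₀ * (μ / (28 * C₀)) :=
              mul_le_mul_of_nonneg_left h4 (by positivity)
          _ = 1 / 2 * μ := h5

theorem exists_tstep {μ : ℝ} (hμ : 0 < μ) : ∃ η : ℝ, 0 < η ∧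
    ∀ {EP : Type*} [NormedAddCommGroup EP] [NormedSpace ℝ EP] {HP : Type*} [TopologicalSpace HP]
      {IP : ModelWithCorners ℝ EP HP} {P : Type*} [TopologicalSpace P] [ChartedSpace HP P] [T2Space P]
      {a : ℝ → P → P} {E : ℂ × ℝ × ℝ → P} {α β : ℝ} (_ : Act IP a) (_ : TChart IP a E α β)
      (w w' : ℝ → ℝ × ℝ) (_ : ContDiff ℝ ∞ w) (_ : ContDiff ℝ ∞ w') {α' β' : ℝ} (_ : α < α') (_ : β' < β)
      (_ : ∀ ρ, ρ ≤ α' ∨ β' ≤ ρ → w' ρ = w ρ) (_ : ∀ ρ, μ ≤ Dd (w ρ)) (_ : ∀ ρ, ‖w' ρ - w ρ‖ ≤ η),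
      ∃ F : Equiv.Perm P, (∀ p, IsLocalDiffeomorphAt IP IP ∞ F p) ∧
        (∀ ρ t, α < ρ → ρ < β → F (E (cx (w ρ), ρ, t)) = E (cx (w' ρ), ρ, t)) ∧
        (∀ (m n : ℤ) (ρ t : ℝ), α < ρ → ρ < β →
          F (E (cx ((m : ℝ) + 1 / 2, (n : ℝ)), ρ, t)) = E (cx ((m : ℝ) + 1 / 2, (n : ℝ)), ρ, t)) ∧
        (∀ p, (∀ x ρ t, α' ≤ ρ → ρ ≤ β' → p ≠ E (x, ρ, t)) → F p = p) ∧
        (∀ t p, F (a t p) = a t (F p)) := by
  obtain ⟨C₀, hC₀, hlip⟩ := CSG.smoothTransition_lip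
  obtain ⟨η, hη⟩ : ∃ η, η = μ / (28 * C₀ + 1) := ⟨_, rfl⟩
  refine ⟨η, by rw [hη]; positivity, ?_⟩
  intro EP _ _ HP _ IP P _ _ _ a E α β hA hE w w' hw hw' α' β' h1 h2 hww hμw hsm
  obtain ⟨φ, hφ, hφ', hf⟩ := SPI.exists_perm_of_lip (TStep_g μ w w') (TStep_g_smooth μ hw hw')
    (fun ρ x y => TStep_g_lip hμ hC₀ hlip hη (hsm ρ) x y)
  obtain ⟨F, hF1, hF2, hF3, hF4⟩ := exists_tlift hA hE φ hφ hφ'
    (fun ρ x m n => by rw [hf, hf, TStep_g_add]; ring) h1 h2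
    (fun ρ hρ x => by
      rw [hf]
      unfold TStep_g
      rw [hww ρ hρ, sub_self, smul_zero, add_zero])
  refine ⟨F, hF1, ?_, ?_, hF3, hF4⟩
  · intro ρ t hρ hρ'
    rw [hF2 _ _ _ hρ hρ', hf]
    congr 2
    unfold TStep_g
    have e : ((cx (w ρ)).re, (cx (w ρ)).im) - w ρ = 0 := sub_self (w ρ)
    rw [e, TStep_DD_zero, zero_div, Real.smoothTransition.zero_of_nonpos (le_refl 0), sub_zero, one_smul]
    ring
  · intro m n ρ t hρ hρ'
    rw [hF2 _ _ _ hρ hρ', hf]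
    congr 2
    unfold TStep_g
    have e : ((cx ((m : ℝ) + 1 / 2, (n : ℝ))).re, (cx ((m : ℝ) + 1 / 2, (n : ℝ))).im) - w ρ =
      ((m : ℝ) + 1 / 2, (n : ℝ)) - w ρ := rfl
    rw [e, DD_obs, Real.smoothTransition.one_of_one_le ((one_le_div hμ).2 (hμw ρ)), sub_self, zero_smul,
      add_zero]

end Pool.Agent.PTH
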