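import Pool.Agent.PTH.Defs
import Pool.Agent.RSG.ExM

/-!
# PTH/Bas: basic facts on the obstacles and on paths   (difficulty 2)

`Dd p = cos² (π p₁) + sin² (π p₂)` vanishes exactly on the obstacles `(1/2, 0) + Z²`, `DD p = sin² (π p₁) +
sin² (π p₂)` exactly on `Z²`.

* `Dd_eq_zero`: `cos (π x) = 0 ↔ ∃ m, x = m + 1/2` (`Real.cos_eq_zero_iff`), `sin (π y) = 0 ↔ ∃ n, y = n`.
* `Dd_add`, `obs_add`: `cos² (π (x + m)) = cos² (π x)`: write `cos² (π x) = (1 + cos (2 π x)) / 2` and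
  `Real.cos_add_int_mul_two_pi`.
* `Dd_lip`: `|cos² a - cos² b| ≤ |a - b|` (`cos² = (1 + cos 2a)/2`, `|cos s - cos t| ≤ |s - t|`), `2 π ≤ 7`, and
  `|p.1 - q.1| ≤ ‖p - q‖` (`norm_fst_le`).
* `IsPath.exists_mu`: `Dd (w ρ) > 0` for all `ρ`; `w` is constant outside `[0, 1]`, so the minimum over the compact
  `[0, 1]` (`IsCompact.exists_isMinOn`) is a minimum over `R`.  (For `ρ ≤ 0`, `w ρ = w 0`; for `ρ ≥ 1`, `w ρ = w 1`.)
* `IsPath.isSeg`: `w` is smooth, hence continuous.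
-/

open scoped Manifold ContDiff
open Complex (I)

namespace Pool.Agent.PTH

open Pool.Agent.RSG (ex)

noncomputable def Dd (p : ℝ × ℝ) : ℝ := Real.cos (Real.pi * p.1) ^ 2 + Real.sin (Real.pi * p.2) ^ 2
noncomputable def DD (p : ℝ × ℝ) : ℝ := Real.sin (Real.pi * p.1) ^ 2 + Real.sin (Real.pi * p.2) ^ 2

theorem Dd_nonneg (p : ℝ × ℝ) : 0 ≤ Dd p := by unfold Dd; positivity
theorem DD_nonneg (p : ℝ × ℝ) : 0 ≤ DD p := by unfold DD; positivity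

theorem Bas_cos_zero (x : ℝ) : Real.cos (Real.pi * x) = 0 ↔ ∃ m : ℤ, x = (m : ℝ) + 1 / 2 := by
  rw [Real.cos_eq_zero_iff]
  have hpi := Real.pi_pos
  constructor
  · rintro ⟨k, hk⟩
    refine ⟨k, ?_⟩
    have h1 : Real.pi * x = Real.pi * ((k : ℝ) + 1 / 2) := by rw [hk]; ring
    exact mul_left_cancel₀ hpi.ne' h1
  · rintro ⟨m, hm⟩
    exact ⟨m, by rw [hm]; ring⟩

theorem Bas_sin_zero (y : ℝ) : Real.sin (Real.pi * y) = 0 ↔ ∃ n : ℤ, y = (n : ℝ) := by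
  rw [Real.sin_eq_zero_iff]
  have hpi := Real.pi_pos
  constructor
  · rintro ⟨k, hk⟩
    refine ⟨k, ?_⟩
    have h1 : Real.pi * y = Real.pi * (k : ℝ) := by rw [← hk]; ring
    exact mul_left_cancel₀ hpi.ne' h1
  · rintro ⟨m, hm⟩
    exact ⟨m, by rw [hm]; ring⟩

theorem Dd_eq_zero (p : ℝ × ℝ) : Dd p = 0 ↔ Obs p := by
  unfold Dd Obs
  constructor
  · intro h
    have h1 : Real.cos (Real.pi * p.1) ^ 2 = 0 := by
      nlinarith [sq_nonneg (Real.cos (Real.pi * p.1)), sq_nonneg (Real.sin (Real.pi * p.2))]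
    have h2 : Real.sin (Real.pi * p.2) ^ 2 = 0 := by
      nlinarith [sq_nonneg (Real.cos (Real.pi * p.1)), sq_nonneg (Real.sin (Real.pi * p.2))]
    have h1' := (Bas_cos_zero p.1).1 (pow_eq_zero_iff (two_ne_zero)|>.1 h1)
    have h2' := (Bas_sin_zero p.2).1 (pow_eq_zero_iff (two_ne_zero)|>.1 h2)
    obtain ⟨m, hm⟩ := h1'
    obtain ⟨n, hn⟩ := h2'
    exact ⟨m, n, Prod.ext hm hn⟩
  · rintro ⟨m, n, rfl⟩
    have h1 : Real.cos (Real.pi * ((m : ℝ) + 1 / 2)) = 0 := (Bas_cos_zero _).2 ⟨m, rfl⟩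
    have h2 : Real.sin (Real.pi * (n : ℝ)) = 0 := (Bas_sin_zero _).2 ⟨n, rfl⟩
    simp only [h1, h2]
    norm_num

theorem Bas_cos_sq (x : ℝ) : Real.cos x ^ 2 = (1 + Real.cos (2 * x)) / 2 := by
  rw [Real.cos_two_mul]; ring

theorem Bas_sin_sq (x : ℝ) : Real.sin x ^ 2 = (1 - Real.cos (2 * x)) / 2 := by
  rw [Real.cos_two_mul]
  have := Real.sin_sq_add_cos_sq x
  linarith

theorem Bas_cos_per (x : ℝ) (m : ℤ) :
    Real.cos (2 * (Real.pi * (x + m))) = Real.cos (2 * (Real.pi * x)) := by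
  have h : 2 * (Real.pi * (x + m)) = 2 * (Real.pi * x) + m * (2 * Real.pi) := by ring
  rw [h, Real.cos_add_int_mul_two_pi]

theorem Dd_add (p : ℝ × ℝ) (m n : ℤ) : Dd (p + ((m : ℝ), (n : ℝ))) = Dd p := by
  unfold Dd
  simp only [Prod.fst_add, Prod.snd_add, Bas_cos_sq, Bas_sin_sq, Bas_cos_per]

theorem DD_add (p : ℝ × ℝ) (m n : ℤ) : DD (p + ((m : ℝ), (n : ℝ))) = DD p := by
  unfold DD
  simp only [Prod.fst_add, Prod.snd_add, Bas_sin_sq, Bas_cos_per]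

theorem obs_add (p : ℝ × ℝ) (m n : ℤ) : Obs (p + ((m : ℝ), (n : ℝ))) ↔ Obs p := by
  rw [← Dd_eq_zero, ← Dd_eq_zero, Dd_add]

theorem obs_add' (p : ℝ × ℝ) (m n : ℤ) : Obs (((m : ℝ), (n : ℝ)) + p) ↔ Obs p := by
  rw [add_comm]; exact obs_add p m n

theorem not_obs_int (m n : ℤ) : ¬ Obs ((m : ℝ), (n : ℝ)) := by
  rintro ⟨a, b, h⟩
  have h1 : (m : ℝ) = (a : ℝ) + 1 / 2 := congrArg Prod.fst h
  have h2 : (2 * m : ℝ) = 2 * (a : ℝ) + 1 := by linarith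
  have h3 : 2 * m = 2 * a + 1 := by exact_mod_cast h2
  omega

theorem Bas_cos_lip (x y : ℝ) :
    |Real.cos (2 * (Real.pi * x)) - Real.cos (2 * (Real.pi * y))| ≤ 7 * |x - y| := by
  have hpi := Real.pi_pos
  have hpi2 : 2 * Real.pi ≤ 7 := by have := Real.pi_lt_d2; linarith
  have h := Real.abs_cos_sub_cos_le (2 * (Real.pi * x)) (2 * (Real.pi * y))
  refine h.trans ?_
  have h2 : 2 * (Real.pi * x) - 2 * (Real.pi * y) = (2 * Real.pi) * (x - y) := by ring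
  rw [h2, abs_mul, abs_of_pos (by positivity : (0 : ℝ) < 2 * Real.pi)]
  exact mul_le_mul_of_nonneg_right hpi2 (abs_nonneg _)

theorem Dd_lip (p q : ℝ × ℝ) : |Dd p - Dd q| ≤ 7 * ‖p - q‖ := by
  unfold Dd
  have h1 := Bas_cos_lip p.1 q.1
  have h2 := Bas_cos_lip p.2 q.2
  have h3 : |p.1 - q.1| ≤ ‖p - q‖ := by
    have := norm_fst_le (p - q); simpa using this
  have h4 : |p.2 - q.2| ≤ ‖p - q‖ := by
    have := norm_snd_le (p - q); simpa using this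
  simp only [Bas_cos_sq, Bas_sin_sq]
  rw [abs_le] at h1 h2 ⊢
  constructor <;> linarith [h1.1, h1.2, h2.1, h2.2]

theorem Dd_cont : Continuous Dd := by
  unfold Dd
  fun_prop

/-- at the obstacles, `DD (x - w) = Dd w` -/
theorem DD_obs (w : ℝ × ℝ) (m n : ℤ) : DD (((m : ℝ) + 1 / 2, (n : ℝ)) - w) = Dd w := by
  unfold DD Dd
  have h1 : Real.cos (2 * (Real.pi * ((m : ℝ) + 1 / 2 - w.1))) = - Real.cos (2 * (Real.pi * w.1)) := by
    have : 2 * (Real.pi * ((m : ℝ) + 1 / 2 - w.1)) = (Real.pi - 2 * (Real.pi * w.1)) + m * (2 * Real.pi) := by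
      ring
    rw [this, Real.cos_add_int_mul_two_pi, Real.cos_pi_sub]
  have h2 : Real.cos (2 * (Real.pi * ((n : ℝ) - w.2))) = Real.cos (2 * (Real.pi * w.2)) := by
    have : 2 * (Real.pi * ((n : ℝ) - w.2)) = (- (2 * (Real.pi * w.2))) + n * (2 * Real.pi) := by
      ring
    rw [this, Real.cos_add_int_mul_two_pi, Real.cos_neg]
  simp only [Prod.fst_sub, Prod.snd_sub, Bas_cos_sq, Bas_sin_sq, h1, h2]
  ring

theorem IsPath.exists_mu {w : ℝ → ℝ × ℝ} {g : ℤ × ℤ} (h : IsPath w g) : ∃ μ : ℝ, 0 < μ ∧ ∀ ρ, μ ≤ Dd (w ρ) := by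
  have hc : Continuous fun ρ => Dd (w ρ) := Dd_cont.comp h.smooth.continuous
  obtain ⟨x, hx, hmin⟩ := (isCompact_Icc (a := (0 : ℝ)) (b := 1)).exists_isMinOn
    ⟨0, by constructor <;> norm_num⟩ hc.continuousOn
  have hmin' := isMinOn_iff.1 hmin
  refine ⟨Dd (w x), ?_, fun ρ => ?_⟩
  · have h1 := Dd_nonneg (w x)
    have h2 : Dd (w x) ≠ 0 := fun h0 => h.avoid x ((Dd_eq_zero _).1 h0)
    exact lt_of_le_of_ne h1 (Ne.symm h2)
  · obtain ⟨ε, hε, hs⟩ := h.start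
    obtain ⟨ε', hε', he⟩ := h.stop
    rcases le_total ρ 0 with h0 | h0
    · rw [hs ρ (h0.trans hε.le), ← hs 0 hε.le]
      exact hmin' 0 ⟨le_refl _, zero_le_one⟩
    · rcases le_total ρ 1 with h1 | h1
      · exact hmin' ρ ⟨h0, h1⟩
      · rw [he ρ (by linarith), ← he 1 (by linarith)]
        exact hmin' 1 ⟨zero_le_one, le_refl _⟩

theorem IsPath.isSeg {w : ℝ → ℝ × ℝ} {g : ℤ × ℤ} (h : IsPath w g) : IsSeg w 1 g := by
  obtain ⟨ε, hε, hs⟩ := h.start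
  obtain ⟨ε', hε', he⟩ := h.stop
  exact ⟨zero_le_one, h.smooth.continuous, fun τ hτ => hs τ (hτ.trans hε.le),
    fun τ hτ => he τ (by linarith), h.avoid⟩

theorem isSeg_mono {u : ℝ → ℝ × ℝ} {m m' : ℝ} {e : ℤ × ℤ} (h : IsSeg u m e) (hm : m ≤ m') : IsSeg u m' e :=
  ⟨h.nn.trans hm, h.cont, h.start, fun τ hτ => h.stop τ (hm.trans hτ), h.avoid⟩

end Pool.Agent.PTH
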