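import Pool.Agent.PTH.Bas

/-!
# PTH/Approx: smooth approximation of continuous paths   (difficulty 2)
-/

open scoped ContDiff Topology
open Set Filter MeasureTheory

namespace Pool.Agent.PTH

theorem Approx_clamp (x y : ℝ) : |max 0 (min 1 x) - max 0 (min 1 y)| ≤ |x - y| := by
  have h1 := abs_max_sub_max_le_max 0 (min 1 x) 0 (min 1 y)
  have h2 := abs_min_sub_min_le_max 1 x 1 y
  have h3 : ∀ a t : ℝ, max |a - a| |t| = |t| := by
    intro a t
    rw [sub_self, abs_zero]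
    exact max_eq_right (abs_nonneg t)
  rw [h3] at h1 h2
  exact h1.trans h2

theorem exists_approx {h : ℝ → ℝ × ℝ} (hc : Continuous h) {ε : ℝ} (hε : 0 < ε) (hε1 : ε < 1 / 2) {g : ℝ × ℝ}
    (h0 : ∀ ρ ≤ ε, h ρ = (0, 0)) (h1 : ∀ ρ, 1 - ε ≤ ρ → h ρ = g) {η : ℝ} (hη : 0 < η) :
    ∃ w : ℝ → ℝ × ℝ, ContDiff ℝ ∞ w ∧ (∀ ρ, ‖w ρ - h ρ‖ ≤ η) ∧ (∀ ρ ≤ ε / 2, w ρ = (0, 0)) ∧
      (∀ ρ, 1 - ε / 2 ≤ ρ → w ρ = g) := by
  have huc : UniformContinuousOn h (Icc (0 : ℝ) 1) :=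
    isCompact_Icc.uniformContinuousOn_of_continuous hc.continuousOn
  obtain ⟨δ, hδ, hδ2⟩ := Metric.uniformContinuousOn_iff.1 huc η hη
  have hclamp : ∀ x : ℝ, max 0 (min 1 x) ∈ Icc (0 : ℝ) 1 := fun x =>
    ⟨le_max_left _ _, max_le zero_le_one (min_le_left _ _)⟩
  have hh : ∀ x : ℝ, h (max 0 (min 1 x)) = h x := by
    intro x
    rcases le_total x 0 with hx | hx
    · rw [min_eq_right (hx.trans zero_le_one), max_eq_left hx, h0 0 hε.le, h0 x (hx.trans hε.le)]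
    · rcases le_total x 1 with hx1 | hx1
      · rw [min_eq_right hx1, max_eq_right hx]
      · rw [min_eq_left hx1, max_eq_right zero_le_one, h1 1 (by linarith), h1 x (by linarith)]
  have hr : 0 < min (ε / 2) δ := lt_min (by linarith) hδ
  obtain ⟨w, hw, hw2⟩ := hc.exists_contDiff_dist_le_of_forall_mem_ball_dist_le hr
  refine ⟨w, hw, ?_, ?_, ?_⟩
  · intro ρ
    rw [← dist_eq_norm]
    apply hw2
    intro x hx
    rw [Metric.mem_ball] at hx
    rw [← hh x, ← hh ρ]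
    refine (hδ2 _ (hclamp x) _ (hclamp ρ) ?_).le
    rw [Real.dist_eq] at hx ⊢
    exact (Approx_clamp x ρ).trans_lt (hx.trans_le (min_le_right _ _))
  · intro ρ hρ
    have h2 : dist (w ρ) (h ρ) ≤ 0 := by
      apply hw2
      intro x hx
      rw [Metric.mem_ball, Real.dist_eq] at hx
      have hx2 := (abs_lt.1 (hx.trans_le (min_le_left _ _))).2
      rw [h0 x (by linarith), h0 ρ (by linarith), dist_self]
    rw [dist_le_zero] at h2
    rw [h2, h0 ρ (by linarith)]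
  · intro ρ hρ
    have h2 : dist (w ρ) (h ρ) ≤ 0 := by
      apply hw2
      intro x hx
      rw [Metric.mem_ball, Real.dist_eq] at hx
      have hx2 := (abs_lt.1 (hx.trans_le (min_le_left _ _))).1
      rw [h1 x (by linarith), h1 ρ (by linarith), dist_self]
    rw [dist_le_zero] at h2
    rw [h2, h1 ρ (by linarith)]

end Pool.Agent.PTH
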