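import Pool.Agent.PTH.Bas
import Pool.Agent.ISO.LiftB
import Pool.Agent.RSG.ExM

/-!
# PTH/FootA: one turn of the second strand around the foot, above the first strand, can be removed   (difficulty 3)

`st = Real.smoothTransition`, `fA` is `0` for `ρ ≤ 3/16` and `1` for `ρ ≥ 5/16`; `fB ρ` is `0` for `ρ ≤ 1/16` and for `ρ ≥ 1/2`, `fB ρ = ρ`
for `1/8 ≤ ρ ≤ 3/8`, and `0 ≤ fB ρ ≤ ρ` for `ρ ≥ 0`.

`foot_slide`: `ISO.arcEq_of_isotopy` with `ε = 1/16` and (`ρ = 4 l`)
`k s l = (ρ ((1 - s) ex (fA ρ) + s) ex (u ρ).1, fB ρ + (u ρ).2)`.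
* smooth: `contDiff` of everything (`ex` is smooth: `RSG` or `RBM`; grep `ex_contDiff`, or `ex x = cexp (2 π I x)`), so `ContDiffAt`.
* `h0`: `ex_add`; `h1`: clear (`0 + _`).  `hend`: `|l| ≥ 3/16`: `ρ ≥ 3/4` or `ρ ≤ -3/4`, `fA ρ` is `1` or `0`, `ex 1 = ex 0 = 1`.
* `hin`: `‖(1 - s) ex (fA) + s‖ ≤ 1`, `|ρ| < 1`.
* immersion: if `1/8 < ρ < 3/8`: `u = 0`, `fB = ρ` near `ρ`, so the second component of the derivative is `4`.
  Otherwise `fA` is constant `0` or `1` near `ρ`, so near `l` the first component is `4 l ex (u (4 l)).1`; if the derivative were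
  `0` then the derivative of `‖.‖² = 16 l²` would be `0`, so `l = 0`; for `|ρ| < 1/16` (`u = 0`, `fA = 0`) the first component is `4 l`.
* injective: `k s l = k s l' + (0, m)`, `ρ = 4 l, ρ' = 4 l'`.  Say `ρ` is *winding* if `3/16 < ρ < 5/16`.
  Not winding: `fA ∈ {0, 1}`, the first component is `ρ ex (u ρ).1` of norm `|ρ|`.  Winding: `u = 0`, norm `≤ ρ < 5/16`, second
  component `= ρ ∈ (3/16, 5/16)`.
  - both not winding: `|ρ| = |ρ'|`.  If `ρ' = ρ` done.  If `ρ' = - ρ`, say `ρ > 0` (symmetric): `ρ ex (u ρ).1 = - ρ` (as `u = 0` for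
    negative parameters), so `ex (u ρ).1 = -1 = ex (1/2)`, `(u ρ).1 = 1/2 + integer`; if `ρ ≤ 1/2` then `(u ρ).1 = 0`, contradiction;
    if `ρ ≥ 1/2` then `fB ρ = 0` and `(u ρ).2 = ± m`, so `Obs (u ρ)`.
  - both winding: `ρ = ρ' + m`, both in `(3/16, 5/16)`: `m = 0`.
  - `ρ` winding, `ρ'` not: norms: `|ρ'| ≤ ρ < 5/16`, so `ρ' < 5/16`, hence (not winding) `ρ' ≤ 3/16`, `u ρ' = 0` and
    `fB ρ' ∈ [0, 3/16]` (`0` if `ρ' ≤ 0`), but `fB ρ' + m = ρ ∈ (3/16, 5/16)`: contradiction.  Symmetric for the other case.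
-/

open scoped Manifold ContDiff Topology
open Set Filter
open Complex (I)

namespace Pool.Agent.PTH

open Pool.Agent.RSG (E4 S3 S4 ex)

universe u

/-- `0` for `ρ ≤ 3/16`, `1` for `ρ ≥ 5/16` -/
noncomputable def fA (ρ : ℝ) : ℝ := Real.smoothTransition (8 * ρ - 3 / 2)

/-- `0` for `ρ ≤ 1/16`, `ρ` for `1/8 ≤ ρ ≤ 3/8`, `0` for `ρ ≥ 1/2` -/
noncomputable def fB (ρ : ℝ) : ℝ :=
  ρ * Real.smoothTransition (16 * ρ - 1) * Real.smoothTransition (4 - 8 * ρ)

theorem fA_smooth : ContDiff ℝ ∞ fA := by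
  unfold fA
  exact Real.smoothTransition.contDiff.comp ((contDiff_const.mul contDiff_id).sub contDiff_const)

theorem fB_smooth : ContDiff ℝ ∞ fB := by
  unfold fB
  exact (contDiff_id.mul (Real.smoothTransition.contDiff.comp
    ((contDiff_const.mul contDiff_id).sub contDiff_const))).mul
    (Real.smoothTransition.contDiff.comp (contDiff_const.sub (contDiff_const.mul contDiff_id)))

theorem fA_left {ρ : ℝ} (h : ρ ≤ 3 / 16) : fA ρ = 0 :=
  Real.smoothTransition.zero_of_nonpos (by linarith)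

theorem fA_right {ρ : ℝ} (h : 5 / 16 ≤ ρ) : fA ρ = 1 :=
  Real.smoothTransition.one_of_one_le (by linarith)

theorem fB_left {ρ : ℝ} (h : ρ ≤ 1 / 16) : fB ρ = 0 := by
  unfold fB
  rw [Real.smoothTransition.zero_of_nonpos (show 16 * ρ - 1 ≤ 0 by linarith)]
  ring

theorem fB_right {ρ : ℝ} (h : 1 / 2 ≤ ρ) : fB ρ = 0 := by
  unfold fB
  rw [Real.smoothTransition.zero_of_nonpos (show 4 - 8 * ρ ≤ 0 by linarith)]
  ring

theorem fB_mid {ρ : ℝ} (h : 1 / 8 ≤ ρ) (h' : ρ ≤ 3 / 8) : fB ρ = ρ := by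
  unfold fB
  rw [Real.smoothTransition.one_of_one_le (show 1 ≤ 4 - 8 * ρ by linarith),
    Real.smoothTransition.one_of_one_le (show 1 ≤ 16 * ρ - 1 by linarith)]
  ring

theorem fB_nonneg (ρ : ℝ) : 0 ≤ fB ρ := by
  rcases le_or_gt ρ (1 / 16) with h | h
  · rw [fB_left h]
  · unfold fB
    have h1 := Real.smoothTransition.nonneg (16 * ρ - 1)
    have h2 := Real.smoothTransition.nonneg (4 - 8 * ρ)
    have h3 : 0 ≤ ρ := by linarith
    positivity

theorem fB_pos {ρ : ℝ} (h : 1 / 16 < ρ) (h' : ρ < 1 / 2) : 0 < fB ρ := by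
  unfold fB
  have h1 := Real.smoothTransition.pos_of_pos (show 0 < 16 * ρ - 1 by linarith)
  have h2 := Real.smoothTransition.pos_of_pos (show 0 < 4 - 8 * ρ by linarith)
  have h3 : 0 < ρ := by linarith
  positivity

theorem fB_le (ρ : ℝ) (h : 0 ≤ ρ) : fB ρ ≤ ρ := by
  unfold fB
  have h1 := Real.smoothTransition.nonneg (16 * ρ - 1)
  have h2 := Real.smoothTransition.le_one (16 * ρ - 1)
  have h3 := Real.smoothTransition.nonneg (4 - 8 * ρ)
  have h4 := Real.smoothTransition.le_one (4 - 8 * ρ)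
  have h5 : Real.smoothTransition (16 * ρ - 1) * Real.smoothTransition (4 - 8 * ρ) ≤ 1 :=
    mul_le_one₀ h2 h3 h4
  rw [mul_assoc]
  exact mul_le_of_le_one_right h h5

theorem fB_half (ρ : ℝ) : fB ρ ≤ 1 / 2 := by
  rcases le_or_gt ρ 0 with h | h
  · rw [fB_left (by linarith)]
    norm_num
  · rcases le_or_gt (1 / 2) ρ with h' | h'
    · rw [fB_right h']
      norm_num
    · exact (fB_le ρ h.le).trans h'.le

/-- the isotopy -/
noncomputable def FootA_k (u : ℝ → ℝ × ℝ) (s l : ℝ) : ℂ × ℝ :=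
  (((4 * l : ℝ) : ℂ) * ((1 - (s : ℂ)) * ex (fA (4 * l)) + (s : ℂ)) * ex (u (4 * l)).1, fB (4 * l) + (u (4 * l)).2)

theorem FootA_smooth {u : ℝ → ℝ × ℝ} (hu : ContDiff ℝ ∞ u) :
    ContDiff ℝ ∞ (fun q : ℝ × ℝ => FootA_k u q.1 q.2) := by
  have h4 : ContDiff ℝ ∞ fun q : ℝ × ℝ => 4 * q.2 := contDiff_const.mul contDiff_snd
  have hc : ContDiff ℝ ∞ fun q : ℝ × ℝ => ((4 * q.2 : ℝ) : ℂ) := Complex.ofRealCLM.contDiff.comp h4
  have hs : ContDiff ℝ ∞ fun q : ℝ × ℝ => ((q.1 : ℝ) : ℂ) := Complex.ofRealCLM.contDiff.comp contDiff_fst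
  have hA : ContDiff ℝ ∞ fun q : ℝ × ℝ => ex (fA (4 * q.2)) := RSG.ex_smooth.comp (fA_smooth.comp h4)
  have hu1 : ContDiff ℝ ∞ fun q : ℝ × ℝ => u (4 * q.2) := hu.comp h4
  have he : ContDiff ℝ ∞ fun q : ℝ × ℝ => ex (u (4 * q.2)).1 := RSG.ex_smooth.comp (contDiff_fst.comp hu1)
  have hB : ContDiff ℝ ∞ fun q : ℝ × ℝ => fB (4 * q.2) := fB_smooth.comp h4
  exact ((hc.mul (((contDiff_const.sub hs).mul hA).add hs)).mul he).prodMk (hB.add (contDiff_snd.comp hu1))

theorem FootA_out {u : ℝ → ℝ × ℝ} (s l : ℝ) (h : 4 * l ≤ 3 / 16 ∨ 5 / 16 ≤ 4 * l) :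
    (FootA_k u s l).1 = ((4 * l : ℝ) : ℂ) * ex (u (4 * l)).1 := by
  unfold FootA_k
  have h1 : ex (fA (4 * l)) = 1 := by
    rcases h with h | h
    · rw [fA_left h, RSG.ex_zero]
    · rw [fA_right h]
      have := RSG.ex_int 1
      simpa using this
  simp only [h1]
  ring

theorem FootA_norm_out {u : ℝ → ℝ × ℝ} (s l : ℝ) (h : 4 * l ≤ 3 / 16 ∨ 5 / 16 ≤ 4 * l) :
    ‖(FootA_k u s l).1‖ = |4 * l| := by
  rw [FootA_out s l h, norm_mul, RSG.ex_norm, mul_one, Complex.norm_real, Real.norm_eq_abs]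

theorem FootA_norm_le {u : ℝ → ℝ × ℝ} {s : ℝ} (hs : s ∈ Icc (0 : ℝ) 1) (l : ℝ) :
    ‖(FootA_k u s l).1‖ ≤ |4 * l| := by
  unfold FootA_k
  rw [norm_mul, RSG.ex_norm, mul_one, norm_mul, Complex.norm_real, Real.norm_eq_abs]
  have h1 : ‖(1 - (s : ℂ)) * ex (fA (4 * l)) + (s : ℂ)‖ ≤ 1 := by
    refine (norm_add_le _ _).trans ?_
    rw [norm_mul, RSG.ex_norm, mul_one]
    have e1 : ‖(1 - (s : ℂ))‖ = 1 - s := by
      rw [← Complex.ofReal_one, ← Complex.ofReal_sub, Complex.norm_real, Real.norm_of_nonneg (by linarith [hs.2])]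
    have e2 : ‖(s : ℂ)‖ = s := by rw [Complex.norm_real, Real.norm_of_nonneg hs.1]
    rw [e1, e2]
    linarith
  exact mul_le_of_le_one_right (abs_nonneg _) h1

/-- opposite parameters -/
theorem FootA_opp {u : ℝ → ℝ × ℝ} (h0 : ∀ ρ ≤ 1 / 2, u ρ = 0) (havoid : ∀ ρ, ¬ Obs (u ρ)) {s l l' : ℝ}
    (hl : 0 < l) (hll : l' = -l) (hn : 4 * l ≤ 3 / 16 ∨ 5 / 16 ≤ 4 * l)
    (h1 : (FootA_k u s l).1 = (FootA_k u s l').1) (m : ℤ)
    (h2 : (FootA_k u s l).2 = (FootA_k u s l').2 + m) : False := by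
  rw [FootA_out s l hn, FootA_out s l' (Or.inl (by rw [hll]; linarith))] at h1
  have hu' : u (4 * l') = 0 := h0 _ (by rw [hll]; linarith)
  rw [hu', hll] at h1
  have h3 : ex (u (4 * l)).1 = ex (1 / 2) := by
    rw [RSG.ex_half]
    have h4 : ((4 * l : ℝ) : ℂ) ≠ 0 := by
      rw [Ne, Complex.ofReal_eq_zero]; linarith
    apply mul_left_cancel₀ h4
    rw [h1]
    change ((4 * -l : ℝ) : ℂ) * ex 0 = _
    rw [RSG.ex_zero]
    push_cast
    ring
  obtain ⟨m', hm'⟩ := RSG.ex_eq_iff.1 h3.symm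
  rcases le_or_gt (4 * l) (1 / 2) with hc | hc
  · rw [h0 _ hc] at hm'
    have h5 : (0 : ℝ) = 1 / 2 + m' := hm'
    have h6 : ((2 * m' + 1 : ℤ) : ℝ) = 0 := by push_cast; linarith
    have h7 : 2 * m' + 1 = 0 := by exact_mod_cast h6
    omega
  · have h5 : (FootA_k u s l).2 = (u (4 * l)).2 := by
      change fB (4 * l) + (u (4 * l)).2 = _
      rw [fB_right hc.le, zero_add]
    have h6 : (FootA_k u s l').2 = 0 := by
      change fB (4 * l') + (u (4 * l')).2 = _
      rw [hu', fB_left (by rw [hll]; linarith)]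
      simp
    rw [h5, h6, zero_add] at h2
    refine havoid (4 * l) ⟨m', m, ?_⟩
    refine Prod.ext ?_ h2
    rw [hm']
    change 1 / 2 + (m' : ℝ) = m' + 1 / 2
    ring

/-- the foot slide -/
theorem foot_slide {u : ℝ → ℝ × ℝ} (hu : ContDiff ℝ ∞ u) (h0 : ∀ ρ ≤ 1 / 2, u ρ = 0)
    (havoid : ∀ ρ, ¬ Obs (u ρ)) :
    PathEq.{u} (fun ρ => (fA ρ, fB ρ) + u ρ) (fun ρ => (0, fB ρ) + u ρ) := by
  have hsm := FootA_smooth hu
  refine ISO.arcEq_of_isotopy (FootA_k u) (ε := 1 / 16) (by norm_num) ?_ ?_ ?_ ?_ ?_ ?_ ?_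
  · intro s _ l _
    exact hsm.contDiffAt
  · intro l _
    unfold FootA_k arc
    refine Prod.ext ?_ rfl
    change ((4 * l : ℝ) : ℂ) * ((1 - ((0 : ℝ) : ℂ)) * ex (fA (4 * l)) + ((0 : ℝ) : ℂ)) * ex (u (4 * l)).1 =
      ((4 * l : ℝ) : ℂ) * ex (fA (4 * l) + (u (4 * l)).1)
    rw [RSG.ex_add, Complex.ofReal_zero]
    ring
  · intro l _
    unfold FootA_k arc
    refine Prod.ext ?_ rfl
    change ((4 * l : ℝ) : ℂ) * ((1 - ((1 : ℝ) : ℂ)) * ex (fA (4 * l)) + ((1 : ℝ) : ℂ)) * ex (u (4 * l)).1 =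
      ((4 * l : ℝ) : ℂ) * ex (0 + (u (4 * l)).1)
    rw [zero_add, Complex.ofReal_one]
    ring
  · intro s _ l _ hl
    have h4 : 4 * l ≤ 3 / 16 ∨ 5 / 16 ≤ 4 * l := by
      rcases le_or_gt 0 l with h | h
      · rw [abs_of_nonneg h] at hl
        right; linarith
      · left; linarith
    refine Prod.ext ?_ rfl
    rw [FootA_out s l h4, FootA_out 0 l h4]
  · intro s hs l hl
    refine (FootA_norm_le hs l).trans_lt ?_
    rw [abs_mul, abs_of_pos (show (0 : ℝ) < 4 by norm_num)]
    linarith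
  · intro s hs l hl hd
    have hdf : DifferentiableAt ℝ (FootA_k u s) l := by
      have h1 : ContDiff ℝ ∞ (FootA_k u s) := hsm.comp (contDiff_const.prodMk contDiff_id)
      exact h1.differentiable (by simp) l
    have hder : HasDerivAt (FootA_k u s) 0 l := by
      rw [← hd]; exact hdf.hasDerivAt
    have hd1 : HasDerivAt (fun x => (FootA_k u s x).1) 0 l := by
      have := (hasFDerivAt_fst (𝕜 := ℝ) (E := ℂ) (F := ℝ) (p := FootA_k u s l)).comp_hasDerivAt l hder
      exact this.congr_deriv (by simp)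
    have hd2 : HasDerivAt (fun x => (FootA_k u s x).2) 0 l := by
      have := (hasFDerivAt_snd (𝕜 := ℝ) (E := ℂ) (F := ℝ) (p := FootA_k u s l)).comp_hasDerivAt l hder
      exact this.congr_deriv (by simp)
    have hlin : HasDerivAt (fun x : ℝ => 4 * x) 4 l := by
      simpa using (hasDerivAt_id l).const_mul (4 : ℝ)
    rcases le_or_gt (4 * l) (1 / 8) with h1 | h1
    · -- near `l` the first component is `4 l`
      have hev : (fun x => (FootA_k u s x).1) =ᶠ[𝓝 l] fun x => ((4 * x : ℝ) : ℂ) := by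
        have hU : Iio (3 / 64 : ℝ) ∈ 𝓝 l := Iio_mem_nhds (by linarith)
        filter_upwards [hU] with x hx
        have hx' : 4 * x < 3 / 16 := by
          have : x < 3 / 64 := hx
          linarith
        rw [FootA_out s x (Or.inl hx'.le), h0 (4 * x) (by linarith)]
        change _ * ex 0 = _
        rw [RSG.ex_zero, mul_one]
      have h2 := (hd1.congr_of_eventuallyEq hev.symm).unique hlin.ofReal_comp
      norm_num at h2
    · rcases lt_or_ge (4 * l) (3 / 8) with h3 | h3
      · have hev : (fun x => (FootA_k u s x).2) =ᶠ[𝓝 l] fun x => 4 * x := by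
          have hU : Ioo (1 / 32 : ℝ) (3 / 32) ∈ 𝓝 l := Ioo_mem_nhds (by linarith) (by linarith)
          filter_upwards [hU] with x hx
          have hx1 : 1 / 8 < 4 * x := by linarith [hx.1]
          have hx2 : 4 * x < 3 / 8 := by linarith [hx.2]
          change fB (4 * x) + (u (4 * x)).2 = 4 * x
          rw [h0 (4 * x) (by linarith), fB_mid hx1.le hx2.le]
          simp
        have h2 := (hd2.congr_of_eventuallyEq hev.symm).unique hlin
        norm_num at h2
      · have hn := hd1.norm_sq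
        have hev : (fun x => ‖(FootA_k u s x).1‖ ^ 2) =ᶠ[𝓝 l] fun x => (4 * x) ^ 2 := by
          have hU : Ioi (5 / 64 : ℝ) ∈ 𝓝 l := Ioi_mem_nhds (by linarith)
          filter_upwards [hU] with x hx
          have hx' : 5 / 16 ≤ 4 * x := by
            have : 5 / 64 < x := hx
            linarith
          rw [FootA_norm_out s x (Or.inr hx'), sq_abs]
        have h2 := (hn.congr_of_eventuallyEq hev.symm).unique (hlin.pow 2)
        rw [inner_zero_right] at h2
        norm_num at h2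
        linarith
  · intro s hs l l' hl hl' m he
    have he1 : (FootA_k u s l).1 = (FootA_k u s l').1 := by
      have := congrArg Prod.fst he
      simpa using this
    have he2 : (FootA_k u s l).2 = (FootA_k u s l').2 + m := congrArg Prod.snd he
    -- the two cases
    by_cases hw : 3 / 16 < 4 * l ∧ 4 * l < 5 / 16
    · have hs1 : (FootA_k u s l).2 = 4 * l := by
        change fB (4 * l) + (u (4 * l)).2 = 4 * l
        rw [h0 (4 * l) (by linarith [hw.2]), fB_mid (by linarith [hw.1]) (by linarith [hw.2])]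
        simp
      by_cases hw' : 3 / 16 < 4 * l' ∧ 4 * l' < 5 / 16
      · have hs2 : (FootA_k u s l').2 = 4 * l' := by
          change fB (4 * l') + (u (4 * l')).2 = 4 * l'
          rw [h0 (4 * l') (by linarith [hw'.2]), fB_mid (by linarith [hw'.1]) (by linarith [hw'.2])]
          simp
        rw [hs1, hs2] at he2
        have h1 : (m : ℝ) < 1 := by linarith [hw.2, hw'.1]
        have h2 : (-1 : ℝ) < m := by linarith [hw.1, hw'.2]
        have h3 : m = 0 := by
          have h1' : m < 1 := by exact_mod_cast h1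
          have h2' : -1 < m := by exact_mod_cast h2
          omega
        rw [h3, Int.cast_zero] at he2
        linarith
      · exfalso
        have hn : |4 * l'| ≤ 4 * l := by
          have hw2 : 4 * l' ≤ 3 / 16 ∨ 5 / 16 ≤ 4 * l' := by
            by_contra hcon
            push Not at hcon
            exact hw' hcon
          rw [← FootA_norm_out (u := u) s l' hw2, ← he1]
          refine (FootA_norm_le hs l).trans ?_
          rw [abs_of_pos (by linarith [hw.1])]
        have hl3 : 4 * l' ≤ 3 / 16 := by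
          by_contra hcon
          push Not at hcon
          exact hw' ⟨hcon, by linarith [le_abs_self (4 * l'), hw.2]⟩
        have hs2 : (FootA_k u s l').2 = fB (4 * l') := by
          change fB (4 * l') + (u (4 * l')).2 = _
          rw [h0 (4 * l') (by linarith)]
          simp
        have hb : fB (4 * l') ≤ 3 / 16 := by
          rcases le_or_gt 0 (4 * l') with h | h
          · exact (fB_le _ h).trans hl3
          · rw [fB_left (by linarith)]
            norm_num
        have hb0 := fB_nonneg (4 * l')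
        rw [hs1, hs2] at he2
        have h1 : (m : ℝ) < 1 := by linarith [hw.2]
        have h2 : (0 : ℝ) < m := by linarith [hw.1]
        have h1' : m < 1 := by exact_mod_cast h1
        have h2' : 0 < m := by exact_mod_cast h2
        omega
    · have hw2 : 4 * l ≤ 3 / 16 ∨ 5 / 16 ≤ 4 * l := by
        by_contra hcon
        push Not at hcon
        exact hw hcon
      by_cases hw' : 3 / 16 < 4 * l' ∧ 4 * l' < 5 / 16
      · exfalso
        have hs1 : (FootA_k u s l').2 = 4 * l' := by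
          change fB (4 * l') + (u (4 * l')).2 = 4 * l'
          rw [h0 (4 * l') (by linarith [hw'.2]), fB_mid (by linarith [hw'.1]) (by linarith [hw'.2])]
          simp
        have hn : |4 * l| ≤ 4 * l' := by
          rw [← FootA_norm_out (u := u) s l hw2, he1]
          refine (FootA_norm_le hs l').trans ?_
          rw [abs_of_pos (by linarith [hw'.1])]
        have hl3 : 4 * l ≤ 3 / 16 := by
          by_contra hcon
          push Not at hcon
          exact hw ⟨hcon, by linarith [le_abs_self (4 * l), hw'.2]⟩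
        have hs2 : (FootA_k u s l).2 = fB (4 * l) := by
          change fB (4 * l) + (u (4 * l)).2 = _
          rw [h0 (4 * l) (by linarith)]
          simp
        have hb : fB (4 * l) ≤ 3 / 16 := by
          rcases le_or_gt 0 (4 * l) with h | h
          · exact (fB_le _ h).trans hl3
          · rw [fB_left (by linarith)]
            norm_num
        have hb0 := fB_nonneg (4 * l)
        rw [hs1, hs2] at he2
        have h1 : (m : ℝ) < 0 := by linarith [hw'.1]
        have h2 : (-1 : ℝ) < m := by linarith [hw'.2]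
        have h1' : m < 0 := by exact_mod_cast h1
        have h2' : -1 < m := by exact_mod_cast h2
        omega
      · have hw2' : 4 * l' ≤ 3 / 16 ∨ 5 / 16 ≤ 4 * l' := by
          by_contra hcon
          push Not at hcon
          exact hw' hcon
        have hn : |4 * l| = |4 * l'| := by
          rw [← FootA_norm_out (u := u) s l hw2, ← FootA_norm_out (u := u) s l' hw2', he1]
        rcases abs_eq_abs.1 hn with h | h
        · linarith
        · rcases lt_trichotomy l 0 with h1 | h1 | h1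
          · refine (FootA_opp h0 havoid (s := s) (l := l') (l' := l) (by linarith) (by linarith) hw2' he1.symm (-m) ?_).elim
            rw [he2]
            push_cast
            ring
          · linarith
          · exact (FootA_opp h0 havoid (s := s) (l := l) (l' := l') h1 (by linarith) hw2 he1 m he2).elim

end Pool.Agent.PTH
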