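import Pool.Agent.PTH.FourB

/-!
# PTH/FourC: two turns around the obstacle `(1/2, 0)`   (difficulty 2)

`hf3 τ = st (2 τ) st (14 - 2 τ)`: `0` for `τ ≤ 0` and `τ ≥ 7`, `1` for `1/2 ≤ τ ≤ 13/2`.
* `seg_gen`: `Sp_seg`: `hf3 τ ≠ 1` only for `τ < 1/2` or `τ > 13/2`.
* `sh_two`: by `sh_cat` (`seg_one`, `pos_seg`; durations `3 → 4` by `isSeg_mono`) and `pos_append`: `SH (cat S 4 S) (pos (c0 ++ c0)) 0`,
  `S τ = Sp (hf1 τ) (tf1 τ)`.
  `cat S 4 S τ = S τ + S (τ - 4) = Sp (h' τ) (ϑ' τ)`, `h' τ = hf1 τ + hf1 (τ - 4)`, `ϑ' τ = tf1 τ + tf1 (τ - 4)`: for `τ ≤ 4`: `hf1 (τ - 4) = 0`,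
  `tf1 (τ - 4) = 0`, `S (τ - 4) = 0`; for `τ ≥ 4`: `hf1 τ = 0`, `tf1 τ = 1`, `S τ = 0`, `Sp_add`.
  Homotopy 1: `Sp ((1 - l) h' τ + l hf3 τ) (ϑ' τ)`: if `ϑ' τ` is not an integer then `1/2 < τ < 5/2` or `9/2 < τ < 13/2`, so `h' τ = hf3 τ = 1`.
  Homotopy 2: `Sp (hf3 τ) ((1 - l) ϑ' τ + l g τ)`: for `τ ≤ 1/2` both are `0`, for `τ ≥ 13/2` both are `2`, otherwise `hf3 τ = 1`.
  (`Sp_seg` with duration `7` for all of them; `SH` directly from the definition; `hf1 τ + hf1 (τ - 4) ≤ 1` as one of them is `0`.)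
* `sh_none`: first `Sp (hf3 τ) ((1 - l) g τ)`, then `Sp ((1 - l) hf3 τ) 0`, and `Sp 0 0 = 0`.
-/

open scoped ContDiff Topology
open Set Filter

namespace Pool.Agent.PTH

noncomputable def hf3 (τ : ℝ) : ℝ := Real.smoothTransition (2 * τ) * Real.smoothTransition (14 - 2 * τ)

theorem hf3_smooth : ContDiff ℝ ∞ hf3 := by
  have h : ContDiff ℝ ∞ Real.smoothTransition := Real.smoothTransition.contDiff
  have h1 : ContDiff ℝ ∞ fun τ : ℝ => Real.smoothTransition (2 * τ) :=
    h.comp (contDiff_const.mul contDiff_id)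
  have h2 : ContDiff ℝ ∞ fun τ : ℝ => Real.smoothTransition (14 - 2 * τ) :=
    h.comp (contDiff_const.sub (contDiff_const.mul contDiff_id))
  exact h1.mul h2

theorem hf3_nonneg (τ : ℝ) : 0 ≤ hf3 τ :=
  mul_nonneg (Real.smoothTransition.nonneg _) (Real.smoothTransition.nonneg _)

theorem hf3_le (τ : ℝ) : hf3 τ ≤ 1 :=
  mul_le_one₀ (Real.smoothTransition.le_one _) (Real.smoothTransition.nonneg _)
    (Real.smoothTransition.le_one _)

theorem hf3_left {τ : ℝ} (h : τ ≤ 0) : hf3 τ = 0 := by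
  unfold hf3
  rw [Real.smoothTransition.zero_of_nonpos (show 2 * τ ≤ 0 by linarith), zero_mul]

theorem hf3_right {τ : ℝ} (h : 7 ≤ τ) : hf3 τ = 0 := by
  unfold hf3
  rw [Real.smoothTransition.zero_of_nonpos (show 14 - 2 * τ ≤ 0 by linarith), mul_zero]

theorem hf3_mid {τ : ℝ} (h : 1 / 2 ≤ τ) (h' : τ ≤ 13 / 2) : hf3 τ = 1 := by
  unfold hf3
  rw [Real.smoothTransition.one_of_one_le (show 1 ≤ 2 * τ by linarith),
    Real.smoothTransition.one_of_one_le (show 1 ≤ 14 - 2 * τ by linarith), mul_one]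

theorem FourC_cont {h ϑ : ℝ × ℝ → ℝ} (hc : Continuous h) (hc' : Continuous ϑ) :
    Continuous fun q => Sp (h q) (ϑ q) := by
  unfold Sp
  have h1 : Continuous fun q => Real.cos (2 * Real.pi * ϑ q) :=
    Real.continuous_cos.comp (continuous_const.mul hc')
  have h2 : Continuous fun q => Real.sin (2 * Real.pi * ϑ q) :=
    Real.continuous_sin.comp (continuous_const.mul hc')
  exact ((continuous_const.mul hc).add (continuous_const.mul (continuous_const.sub h1))).prodMk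
    (continuous_const.mul h2)

theorem seg_gen {g : ℝ → ℝ} {k : ℤ} (hc : Continuous g) (hl : ∀ τ ≤ 1 / 2, g τ = 0)
    (hr : ∀ τ, 13 / 2 ≤ τ → g τ = k) : IsSeg (fun τ => Sp (hf3 τ) (g τ)) 7 0 := by
  refine Sp_seg (by norm_num) hf3_smooth.continuous hc hf3_nonneg hf3_le ?_ (fun τ h => hf3_left h)
    (fun τ h => hf3_right h)
  intro τ
  rcases le_total τ (1 / 2) with h | h
  · exact Or.inr ⟨0, by rw [hl τ h]; norm_num⟩
  rcases le_total τ (13 / 2) with h' | h'
  · exact Or.inl (hf3_mid h h')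
  · exact Or.inr ⟨k, hr τ h'⟩

theorem FourC_h_nonneg (τ : ℝ) : 0 ≤ hf1 τ + hf1 (τ - 4) := add_nonneg (hf1_nonneg _) (hf1_nonneg _)

theorem FourC_h_le (τ : ℝ) : hf1 τ + hf1 (τ - 4) ≤ 1 := by
  rcases le_total τ 4 with h | h
  · rw [hf1_left (show τ - 4 ≤ 0 by linarith), add_zero]
    exact hf1_le τ
  · rw [hf1_right (show 3 ≤ τ by linarith), zero_add]
    exact hf1_le _

theorem FourC_h_left {τ : ℝ} (h : τ ≤ 0) : hf1 τ + hf1 (τ - 4) = 0 := by
  rw [hf1_left h, hf1_left (show τ - 4 ≤ 0 by linarith), add_zero]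

theorem FourC_h_right {τ : ℝ} (h : 7 ≤ τ) : hf1 τ + hf1 (τ - 4) = 0 := by
  rw [hf1_right (show 3 ≤ τ by linarith), hf1_right (show 3 ≤ τ - 4 by linarith), add_zero]

/-- `ϑ'` is an integer or `h' = hf3 = 1` -/
theorem FourC_alt (τ : ℝ) :
    (∃ k : ℤ, tf1 τ + tf1 (τ - 4) = k) ∨ (hf1 τ + hf1 (τ - 4) = 1 ∧ hf3 τ = 1) := by
  rcases le_total τ (1 / 2) with h1 | h1
  · refine Or.inl ⟨0, ?_⟩
    rw [tf1_left h1, tf1_left (show τ - 4 ≤ 1 / 2 by linarith)]
    norm_num
  rcases le_total τ (5 / 2) with h2 | h2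
  · refine Or.inr ⟨?_, hf3_mid h1 (by linarith)⟩
    rw [hf1_mid h1 h2, hf1_left (show τ - 4 ≤ 0 by linarith), add_zero]
  rcases le_total τ (9 / 2) with h3 | h3
  · refine Or.inl ⟨1, ?_⟩
    rw [tf1_right h2, tf1_left (show τ - 4 ≤ 1 / 2 by linarith)]
    norm_num
  rcases le_total τ (13 / 2) with h4 | h4
  · refine Or.inr ⟨?_, hf3_mid h1 h4⟩
    rw [hf1_right (show 3 ≤ τ by linarith), hf1_mid (show 1 / 2 ≤ τ - 4 by linarith)
      (show τ - 4 ≤ 5 / 2 by linarith), zero_add]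
  · refine Or.inl ⟨2, ?_⟩
    rw [tf1_right h2, tf1_right (show 5 / 2 ≤ τ - 4 by linarith)]
    norm_num

theorem FourC_t_left {τ : ℝ} (h : τ ≤ 1 / 2) : tf1 τ + tf1 (τ - 4) = 0 := by
  rw [tf1_left h, tf1_left (show τ - 4 ≤ 1 / 2 by linarith), add_zero]

theorem FourC_t_right {τ : ℝ} (h : 13 / 2 ≤ τ) : tf1 τ + tf1 (τ - 4) = 2 := by
  rw [tf1_right (show 5 / 2 ≤ τ by linarith), tf1_right (show 5 / 2 ≤ τ - 4 by linarith)]
  norm_num

theorem FourC_h_cont : Continuous fun τ => hf1 τ + hf1 (τ - 4) :=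
  hf1_cont.add (hf1_cont.comp (continuous_id.sub continuous_const))

theorem FourC_t_cont : Continuous fun τ => tf1 τ + tf1 (τ - 4) :=
  tf1_cont.add (tf1_cont.comp (continuous_id.sub continuous_const))

theorem FourC_cat : cat (fun τ => Sp (hf1 τ) (tf1 τ)) 4 (fun τ => Sp (hf1 τ) (tf1 τ)) =
    fun τ => Sp (hf1 τ + hf1 (τ - 4)) (tf1 τ + tf1 (τ - 4)) := by
  funext τ
  show Sp (hf1 τ) (tf1 τ) + Sp (hf1 (τ - 4)) (tf1 (τ - 4)) = _
  rcases le_total τ 4 with h | h
  · rw [hf1_left (show τ - 4 ≤ 0 by linarith), tf1_left (show τ - 4 ≤ 1 / 2 by linarith), add_zero,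
      add_zero]
    have h0 : Sp 0 0 = 0 := by
      have := Sp_int 0 0
      rw [Int.cast_zero, mul_zero] at this
      exact this
    rw [h0, add_zero]
  · rw [hf1_right (show 3 ≤ τ by linarith), tf1_right (show 5 / 2 ≤ τ by linarith), zero_add]
    have h0 : Sp 0 1 = 0 := by
      have := Sp_int 0 1
      rw [Int.cast_one, mul_zero] at this
      exact this
    rw [h0, zero_add, add_comm]
    have := Sp_add (hf1 (τ - 4)) (tf1 (τ - 4)) 1
    rw [Int.cast_one] at this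
    rw [this]

theorem sh_two {g : ℝ → ℝ} (hc : Continuous g) (hl : ∀ τ ≤ 1 / 2, g τ = 0) (hr : ∀ τ, 13 / 2 ≤ τ → g τ = 2) :
    SH (fun τ => Sp (hf3 τ) (g τ)) (pos (c0 ++ c0)) 0 := by
  have hp : pos (c0 ++ c0) = cat (pos c0) 4 (pos c0) := by
    rw [pos_append]
    norm_num [c0]
  have hs : IsSeg (pos c0) 4 0 := by
    have := pos_seg c0
    rw [c0_sum] at this
    have e : ((c0.length : ℕ) : ℝ) = 4 := by norm_num [c0]
    rwa [e] at this
  have h1 : SH (cat (fun τ => Sp (hf1 τ) (tf1 τ)) 4 (fun τ => Sp (hf1 τ) (tf1 τ)))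
      (cat (pos c0) 4 (pos c0)) (0 + 0) :=
    sh_cat (isSeg_mono seg_one (by norm_num)) hs seg_one hs sh_one sh_one
  rw [add_zero, FourC_cat, ← hp] at h1
  refine sh_trans (sh_symm (sh_trans (u' := fun τ => Sp (hf3 τ) (tf1 τ + tf1 (τ - 4))) ?_ ?_)) h1
  · refine ⟨7, fun l τ => Sp ((1 - l) * (hf1 τ + hf1 (τ - 4)) + l * hf3 τ) (tf1 τ + tf1 (τ - 4)),
      ?_, ?_, ?_, ?_⟩
    · exact FourC_cont (((continuous_const.sub continuous_fst).mul
        (FourC_h_cont.comp continuous_snd)).add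
        (continuous_fst.mul (hf3_smooth.continuous.comp continuous_snd)))
        (FourC_t_cont.comp continuous_snd)
    · funext τ
      simp
    · funext τ
      simp
    · intro l hl0 hl1
      have hl2 : 0 ≤ 1 - l := by linarith
      refine Sp_seg (by norm_num) ?_ FourC_t_cont ?_ ?_ ?_ ?_ ?_
      · exact (continuous_const.mul FourC_h_cont).add (continuous_const.mul hf3_smooth.continuous)
      · intro τ
        exact add_nonneg (mul_nonneg hl2 (FourC_h_nonneg τ)) (mul_nonneg hl0 (hf3_nonneg τ))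
      · intro τ
        have e1 := mul_le_mul_of_nonneg_left (FourC_h_le τ) hl2
        have e2 := mul_le_mul_of_nonneg_left (hf3_le τ) hl0
        linarith
      · intro τ
        rcases FourC_alt τ with h | ⟨h, h'⟩
        · exact Or.inr h
        · left
          rw [h, h']
          ring
      · intro τ h
        rw [FourC_h_left h, hf3_left h]
        ring
      · intro τ h
        rw [FourC_h_right h, hf3_right h]
        ring
  · refine ⟨7, fun l τ => Sp (hf3 τ) ((1 - l) * (tf1 τ + tf1 (τ - 4)) + l * g τ), ?_, ?_, ?_, ?_⟩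
    · exact FourC_cont (hf3_smooth.continuous.comp continuous_snd)
        (((continuous_const.sub continuous_fst).mul (FourC_t_cont.comp continuous_snd)).add
        (continuous_fst.mul (hc.comp continuous_snd)))
    · funext τ
      simp
    · funext τ
      simp
    · intro l hl0 hl1
      refine seg_gen (k := 2) ?_ ?_ ?_
      · exact (continuous_const.mul FourC_t_cont).add (continuous_const.mul hc)
      · intro τ h
        rw [FourC_t_left h, hl τ h]
        ring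
      · intro τ h
        rw [FourC_t_right h, hr τ h]
        push_cast
        ring

theorem FourC_none (l : ℝ) (hl0 : 0 ≤ l) (hl1 : l ≤ 1) : IsSeg (fun τ => Sp ((1 - l) * hf3 τ) 0) 7 0 := by
  have hl2 : 0 ≤ 1 - l := by linarith
  refine Sp_seg (ϑ := fun _ => 0) (by norm_num) (continuous_const.mul hf3_smooth.continuous)
    continuous_const ?_ ?_ ?_ ?_ ?_
  · intro τ
    exact mul_nonneg hl2 (hf3_nonneg τ)
  · intro τ
    have e1 := mul_le_mul_of_nonneg_left (hf3_le τ) hl2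
    linarith
  · intro τ
    exact Or.inr ⟨0, by norm_num⟩
  · intro τ h
    rw [hf3_left h, mul_zero]
  · intro τ h
    rw [hf3_right h, mul_zero]

theorem sh_none {g : ℝ → ℝ} (hc : Continuous g) (hl : ∀ τ ≤ 1 / 2, g τ = 0) (hr : ∀ τ, 13 / 2 ≤ τ → g τ = 0) :
    SH (fun τ => Sp (hf3 τ) (g τ)) (fun _ => (0 : ℝ × ℝ)) 0 := by
  refine sh_trans (u' := fun τ => Sp (hf3 τ) 0) ?_ ?_
  · refine ⟨7, fun l τ => Sp (hf3 τ) ((1 - l) * g τ), ?_, ?_, ?_, ?_⟩
    · exact FourC_cont (hf3_smooth.continuous.comp continuous_snd)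
        ((continuous_const.sub continuous_fst).mul (hc.comp continuous_snd))
    · funext τ
      simp
    · funext τ
      simp
    · intro l _ _
      refine seg_gen (k := 0) (continuous_const.mul hc) ?_ ?_
      · intro τ h
        rw [hl τ h, mul_zero]
      · intro τ h
        rw [hr τ h, mul_zero, Int.cast_zero]
  · refine ⟨7, fun l τ => Sp ((1 - l) * hf3 τ) 0, ?_, ?_, ?_, FourC_none⟩
    · exact FourC_cont ((continuous_const.sub continuous_fst).mul
        (hf3_smooth.continuous.comp continuous_snd)) continuous_const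
    · funext τ
      simp
    · funext τ
      have := Sp_int 0 0
      rw [Int.cast_zero, mul_zero] at this
      show Sp ((1 - 1) * hf3 τ) 0 = 0
      rw [sub_self, zero_mul]
      exact this

end Pool.Agent.PTH
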