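import Pool.Agent.PTH.FourC
import Pool.Agent.RBM.Defs

/-!
# PTH/FourD: the paths of the 4-move   (difficulty 2)

`fwp ϑ G L` : first the word `G` (`1/10 ≤ ρ ≤ 3/10`), then the approach to the obstacle (`3/10 ≤ ρ ≤ 13/20`) with the turns `ϑ`,
then the word `L` (`7/10 ≤ ρ ≤ 9/10`).
* `fwp ϑ G L = cat u₁ (3/10) (cat u₂ (7/20) u₃)`, `u₁ ρ = pos G (|G| st (5 ρ - 1/2))`, `u₂ τ = Sp (hf3 (20 τ)) (ϑ (τ + 3/10))`, `u₃ τ = pos L (|L| st
  (5 τ - 1/4))` (`ring_nf` for the arguments).  Each piece is a reparametrisation (`sh_reparam`) of `pos G`, of `Sp (hf3 τ) (g τ)` with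
  `g τ = ϑ (τ / 20 + 3/10)` (`g τ = 0` for `τ ≤ 1/2`, `g τ = k` for `τ ≥ 13/2`), of `pos L`.  `sh_cat`, `pos_append`, `sumZ_append`, `c0_sum`.
* `fwp_isPath`: smooth (`pos_smooth`, `hf3_smooth`, `cos`, `sin`); start: `ρ ≤ 1/10`; stop: `ρ ≥ 9/10` (`hf3 = 0`, `Sp_int`); avoid: from the
  segment (`isSeg_cat`, `seg_gen`).
* `fwp_box`: for `13/40 ≤ ρ ≤ 5/8`: `st (5 ρ - 1/2) = 1`, `st (5 ρ - 7/2) = 0`, `hf3 = 1`.
* `gth1 ρ = 2 gs (40 ρ - 16)` is `0` for `ρ ≤ 7/20` and `2` for `ρ ≥ 9/20`; `gth2 ρ = 2 gs (40 ρ - 22)` is `0` for `ρ ≤ 1/2` and `2` for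
  `ρ ≥ 3/5` (`gs s = CSG.stp (-1/8) (1/16) s`: `CSG.stp_zero`, `CSG.stp_one`, `CSG.stp_smooth`).
-/

open scoped ContDiff Topology
open Set Filter

namespace Pool.Agent.PTH

open Pool.Agent.RBM (gs)

noncomputable def fwp (ϑ : ℝ → ℝ) (G L : List (Bool × Bool)) (ρ : ℝ) : ℝ × ℝ :=
  pos G (G.length * Real.smoothTransition (5 * ρ - 1 / 2)) + Sp (hf3 (20 * ρ - 6)) (ϑ ρ) +
    pos L (L.length * Real.smoothTransition (5 * ρ - 7 / 2))

/-- the common form of the two paths -/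
noncomputable def FourD_fw (G L : List (Bool × Bool)) (g : ℝ → ℝ) (ρ : ℝ) : ℝ × ℝ :=
  pos G (G.length * Real.smoothTransition (5 * ρ - 1 / 2)) + Sp (hf3 (20 * ρ - 6)) (g (20 * ρ - 6)) +
    pos L (L.length * Real.smoothTransition (5 * ρ - 7 / 2))

theorem FourD_fwp (ϑ : ℝ → ℝ) (G L : List (Bool × Bool)) :
    fwp ϑ G L = FourD_fw G L (fun τ => ϑ (τ / 20 + 3 / 10)) := by
  funext ρ
  unfold fwp FourD_fw
  have e : (20 * ρ - 6) / 20 + 3 / 10 = ρ := by ring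
  simp only [e]

theorem FourD_rep {u : ℝ → ℝ × ℝ} {m M : ℝ} {e : ℤ × ℤ} (h : IsSeg u m e) (ϑ : ℝ → ℝ) (hc : Continuous ϑ)
    (hM : 0 ≤ M) (h0 : ∀ τ ≤ 0, ϑ τ ≤ 0) (h1 : ∀ τ, M ≤ τ → m ≤ ϑ τ) : IsSeg (u ∘ ϑ) M e :=
  ⟨hM, h.cont.comp hc, fun τ hτ => h.start _ (h0 τ hτ), fun τ hτ => h.stop _ (h1 τ hτ),
    fun _ => h.avoid _⟩

theorem FourD_cat (G L : List (Bool × Bool)) (g : ℝ → ℝ) :
    FourD_fw G L g = cat (pos G ∘ fun ρ : ℝ => (G.length : ℝ) * Real.smoothTransition (5 * ρ - 1 / 2)) (3 / 10)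
      (cat ((fun τ => Sp (hf3 τ) (g τ)) ∘ fun τ : ℝ => 20 * τ) (7 / 20)
        (pos L ∘ fun τ : ℝ => (L.length : ℝ) * Real.smoothTransition (5 * τ - 1 / 4))) := by
  funext ρ
  change _ = pos G (G.length * Real.smoothTransition (5 * ρ - 1 / 2)) +
    (Sp (hf3 (20 * (ρ - 3 / 10))) (g (20 * (ρ - 3 / 10))) +
      pos L (L.length * Real.smoothTransition (5 * (ρ - 3 / 10 - 7 / 20) - 1 / 4)))
  unfold FourD_fw
  rw [add_assoc, show 20 * (ρ - 3 / 10) = 20 * ρ - 6 by ring,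
    show 5 * (ρ - 3 / 10 - 7 / 20) - 1 / 4 = 5 * ρ - 7 / 2 by ring]

theorem FourD_p0 {n : ℕ} {x : ℝ} (h : x ≤ 0) : (n : ℝ) * Real.smoothTransition x ≤ 0 := by
  rw [Real.smoothTransition.zero_of_nonpos h, mul_zero]

theorem FourD_p1 {n : ℕ} {x : ℝ} (h : 1 ≤ x) : (n : ℝ) ≤ (n : ℝ) * Real.smoothTransition x := by
  rw [Real.smoothTransition.one_of_one_le h, mul_one]

theorem FourD_s1 (G : List (Bool × Bool)) :
    IsSeg (pos G ∘ fun ρ : ℝ => (G.length : ℝ) * Real.smoothTransition (5 * ρ - 1 / 2)) (3 / 10) (sumZ G) := by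
  have hs : Continuous Real.smoothTransition := Real.smoothTransition.continuous
  refine FourD_rep (pos_seg G) _ (continuous_const.mul (hs.comp (by fun_prop))) (by norm_num) ?_ ?_
  · intro τ hτ
    exact FourD_p0 (by linarith)
  · intro τ hτ
    exact FourD_p1 (by linarith)

theorem FourD_s3 (L : List (Bool × Bool)) :
    IsSeg (pos L ∘ fun τ : ℝ => (L.length : ℝ) * Real.smoothTransition (5 * τ - 1 / 4)) (1 / 4) (sumZ L) := by
  have hs : Continuous Real.smoothTransition := Real.smoothTransition.continuous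
  refine FourD_rep (pos_seg L) _ (continuous_const.mul (hs.comp (by fun_prop))) (by norm_num) ?_ ?_
  · intro τ hτ
    exact FourD_p0 (by linarith)
  · intro τ hτ
    exact FourD_p1 (by linarith)

theorem FourD_s2 {g : ℝ → ℝ} {e : ℤ × ℤ} (h : IsSeg (fun τ => Sp (hf3 τ) (g τ)) 7 e) :
    IsSeg ((fun τ => Sp (hf3 τ) (g τ)) ∘ fun τ : ℝ => 20 * τ) (7 / 20) e := by
  refine FourD_rep h _ (by fun_prop) (by norm_num) ?_ ?_
  · intro τ hτ
    linarith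
  · intro τ hτ
    linarith

theorem FourD_sh (G L C : List (Bool × Bool)) {g : ℝ → ℝ}
    (h : IsSeg (fun τ => Sp (hf3 τ) (g τ)) 7 (sumZ C))
    (H : SH (fun τ => Sp (hf3 τ) (g τ)) (pos C) (sumZ C)) :
    SH (FourD_fw G L g) (pos (G ++ C ++ L)) (sumZ (G ++ C ++ L)) := by
  have hs : Continuous Real.smoothTransition := Real.smoothTransition.continuous
  have H1 : SH (pos G ∘ fun ρ : ℝ => (G.length : ℝ) * Real.smoothTransition (5 * ρ - 1 / 2)) (pos G)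
      (sumZ G) := by
    refine sh_symm (sh_reparam (M := 3 / 10) (pos_seg G) _ (continuous_const.mul (hs.comp (by fun_prop))) ?_ ?_)
    · intro τ hτ
      exact FourD_p0 (by linarith)
    · intro τ hτ
      exact FourD_p1 (by linarith)
  have H3 : SH (pos L ∘ fun τ : ℝ => (L.length : ℝ) * Real.smoothTransition (5 * τ - 1 / 4)) (pos L)
      (sumZ L) := by
    refine sh_symm (sh_reparam (M := 1 / 4) (pos_seg L) _ (continuous_const.mul (hs.comp (by fun_prop))) ?_ ?_)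
    · intro τ hτ
      exact FourD_p0 (by linarith)
    · intro τ hτ
      exact FourD_p1 (by linarith)
  have H2 : SH ((fun τ => Sp (hf3 τ) (g τ)) ∘ fun τ : ℝ => 20 * τ) (pos C) (sumZ C) := by
    refine sh_trans (sh_symm (sh_reparam (M := 7 / 20) h (fun τ => 20 * τ) (by fun_prop) ?_ ?_)) H
    · intro τ hτ
      change 20 * τ ≤ 0
      linarith
    · intro τ hτ
      change 7 ≤ 20 * τ
      linarith
  have H23 := sh_cat (FourD_s2 h) (pos_seg C) (FourD_s3 L) (pos_seg L) H2 H3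
  rw [← pos_append, ← sumZ_append] at H23
  have h23 := isSeg_cat (FourD_s2 h) (FourD_s3 L)
  rw [← sumZ_append] at h23
  have h23' := pos_seg (C ++ L)
  have H123 := sh_cat (FourD_s1 G) (pos_seg G) h23 h23' H1 H23
  rw [← pos_append, ← sumZ_append, ← FourD_cat, ← List.append_assoc] at H123
  exact H123

theorem FourD_path (G L C : List (Bool × Bool)) {g : ℝ → ℝ} (hg : ContDiff ℝ ∞ g)
    (h : IsSeg (fun τ => Sp (hf3 τ) (g τ)) 7 (sumZ C)) :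
    IsPath (FourD_fw G L g) (sumZ (G ++ C ++ L)) := by
  have hst : ContDiff ℝ ∞ Real.smoothTransition := Real.smoothTransition.contDiff
  refine ⟨?_, ⟨1 / 10, by norm_num, fun ρ hρ => ?_⟩, ⟨1 / 10, by norm_num, fun ρ hρ => ?_⟩, fun ρ => ?_⟩
  · have e1 : ContDiff ℝ ∞ fun ρ : ℝ => pos G (G.length * Real.smoothTransition (5 * ρ - 1 / 2)) :=
      (pos_smooth G).comp (contDiff_const.mul (hst.comp (by fun_prop)))
    have e3 : ContDiff ℝ ∞ fun ρ : ℝ => pos L (L.length * Real.smoothTransition (5 * ρ - 7 / 2)) :=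
      (pos_smooth L).comp (contDiff_const.mul (hst.comp (by fun_prop)))
    have e4 : ContDiff ℝ ∞ fun ρ : ℝ => hf3 (20 * ρ - 6) := hf3_smooth.comp (by fun_prop)
    have e5 : ContDiff ℝ ∞ fun ρ : ℝ => g (20 * ρ - 6) := hg.comp (by fun_prop)
    have e2 : ContDiff ℝ ∞ fun ρ : ℝ => Sp (hf3 (20 * ρ - 6)) (g (20 * ρ - 6)) := by
      unfold Sp
      exact ((contDiff_const.mul e4).add (contDiff_const.mul (contDiff_const.sub
        (Real.contDiff_cos.comp (contDiff_const.mul e5))))).prodMk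
        (contDiff_const.mul (Real.contDiff_sin.comp (contDiff_const.mul e5)))
    exact (e1.add e2).add e3
  · have h1 := (pos_seg G).start _ (FourD_p0 (n := G.length) (show 5 * ρ - 1 / 2 ≤ 0 by linarith))
    have h2 := h.start (20 * ρ - 6) (by linarith)
    have h3 := (pos_seg L).start _ (FourD_p0 (n := L.length) (show 5 * ρ - 7 / 2 ≤ 0 by linarith))
    unfold FourD_fw
    rw [h1, h2, h3]
    simp
  · have h1 := (pos_seg G).stop _ (FourD_p1 (n := G.length) (show 1 ≤ 5 * ρ - 1 / 2 by linarith))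
    have h2 := h.stop (20 * ρ - 6) (by linarith)
    have h3 := (pos_seg L).stop _ (FourD_p1 (n := L.length) (show 1 ≤ 5 * ρ - 7 / 2 by linarith))
    unfold FourD_fw
    rw [h1, h2, h3, sumZ_append, sumZ_append]
    simp
  · rw [FourD_cat]
    exact (isSeg_cat (FourD_s1 G) (isSeg_cat (FourD_s2 h) (FourD_s3 L))).avoid ρ

theorem FourD_gs0 {s : ℝ} (h : s ≤ -(1 / 8)) : gs s = 0 := by
  unfold gs
  exact CSG.stp_zero (by norm_num) h

theorem FourD_gs1 {s : ℝ} (h : 1 / 16 ≤ s) : gs s = 1 := by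
  unfold gs
  exact CSG.stp_one (by norm_num) h

theorem FourD_csum : sumZ (c0 ++ c0) = 0 := by
  rw [sumZ_append, c0_sum, add_zero]

theorem sumZ_c0 (G L : List (Bool × Bool)) : sumZ (G ++ (c0 ++ c0) ++ L) = sumZ (G ++ L) := by
  rw [sumZ_append (G ++ (c0 ++ c0)) L, sumZ_append G (c0 ++ c0), FourD_csum, add_zero, sumZ_append]

theorem FourD_g0 {ϑ : ℝ → ℝ} (hl : ∀ ρ ≤ 13 / 40, ϑ ρ = 0) : ∀ τ ≤ 1 / 2, ϑ (τ / 20 + 3 / 10) = 0 :=
  fun τ hτ => hl _ (by linarith)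

theorem FourD_g1 {ϑ : ℝ → ℝ} {k : ℝ} (hr : ∀ ρ, 5 / 8 ≤ ρ → ϑ ρ = k) :
    ∀ τ, 13 / 2 ≤ τ → ϑ (τ / 20 + 3 / 10) = k :=
  fun τ hτ => hr _ (by linarith)

theorem FourD_gs {ϑ : ℝ → ℝ} (hs : ContDiff ℝ ∞ ϑ) : ContDiff ℝ ∞ fun τ : ℝ => ϑ (τ / 20 + 3 / 10) :=
  hs.comp (by fun_prop)

theorem fwp_isPath {ϑ : ℝ → ℝ} {k : ℤ} (hs : ContDiff ℝ ∞ ϑ) (hl : ∀ ρ ≤ 13 / 40, ϑ ρ = 0)
    (hr : ∀ ρ, 5 / 8 ≤ ρ → ϑ ρ = k) (G L : List (Bool × Bool)) : IsPath (fwp ϑ G L) (sumZ (G ++ L)) := by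
  rw [FourD_fwp]
  have h := FourD_path G L [] (FourD_gs hs) (seg_gen (FourD_gs hs).continuous (FourD_g0 hl) (FourD_g1 hr))
  rw [List.append_nil] at h
  exact h

theorem sh_fwp0 {ϑ : ℝ → ℝ} (hs : ContDiff ℝ ∞ ϑ) (hl : ∀ ρ ≤ 13 / 40, ϑ ρ = 0)
    (hr : ∀ ρ, 5 / 8 ≤ ρ → ϑ ρ = 0) (G L : List (Bool × Bool)) :
    SH (fwp ϑ G L) (pos (G ++ L)) (sumZ (G ++ L)) := by
  rw [FourD_fwp]
  have h := FourD_sh G L [] (seg_gen (k := 0) (FourD_gs hs).continuous (FourD_g0 hl)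
    (FourD_g1 (by rwa [Int.cast_zero]))) (sh_none (FourD_gs hs).continuous (FourD_g0 hl) (FourD_g1 hr))
  rw [List.append_nil] at h
  exact h

theorem sh_fwp2 {ϑ : ℝ → ℝ} (hs : ContDiff ℝ ∞ ϑ) (hl : ∀ ρ ≤ 13 / 40, ϑ ρ = 0)
    (hr : ∀ ρ, 5 / 8 ≤ ρ → ϑ ρ = 2) (G L : List (Bool × Bool)) :
    SH (fwp ϑ G L) (pos (G ++ (c0 ++ c0) ++ L)) (sumZ (G ++ L)) := by
  rw [FourD_fwp, ← sumZ_c0]
  have h1 : IsSeg (fun τ => Sp (hf3 τ) (ϑ (τ / 20 + 3 / 10))) 7 (sumZ (c0 ++ c0)) := by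
    rw [FourD_csum]
    exact seg_gen (k := 2) (FourD_gs hs).continuous (FourD_g0 hl) (FourD_g1 (by exact_mod_cast hr))
  have h2 : SH (fun τ => Sp (hf3 τ) (ϑ (τ / 20 + 3 / 10))) (pos (c0 ++ c0)) (sumZ (c0 ++ c0)) := by
    rw [FourD_csum]
    exact sh_two (FourD_gs hs).continuous (FourD_g0 hl) (FourD_g1 hr)
  exact FourD_sh G L (c0 ++ c0) h1 h2

theorem fwp_box (ϑ : ℝ → ℝ) (G L : List (Bool × Bool)) {ρ : ℝ} (h : 13 / 40 ≤ ρ) (h' : ρ ≤ 5 / 8) :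
    fwp ϑ G L ρ = (((sumZ G).1 : ℝ), ((sumZ G).2 : ℝ)) + Sp 1 (ϑ ρ) := by
  have h1 := (pos_seg G).stop _ (FourD_p1 (n := G.length) (show 1 ≤ 5 * ρ - 1 / 2 by linarith))
  have h3 := (pos_seg L).start _ (FourD_p0 (n := L.length) (show 5 * ρ - 7 / 2 ≤ 0 by linarith))
  have h2 : hf3 (20 * ρ - 6) = 1 := hf3_mid (by linarith) (by linarith)
  unfold fwp
  rw [h1, h2, h3]
  simp

noncomputable def gth1 (ρ : ℝ) : ℝ := 2 * gs (40 * ρ - 16)

noncomputable def gth2 (ρ : ℝ) : ℝ := 2 * gs (40 * ρ - 22)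

theorem gth1_smooth : ContDiff ℝ ∞ gth1 := by
  have h : ContDiff ℝ ∞ gs := CSG.stp_smooth _ _
  exact contDiff_const.mul (h.comp (by fun_prop))
theorem gth2_smooth : ContDiff ℝ ∞ gth2 := by
  have h : ContDiff ℝ ∞ gs := CSG.stp_smooth _ _
  exact contDiff_const.mul (h.comp (by fun_prop))
theorem gth1_left {ρ : ℝ} (h : ρ ≤ 7 / 20) : gth1 ρ = 0 := by
  unfold gth1
  rw [FourD_gs0 (by linarith), mul_zero]
theorem gth1_right {ρ : ℝ} (h : 9 / 20 ≤ ρ) : gth1 ρ = 2 := by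
  unfold gth1
  rw [FourD_gs1 (by linarith), mul_one]
theorem gth2_left {ρ : ℝ} (h : ρ ≤ 1 / 2) : gth2 ρ = 0 := by
  unfold gth2
  rw [FourD_gs0 (by linarith), mul_zero]
theorem gth2_right {ρ : ℝ} (h : 3 / 5 ≤ ρ) : gth2 ρ = 2 := by
  unfold gth2
  rw [FourD_gs1 (by linarith), mul_one]

end Pool.Agent.PTH
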