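import Pool.Agent.PTH.TC
import Pool.Agent.COR.Defs

/-!
# PTH/FourE: the box of the 4-move   (difficulty 3)

`bxF C ρ₀ ε (z, s, t) = C ((ρ₀ + ε s) ex (7/16 + re z / 16), im z / 16, t)`: the disc `‖z‖ < 5` of the torus `|ζ| = ρ₀ + ε s`, with centre between the first
strand (`X = 1/2`, `z = 1`) and the second strand (`X = 3/8`, `z = -1`).
* `bxF_box`: `bxF C ρ₀ ε = E ∘ A` with `E` = the chart of `VChart.tchart` (`0 < ρ < 1`), `A (z, s, t) = (7/16 + z/16, ρ₀ + ε s, t)` (affine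
  isomorphism: local diffeomorphism, `CSG.ld_of_perm`); `|s| < 1` gives `ρ₀ - ε < ρ < ρ₀ + ε`.  `inj`: `7/16 + z'/16 = 7/16 + z/16 + m + n i`, the real and imaginary
  parts of `z, z'` differ by less than `10 < 16`, so `m = n = 0`.  `per`: `hC.equiv`, `Act.per` (see `TC_E_int` or `equiv` and `add`).
* `bxF_equi`: `hC.equiv`.
* `bxF_two`: `f₁ u = (-ρ₀ + ε u) / 4`, `f₂ u = (ρ₀ + ε u) / 4`, `ε₁ = -1`, `ε₂ = 1`.
  `strand₁`: `l = f₁ u ∈ (-1/4, 0)`, `K l = C (4 l ex 0, 0, 0)` (`w = (0, 0)` for negative parameters) and `4 l = -(ρ₀ - ε u) = (ρ₀ + ε (-u)) ex (1/2)`.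
  `strand₂`: `K l = C (ρ ex (m + 3/8), n, 0)`, `ρ = ρ₀ + ε u`; `ex (m + 3/8) = ex (3/8)` (`ex_add_int`), `perY` (`TC_perY`).
  `off`: let `K l = bxF (z, s, t) = C (ζ, ..)` with `‖ζ‖ = ρ₀ + ε s ∈ (ρ₀ - ε, ρ₀ + ε)`.  `f₁ 1 ≤ l ≤ f₂ (-1)`: `|4 l| ≤ ρ₀ - ε` and (`VChart.inj`) `‖ζ‖ = |4 l|`: contradiction.
  `f₂ 1 ≤ l < 1/4`: `‖ζ‖ = 4 l ≥ ρ₀ + ε`.  `1/4 ≤ l ≤ 3/4`: `outer`.  `3/4 < l ≤ f₁ (-1) + 1`: `K l = K (l - 1)`, `-4 (l - 1) ≥ ρ₀ + ε`.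
-/

open scoped Manifold ContDiff Topology
open Set Filter
open Complex (I)

namespace Pool.Agent.PTH

open Pool.Agent.RSG (E4 S3 S4 ex)
open Pool.Agent.RBM (Box)
open Pool.Agent.COR (TwoStrands EquiB)

variable {EP : Type*} [NormedAddCommGroup EP] [NormedSpace ℝ EP] {HP : Type*} [TopologicalSpace HP]
  {IP : ModelWithCorners ℝ EP HP} {P : Type*} [TopologicalSpace P] [ChartedSpace HP P]
  {a : ℝ → P → P} {C : ℂ × ℝ × ℝ → P} {ρ₀ ε : ℝ}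

/-- the box -/
noncomputable def bxF (C : ℂ × ℝ × ℝ → P) (ρ₀ ε : ℝ) (q : ℂ × ℝ × ℝ) : P :=
  C (((ρ₀ + ε * q.2.1 : ℝ) : ℂ) * ex (7 / 16 + q.1.re / 16), q.1.im / 16, q.2.2)

/-- the affine isomorphism -/
noncomputable def FourE_A (ρ₀ : ℝ) {ε : ℝ} (hε : ε ≠ 0) : (ℂ × ℝ × ℝ) ≃ (ℂ × ℝ × ℝ) where
  toFun q := ((7 / 16 : ℂ) + (1 / 16 : ℂ) * q.1, ρ₀ + ε * q.2.1, q.2.2)
  invFun q := (16 * (q.1 - (7 / 16 : ℂ)), ε⁻¹ * (q.2.1 - ρ₀), q.2.2)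
  left_inv q := by
    rcases q with ⟨z, s, t⟩
    refine Prod.ext ?_ (Prod.ext ?_ rfl)
    · show 16 * ((7 / 16 : ℂ) + (1 / 16 : ℂ) * z - (7 / 16 : ℂ)) = z
      ring
    · show ε⁻¹ * (ρ₀ + ε * s - ρ₀) = s
      field_simp
      ring
  right_inv q := by
    rcases q with ⟨z, s, t⟩
    refine Prod.ext ?_ (Prod.ext ?_ rfl)
    · show (7 / 16 : ℂ) + (1 / 16 : ℂ) * (16 * (z - (7 / 16 : ℂ))) = z
      ring
    · show ρ₀ + ε * (ε⁻¹ * (s - ρ₀)) = s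
      field_simp
      ring

theorem FourE_A_ld (ρ₀ : ℝ) {ε : ℝ} (hε : ε ≠ 0) (x : ℂ × ℝ × ℝ) :
    IsLocalDiffeomorphAt 𝓘(ℝ, ℂ × ℝ × ℝ) 𝓘(ℝ, ℂ × ℝ × ℝ) ∞ (FourE_A ρ₀ hε) x := by
  apply Pool.Agent.CSG.ld_of_perm
  · show ContDiff ℝ ∞ fun q : ℂ × ℝ × ℝ => ((7 / 16 : ℂ) + (1 / 16 : ℂ) * q.1, ρ₀ + ε * q.2.1, q.2.2)
    fun_prop
  · show ContDiff ℝ ∞ fun q : ℂ × ℝ × ℝ => (16 * (q.1 - (7 / 16 : ℂ)), ε⁻¹ * (q.2.1 - ρ₀), q.2.2)
    fun_prop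

theorem FourE_re (z : ℂ) : ((7 / 16 : ℂ) + (1 / 16 : ℂ) * z).re = 7 / 16 + z.re / 16 := by
  have h : ((7 / 16 : ℂ) + (1 / 16 : ℂ) * z) = (((7 / 16 : ℝ) : ℂ) + ((1 / 16 : ℝ) : ℂ) * z) := by
    push_cast
    ring
  rw [h, Complex.add_re, Complex.re_ofReal_mul, Complex.ofReal_re]
  ring

theorem FourE_im (z : ℂ) : ((7 / 16 : ℂ) + (1 / 16 : ℂ) * z).im = z.im / 16 := by
  have h : ((7 / 16 : ℂ) + (1 / 16 : ℂ) * z) = (((7 / 16 : ℝ) : ℂ) + ((1 / 16 : ℝ) : ℂ) * z) := by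
    push_cast
    ring
  rw [h, Complex.add_im, Complex.im_ofReal_mul, Complex.ofReal_im]
  ring

omit [TopologicalSpace P] in
theorem FourE_eq (C : ℂ × ℝ × ℝ → P) (ρ₀ : ℝ) {ε : ℝ} (hε : ε ≠ 0) :
    bxF C ρ₀ ε = (fun q : ℂ × ℝ × ℝ => C (q.2.1 * ex q.1.re, q.1.im, q.2.2)) ∘ FourE_A ρ₀ hε := by
  funext q
  show C (((ρ₀ + ε * q.2.1 : ℝ) : ℂ) * ex (7 / 16 + q.1.re / 16), q.1.im / 16, q.2.2) =
    C (((ρ₀ + ε * q.2.1 : ℝ) : ℂ) * ex ((7 / 16 : ℂ) + (1 / 16 : ℂ) * q.1).re,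
      ((7 / 16 : ℂ) + (1 / 16 : ℂ) * q.1).im, q.2.2)
  rw [FourE_re, FourE_im]

theorem FourE_range {ρ₀ ε s : ℝ} (hε : 0 < ε) (h1 : 0 < ρ₀ - ε) (h2 : ρ₀ + ε < 1) (hs : |s| < 1) :
    ρ₀ - ε < ρ₀ + ε * s ∧ ρ₀ + ε * s < ρ₀ + ε ∧ 0 < ρ₀ + ε * s ∧ ρ₀ + ε * s < 1 := by
  have h := abs_lt.1 hs
  have h3 : ε * s < ε := by nlinarith
  have h4 : -ε < ε * s := by nlinarith
  exact ⟨by linarith, by linarith, by linarith, by linarith⟩

theorem FourE_norm {ρ₀ ε s : ℝ} (x : ℝ) (h : 0 < ρ₀ + ε * s) :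
    ‖((ρ₀ + ε * s : ℝ) : ℂ) * ex x‖ = ρ₀ + ε * s := by
  rw [norm_mul, Pool.Agent.RSG.ex_norm, mul_one, Complex.norm_real, Real.norm_eq_abs, abs_of_pos h]

theorem bxF_box (ha : Act IP a) (hC : VChart IP a C) (hε : 0 < ε) (h1 : 0 < ρ₀ - ε) (h2 : ρ₀ + ε < 1) :
    Box IP (bxF C ρ₀ ε) 5 := by
  have hE := hC.tchart
  refine ⟨?_, ?_, ?_⟩
  · intro z s t
    show C (_, _, t + 1) = C (_, _, t)
    rw [hC.equiv _ _ (t + 1), hC.equiv _ _ t, ha.add, ha.per]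
  · intro z s t _ hs
    obtain ⟨-, -, h3, h4⟩ := FourE_range hε h1 h2 hs
    rw [FourE_eq C ρ₀ hε.ne']
    exact IsLocalDiffeomorphAt.comp IP P (FourE_A_ld ρ₀ hε.ne' (z, s, t))
      (hE.loc ((7 / 16 : ℂ) + (1 / 16 : ℂ) * z) (ρ₀ + ε * s) t h3 h4)
  · intro z s t z' s' t' hz hs hz' hs' h
    obtain ⟨-, -, h3, h4⟩ := FourE_range hε h1 h2 hs
    obtain ⟨-, -, h3', h4'⟩ := FourE_range hε h1 h2 hs'
    rw [FourE_eq C ρ₀ hε.ne'] at h
    obtain ⟨⟨m, n, hmn⟩, hρ, hk⟩ := hE.inj ((7 / 16 : ℂ) + (1 / 16 : ℂ) * z) (ρ₀ + ε * s) t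
      ((7 / 16 : ℂ) + (1 / 16 : ℂ) * z') (ρ₀ + ε * s') t' h3 h4 h3' h4' h
    have hre := congrArg Complex.re hmn
    have him := congrArg Complex.im hmn
    rw [FourE_re z', Complex.add_re ((7 / 16 : ℂ) + (1 / 16 : ℂ) * z), FourE_re z] at hre
    rw [FourE_im z', Complex.add_im ((7 / 16 : ℂ) + (1 / 16 : ℂ) * z), FourE_im z] at him
    simp only [Complex.add_re, Complex.add_im, Complex.intCast_re, Complex.intCast_im,
      Complex.mul_re, Complex.mul_im, Complex.I_re, Complex.I_im, mul_zero, mul_one,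
      sub_zero, add_zero, zero_add] at hre him
    have b1 := abs_lt.1 (lt_of_le_of_lt (Complex.abs_re_le_norm z) hz)
    have b2 := abs_lt.1 (lt_of_le_of_lt (Complex.abs_re_le_norm z') hz')
    have b3 := abs_lt.1 (lt_of_le_of_lt (Complex.abs_im_le_norm z) hz)
    have b4 := abs_lt.1 (lt_of_le_of_lt (Complex.abs_im_le_norm z') hz')
    have hm : m = 0 := by
      have c1 : (m : ℝ) < 1 := by linarith
      have c2 : (-1 : ℝ) < m := by linarith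
      have c3 : m < 1 := by exact_mod_cast c1
      have c4 : -1 < m := by exact_mod_cast c2
      omega
    have hn : n = 0 := by
      have c1 : (n : ℝ) < 1 := by linarith
      have c2 : (-1 : ℝ) < n := by linarith
      have c3 : n < 1 := by exact_mod_cast c1
      have c4 : -1 < n := by exact_mod_cast c2
      omega
    rw [hm] at hre
    rw [hn] at him
    refine ⟨?_, ?_, hk⟩
    · apply Complex.ext
      · have : z'.re = z.re := by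
          push_cast at hre
          linarith
        exact this.symm
      · have : z'.im = z.im := by
          push_cast at him
          linarith
        exact this.symm
    · have h5 : ε * s' = ε * s := by linarith
      exact (mul_left_cancel₀ hε.ne' h5).symm

theorem bxF_equi (hC : VChart IP a C) : EquiB a (bxF C ρ₀ ε) := by
  intro z s t
  exact hC.equiv _ _ _

theorem FourE_perY (hC : VChart IP a C) (z : ℂ) (Y t : ℝ) (n : ℤ) : C (z, Y + n, t) = C (z, Y, t) := by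
  have hnat : ∀ (k : ℕ) (Y : ℝ), C (z, Y + k, t) = C (z, Y, t) := by
    intro k
    induction k with
    | zero => intro Y; rw [Nat.cast_zero, add_zero]
    | succ k ih =>
      intro Y
      rw [Nat.cast_succ, ← add_assoc, hC.perY, ih]
  cases n with
  | ofNat k =>
    rw [Int.ofNat_eq_natCast, Int.cast_natCast]
    exact hnat k Y
  | negSucc k =>
    have h := hnat (k + 1) (Y + ((Int.negSucc k : ℤ) : ℝ))
    rw [← h]
    congr 2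
    rw [Int.cast_negSucc]
    push_cast
    ring

theorem bxF_two (hC : VChart IP a C) (hε : 0 < ε) (h1 : 0 < ρ₀ - ε) (h2 : ρ₀ + ε < 1) {w : ℝ → ℝ × ℝ} {m n : ℤ}
    (hw0 : ∀ ρ ≤ 0, w ρ = (0, 0)) (hw : ∀ ρ, |ρ - ρ₀| ≤ ε → w ρ = ((m : ℝ) + 3 / 8, (n : ℝ))) {K : ℝ → P}
    (hK : VKnot IP C (arc w) K) :
    TwoStrands (bxF C ρ₀ ε) K (fun u => (-ρ₀ + ε * u) / 4) (fun u => (ρ₀ + ε * u) / 4) (-1) 1 := by
  have hd : ∀ c u : ℝ, deriv (fun u : ℝ => (c + ε * u) / 4) u = ε / 4 := by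
    intro c u
    have h3 : HasDerivAt (fun u : ℝ => (c + ε * u) / 4) ((ε * 1) / 4) u :=
      (((hasDerivAt_id u).const_mul ε).const_add c).div_const 4
    rw [h3.deriv, mul_one]
  -- the inner part does not meet the box
  have hin : ∀ l z (s t : ℝ), |l| < 1 / 4 → ‖z‖ < 5 → |s| < 1 → (|4 * l| ≤ ρ₀ - ε ∨ ρ₀ + ε ≤ |4 * l|) →
      K l ≠ bxF C ρ₀ ε (z, s, t) := by
    intro l z s t hl hz hs hcase heq
    obtain ⟨r1, r2, r3, r4⟩ := FourE_range hε h1 h2 hs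
    obtain ⟨g1, g2⟩ := hK.inner l hl
    rw [g2] at heq
    have hζ : ‖((ρ₀ + ε * s : ℝ) : ℂ) * ex (7 / 16 + z.re / 16)‖ = ρ₀ + ε * s := FourE_norm _ r3
    have h5 := (hC.inj _ _ _ (((ρ₀ + ε * s : ℝ) : ℂ) * ex (7 / 16 + z.re / 16)) (z.im / 16) t g1
      (by rw [hζ]; exact r4) heq).1
    have h6 : ‖((arc w l).1)‖ = |4 * l| := by
      show ‖((4 * l : ℝ) : ℂ) * ex (w (4 * l)).1‖ = |4 * l|
      rw [norm_mul, Pool.Agent.RSG.ex_norm, mul_one, Complex.norm_real, Real.norm_eq_abs]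
    rw [h5, hζ] at h6
    rcases hcase with h7 | h7 <;> linarith
  refine ⟨?_, ?_, ?_, ?_, Or.inr rfl, Or.inl rfl, ?_, ?_, ?_, ?_, ?_⟩
  · fun_prop
  · fun_prop
  · intro u
    rw [hd]
    positivity
  · intro u
    rw [hd]
    positivity
  · show (-ρ₀ + ε * 1) / 4 < (ρ₀ + ε * (-1)) / 4
    linarith
  · show (ρ₀ + ε * 1) / 4 < (-ρ₀ + ε * (-1)) / 4 + 1
    linarith
  · intro u hu
    obtain ⟨r1, r2, r3, r4⟩ := FourE_range hε h1 h2 (show |(-u)| < 1 by rwa [abs_neg])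
    show K ((-ρ₀ + ε * u) / 4) = bxF C ρ₀ ε (1, -1 * u, 0)
    have hl : |(-ρ₀ + ε * u) / 4| < 1 / 4 := by
      rw [abs_lt]
      constructor <;> linarith
    have h4 : 4 * ((-ρ₀ + ε * u) / 4) = -(ρ₀ + ε * (-u)) := by ring
    rw [(hK.inner _ hl).2]
    show C (((4 * ((-ρ₀ + ε * u) / 4) : ℝ) : ℂ) * ex (w (4 * ((-ρ₀ + ε * u) / 4))).1,
      (w (4 * ((-ρ₀ + ε * u) / 4))).2, 0) =
      C (((ρ₀ + ε * (-1 * u) : ℝ) : ℂ) * ex (7 / 16 + (1 : ℂ).re / 16), (1 : ℂ).im / 16, 0)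
    rw [h4, hw0 _ (by linarith)]
    have e1 : (7 / 16 + (1 : ℂ).re / 16 : ℝ) = 1 / 2 := by
      rw [Complex.one_re]; norm_num
    have e2 : ((1 : ℂ).im / 16 : ℝ) = 0 := by
      rw [Complex.one_im]; norm_num
    rw [e1, e2, Pool.Agent.RSG.ex_half]
    show C (((-(ρ₀ + ε * (-u)) : ℝ) : ℂ) * ex 0, 0, 0) = _
    rw [Pool.Agent.RSG.ex_zero]
    congr 2
    push_cast
    ring
  · intro u hu
    obtain ⟨r1, r2, r3, r4⟩ := FourE_range hε h1 h2 hu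
    show K ((ρ₀ + ε * u) / 4) = bxF C ρ₀ ε (-1, 1 * u, 0)
    have hl : |(ρ₀ + ε * u) / 4| < 1 / 4 := by
      rw [abs_lt]
      constructor <;> linarith
    have h4 : 4 * ((ρ₀ + ε * u) / 4) = ρ₀ + ε * u := by ring
    rw [(hK.inner _ hl).2]
    show C (((4 * ((ρ₀ + ε * u) / 4) : ℝ) : ℂ) * ex (w (4 * ((ρ₀ + ε * u) / 4))).1,
      (w (4 * ((ρ₀ + ε * u) / 4))).2, 0) =
      C (((ρ₀ + ε * (1 * u) : ℝ) : ℂ) * ex (7 / 16 + (-1 : ℂ).re / 16), (-1 : ℂ).im / 16, 0)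
    have hw' : w (ρ₀ + ε * u) = ((m : ℝ) + 3 / 8, (n : ℝ)) := by
      apply hw
      rw [abs_le]
      constructor <;> linarith
    rw [h4, hw']
    have e1 : (7 / 16 + (-1 : ℂ).re / 16 : ℝ) = 3 / 8 := by
      rw [Complex.neg_re, Complex.one_re]; norm_num
    have e2 : ((-1 : ℂ).im / 16 : ℝ) = 0 := by
      rw [Complex.neg_im, Complex.one_im]; norm_num
    rw [e1, e2, one_mul]
    show C (((ρ₀ + ε * u : ℝ) : ℂ) * ex ((m : ℝ) + 3 / 8), (n : ℝ), 0) = _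
    rw [add_comm (m : ℝ) (3 / 8), Pool.Agent.RSG.ex_add_int]
    have h7 := FourE_perY hC (((ρ₀ + ε * u : ℝ) : ℂ) * ex (3 / 8)) 0 0 n
    rw [zero_add] at h7
    exact h7
  · intro l hl z s t hz hs
    have hl' : (-ρ₀ + ε * 1) / 4 ≤ l ∧ l ≤ (ρ₀ + ε * (-1)) / 4 ∨
        (ρ₀ + ε * 1) / 4 ≤ l ∧ l ≤ (-ρ₀ + ε * (-1)) / 4 + 1 := hl
    rcases hl' with ⟨c1, c2⟩ | ⟨c1, c2⟩
    · refine hin l z s t ?_ hz hs (Or.inl ?_)
      · rw [abs_lt]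
        constructor <;> linarith
      · rw [abs_le]
        constructor <;> linarith
    · by_cases c3 : l < 1 / 4
      · refine hin l z s t ?_ hz hs (Or.inr ?_)
        · rw [abs_lt]
          constructor <;> linarith
        · rw [abs_of_nonneg (by linarith)]
          linarith
      · by_cases c4 : l ≤ 3 / 4
        · obtain ⟨r1, r2, r3, r4⟩ := FourE_range hε h1 h2 hs
          refine hK.outer l (not_lt.1 c3) c4 _ _ _ ?_
          rw [FourE_norm _ r3]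
          exact r4
        · have h8 : K l = K (l - 1) := by
            have := hK.per (l - 1)
            rw [sub_add_cancel] at this
            exact this
          rw [h8]
          refine hin (l - 1) z s t ?_ hz hs (Or.inr ?_)
          · rw [abs_lt]
            constructor <;> linarith
          · rw [abs_of_nonpos (by linarith)]
            linarith

end Pool.Agent.PTH
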