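import Pool.Agent.PTH.Defs

/-!
# PTH/GDefs: the global picture: `SP = S3 × S1`, the action of direction `(a, b, d)`, knots of paths
-/

open scoped Manifold ContDiff
open Complex (I)

namespace Pool.Agent.PTH

open Pool.Agent.RSG (E4 S3 pS3 ex)

/-- radial profile: `prf x = x` for `x ≤ 1/3`, `prf x = 1` for `x ≥ 2/3` -/
noncomputable def prf (x : ℝ) : ℝ :=
  (1 - Real.smoothTransition (3 * x - 1)) * x + Real.smoothTransition (3 * x - 1)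

/-- the point with angles `(α, β, γ)` and radius `ρ ∈ [0, 1]` of `SP = S3 × S1`; at `ρ = 0` the `α`-circle
collapses, at `ρ = 1` the `β`-circle -/
noncomputable def gE (ρ : ℝ) (x : ℝ × ℝ × ℝ) : SP :=
  (pS3 (prf ρ * ex x.1) (prf (1 - ρ) * ex x.2.1), Circle.exp (2 * Real.pi * x.2.2))

/-- complex coordinates of `S3` -/
noncomputable def z1 (y : S3) : ℂ := ⟨y.1 0, y.1 1⟩
noncomputable def z2 (y : S3) : ℂ := ⟨y.1 2, y.1 3⟩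

/-- the action of `R / Z` in the direction `v = (a, b, d)` -/
noncomputable def gact (v : ℤ × ℤ × ℤ) (t : ℝ) (q : SP) : SP :=
  (pS3 (ex (v.1 * t) * z1 q.1) (ex (v.2.1 * t) * z2 q.1), Circle.exp (2 * Real.pi * (v.2.2 * t)) * q.2)

/-- Global paths of the second strand (the first strand is constant, `= 0`): `w ρ ∈ R³` avoids `Z³ + R v`; it starts
at the foot `(1/2, 0, 0) + n₀` and ends at the foot `(0, 1/2, 0) + n₁`. -/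
structure GPath (v : ℤ × ℤ × ℤ) (n₀ n₁ : ℤ × ℤ × ℤ) (w : ℝ → ℝ × ℝ × ℝ) : Prop where
  smooth : ContDiff ℝ ∞ w
  start : ∃ ε : ℝ, 0 < ε ∧ ∀ ρ ≤ ε, w ρ = (1 / 2 + (n₀.1 : ℝ), (n₀.2.1 : ℝ), (n₀.2.2 : ℝ))
  stop : ∃ ε : ℝ, 0 < ε ∧ ∀ ρ, 1 - ε ≤ ρ → w ρ = ((n₁.1 : ℝ), 1 / 2 + (n₁.2.1 : ℝ), (n₁.2.2 : ℝ))
  avoid : ∀ (ρ s : ℝ) (m : ℤ × ℤ × ℤ),
    w ρ ≠ ((m.1 : ℝ) + s * v.1, (m.2.1 : ℝ) + s * v.2.1, (m.2.2 : ℝ) + s * v.2.2)

/-- the knot of the path `w` : `l ∈ [-1/2, 0]` is the first strand, `l ∈ [0, 1/2]` the second one, `ρ = 2 |l|` -/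
noncomputable def gK (w : ℝ → ℝ × ℝ × ℝ) (l : ℝ) : SP :=
  if 0 ≤ l - round l then gE (2 * (l - round l)) (w (2 * (l - round l)))
  else gE (-2 * (l - round l)) (0, 0, 0)

/-- `X` is carried by the path `w` of `(S3 × S1, v)`. -/
def GCar (v : ℤ × ℤ × ℤ) (n : ℤ) (w : ℝ → ℝ × ℝ × ℝ) (X : Type*) [TopologicalSpace X]
    [ChartedSpace E4 X] : Prop :=
  Carries ISP (gact v) n (gK w) X

/-- heights: `h₁ = d β - b γ` (constant on the `α`-circles), `h₂ = d α - a γ` -/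
def ht1 (v : ℤ × ℤ × ℤ) (x : ℝ × ℝ × ℝ) : ℝ := v.2.2 * x.2.1 - v.2.1 * x.2.2
def ht2 (v : ℤ × ℤ × ℤ) (x : ℝ × ℝ × ℝ) : ℝ := v.2.2 * x.1 - v.1 * x.2.2

end Pool.Agent.PTH
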