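import Pool.Agent.PTH.Wrd

/-!
# PTH/Red: equal words are homotopic   (difficulty 2)
-/

open scoped ContDiff Topology
open Set Filter

namespace Pool.Agent.PTH

theorem Red_sgn (s : Bool) : sgn (!s) = - sgn s := by
  cases s <;> simp [sgn]

theorem Red_pos (b s : Bool) (τ : ℝ) :
    pos [(b, s), (b, !s)] τ = ltr (b, s) (min τ (2 - τ)) := by
  have h0 : pos [(b, s), (b, !s)] τ = ltr (b, s) τ + (ltr (b, !s) (τ - 1) + 0) := rfl
  rw [h0, add_zero]
  rcases le_total τ 1 with h | h
  · have e1 : min τ (2 - τ) = τ := min_eq_left (by linarith)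
    have e2 : ltr (b, !s) (τ - 1) = (0, 0) := (ltr_seg (b, !s)).start _ (by linarith)
    rw [e1, e2]
    exact add_zero _
  · have e1 : min τ (2 - τ) = 2 - τ := min_eq_right (by linarith)
    have e2 : Real.smoothTransition τ = 1 := Real.smoothTransition.one_of_one_le h
    have e3 : bump τ = 0 := bump_right h
    have e4 : Real.smoothTransition (2 - τ) = 1 - Real.smoothTransition (τ - 1) := by
      rw [← st_symm]
      congr 1
      ring
    have e5 : bump (2 - τ) = bump (τ - 1) := by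
      rw [← bump_symm (τ - 1)]
      congr 1
      ring
    rw [e1]
    cases b
    · simp only [ltr, Bool.false_eq_true, if_false, Red_sgn, Int.cast_neg, Prod.mk_add_mk]
      rw [e2, e4]
      ext
      · simp
      · simp only
        ring
    · simp only [ltr, if_true, Red_sgn, Int.cast_neg, Prod.mk_add_mk]
      rw [e2, e3, e4, e5]
      ext
      · simp only
        ring
      · simp

theorem sh_spike (b s : Bool) : SH (pos [(b, s), (b, !s)]) (pos []) 0 := by
  have hc : Continuous (ltr (b, s)) := (ltr_smooth (b, s)).continuous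
  refine ⟨2, fun l τ => ltr (b, s) ((1 - l) * min τ (2 - τ)), ?_, ?_, ?_, ?_⟩
  · exact hc.comp (by fun_prop)
  · funext τ
    change ltr (b, s) ((1 - 0) * min τ (2 - τ)) = _
    rw [sub_zero, one_mul, Red_pos]
  · funext τ
    change ltr (b, s) ((1 - 1) * min τ (2 - τ)) = 0
    rw [sub_self, zero_mul]
    exact (ltr_seg (b, s)).start 0 le_rfl
  · intro l hl0 hl1
    refine ⟨by norm_num, ?_, ?_, ?_, ?_⟩
    · exact hc.comp (by fun_prop)
    · intro τ hτ
      refine (ltr_seg (b, s)).start _ ?_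
      rw [min_eq_left (by linarith)]
      exact mul_nonpos_of_nonneg_of_nonpos (by linarith) hτ
    · intro τ hτ
      have h1 : ltr (b, s) ((1 - l) * min τ (2 - τ)) = (0, 0) := by
        refine (ltr_seg (b, s)).start _ ?_
        rw [min_eq_right (by linarith)]
        exact mul_nonpos_of_nonneg_of_nonpos (by linarith) (by linarith)
      change ltr (b, s) ((1 - l) * min τ (2 - τ)) = _
      rw [h1]
      simp
    · intro τ
      exact (ltr_seg (b, s)).avoid _

theorem sh_context (L₁ L₂ : List (Bool × Bool)) {M M' : List (Bool × Bool)} (he : sumZ M = sumZ M')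
    (h : SH (pos M) (pos M') (sumZ M)) :
    SH (pos (L₁ ++ M ++ L₂)) (pos (L₁ ++ M' ++ L₂)) (sumZ (L₁ ++ M ++ L₂)) := by
  have hM' : IsSeg (pos M') M'.length (sumZ M) := by
    rw [he]
    exact pos_seg M'
  have h1 : SH (pos (L₁ ++ M)) (pos (L₁ ++ M')) (sumZ (L₁ ++ M)) := by
    rw [pos_append, pos_append, sumZ_append]
    exact sh_cat (pos_seg L₁) (pos_seg L₁) (pos_seg M) hM' (sh_refl (pos_seg L₁)) h
  have h2 : IsSeg (pos (L₁ ++ M')) (L₁ ++ M').length (sumZ (L₁ ++ M)) := by
    have e : sumZ (L₁ ++ M) = sumZ (L₁ ++ M') := by rw [sumZ_append, sumZ_append, he]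
    rw [e]
    exact pos_seg _
  rw [pos_append (L₁ ++ M), pos_append (L₁ ++ M'), sumZ_append (L₁ ++ M)]
  exact sh_cat (pos_seg (L₁ ++ M)) h2 (pos_seg L₂) (pos_seg L₂) h1 (sh_refl (pos_seg L₂))

theorem Red_sumZ (b s : Bool) : sumZ [(b, s), (b, !s)] = sumZ [] := by
  cases b <;> cases s <;> simp [sumZ, dirZ, sgn]

theorem sh_step {L L' : List (Bool × Bool)} (h : FreeGroup.Red.Step L L') :
    sumZ L = sumZ L' ∧ SH (pos L) (pos L') (sumZ L) := by
  rcases h with @⟨L₁, L₂, x, b⟩
  have e1 : L₁ ++ (x, b) :: (x, !b) :: L₂ = L₁ ++ [(x, b), (x, !b)] ++ L₂ := by simp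
  have e2 : L₁ ++ L₂ = L₁ ++ [] ++ L₂ := by simp
  have hs := Red_sumZ x b
  have h0 : SH (pos [(x, b), (x, !b)]) (pos []) (sumZ [(x, b), (x, !b)]) := by
    rw [hs]
    exact sh_spike x b
  rw [e1, e2]
  refine ⟨?_, sh_context L₁ L₂ hs h0⟩
  rw [sumZ_append, sumZ_append, sumZ_append, sumZ_append, hs]

theorem Red_red {L L' : List (Bool × Bool)} (h : FreeGroup.Red L L') :
    sumZ L = sumZ L' ∧ SH (pos L) (pos L') (sumZ L) := by
  induction h with
  | refl => exact ⟨rfl, sh_refl (pos_seg L)⟩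
  | tail _ h2 ih =>
    obtain ⟨h3, h4⟩ := sh_step h2
    refine ⟨ih.1.trans h3, sh_trans ih.2 ?_⟩
    rw [ih.1]
    exact h4

theorem sh_mk {L L' : List (Bool × Bool)} (h : FreeGroup.mk L = FreeGroup.mk L') :
    sumZ L = sumZ L' ∧ SH (pos L) (pos L') (sumZ L) := by
  obtain ⟨L'', h1, h2⟩ := FreeGroup.Red.exact.1 h
  obtain ⟨a1, a2⟩ := Red_red h1
  obtain ⟨b1, b2⟩ := Red_red h2
  have e : sumZ L = sumZ L' := a1.trans b1.symm
  refine ⟨e, sh_trans a2 ?_⟩
  rw [e]
  exact sh_symm b2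

end Pool.Agent.PTH
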