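import Pool.Agent.PTH.Bas
import Pool.Agent.CSG.LDb
import Pool.Agent.RSG.LDc
import Pool.Agent.RSG.ExM

/-!
# PTH/SymA: change of the V-chart   (difficulty 2)

`arcEq_chart`: `f, f'` smooth, inverse to each other, `‖(f q).1‖ = ‖q.1‖`, `f (z, Y + 1) = f (z, Y) + (0, 1)`.  Let
`a, C, K, K', n, X` be as in `ArcEq (f ∘ γ) (f ∘ γ')`, and `C' (z, Y, t) = C ((f (z, Y)).1, (f (z, Y)).2, t)`.
* `VChart C'`: `perY`: `hper` and `perY`.  `equiv`: clear.  `loc`: composition of `C` and of `(z, Y, t) ↦ (f (z, Y), t)`, which is a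
  local diffeomorphism by `CSG.ld_of_perm` (a permutation of `ℂ × ℝ × ℝ`, smooth with smooth inverse).
  `inj`: `C' (q, t) = C' (q', t')`: `(f q').1 = (f q).1`, `(f q').2 = (f q).2 + m`; by `hper`
  (`m`-fold, `m ∈ Z`) `f (q.1, q.2 + m) = f q'`, so `q' = (q.1, q.2 + m)`.
* `VKnot C' γ K`: `inner`: `K l = C (f (γ l), 0) = C' (γ l, 0)`, `‖(γ l).1‖ = ‖(f (γ l)).1‖ < 1`; `outer`: `C' (z, Y, t) = C (f (z, Y), t)`
  with `‖(f (z, Y)).1‖ = ‖z‖ < 1`.  The same for `K'`.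
So `h a C' K K' n X`.

`pathEq_shear`: `f (z, Y) = (z ex Y, Y)`: `f (arc w l) = ((4l) ex (w₁) ex (w₂), w₂) = arc (w₁ + w₂, w₂) l` (`ex_add`), `ex (Y + 1) = ex Y`.
`pathEq_mirror`: `f (z, Y) = (conj z, Y)`: `conj (ex X) = ex (-X)`.
-/

open scoped Manifold ContDiff Topology
open Set Filter
open Complex (I)

namespace Pool.Agent.PTH

open Pool.Agent.RSG (E4 S3 S4 ex)

universe u

theorem SymA_per {f : ℂ × ℝ → ℂ × ℝ}
    (hper : ∀ z Y, f (z, Y + 1) = ((f (z, Y)).1, (f (z, Y)).2 + 1)) (z : ℂ) (Y : ℝ) (m : ℤ) :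
    f (z, Y + m) = ((f (z, Y)).1, (f (z, Y)).2 + m) := by
  have h1 : Function.Periodic (fun x : ℝ => ((f (z, x)).1, (f (z, x)).2 - x)) 1 := by
    intro x
    show ((f (z, x + 1)).1, (f (z, x + 1)).2 - (x + 1)) = ((f (z, x)).1, (f (z, x)).2 - x)
    rw [hper]
    exact Prod.ext rfl (by show (f (z, x)).2 + 1 - (x + 1) = (f (z, x)).2 - x; ring)
  have h2 := h1.int_mul m Y
  rw [mul_one] at h2
  obtain ⟨h3, h4⟩ := Prod.mk.inj h2
  refine Prod.ext h3 ?_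
  show (f (z, Y + m)).2 = (f (z, Y)).2 + m
  linarith

theorem SymA_chart {a : ℝ → SP → SP} {C : ℂ × ℝ × ℝ → SP} (hC : VChart ISP a C)
    (f f' : ℂ × ℝ → ℂ × ℝ) (h1 : ∀ q, f (f' q) = q) (h2 : ∀ q, f' (f q) = q)
    (hs : ContDiff ℝ ∞ f) (hs' : ContDiff ℝ ∞ f') (hn : ∀ q, ‖(f q).1‖ = ‖q.1‖)
    (hper : ∀ z Y, f (z, Y + 1) = ((f (z, Y)).1, (f (z, Y)).2 + 1)) :
    VChart ISP a (fun q => C ((f (q.1, q.2.1)).1, (f (q.1, q.2.1)).2, q.2.2)) := by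
  refine ⟨?_, ?_, ?_, ?_⟩
  · intro z Y t
    show C ((f (z, Y + 1)).1, (f (z, Y + 1)).2, t) = C ((f (z, Y)).1, (f (z, Y)).2, t)
    rw [hper]
    exact hC.perY _ _ _
  · intro z Y t
    exact hC.equiv _ _ _
  · intro z Y t hz
    let e : ℂ × ℝ × ℝ ≃ ℂ × ℝ × ℝ :=
      { toFun := fun q => ((f (q.1, q.2.1)).1, (f (q.1, q.2.1)).2, q.2.2)
        invFun := fun q => ((f' (q.1, q.2.1)).1, (f' (q.1, q.2.1)).2, q.2.2)
        left_inv := fun q => by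
          have h := h2 (q.1, q.2.1)
          have e1 : (f' (f (q.1, q.2.1))).1 = q.1 := by rw [h]
          have e2 : (f' (f (q.1, q.2.1))).2 = q.2.1 := by rw [h]
          exact Prod.ext e1 (Prod.ext e2 rfl)
        right_inv := fun q => by
          have h := h1 (q.1, q.2.1)
          have e1 : (f (f' (q.1, q.2.1))).1 = q.1 := by rw [h]
          have e2 : (f (f' (q.1, q.2.1))).2 = q.2.1 := by rw [h]
          exact Prod.ext e1 (Prod.ext e2 rfl) }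
    have hp : ContDiff ℝ ∞ (fun q : ℂ × ℝ × ℝ => (q.1, q.2.1)) :=
      contDiff_fst.prodMk (contDiff_fst.comp contDiff_snd)
    have ht : ContDiff ℝ ∞ (fun q : ℂ × ℝ × ℝ => q.2.2) := contDiff_snd.comp contDiff_snd
    have he : ContDiff ℝ ∞ e :=
      (contDiff_fst.comp (hs.comp hp)).prodMk ((contDiff_snd.comp (hs.comp hp)).prodMk ht)
    have he' : ContDiff ℝ ∞ e.symm :=
      (contDiff_fst.comp (hs'.comp hp)).prodMk ((contDiff_snd.comp (hs'.comp hp)).prodMk ht)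
    have h3 := CSG.ld_of_perm he he' (z, Y, t)
    have h4 := hC.loc (f (z, Y)).1 (f (z, Y)).2 t (by rw [hn]; exact hz)
    exact IsLocalDiffeomorphAt.comp (K := ISP) (hf := h3) (hg := h4)
  · intro z Y t z' Y' t' hz hz' he
    have he' : C ((f (z, Y)).1, (f (z, Y)).2, t) = C ((f (z', Y')).1, (f (z', Y')).2, t') := he
    obtain ⟨e1, ⟨m, e2⟩, e3⟩ := hC.inj _ _ _ _ _ _ (by rw [hn]; exact hz) (by rw [hn]; exact hz') he'
    have h3 : f (z', Y') = f (z, Y + m) := by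
      rw [SymA_per hper]
      exact Prod.ext e1.symm e2
    have h4 : (z', Y') = (z, Y + m) := by
      rw [← h2 (z', Y'), h3, h2]
    exact ⟨(congrArg Prod.fst h4).symm, ⟨m, congrArg Prod.snd h4⟩, e3⟩

theorem SymA_knot {C : ℂ × ℝ × ℝ → SP} {γ : ℝ → ℂ × ℝ} {K : ℝ → SP}
    (f : ℂ × ℝ → ℂ × ℝ) (hn : ∀ q, ‖(f q).1‖ = ‖q.1‖)
    (hK : VKnot ISP C (fun l => f (γ l)) K) :
    VKnot ISP (fun q => C ((f (q.1, q.2.1)).1, (f (q.1, q.2.1)).2, q.2.2)) γ K := by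
  refine ⟨hK.per, hK.smooth, ?_, ?_⟩
  · intro l hl
    obtain ⟨e1, e2⟩ := hK.inner l hl
    refine ⟨by rw [← hn]; exact e1, e2⟩
  · intro l hl hl' z Y t hz
    exact hK.outer l hl hl' _ _ _ (by rw [hn]; exact hz)

theorem arcEq_chart (f f' : ℂ × ℝ → ℂ × ℝ) (h1 : ∀ q, f (f' q) = q) (h2 : ∀ q, f' (f q) = q)
    (hs : ContDiff ℝ ∞ f) (hs' : ContDiff ℝ ∞ f') (hn : ∀ q, ‖(f q).1‖ = ‖q.1‖)
    (hper : ∀ z Y, f (z, Y + 1) = ((f (z, Y)).1, (f (z, Y)).2 + 1)) {γ γ' : ℝ → ℂ × ℝ} (h : ArcEq.{u} γ γ') :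
    ArcEq.{u} (fun l => f (γ l)) (fun l => f (γ' l)) := by
  intro a C K K' n X _ _ _ hA hC hK hK' hE
  exact h a _ K K' n X hA (SymA_chart hC f f' h1 h2 hs hs' hn hper) (SymA_knot f hn hK)
    (SymA_knot f hn hK') hE

/-- the shear of the plane -/
def shr (p : ℝ × ℝ) : ℝ × ℝ := (p.1 + p.2, p.2)

/-- the reflection of the plane -/
def mir (p : ℝ × ℝ) : ℝ × ℝ := (-p.1, p.2)

theorem SymA_ex_smooth : ContDiff ℝ ∞ ex := by
  have h1 : ContDiff ℝ ∞ (fun x : ℝ => ((2 * Real.pi * x : ℝ) : ℂ) * I) :=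
    (Complex.ofRealCLM.contDiff.comp (contDiff_const.mul contDiff_id)).mul contDiff_const
  exact h1.cexp

theorem pathEq_shear {w w' : ℝ → ℝ × ℝ} (h : PathEq.{u} w w') :
    PathEq.{u} (fun ρ => shr (w ρ)) (fun ρ => shr (w' ρ)) := by
  have key : ∀ w : ℝ → ℝ × ℝ, arc (fun ρ => shr (w ρ)) =
      fun l => (fun q : ℂ × ℝ => (q.1 * ex q.2, q.2)) (arc w l) := by
    intro w
    funext l
    show (((4 * l : ℝ) : ℂ) * ex ((w (4 * l)).1 + (w (4 * l)).2), (w (4 * l)).2) =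
      (((4 * l : ℝ) : ℂ) * ex (w (4 * l)).1 * ex (w (4 * l)).2, (w (4 * l)).2)
    rw [Pool.Agent.RSG.ex_add, mul_assoc]
  unfold PathEq at h ⊢
  rw [key, key]
  have hx : ContDiff ℝ ∞ (fun q : ℂ × ℝ => ex q.2) := SymA_ex_smooth.comp contDiff_snd
  have hx' : ContDiff ℝ ∞ (fun q : ℂ × ℝ => ex (-q.2)) := SymA_ex_smooth.comp contDiff_snd.neg
  have hm : ∀ Y : ℝ, ex Y * ex (-Y) = 1 := by
    intro Y
    rw [← Pool.Agent.RSG.ex_add, add_neg_cancel, Pool.Agent.RSG.ex_zero]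
  refine arcEq_chart (fun q : ℂ × ℝ => (q.1 * ex q.2, q.2)) (fun q : ℂ × ℝ => (q.1 * ex (-q.2), q.2))
    ?_ ?_ ((contDiff_fst.mul hx).prodMk contDiff_snd) ((contDiff_fst.mul hx').prodMk contDiff_snd)
    ?_ ?_ h
  · intro q
    refine Prod.ext ?_ rfl
    show q.1 * ex (-q.2) * ex q.2 = q.1
    rw [mul_assoc, mul_comm (ex (-q.2)), hm, mul_one]
  · intro q
    refine Prod.ext ?_ rfl
    show q.1 * ex q.2 * ex (-q.2) = q.1
    rw [mul_assoc, hm, mul_one]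
  · intro q
    show ‖q.1 * ex q.2‖ = ‖q.1‖
    rw [norm_mul, Pool.Agent.RSG.ex_norm, mul_one]
  · intro z Y
    refine Prod.ext ?_ rfl
    show z * ex (Y + 1) = z * ex Y
    have := Pool.Agent.RSG.ex_add_int Y 1
    rw [Int.cast_one] at this
    rw [this]

theorem pathEq_mirror {w w' : ℝ → ℝ × ℝ} (h : PathEq.{u} w w') :
    PathEq.{u} (fun ρ => mir (w ρ)) (fun ρ => mir (w' ρ)) := by
  have key : ∀ w : ℝ → ℝ × ℝ, arc (fun ρ => mir (w ρ)) =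
      fun l => (fun q : ℂ × ℝ => ((starRingEnd ℂ) q.1, q.2)) (arc w l) := by
    intro w
    funext l
    show (((4 * l : ℝ) : ℂ) * ex (-(w (4 * l)).1), (w (4 * l)).2) =
      ((starRingEnd ℂ) (((4 * l : ℝ) : ℂ) * ex (w (4 * l)).1), (w (4 * l)).2)
    rw [Pool.Agent.RSG.ex_neg, map_mul, Complex.conj_ofReal]
  unfold PathEq at h ⊢
  rw [key, key]
  have hc : ContDiff ℝ ∞ (fun q : ℂ × ℝ => ((starRingEnd ℂ) q.1, q.2)) :=
    (Complex.conjCLE.contDiff.comp contDiff_fst).prodMk contDiff_snd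
  refine arcEq_chart _ (fun q : ℂ × ℝ => ((starRingEnd ℂ) q.1, q.2)) ?_ ?_ hc hc ?_ ?_ h
  · intro q
    exact Prod.ext (Complex.conj_conj _) rfl
  · intro q
    exact Prod.ext (Complex.conj_conj _) rfl
  · intro q
    exact Complex.norm_conj _
  · intro z Y
    rfl

/-- `(m + 1/2, n) ↦ (m + n + 1/2, n)` -/
theorem obs_shr (p : ℝ × ℝ) : Obs (shr p) ↔ Obs p := by
  obtain ⟨x, y⟩ := p
  constructor
  · rintro ⟨m, n, h⟩
    have e1 : x + y = (m : ℝ) + 1 / 2 := congrArg Prod.fst h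
    have e2 : y = (n : ℝ) := congrArg Prod.snd h
    refine ⟨m - n, n, Prod.ext ?_ e2⟩
    show x = ((m - n : ℤ) : ℝ) + 1 / 2
    push_cast
    linarith
  · rintro ⟨m, n, h⟩
    have e1 : x = (m : ℝ) + 1 / 2 := congrArg Prod.fst h
    have e2 : y = (n : ℝ) := congrArg Prod.snd h
    refine ⟨m + n, n, Prod.ext ?_ e2⟩
    show x + y = ((m + n : ℤ) : ℝ) + 1 / 2
    push_cast
    linarith

theorem obs_mir (p : ℝ × ℝ) : Obs (mir p) ↔ Obs p := by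
  obtain ⟨x, y⟩ := p
  constructor
  · rintro ⟨m, n, h⟩
    have e1 : -x = (m : ℝ) + 1 / 2 := congrArg Prod.fst h
    have e2 : y = (n : ℝ) := congrArg Prod.snd h
    refine ⟨-m - 1, n, Prod.ext ?_ e2⟩
    show x = ((-m - 1 : ℤ) : ℝ) + 1 / 2
    push_cast
    linarith
  · rintro ⟨m, n, h⟩
    have e1 : x = (m : ℝ) + 1 / 2 := congrArg Prod.fst h
    have e2 : y = (n : ℝ) := congrArg Prod.snd h
    refine ⟨-m - 1, n, Prod.ext ?_ e2⟩
    show -x = ((-m - 1 : ℤ) : ℝ) + 1 / 2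
    push_cast
    linarith

theorem IsPath.shr {w : ℝ → ℝ × ℝ} {g : ℤ × ℤ} (h : IsPath w g) :
    IsPath (fun ρ => shr (w ρ)) (g.1 + g.2, g.2) := by
  obtain ⟨ε, hε, hs⟩ := h.start
  obtain ⟨ε', hε', he⟩ := h.stop
  refine ⟨?_, ⟨ε, hε, ?_⟩, ⟨ε', hε', ?_⟩, ?_⟩
  · have h1 := contDiff_fst.comp h.smooth
    have h2 := contDiff_snd.comp h.smooth
    exact (h1.add h2).prodMk h2
  · intro ρ hρ
    show Pool.Agent.PTH.shr (w ρ) = (0, 0)
    rw [hs ρ hρ, Pool.Agent.PTH.shr]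
    simp
  · intro ρ hρ
    show Pool.Agent.PTH.shr (w ρ) = _
    rw [he ρ hρ, Pool.Agent.PTH.shr]
    simp
  · intro ρ
    rw [obs_shr]
    exact h.avoid ρ

theorem IsPath.mir {w : ℝ → ℝ × ℝ} {g : ℤ × ℤ} (h : IsPath w g) :
    IsPath (fun ρ => mir (w ρ)) (-g.1, g.2) := by
  obtain ⟨ε, hε, hs⟩ := h.start
  obtain ⟨ε', hε', he⟩ := h.stop
  refine ⟨?_, ⟨ε, hε, ?_⟩, ⟨ε', hε', ?_⟩, ?_⟩
  · have h1 := contDiff_fst.comp h.smooth
    have h2 := contDiff_snd.comp h.smooth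
    exact h1.neg.prodMk h2
  · intro ρ hρ
    show Pool.Agent.PTH.mir (w ρ) = (0, 0)
    rw [hs ρ hρ, Pool.Agent.PTH.mir]
    simp
  · intro ρ hρ
    show Pool.Agent.PTH.mir (w ρ) = _
    rw [he ρ hρ, Pool.Agent.PTH.mir]
    simp
  · intro ρ
    rw [obs_mir]
    exact h.avoid ρ

end Pool.Agent.PTH
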