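import Pool.Agent.PTH.Wrd
import Pool.Agent.PTH.SymA

/-!
# PTH/SymB: the shear and the reflection on words   (difficulty 3)

`sub d` is the word of the image of the letter `d` under `s₀ : x ↦ x, y ↦ x y`.
`st = Real.smoothTransition`.
* `sh_sub`, `d = (true, s)`: `shr (± st, bump) = (± st + bump, bump)`, against `(± st, bump)`: `sh_linear`; the second
  coordinate of the combination is `bump τ ∈ [0, 1/2]`; it is an integer only if `bump τ = 0`, i.e. `τ ≤ 0` or `τ ≥ 1`
  (`bump_pos`), and then the first coordinate is `0` or `± 1`.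
* `d = (false, true)`: `shr (0, st) = (st, st)` against `pos [x, y]`, i.e. `(st τ, bump τ)` for `τ ≤ 1`, `(1, st (τ - 1))` for
  `τ ≥ 1`.  `sh_linear` (durations `1` and `2`).  For `τ ≤ 1` the combination is `(st τ, (1 - l) st τ + l bump τ)`: if the first
  coordinate is `m + 1/2` then `st τ = 1/2`, `0 < τ < 1`, and the second coordinate lies in `(0, 1/2]`.  For `τ ≥ 1` the first
  coordinate is `1`.
* `d = (false, false)`: `shr (0, - st) = (- st, - st)` against `pos [y⁻¹, x⁻¹]`, i.e. `(0, - st τ)` for `τ ≤ 1`,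
  `(- st (τ - 1), - 1 + bump (τ - 1))` for `τ ≥ 1`.  First `sh_reparam` with `ϑ τ = τ - 1`: `(- st (τ - 1), - st (τ - 1))`; then
  `sh_linear`: for `τ ≤ 1` the first coordinate is `0`; for `τ ≥ 1` the combination is `(- s', (1 - l) (- s') + l (- 1 + bump'))`: if
  `s' = 1/2` then the second coordinate lies in `(-1, -1/2]` (`bump' > 0`).
* `sh_subL`: induction on `L`: `shr` is additive, so `shr ∘ pos (d :: L) = cat (shr ∘ ltr d) 1 (shr ∘ pos L)`; `sh_cat`
  and `pos_append`.  (`shr ∘ u` is a segment if `u` is: `obs_shr`.)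
* `mir_pos`: `mir (ltr d τ) = ltr (inv d) τ` where `inv (true, s) = (true, !s)`, `inv (false, s) = (false, s)`; `mir` is additive.
-/

open scoped ContDiff Topology
open Set Filter

namespace Pool.Agent.PTH

/-- image of a letter under `x ↦ x, y ↦ x y` -/
def sub (d : Bool × Bool) : List (Bool × Bool) :=
  if d.1 then [d] else if d.2 then [(true, true), (false, true)] else [(false, false), (true, false)]

/-- image of a letter under `x ↦ x⁻¹, y ↦ y` -/
def minv (d : Bool × Bool) : Bool × Bool := if d.1 then (true, !d.2) else d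

theorem shr_cont : Continuous shr := by
  unfold shr
  exact (continuous_fst.add continuous_snd).prodMk continuous_snd

theorem shr_seg {u : ℝ → ℝ × ℝ} {m : ℝ} {e : ℤ × ℤ} (h : IsSeg u m e) :
    IsSeg (fun τ => shr (u τ)) m (e.1 + e.2, e.2) := by
  refine ⟨h.nn, shr_cont.comp h.cont, ?_, ?_, ?_⟩
  · intro τ hτ
    simp only [h.start τ hτ, shr, add_zero]
  · intro τ hτ
    simp only [h.stop τ hτ, shr, Int.cast_add]
  · intro τ hobs
    exact h.avoid τ ((obs_shr _).1 hobs)

theorem sumZ_sub (d : Bool × Bool) : sumZ (sub d) = ((dirZ d).1 + (dirZ d).2, (dirZ d).2) := by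
  rcases d with ⟨d1, d2⟩
  cases d1 <;> cases d2 <;> simp [sub, sumZ, dirZ, sgn]

theorem SymB_half {x : ℝ} (h0 : 0 ≤ x) (h1 : x ≤ 1) {m : ℤ} (h : x = m + 1 / 2) : x = 1 / 2 := by
  have h2 : (-1 : ℝ) < m := by linarith
  have h3 : (m : ℝ) < 1 := by linarith
  have h4 : (-1 : ℤ) < m := by exact_mod_cast h2
  have h5 : m < 1 := by exact_mod_cast h3
  have h6 : m = 0 := by omega
  rw [h, h6]
  norm_num

theorem SymB_noint {x : ℝ} {k n : ℤ} (h0 : (k : ℝ) < x) (h1 : x < k + 1) (h : x = n) : False := by
  rw [h] at h0 h1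
  have h2 : k < n := by exact_mod_cast h0
  have h3 : n < k + 1 := by exact_mod_cast h1
  omega

theorem SymB_mid {τ : ℝ} (h : Real.smoothTransition τ = 1 / 2) : 0 < τ ∧ τ < 1 := by
  constructor
  · by_contra hc
    rw [Real.smoothTransition.zero_of_nonpos (not_lt.1 hc)] at h
    norm_num at h
  · by_contra hc
    rw [Real.smoothTransition.one_of_one_le (not_lt.1 hc)] at h
    norm_num at h

theorem SymB_segR {u u' : ℝ → ℝ × ℝ} {e : ℤ × ℤ} (h : SH u u' e) : ∃ M, IsSeg u' M e := by
  obtain ⟨M, H, -, -, h1, hs⟩ := h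
  refine ⟨M, ?_⟩
  rw [← h1]
  exact hs 1 zero_le_one le_rfl

theorem sh_sub (d : Bool × Bool) : SH (fun τ => shr (ltr d τ)) (pos (sub d)) (sumZ (sub d)) := by
  have hL : IsSeg (fun τ => shr (ltr d τ)) 1 (sumZ (sub d)) := by
    rw [sumZ_sub]
    exact shr_seg (ltr_seg d)
  have hR : IsSeg (pos (sub d)) (sub d).length (sumZ (sub d)) := pos_seg _
  rcases d with ⟨d1, d2⟩
  cases d1
  · cases d2
    · -- `y⁻¹`
      have hrep := sh_reparam (M := 2) hL (fun τ => τ - 1) (by fun_prop)
        (fun τ hτ => by linarith) (fun τ hτ => by linarith)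
      obtain ⟨M, hM⟩ := SymB_segR hrep
      refine sh_trans hrep (sh_linear hM hR ?_)
      rintro τ l hl hl' ⟨m, n, hmn⟩
      have e1 : pos (sub (false, false)) τ =
          (-Real.smoothTransition (τ - 1), -Real.smoothTransition τ + bump (τ - 1)) := by
        simp [sub, pos, ltr, sgn]
      have e2 : ((fun τ => shr (ltr (false, false) τ)) ∘ fun τ => τ - 1) τ =
          (-Real.smoothTransition (τ - 1), -Real.smoothTransition (τ - 1)) := by
        simp [ltr, sgn, shr]
      rw [e1, e2] at hmn
      have h1 : (1 - l) * (-Real.smoothTransition (τ - 1)) + l * (-Real.smoothTransition (τ - 1)) =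
          (m : ℝ) + 1 / 2 := congrArg Prod.fst hmn
      have h2 : (1 - l) * (-Real.smoothTransition (τ - 1)) +
          l * (-Real.smoothTransition τ + bump (τ - 1)) = (n : ℝ) := congrArg Prod.snd hmn
      have h3 : Real.smoothTransition (τ - 1) = ((-m - 1 : ℤ) : ℝ) + 1 / 2 := by
        push_cast
        linarith
      have h4 := SymB_half (Real.smoothTransition.nonneg _) (Real.smoothTransition.le_one _) h3
      obtain ⟨h5, h6⟩ := SymB_mid h4
      rw [h4, Real.smoothTransition.one_of_one_le (show 1 ≤ τ by linarith)] at h2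
      have h7 := bump_pos h5 h6
      have h8 := bump_le (τ - 1)
      refine SymB_noint (k := -1) (n := n) ?_ ?_ h2
      · push_cast
        rcases eq_or_lt_of_le hl' with h9 | h9
        · rw [h9]; linarith
        · nlinarith [mul_nonneg hl h7.le]
      · push_cast
        nlinarith
    · -- `y`
      refine sh_linear hL hR ?_
      rintro τ l hl hl' ⟨m, n, hmn⟩
      have e1 : pos (sub (false, true)) τ =
          (Real.smoothTransition τ, bump τ + Real.smoothTransition (τ - 1)) := by
        simp [sub, pos, ltr, sgn]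
      have e2 : shr (ltr (false, true) τ) =
          (Real.smoothTransition τ, Real.smoothTransition τ) := by
        simp [ltr, sgn, shr]
      rw [e1, e2] at hmn
      have h1 : (1 - l) * Real.smoothTransition τ + l * Real.smoothTransition τ =
          (m : ℝ) + 1 / 2 := congrArg Prod.fst hmn
      have h2 : (1 - l) * Real.smoothTransition τ + l * (bump τ + Real.smoothTransition (τ - 1)) =
          (n : ℝ) := congrArg Prod.snd hmn
      have h3 : Real.smoothTransition τ = (m : ℝ) + 1 / 2 := by linarith
      have h4 := SymB_half (Real.smoothTransition.nonneg _) (Real.smoothTransition.le_one _) h3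
      obtain ⟨h5, h6⟩ := SymB_mid h4
      rw [h4, Real.smoothTransition.zero_of_nonpos (show τ - 1 ≤ 0 by linarith), add_zero] at h2
      have h7 := bump_pos h5 h6
      have h8 := bump_le τ
      refine SymB_noint (k := 0) (n := n) ?_ ?_ h2
      · push_cast
        rcases eq_or_lt_of_le hl' with h9 | h9
        · rw [h9]; linarith
        · nlinarith [mul_nonneg hl h7.le]
      · push_cast
        nlinarith
  · -- `x`
    have hR' : IsSeg (pos (sub (true, d2))) 1 (sumZ (sub (true, d2))) := by
      simpa [sub] using hR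
    refine sh_linear hL hR' ?_
    rintro τ l hl hl' ⟨m, n, hmn⟩
    have e1 : pos (sub (true, d2)) τ = (sgn d2 * Real.smoothTransition τ, bump τ) := by
      simp [sub, pos, ltr]
    have e2 : shr (ltr (true, d2) τ) =
        (sgn d2 * Real.smoothTransition τ + bump τ, bump τ) := by
      simp [ltr, shr]
    rw [e1, e2] at hmn
    have h1 : (1 - l) * (sgn d2 * Real.smoothTransition τ + bump τ) +
        l * (sgn d2 * Real.smoothTransition τ) = (m : ℝ) + 1 / 2 := congrArg Prod.fst hmn
    have h2 : (1 - l) * bump τ + l * bump τ = (n : ℝ) := congrArg Prod.snd hmn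
    have h3 : bump τ = (n : ℝ) := by linarith
    have hend : bump τ = 0 := by
      by_contra hne
      have h4 : 0 < bump τ := lt_of_le_of_ne (bump_nonneg τ) (Ne.symm hne)
      have h5 := bump_le τ
      exact SymB_noint (k := 0) (n := n) (by push_cast; exact h4) (by push_cast; linarith) h3
    rw [hend, add_zero] at h1
    have h6 : (sgn d2 : ℝ) * Real.smoothTransition τ = (m : ℝ) + 1 / 2 := by linarith
    have hτ : τ ≤ 0 ∨ 1 ≤ τ := by
      by_contra hcon
      push Not at hcon
      exact absurd hend (bump_pos hcon.1 hcon.2).ne'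
    rcases hτ with hτ | hτ
    · rw [Real.smoothTransition.zero_of_nonpos hτ, mul_zero] at h6
      have h7 : (2 * m + 1 : ℝ) = 0 := by linarith
      have h8 : (2 * m + 1 : ℤ) = 0 := by exact_mod_cast h7
      omega
    · rw [Real.smoothTransition.one_of_one_le hτ, mul_one] at h6
      have h7 : (2 * sgn d2 : ℝ) = 2 * m + 1 := by linarith
      have h8 : (2 * sgn d2 : ℤ) = 2 * m + 1 := by exact_mod_cast h7
      omega

theorem SymB_sumZ (L : List (Bool × Bool)) :
    sumZ (L.flatMap sub) = ((sumZ L).1 + (sumZ L).2, (sumZ L).2) := by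
  induction L with
  | nil =>
    simp [sumZ]
    rfl
  | cons d L ih =>
    rw [List.flatMap_cons, sumZ_append, ih, sumZ_sub]
    refine Prod.ext ?_ ?_
    · simp only [sumZ, Prod.fst_add, Prod.snd_add]
      ring
    · simp only [sumZ, Prod.snd_add]

theorem SymB_shr_add (p q : ℝ × ℝ) : shr (p + q) = shr p + shr q := by
  refine Prod.ext ?_ ?_
  · simp only [shr, Prod.fst_add, Prod.snd_add]
    ring
  · simp only [shr, Prod.snd_add]

theorem sh_subL (L : List (Bool × Bool)) :
    SH (fun τ => shr (pos L τ)) (pos (L.flatMap sub)) (sumZ (L.flatMap sub)) := by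
  induction L with
  | nil =>
    have e1 : (fun τ => shr (pos [] τ)) = pos [] := by
      funext τ
      simp [pos, shr]
    rw [e1]
    exact sh_refl (pos_seg [])
  | cons d L ih =>
    have e1 : (fun τ => shr (pos (d :: L) τ)) =
        cat (fun τ => shr (ltr d τ)) 1 (fun τ => shr (pos L τ)) := by
      funext τ
      change shr (ltr d τ + pos L (τ - 1)) = shr (ltr d τ) + shr (pos L (τ - 1))
      exact SymB_shr_add _ _
    rw [e1, List.flatMap_cons, pos_append, sumZ_append]
    have h1 : IsSeg (fun τ => shr (ltr d τ)) 1 (sumZ (sub d)) := by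
      rw [sumZ_sub]
      exact shr_seg (ltr_seg d)
    have h2 : IsSeg (fun τ => shr (pos L τ)) L.length (sumZ (L.flatMap sub)) := by
      rw [SymB_sumZ]
      exact shr_seg (pos_seg L)
    exact sh_cat h1 (pos_seg (sub d)) h2 (pos_seg (L.flatMap sub)) (sh_sub d) ih

theorem SymB_mir_add (p q : ℝ × ℝ) : mir (p + q) = mir p + mir q := by
  refine Prod.ext ?_ ?_
  · simp only [mir, Prod.fst_add]
    ring
  · simp only [mir, Prod.snd_add]

theorem SymB_mir_ltr (d : Bool × Bool) (τ : ℝ) : mir (ltr d τ) = ltr (minv d) τ := by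
  rcases d with ⟨d1, d2⟩
  cases d1 <;> cases d2 <;> simp [mir, ltr, minv, sgn]

theorem mir_pos (L : List (Bool × Bool)) (τ : ℝ) : mir (pos L τ) = pos (L.map minv) τ := by
  induction L generalizing τ with
  | nil => simp [pos, mir]
  | cons d L ih =>
    change mir (ltr d τ + pos L (τ - 1)) = ltr (minv d) τ + pos (L.map minv) (τ - 1)
    rw [SymB_mir_add, SymB_mir_ltr, ih]

end Pool.Agent.PTH
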